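import Mathlib

set_option autoImplicit false

namespace Pool.Agent.Helper861.DHJ

open Finset

/-- real valued indicator of a proposition -/
noncomputable def ind (p : Prop) : ℝ := by classical exact if p then 1 else 0

lemma ind_true {p : Prop} (h : p) : ind p = 1 := by simp [ind, h]
lemma ind_false {p : Prop} (h : ¬ p) : ind p = 0 := by simp [ind, h]
lemma ind_nonneg (p : Prop) : 0 ≤ ind p := by
  by_cases h : p
  · rw [ind_true h]; norm_num
  · rw [ind_false h]
lemma ind_le_one (p : Prop) : ind p ≤ 1 := by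
  by_cases h : p
  · rw [ind_true h]
  · rw [ind_false h]; norm_num
lemma ind_mono {p q : Prop} (h : p → q) : ind p ≤ ind q := by
  by_cases hp : p
  · rw [ind_true hp, ind_true (h hp)]
  · rw [ind_false hp]; exact ind_nonneg q
lemma ind_congr {p q : Prop} (h : p ↔ q) : ind p = ind q := by
  rw [propext h]
lemma ind_not (p : Prop) : ind (¬ p) = 1 - ind p := by
  by_cases h : p
  · rw [ind_true h, ind_false (not_not.mpr h)]; norm_num
  · rw [ind_false h, ind_true h]; norm_num
lemma ind_mul_le {p : Prop} {x : ℝ} (h : x ≤ 1) : ind p * x ≤ 1 := by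
  by_cases hp : p
  · rw [ind_true hp]; linarith
  · rw [ind_false hp]; norm_num

/-- replace the letter `none` by the letter `a` -/
def coll {α ι : Type} (a : α) (t : ι → Option α) : ι → α := fun p => (t p).getD a

/-- `A` contains no combinatorial line -/
def LF {α ι : Type} (A : (ι → α) → Prop) : Prop :=
  ∀ t : ι → Option α, (∃ p, t p = none) → ∃ a, ¬ A (coll a t)

/-- number of points -/
noncomputable def cnt {X : Type} [Fintype X] (P : X → Prop) : ℝ := ∑ x, ind (P x)

lemma cnt_le_card {X : Type} [Fintype X] (P : X → Prop) : cnt P ≤ Fintype.card X := by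
  unfold cnt
  calc ∑ x, ind (P x) ≤ ∑ _x : X, (1:ℝ) := Finset.sum_le_sum (fun x _ => ind_le_one _)
    _ = Fintype.card X := by simp

lemma cnt_nonneg {X : Type} [Fintype X] (P : X → Prop) : 0 ≤ cnt P :=
  Finset.sum_nonneg (fun _ _ => ind_nonneg _)

/-- line free sets have density at most `c` -/
def Bd (α ι : Type) [Fintype α] [Fintype ι] [DecidableEq ι] (c : ℝ) : Prop :=
  ∀ A : (ι → α) → Prop, LF A → cnt A ≤ c * Fintype.card (ι → α)

/-- density Hales-Jewett for the alphabet `α` -/
def HasDHJ (α : Type) [Fintype α] : Prop := ∀ δ : ℝ, 0 < δ → ∃ n : ℕ, Bd α (Fin n) δ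

/-- point of a subspace -/
def spt {α ι η : Type} (V : ι → α ⊕ η) (x : η → α) : ι → α := fun p => Sum.elim id x (V p)

def Proper {α ι η : Type} (V : ι → α ⊕ η) : Prop := ∀ e, ∃ p, V p = Sum.inr e

lemma spt_inj {α ι η : Type} {V : ι → α ⊕ η} (h : Proper V) : Function.Injective (spt V) := by
  intro x y hxy
  funext e
  obtain ⟨p, hp⟩ := h e
  have := congrFun hxy p
  simpa [spt, hp] using this

/-- `A` contains no `l`-dimensional subspace -/
def MF {α ι : Type} (l : ℕ) (A : (ι → α) → Prop) : Prop :=
  ∀ V : ι → α ⊕ Fin l, Proper V → ∃ x, ¬ A (spt V x)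

def MDHJ (α : Type) [Fintype α] (l : ℕ) : Prop :=
  ∀ δ : ℝ, 0 < δ → ∃ n : ℕ, ∀ A : (Fin n → α) → Prop, MF l A →
    cnt A ≤ δ * Fintype.card (Fin n → α)

/-! ### transport along equivalences of index types -/

/-- pull back of words along an equivalence -/
def pull {α ι κ : Type} (e : ι ≃ κ) : (ι → α) ≃ (κ → α) where
  toFun x := fun k => x (e.symm k)
  invFun y := fun i => y (e i)
  left_inv x := by funext i; simp
  right_inv y := by funext k; simp

lemma coll_pull {α ι κ : Type} (e : ι ≃ κ) (a : α) (t : ι → Option α) :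
    coll a (pull e t) = pull e (coll a t) := rfl

lemma LF_pull {α ι κ : Type} (e : ι ≃ κ) {A : (κ → α) → Prop} (h : LF A) :
    LF (fun x : ι → α => A (pull e x)) := by
  intro t ⟨p, hp⟩
  obtain ⟨a, ha⟩ := h (pull e t) ⟨e p, by simp [pull, hp]⟩
  exact ⟨a, ha⟩

lemma Bd_congr {α ι κ : Type} [Fintype α] [Fintype ι] [Fintype κ] [DecidableEq ι] [DecidableEq κ]
    (e : ι ≃ κ) {c : ℝ} (h : Bd α ι c) : Bd α κ c := by
  intro A hA
  have h1 := h _ (LF_pull e hA)
  have h2 : cnt (fun x : ι → α => A (pull e x)) = cnt A := by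
    unfold cnt
    exact Equiv.sum_comp (pull e) (fun y : κ → α => ind (A y))
  have h3 : Fintype.card (ι → α) = Fintype.card (κ → α) := Fintype.card_congr (pull e)
  rw [h2, h3] at h1
  exact h1

lemma Bd_mono {α ι : Type} [Fintype α] [Fintype ι] [DecidableEq ι] {c c' : ℝ} (hc : c ≤ c')
    (h : Bd α ι c) : Bd α ι c' := by
  intro A hA
  refine (h A hA).trans ?_
  exact mul_le_mul_of_nonneg_right hc (by positivity)

/-- the sum over words on a disjoint union -/
lemma sum_sumArrow {β ι κ : Type} [Fintype β] [Fintype ι] [Fintype κ] [DecidableEq ι]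
    [DecidableEq κ] (f : (ι ⊕ κ → β) → ℝ) :
    ∑ x, f x = ∑ u : ι → β, ∑ v : κ → β, f (Sum.elim u v) := by
  rw [← Fintype.sum_prod_type']
  exact (Equiv.sum_comp (Equiv.sumArrowEquivProdArrow ι κ β).symm f).symm

lemma card_sumArrow {β ι κ : Type} [Fintype β] [Fintype ι] [Fintype κ] [DecidableEq ι]
    [DecidableEq κ] :
    (Fintype.card (ι ⊕ κ → β) : ℝ) = Fintype.card (ι → β) * Fintype.card (κ → β) := by
  rw [Fintype.card_congr (Equiv.sumArrowEquivProdArrow ι κ β), Fintype.card_prod]
  push_cast
  ring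


lemma MF_pull {α ι κ : Type} (e : ι ≃ κ) {l : ℕ} {A : (κ → α) → Prop} (h : MF l A) :
    MF l (fun x : ι → α => A (pull e x)) := by
  intro V hV
  obtain ⟨x, hx⟩ := h (fun k => V (e.symm k)) (by
    intro f
    obtain ⟨p, hp⟩ := hV f
    exact ⟨e p, by simp [hp]⟩)
  exact ⟨x, hx⟩

/-- joining an `l`-dimensional subspace and a line -/
def join {α ι κ : Type} {l : ℕ} (V : ι → α ⊕ Fin l) (t : κ → Option α) :
    ι ⊕ κ → α ⊕ Fin (l + 1) :=
  Sum.elim (fun p => (V p).map id Fin.castSucc)
    (fun q => match t q with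
      | none => Sum.inr (Fin.last l)
      | some a => Sum.inl a)

lemma join_proper {α ι κ : Type} {l : ℕ} {V : ι → α ⊕ Fin l} {t : κ → Option α}
    (hV : Proper V) (ht : ∃ p, t p = none) : Proper (join V t) := by
  intro e
  refine Fin.lastCases ?_ (fun f => ?_) e
  · obtain ⟨q, hq⟩ := ht
    exact ⟨Sum.inr q, by simp [join, hq]⟩
  · obtain ⟨p, hp⟩ := hV f
    exact ⟨Sum.inl p, by simp [join, hp]⟩

lemma spt_join {α ι κ : Type} {l : ℕ} (V : ι → α ⊕ Fin l) (t : κ → Option α)
    (x : Fin (l + 1) → α) :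
    spt (join V t) x = Sum.elim (spt V (fun i => x i.castSucc)) (coll (x (Fin.last l)) t) := by
  funext p
  rcases p with p | q
  · simp only [spt, join, Sum.elim_inl]
    rcases V p with a | e <;> simp
  · simp only [spt, join, Sum.elim_inr, coll]
    cases t q <;> simp

theorem mdhj {α : Type} [Fintype α] (h : HasDHJ α) : ∀ l, MDHJ α l := by
  intro l
  induction l with
  | zero =>
    intro δ hδ
    refine ⟨0, fun A hA => ?_⟩
    have h0 : ∀ x, ¬ A x := by
      intro x hx
      obtain ⟨y, hy⟩ := hA (fun p => Sum.inl (x p)) (fun e => e.elim0)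
      exact hy hx
    have : cnt A = 0 := by
      unfold cnt
      exact Finset.sum_eq_zero (fun x _ => ind_false (h0 x))
    rw [this]
    positivity
  | succ l ih =>
    intro δ hδ
    obtain ⟨n2, h2⟩ := h (δ / 2) (by positivity)
    set K : ℝ := ((Fintype.card (Fin n2 → Option α) : ℕ) : ℝ) with hK
    have hKpos : 0 < K := by
      rw [hK]
      have : 0 < Fintype.card (Fin n2 → Option α) := Fintype.card_pos
      exact_mod_cast this
    obtain ⟨n1, h1⟩ := ih (δ / (2 * K)) (by positivity)
    refine ⟨n1 + n2, fun A hA => ?_⟩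
    have hA' := MF_pull (α := α) finSumFinEquiv hA
    set B : (Fin n1 ⊕ Fin n2 → α) → Prop := fun x => A (pull finSumFinEquiv x) with hB
    have hcnt : cnt B = cnt A := by
      unfold cnt
      exact Equiv.sum_comp (pull finSumFinEquiv) (fun y => ind (A y))
    have hcard : (Fintype.card (Fin (n1 + n2) → α) : ℝ)
        = Fintype.card (Fin n1 → α) * Fintype.card (Fin n2 → α) := by
      rw [← card_sumArrow]
      exact_mod_cast (Fintype.card_congr (pull (α := α) finSumFinEquiv)).symm
    rw [← hcnt, hcard]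
    set N1 : ℝ := ((Fintype.card (Fin n1 → α) : ℕ) : ℝ) with hN1
    set N2 : ℝ := ((Fintype.card (Fin n2 → α) : ℕ) : ℝ) with hN2
    -- lines common to many sections
    have hline : ∀ t : Fin n2 → Option α, (∃ p, t p = none) →
        cnt (fun x : Fin n1 → α => ∀ a, B (Sum.elim x (coll a t))) ≤ δ / (2 * K) * N1 := by
      intro t ht
      refine h1 _ ?_
      intro V hV
      obtain ⟨x, hx⟩ := hA' (join V t) (join_proper hV ht)
      refine ⟨fun i => x i.castSucc, fun hall => hx ?_⟩
      rw [spt_join]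
      exact hall _
    have hsec : ∀ x : Fin n1 → α, ∑ y : Fin n2 → α, ind (B (Sum.elim x y)) ≤
        δ / 2 * N2 + N2 * ∑ t : Fin n2 → Option α,
          ind ((∃ p, t p = none) ∧ ∀ a, B (Sum.elim x (coll a t))) := by
      intro x
      by_cases hx : LF (fun y : Fin n2 → α => B (Sum.elim x y))
      · have := h2 _ hx
        have h3 : 0 ≤ N2 * ∑ t : Fin n2 → Option α,
          ind ((∃ p, t p = none) ∧ ∀ a, B (Sum.elim x (coll a t))) :=
          mul_nonneg (by positivity) (Finset.sum_nonneg (fun _ _ => ind_nonneg _))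
        unfold cnt at this
        linarith
      · unfold LF at hx
        push Not at hx
        obtain ⟨t, ht, hall⟩ := hx
        have h3 : (1:ℝ) ≤ ∑ t : Fin n2 → Option α,
            ind ((∃ p, t p = none) ∧ ∀ a, B (Sum.elim x (coll a t))) := by
          rw [← ind_true (⟨ht, hall⟩ : (∃ p, t p = none) ∧ ∀ a, B (Sum.elim x (coll a t)))]
          exact Finset.single_le_sum (f := fun t : Fin n2 → Option α =>
            ind ((∃ p, t p = none) ∧ ∀ a, B (Sum.elim x (coll a t))))
            (fun _ _ => ind_nonneg _) (Finset.mem_univ t)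
        have h4 : ∑ y : Fin n2 → α, ind (B (Sum.elim x y)) ≤ N2 :=
          cnt_le_card (fun y : Fin n2 → α => B (Sum.elim x y))
        have h5 : 0 ≤ δ / 2 * N2 := by positivity
        have h6 : N2 * 1 ≤ N2 * ∑ t : Fin n2 → Option α,
          ind ((∃ p, t p = none) ∧ ∀ a, B (Sum.elim x (coll a t))) :=
          mul_le_mul_of_nonneg_left h3 (by positivity)
        linarith
    have htot : cnt B ≤ ∑ x : Fin n1 → α, (δ / 2 * N2 + N2 * ∑ t : Fin n2 → Option α,
          ind ((∃ p, t p = none) ∧ ∀ a, B (Sum.elim x (coll a t)))) := by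
      unfold cnt
      rw [sum_sumArrow]
      exact Finset.sum_le_sum (fun x _ => hsec x)
    have hsum : ∑ x : Fin n1 → α, (δ / 2 * N2 + N2 * ∑ t : Fin n2 → Option α,
          ind ((∃ p, t p = none) ∧ ∀ a, B (Sum.elim x (coll a t)))) ≤
          N1 * (δ / 2 * N2) + N2 * (K * (δ / (2 * K) * N1)) := by
      have e1 : ∑ _x : Fin n1 → α, δ / 2 * N2 = N1 * (δ / 2 * N2) := by
        simp [hN1]
      have e0 : ∑ x : Fin n1 → α, N2 * ∑ t : Fin n2 → Option α,
          ind ((∃ p, t p = none) ∧ ∀ a, B (Sum.elim x (coll a t))) =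
          N2 * ∑ t : Fin n2 → Option α, ∑ x : Fin n1 → α,
          ind ((∃ p, t p = none) ∧ ∀ a, B (Sum.elim x (coll a t))) := by
        rw [← Finset.mul_sum, Finset.sum_comm]
      rw [Finset.sum_add_distrib, e1, e0]
      have e2 : ∑ t : Fin n2 → Option α, ∑ x : Fin n1 → α,
          ind ((∃ p, t p = none) ∧ ∀ a, B (Sum.elim x (coll a t))) ≤
          ∑ _t : Fin n2 → Option α, δ / (2 * K) * N1 := by
        refine Finset.sum_le_sum (fun t _ => ?_)
        by_cases ht : ∃ p, t p = none
        · refine le_trans ?_ (hline t ht)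
          exact Finset.sum_le_sum (fun x _ => ind_mono (fun h => h.2))
        · rw [Finset.sum_eq_zero (fun x _ => ind_false (fun h => ht h.1))]
          positivity
      have e3 : ∑ _t : Fin n2 → Option α, δ / (2 * K) * N1 = K * (δ / (2 * K) * N1) := by
        simp [hK]
      rw [e3] at e2
      have := mul_le_mul_of_nonneg_left e2 (show (0:ℝ) ≤ N2 by positivity)
      linarith
    have hfin : N1 * (δ / 2 * N2) + N2 * (K * (δ / (2 * K) * N1)) = δ * (N1 * N2) := by
      field_simp
      ring
    linarith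


/-! ### insensitive sets -/

/-- `g ≤ 1` with average at most `-lam` on every `l`-dimensional subspace -/
def Valid {α ι : Type} [Fintype α] (l : ℕ) (lam : ℝ) (g : (ι → Option α) → ℝ) : Prop :=
  (∀ x, g x ≤ 1) ∧ ∀ V : ι → Option α ⊕ Fin l, Proper V →
    ∑ v : Fin l → Option α, g (spt V v) ≤ -lam * Fintype.card (Fin l → Option α)

def TB {α : Type} [Fintype α] (i : α) (l : ℕ) (lam : ℝ) (ι : Type) [Fintype ι] [DecidableEq ι]
    (c : ℝ) : Prop :=
  ∀ (F : (ι → α) → Prop) (g : (ι → Option α) → ℝ), Valid l lam g →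
    ∑ x : ι → Option α, ind (F (coll i x)) * g x ≤ c * Fintype.card (ι → Option α)

lemma TB_mono {α : Type} [Fintype α] {i : α} {l : ℕ} {lam : ℝ} {ι : Type} [Fintype ι]
    [DecidableEq ι] {c c' : ℝ} (hc : c ≤ c') (h : TB i l lam ι c) : TB i l lam ι c' := by
  intro F g hg
  refine (h F g hg).trans ?_
  exact mul_le_mul_of_nonneg_right hc (by positivity)

lemma Valid_pull {α ι κ : Type} [Fintype α] (e : ι ≃ κ) {l : ℕ} {lam : ℝ}
    {g : (κ → Option α) → ℝ} (h : Valid l lam g) :
    Valid l lam (fun x : ι → Option α => g (pull e x)) := by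
  refine ⟨fun x => h.1 _, fun V hV => ?_⟩
  have := h.2 (fun k => V (e.symm k)) (by
    intro f
    obtain ⟨p, hp⟩ := hV f
    exact ⟨e p, by simp [hp]⟩)
  exact this

lemma TB_congr {α ι κ : Type} [Fintype α] [Fintype ι] [Fintype κ] [DecidableEq ι]
    [DecidableEq κ] {i : α} {l : ℕ} {lam : ℝ} (e : ι ≃ κ) {c : ℝ} (h : TB i l lam ι c) :
    TB i l lam κ c := by
  intro F g hg
  have h1 := h (fun x => F (pull e x)) _ (Valid_pull e hg)
  have h2 : ∑ x : ι → Option α, ind (F (pull e (coll i x))) * g (pull e x)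
      = ∑ x : κ → Option α, ind (F (coll i x)) * g x :=
    Equiv.sum_comp (pull e) (fun y : κ → Option α => ind (F (coll i y)) * g y)
  have h3 : Fintype.card (ι → Option α) = Fintype.card (κ → Option α) :=
    Fintype.card_congr (pull e)
  rw [h2, h3] at h1
  exact h1

lemma Valid_left {α ι κ : Type} [Fintype α] {l : ℕ} {lam : ℝ}
    {g : (ι ⊕ κ → Option α) → ℝ} (h : Valid l lam g) (w : ι → Option α) :
    Valid l lam (fun y : κ → Option α => g (Sum.elim w y)) := by
  refine ⟨fun x => h.1 _, fun V hV => ?_⟩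
  have := h.2 (Sum.elim (fun p => Sum.inl (w p)) V) (by
    intro f
    obtain ⟨p, hp⟩ := hV f
    exact ⟨Sum.inr p, by simp [hp]⟩)
  refine le_trans (le_of_eq ?_) this
  refine Finset.sum_congr rfl (fun v _ => ?_)
  show g (Sum.elim w (spt V v)) = _
  congr 1
  funext p
  rcases p with p | q <;> simp [spt]

lemma Valid_right_sum {α ι κ : Type} [Fintype α] {l : ℕ} {lam : ℝ}
    {g : (ι ⊕ κ → Option α) → ℝ} (h : Valid l lam g) (y : κ → Option α)
    {V : ι → Option α ⊕ Fin l} (hV : Proper V) :
    ∑ v : Fin l → Option α, g (Sum.elim (spt V v) y)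
      ≤ -lam * Fintype.card (Fin l → Option α) := by
  have := h.2 (Sum.elim V (fun p => Sum.inl (y p))) (by
    intro f
    obtain ⟨p, hp⟩ := hV f
    exact ⟨Sum.inl p, by simp [hp]⟩)
  refine le_trans (le_of_eq ?_) this
  refine Finset.sum_congr rfl (fun v _ => ?_)
  congr 1
  funext p
  rcases p with p | q <;> simp [spt]

lemma coll_elim {α ι κ : Type} (i : α) (w : ι → Option α) (y : κ → Option α) :
    coll i (Sum.elim w y) = Sum.elim (coll i w) (coll i y) := by
  funext p
  rcases p with p | q <;> rfl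

/-- extension of a subspace over `α` to a subspace over `Option α` -/
def lift {α ι : Type} {l : ℕ} (V : ι → α ⊕ Fin l) : ι → Option α ⊕ Fin l :=
  fun p => (V p).map some id

lemma lift_proper {α ι : Type} {l : ℕ} {V : ι → α ⊕ Fin l} (h : Proper V) :
    Proper (lift V) := by
  intro e
  obtain ⟨p, hp⟩ := h e
  exact ⟨p, by simp [lift, hp]⟩

lemma coll_spt_lift {α ι : Type} {l : ℕ} (i : α) (V : ι → α ⊕ Fin l)
    (v : Fin l → Option α) : coll i (spt (lift V) v) = spt V (coll i v) := by
  funext p
  simp only [coll, spt, lift]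
  rcases V p with a | e <;> rfl

/-- insensitive sets: a valid function has small sum on them -/
theorem tile1 {α : Type} [Fintype α] (i : α) (l : ℕ) (hM : MDHJ α l) {lam b : ℝ}
    (hlam : 0 < lam) (hb : 0 < b) : ∃ n : ℕ, TB i l lam (Fin n) b := by
  by_contra hcon
  push Not at hcon
  set S : Set ℝ := {c : ℝ | 0 ≤ c ∧ ∃ n : ℕ, TB i l lam (Fin n) c} with hS
  have hSne : S.Nonempty := by
    refine ⟨1, by norm_num, 0, fun F g hg => ?_⟩
    calc ∑ x : Fin 0 → Option α, ind (F (coll i x)) * g x
        ≤ ∑ _x : Fin 0 → Option α, (1:ℝ) :=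
          Finset.sum_le_sum (fun x _ => ind_mul_le (hg.1 x))
      _ = 1 * Fintype.card (Fin 0 → Option α) := by simp
  have hSb : BddBelow S := ⟨0, fun c hc => hc.1⟩
  set s := sInf S with hs
  have hbs : b ≤ s := by
    refine le_csInf hSne (fun c hc => ?_)
    obtain ⟨_, n, hn⟩ := hc
    by_contra hlt
    exact hcon n (TB_mono (not_le.mp hlt).le hn)
  have hs0 : 0 < s := lt_of_lt_of_le hb hbs
  obtain ⟨n1, h1⟩ := hM (s / 4) (by positivity)
  set P : ℝ := ((Fintype.card (Fin n1 → Option α) : ℕ) : ℝ) with hP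
  set K : ℝ := ((Fintype.card (Fin n1 → α ⊕ Fin l) : ℕ) : ℝ) with hK
  set L : ℝ := ((Fintype.card (Fin l → Option α) : ℕ) : ℝ) with hL
  set R : ℝ := ((Fintype.card (Fin n1 → α) : ℕ) : ℝ) with hR
  have : Nonempty α := ⟨i⟩
  have hP1 : 1 ≤ P := by
    rw [hP]; exact_mod_cast (Fintype.card_pos : 0 < Fintype.card (Fin n1 → Option α))
  have hK1 : 1 ≤ K := by
    rw [hK]; exact_mod_cast (Fintype.card_pos : 0 < Fintype.card (Fin n1 → α ⊕ Fin l))
  have hL1 : 1 ≤ L := by
    rw [hL]; exact_mod_cast (Fintype.card_pos : 0 < Fintype.card (Fin l → Option α))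
  have hR1 : 1 ≤ R := by
    rw [hR]; exact_mod_cast (Fintype.card_pos : 0 < Fintype.card (Fin n1 → α))
  have hP0 : 0 < P := by linarith
  have hK0 : 0 < K := by linarith
  have hL0 : 0 < L := by linarith
  have hR0 : 0 < R := by linarith
  set gain : ℝ := lam * L * (s / 4 / K) with hgain
  have hgain0 : 0 < gain := by positivity
  set ε : ℝ := min (s / (8 * P)) (gain / (4 * P)) with hε
  have hε0 : 0 < ε := by
    rw [hε]
    exact lt_min (by positivity) (by positivity)
  have hε1 : 8 * P * ε ≤ s := by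
    have : ε ≤ s / (8 * P) := min_le_left _ _
    rw [le_div_iff₀ (by positivity)] at this
    linarith
  have hε2 : 4 * P * ε ≤ gain := by
    have : ε ≤ gain / (4 * P) := min_le_right _ _
    rw [le_div_iff₀ (by positivity)] at this
    linarith
  have hε3 : ε ≤ s / 8 := by
    have h9 : 1 * ε ≤ P * ε := mul_le_mul_of_nonneg_right hP1 hε0.le
    linarith
  obtain ⟨c2, ⟨_, n2, hn2⟩, hc2⟩ := exists_lt_of_csInf_lt hSne (show sInf S < s + ε by linarith)
  have hTB : TB i l lam (Fin n2) (s + ε) := TB_mono hc2.le hn2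
  have hnot : ¬ TB i l lam (Fin n1 ⊕ Fin n2) (s - ε) := by
    intro hTB'
    have hmem : s - ε ∈ S := ⟨by linarith, n1 + n2, TB_congr finSumFinEquiv hTB'⟩
    have := csInf_le hSb hmem
    linarith
  unfold TB at hnot
  push Not at hnot
  obtain ⟨F, g, hg, hbig⟩ := hnot
  rw [card_sumArrow] at hbig
  set Q : ℝ := ((Fintype.card (Fin n2 → Option α) : ℕ) : ℝ) with hQ
  have hQ1 : 1 ≤ Q := by
    rw [hQ]; exact_mod_cast (Fintype.card_pos : 0 < Fintype.card (Fin n2 → Option α))
  have hQ0 : 0 < Q := by linarith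
  rw [sum_sumArrow] at hbig
  set Sw : (Fin n1 → Option α) → ℝ := fun w => ∑ y : Fin n2 → Option α,
    ind (F (coll i (Sum.elim w y))) * g (Sum.elim w y) with hSw
  have hbig' : (s - ε) * (P * Q) < ∑ w, Sw w := hbig
  have hup : ∀ w, Sw w ≤ (s + ε) * Q := by
    intro w
    have := hTB (fun y' => F (Sum.elim (coll i w) y')) (fun y => g (Sum.elim w y))
      (Valid_left hg w)
    simp only [hSw]
    refine le_trans (le_of_eq ?_) this
    refine Finset.sum_congr rfl (fun y _ => ?_)
    rw [coll_elim]
  have hlow : ∀ w, s / 2 * Q ≤ Sw w := by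
    classical
    intro w
    have hsplit : ∑ w', Sw w' = Sw w + ∑ w' ∈ Finset.univ.erase w, Sw w' :=
      (Finset.add_sum_erase _ _ (Finset.mem_univ w)).symm
    have hrest : ∑ w' ∈ Finset.univ.erase w, Sw w' ≤ (P - 1) * ((s + ε) * Q) := by
      calc ∑ w' ∈ Finset.univ.erase w, Sw w'
          ≤ ∑ _w' ∈ Finset.univ.erase w, (s + ε) * Q :=
            Finset.sum_le_sum (fun w' _ => hup w')
        _ = (P - 1) * ((s + ε) * Q) := by
            rw [Finset.sum_const, Finset.card_erase_of_mem (Finset.mem_univ w),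
              nsmul_eq_mul, Finset.card_univ,
              Nat.cast_sub (show 1 ≤ Fintype.card (Fin n1 → Option α) from Fintype.card_pos),
              Nat.cast_one, ← hP]
    have : (s - ε) * (P * Q) - (P - 1) * ((s + ε) * Q) ≤ Sw w := by linarith
    have h2 : (s - ε) * (P * Q) - (P - 1) * ((s + ε) * Q) = (s - (2 * P - 1) * ε) * Q := by ring
    have h3 : s / 2 ≤ s - (2 * P - 1) * ε := by
      have h9 : 0 < P * ε := by positivity
      have h10 : (2 * P - 1) * ε = 2 * (P * ε) - ε := by ring
      rw [h10]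
      linarith
    have h4 : s / 2 * Q ≤ (s - (2 * P - 1) * ε) * Q :=
      mul_le_mul_of_nonneg_right h3 hQ0.le
    linarith
  -- many points in the sections over words without the special letter
  have hFsec : ∀ w' : Fin n1 → α, s / 2 * Q ≤
      ∑ y : Fin n2 → Option α, ind (F (Sum.elim w' (coll i y))) := by
    intro w'
    refine (hlow (fun p => some (w' p))).trans ?_
    simp only [hSw]
    refine Finset.sum_le_sum (fun y _ => ?_)
    rw [coll_elim]
    have hw : coll i (fun p => some (w' p)) = w' := rfl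
    rw [hw]
    by_cases hF : F (Sum.elim w' (coll i y))
    · rw [ind_true hF]
      have := hg.1 (Sum.elim (fun p => some (w' p)) y)
      linarith
    · rw [ind_false hF]; simp
  have hdouble : s / 2 * Q * R ≤ ∑ y : Fin n2 → Option α, ∑ w' : Fin n1 → α,
      ind (F (Sum.elim w' (coll i y))) := by
    rw [Finset.sum_comm]
    calc s / 2 * Q * R = ∑ _w' : Fin n1 → α, s / 2 * Q := by
          rw [Finset.sum_const, nsmul_eq_mul]; simp [hR]; ring
      _ ≤ _ := Finset.sum_le_sum (fun w' _ => hFsec w')
  -- the sets of y whose section contains a given subspace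
  set Y : (Fin n1 → α ⊕ Fin l) → (Fin n2 → Option α) → Prop :=
    fun V y => ∀ x, F (Sum.elim (spt V x) (coll i y)) with hY
  have hyb : ∀ y : Fin n2 → Option α, ∑ w' : Fin n1 → α, ind (F (Sum.elim w' (coll i y))) ≤
      s / 4 * R + R * ∑ V : Fin n1 → α ⊕ Fin l, ind (Proper V ∧ Y V y) := by
    intro y
    by_cases hy : MF l (fun w' : Fin n1 → α => F (Sum.elim w' (coll i y)))
    · have := h1 _ hy
      have h3 : 0 ≤ R * ∑ V : Fin n1 → α ⊕ Fin l, ind (Proper V ∧ Y V y) :=
        mul_nonneg (by positivity) (Finset.sum_nonneg (fun _ _ => ind_nonneg _))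
      unfold cnt at this
      linarith
    · unfold MF at hy
      push Not at hy
      obtain ⟨V, hV, hall⟩ := hy
      have h3 : (1:ℝ) ≤ ∑ V : Fin n1 → α ⊕ Fin l, ind (Proper V ∧ Y V y) := by
        rw [← ind_true (⟨hV, hall⟩ : Proper V ∧ Y V y)]
        exact Finset.single_le_sum (f := fun V : Fin n1 → α ⊕ Fin l => ind (Proper V ∧ Y V y))
          (fun _ _ => ind_nonneg _) (Finset.mem_univ V)
      have h4 : ∑ w' : Fin n1 → α, ind (F (Sum.elim w' (coll i y))) ≤ R :=
        cnt_le_card (fun w' : Fin n1 → α => F (Sum.elim w' (coll i y)))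
      have h6 : R * 1 ≤ R * ∑ V : Fin n1 → α ⊕ Fin l, ind (Proper V ∧ Y V y) :=
        mul_le_mul_of_nonneg_left h3 (by positivity)
      have h5 : 0 ≤ s / 4 * R := by positivity
      linarith
  have hVsum : s / 4 * Q ≤ ∑ V : Fin n1 → α ⊕ Fin l, ∑ y : Fin n2 → Option α,
      ind (Proper V ∧ Y V y) := by
    have h2 : s / 2 * Q * R ≤ ∑ y : Fin n2 → Option α, (s / 4 * R + R *
        ∑ V : Fin n1 → α ⊕ Fin l, ind (Proper V ∧ Y V y)) :=
      hdouble.trans (Finset.sum_le_sum (fun y _ => hyb y))
    have h3 : ∑ _y : Fin n2 → Option α, s / 4 * R = Q * (s / 4 * R) := by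
      rw [Finset.sum_const, nsmul_eq_mul]; simp [hQ]
    have h3' : ∑ y : Fin n2 → Option α, R *
        ∑ V : Fin n1 → α ⊕ Fin l, ind (Proper V ∧ Y V y) =
        R * ∑ V : Fin n1 → α ⊕ Fin l, ∑ y : Fin n2 → Option α, ind (Proper V ∧ Y V y) := by
      rw [← Finset.mul_sum, Finset.sum_comm]
    rw [Finset.sum_add_distrib, h3, h3'] at h2
    have h4 : R * (s / 4 * Q) ≤ R * ∑ V : Fin n1 → α ⊕ Fin l, ∑ y : Fin n2 → Option α,
      ind (Proper V ∧ Y V y) := by
      have h5 : s / 2 * Q * R - Q * (s / 4 * R) = R * (s / 4 * Q) := by ring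
      linarith
    exact le_of_mul_le_mul_left h4 hR0
  obtain ⟨V, hV⟩ : ∃ V : Fin n1 → α ⊕ Fin l, s / 4 / K * Q ≤
      ∑ y : Fin n2 → Option α, ind (Proper V ∧ Y V y) := by
    by_contra hc
    push Not at hc
    have : ∑ V : Fin n1 → α ⊕ Fin l, ∑ y : Fin n2 → Option α, ind (Proper V ∧ Y V y) <
        ∑ _V : Fin n1 → α ⊕ Fin l, s / 4 / K * Q :=
      Finset.sum_lt_sum_of_nonempty Finset.univ_nonempty (fun V _ => hc V)
    have h2 : ∑ _V : Fin n1 → α ⊕ Fin l, s / 4 / K * Q = s / 4 * Q := by
      rw [Finset.sum_const, nsmul_eq_mul]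
      rw [Finset.card_univ, ← hK]
      field_simp
    linarith
  have hVp : Proper V := by
    by_contra hnp
    have : ∑ y : Fin n2 → Option α, ind (Proper V ∧ Y V y) = 0 :=
      Finset.sum_eq_zero (fun y _ => ind_false (fun h => hnp h.1))
    rw [this] at hV
    have : 0 < s / 4 / K * Q := by positivity
    linarith
  have hYV : s / 4 / K * Q ≤ ∑ y : Fin n2 → Option α, ind (Y V y) := by
    refine hV.trans (Finset.sum_le_sum (fun y _ => ind_mono (fun h => h.2)))
  -- split off the product of the subspace and the set Y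
  set im : (Fin n1 → Option α) → Prop := fun w => ∃ v, spt (lift V) v = w with him
  have hsplit : ∀ w y, ind (F (coll i (Sum.elim w y))) * g (Sum.elim w y) =
      ind (F (coll i (Sum.elim w y)) ∧ ¬ (im w ∧ Y V y)) * g (Sum.elim w y) +
      ind (im w) * (ind (Y V y) * g (Sum.elim w y)) := by
    intro w y
    by_cases h1 : im w
    · by_cases h2 : Y V y
      · have hF : F (coll i (Sum.elim w y)) := by
          obtain ⟨v, rfl⟩ := h1
          rw [coll_elim, coll_spt_lift]
          exact h2 _
        rw [ind_true hF, ind_true h1, ind_true h2,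
          ind_false (fun h => h.2 ⟨h1, h2⟩)]
        ring
      · rw [ind_false h2, ind_congr (show (F (coll i (Sum.elim w y)) ∧ ¬ (im w ∧ Y V y)) ↔
          F (coll i (Sum.elim w y)) from ⟨fun h => h.1, fun h => ⟨h, fun h3 => h2 h3.2⟩⟩)]
        ring
    · rw [ind_false h1, ind_congr (show (F (coll i (Sum.elim w y)) ∧ ¬ (im w ∧ Y V y)) ↔
          F (coll i (Sum.elim w y)) from ⟨fun h => h.1, fun h => ⟨h, fun h3 => h1 h3.1⟩⟩)]
      ring
  have htot : ∑ w, Sw w = (∑ w, ∑ y, ind (F (coll i (Sum.elim w y)) ∧ ¬ (im w ∧ Y V y)) *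
      g (Sum.elim w y)) + ∑ w, ind (im w) * ∑ y, ind (Y V y) * g (Sum.elim w y) := by
    simp only [hSw]
    rw [← Finset.sum_add_distrib]
    refine Finset.sum_congr rfl (fun w _ => ?_)
    rw [Finset.mul_sum, ← Finset.sum_add_distrib]
    exact Finset.sum_congr rfl (fun y _ => hsplit w y)
  have hfirst : (∑ w, ∑ y, ind (F (coll i (Sum.elim w y)) ∧ ¬ (im w ∧ Y V y)) *
      g (Sum.elim w y)) ≤ (s + ε) * (P * Q) := by
    calc (∑ w, ∑ y, ind (F (coll i (Sum.elim w y)) ∧ ¬ (im w ∧ Y V y)) * g (Sum.elim w y))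
        ≤ ∑ _w : Fin n1 → Option α, (s + ε) * Q := by
          refine Finset.sum_le_sum (fun w _ => ?_)
          have := hTB (fun y' => F (Sum.elim (coll i w) y') ∧
            ¬ (im w ∧ ∀ x, F (Sum.elim (spt V x) y'))) (fun y => g (Sum.elim w y))
            (Valid_left hg w)
          refine le_trans (le_of_eq ?_) this
          refine Finset.sum_congr rfl (fun y _ => ?_)
          rw [coll_elim]
      _ = (s + ε) * (P * Q) := by
          rw [Finset.sum_const, nsmul_eq_mul, Finset.card_univ, ← hP]; ring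
  have hsecond : ∑ w, ind (im w) * ∑ y, ind (Y V y) * g (Sum.elim w y) ≤ - gain * Q := by
    have hinj : Function.Injective (spt (lift V)) := spt_inj (lift_proper hVp)
    have e1 : ∑ w, ind (im w) * ∑ y, ind (Y V y) * g (Sum.elim w y) =
        ∑ v : Fin l → Option α, ∑ y, ind (Y V y) * g (Sum.elim (spt (lift V) v) y) := by
      classical
      rw [← Finset.sum_image (s := (Finset.univ : Finset (Fin l → Option α)))
        (g := spt (lift V))
        (f := fun w => ∑ y, ind (Y V y) * g (Sum.elim w y)) (fun a _ b _ h => hinj h)]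
      have hsub : ∑ w, ind (im w) * ∑ y, ind (Y V y) * g (Sum.elim w y) =
          ∑ w ∈ Finset.univ.image (spt (lift V)),
            ind (im w) * ∑ y, ind (Y V y) * g (Sum.elim w y) := by
        refine (Finset.sum_subset (Finset.subset_univ _) (fun w _ hw => ?_)).symm
        rw [ind_false (fun h => hw (by
          obtain ⟨v, hv⟩ := h
          exact Finset.mem_image.mpr ⟨v, Finset.mem_univ _, hv⟩)), zero_mul]
      rw [hsub]
      refine Finset.sum_congr rfl (fun w hw => ?_)
      rw [ind_true (by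
        obtain ⟨v, _, hv⟩ := Finset.mem_image.mp hw
        exact ⟨v, hv⟩), one_mul]
    rw [e1, Finset.sum_comm]
    have e2 : ∀ y : Fin n2 → Option α, ∑ v : Fin l → Option α,
        ind (Y V y) * g (Sum.elim (spt (lift V) v) y) ≤ ind (Y V y) * (-lam * L) := by
      intro y
      rw [← Finset.mul_sum]
      exact mul_le_mul_of_nonneg_left (Valid_right_sum hg y (lift_proper hVp)) (ind_nonneg _)
    calc ∑ y : Fin n2 → Option α, ∑ v : Fin l → Option α,
        ind (Y V y) * g (Sum.elim (spt (lift V) v) y)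
        ≤ ∑ y : Fin n2 → Option α, ind (Y V y) * (-lam * L) :=
          Finset.sum_le_sum (fun y _ => e2 y)
      _ = -(lam * L) * ∑ y : Fin n2 → Option α, ind (Y V y) := by
          rw [← Finset.sum_mul]; ring
      _ ≤ -(lam * L) * (s / 4 / K * Q) := by
          have h9 : 0 < lam * L := by positivity
          exact mul_le_mul_of_nonpos_left hYV (by linarith)
      _ = - gain * Q := by rw [hgain]; ring
  have hfinal : (s - ε) * (P * Q) < (s + ε) * (P * Q) - gain * Q := by
    have := htot
    linarith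
  have h7 : gain * Q < 2 * ε * (P * Q) := by linarith
  have h8 : 2 * ε * (P * Q) ≤ gain * Q := by
    have h9 : 0 < P * ε := by positivity
    have h10 : 2 * ε * P ≤ gain := by linarith
    have h11 : 2 * ε * P * Q ≤ gain * Q := mul_le_mul_of_nonneg_right h10 hQ0.le
    linarith
  linarith


/-! ### intersections of insensitive sets -/

/-- the same bound for intersections over a finset of letters -/
def TBs {α : Type} [Fintype α] (s : Finset α) (l : ℕ) (lam : ℝ) (ι : Type) [Fintype ι]
    [DecidableEq ι] (c : ℝ) : Prop :=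
  ∀ (F : α → (ι → α) → Prop) (g : (ι → Option α) → ℝ), Valid l lam g →
    ∑ x : ι → Option α, ind (∀ i ∈ s, F i (coll i x)) * g x ≤ c * Fintype.card (ι → Option α)

/-- composition of subspaces -/
def comp {β ι η ζ : Type} (V : ι → β ⊕ η) (W : η → β ⊕ ζ) : ι → β ⊕ ζ :=
  fun p => Sum.elim Sum.inl W (V p)

lemma comp_proper {β ι η ζ : Type} {V : ι → β ⊕ η} {W : η → β ⊕ ζ} (hV : Proper V)
    (hW : Proper W) : Proper (comp V W) := by
  intro e
  obtain ⟨f, hf⟩ := hW e
  obtain ⟨p, hp⟩ := hV f
  exact ⟨p, by simp [comp, hp, hf]⟩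

lemma spt_comp {β ι η ζ : Type} (V : ι → β ⊕ η) (W : η → β ⊕ ζ) (v : ζ → β) :
    spt (comp V W) v = spt V (spt W v) := by
  funext p
  simp only [spt, comp]
  rcases V p with a | e <;> rfl

lemma Valid_comp {α ι : Type} [Fintype α] {l r : ℕ} {lam : ℝ} {g : (ι → Option α) → ℝ}
    (h : Valid l lam g) {V : ι → Option α ⊕ Fin r} (hV : Proper V) :
    Valid l lam (fun v : Fin r → Option α => g (spt V v)) := by
  refine ⟨fun v => h.1 _, fun W hW => ?_⟩
  have := h.2 (comp V W) (comp_proper hV hW)
  refine le_trans (le_of_eq ?_) this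
  refine Finset.sum_congr rfl (fun v _ => ?_)
  show g (spt V (spt W v)) = _
  rw [spt_comp]

/-- traces of insensitive sets on subspaces are insensitive -/
lemma coll_spt {α ι η : Type} (i : α) (V : ι → Option α ⊕ η) (v : η → Option α) :
    coll i (spt V v) = fun p => Sum.elim (fun b : Option α => b.getD i) (coll i v) (V p) := by
  funext p
  simp only [coll, spt]
  rcases V p with a | e <;> rfl

theorem tiles {α : Type} [Fintype α] (hM : ∀ l, MDHJ α l) (s : Finset α) :
    ∀ (l : ℕ) (lam b : ℝ), 0 < lam → 0 < b → ∃ n : ℕ, TBs s l lam (Fin n) b := by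
  classical
  induction s using Finset.induction_on with
  | empty =>
    intro l lam b hlam hb
    refine ⟨l, fun F g hg => ?_⟩
    have h1 := hg.2 Sum.inr (fun e => ⟨e, rfl⟩)
    have h2 : ∑ x : Fin l → Option α, ind (∀ i ∈ (∅ : Finset α), F i (coll i x)) * g x
        = ∑ v : Fin l → Option α, g (spt Sum.inr v) := by
      refine Finset.sum_congr rfl (fun x _ => ?_)
      rw [ind_true (by simp), one_mul]
      rfl
    rw [h2]
    refine h1.trans ?_
    exact mul_le_mul_of_nonneg_right (by linarith) (by positivity)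
  | insert i s his ih =>
    intro l lam b hlam hb
    obtain ⟨r, hr⟩ := ih l lam (b / 3) hlam (by positivity)
    obtain ⟨n, hn⟩ := tile1 i r (hM r) (show (0:ℝ) < b / 3 by positivity)
      (show (0:ℝ) < b / 3 by positivity)
    refine ⟨n, fun F g hg => ?_⟩
    set h0 : (Fin n → Option α) → ℝ := fun x => ind (∀ j ∈ s, F j (coll j x)) * g x with hh0
    have hvalid : Valid r (b / 3) (fun x => h0 x - 2 * b / 3) := by
      refine ⟨fun x => ?_, fun V hV => ?_⟩
      · have : h0 x ≤ 1 := ind_mul_le (hg.1 x)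
        linarith
      · have h1 := hr (fun j v' => F j (fun p =>
          Sum.elim (fun b : Option α => b.getD j) v' (V p))) _ (Valid_comp hg hV)
        have h2 : ∑ v : Fin r → Option α, h0 (spt V v) ≤
            b / 3 * Fintype.card (Fin r → Option α) := by
          refine le_trans (le_of_eq ?_) h1
          refine Finset.sum_congr rfl (fun v _ => ?_)
          simp only [hh0]
          congr 1
          refine ind_congr ?_
          simp only [coll_spt]
        rw [Finset.sum_sub_distrib, Finset.sum_const, nsmul_eq_mul, Finset.card_univ]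
        linarith
    have h3 := hn (F i) _ hvalid
    have h4 : ∑ x : Fin n → Option α, ind (∀ j ∈ insert i s, F j (coll j x)) * g x =
        ∑ x : Fin n → Option α, ind (F i (coll i x)) * h0 x := by
      refine Finset.sum_congr rfl (fun x _ => ?_)
      simp only [hh0]
      by_cases h5 : F i (coll i x)
      · rw [ind_true h5, one_mul]
        congr 1
        refine ind_congr ?_
        simp [h5]
      · rw [ind_false h5, ind_false, zero_mul, zero_mul]
        intro h6
        exact h5 (h6 i (Finset.mem_insert_self i s))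
    have h5 : ∑ x : Fin n → Option α, ind (F i (coll i x)) * h0 x =
        ∑ x : Fin n → Option α, ind (F i (coll i x)) * (h0 x - 2 * b / 3) +
        2 * b / 3 * ∑ x : Fin n → Option α, ind (F i (coll i x)) := by
      rw [Finset.mul_sum, ← Finset.sum_add_distrib]
      refine Finset.sum_congr rfl (fun x _ => ?_)
      ring
    have h6 : ∑ x : Fin n → Option α, ind (F i (coll i x)) ≤
        Fintype.card (Fin n → Option α) :=
      cnt_le_card (fun x : Fin n → Option α => F i (coll i x))
    rw [h4, h5]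
    have h7 : 2 * b / 3 * ∑ x : Fin n → Option α, ind (F i (coll i x)) ≤
        2 * b / 3 * Fintype.card (Fin n → Option α) :=
      mul_le_mul_of_nonneg_left h6 (by positivity)
    linarith


/-! ### line free sets and subspaces -/

lemma LF_spt {β ι η : Type} {A : (ι → β) → Prop} (h : LF A) {V : ι → β ⊕ η} (hV : Proper V) :
    LF (fun v : η → β => A (spt V v)) := by
  intro t ⟨e, he⟩
  obtain ⟨p, hp⟩ := hV e
  obtain ⟨a, ha⟩ := h (fun p => Sum.elim some t (V p)) ⟨p, by simp [hp, he]⟩
  refine ⟨a, fun hA => ha ?_⟩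
  have : coll a (fun p => Sum.elim some t (V p)) = spt V (coll a t) := by
    funext q
    simp only [coll, spt]
    rcases V q with c | f <;> rfl
  rw [this]
  exact hA

lemma LF_left {β ι κ : Type} {A : (ι ⊕ κ → β) → Prop} (h : LF A) (w : ι → β) :
    LF (fun y : κ → β => A (Sum.elim w y)) := by
  intro t ⟨q, hq⟩
  obtain ⟨a, ha⟩ := h (Sum.elim (fun p => some (w p)) t) ⟨Sum.inr q, by simp [hq]⟩
  refine ⟨a, fun hA => ha ?_⟩
  have : coll a (Sum.elim (fun p => some (w p)) t) = Sum.elim w (coll a t) := by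
    funext q
    rcases q with q | q <;> rfl
  rw [this]
  exact hA

lemma key {α : Type} [Fintype α] {r l : ℕ} {lam b c : ℝ}
    (hT : TBs (Finset.univ : Finset α) l lam (Fin r) b) (hlam : 0 < lam) (hc : 0 ≤ c)
    (hBd : Bd (Option α) (Fin l) c) (A' : (Fin r → Option α) → Prop)
    (F : α → (Fin r → α) → Prop)
    (hsub : ∀ V : Fin r → Option α ⊕ Fin l, Proper V → LF (fun v => A' (spt V v)))
    (hdis : ∀ u, A' u → ¬ ∀ a, F a (coll a u)) :
    cnt A' ≤ (c + lam) * (Fintype.card (Fin r → Option α) -
      cnt (fun u : Fin r → Option α => ∀ a, F a (coll a u))) +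
      Fintype.card α * b * Fintype.card (Fin r → Option α) := by
  classical
  set g : (Fin r → Option α) → ℝ := fun u => ind (A' u) - c - lam with hg
  have hvalid : Valid l lam g := by
    refine ⟨fun u => ?_, fun V hV => ?_⟩
    · have := ind_le_one (A' u)
      simp only [hg]
      linarith
    · have h1 := hBd _ (hsub V hV)
      unfold cnt at h1
      simp only [hg]
      rw [Finset.sum_sub_distrib, Finset.sum_sub_distrib, Finset.sum_const, Finset.sum_const,
        nsmul_eq_mul, nsmul_eq_mul, Finset.card_univ]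
      linarith
  have hpieces : ∀ s : Finset α, ∑ u, ind (¬ ∀ a ∈ s, F a (coll a u)) * g u ≤
      s.card * b * Fintype.card (Fin r → Option α) := by
    intro s
    induction s using Finset.induction_on with
    | empty =>
      have : ∑ u, ind (¬ ∀ a ∈ (∅ : Finset α), F a (coll a u)) * g u = 0 := by
        refine Finset.sum_eq_zero (fun u _ => ?_)
        rw [ind_false (by simp), zero_mul]
      rw [this]
      simp
    | insert a s has ih =>
      have h1 := hT (fun j v => if j ∈ s then F j v else if j = a then ¬ F a v else True) g hvalid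
      have h2 : ∀ u, ind (¬ ∀ j ∈ insert a s, F j (coll j u)) * g u =
          ind (¬ ∀ j ∈ s, F j (coll j u)) * g u +
          ind (∀ j ∈ (Finset.univ : Finset α), (fun (j : α) (v : Fin r → α) =>
            if j ∈ s then F j v else if j = a then ¬ F a v else True) j (coll j u)) * g u := by
        intro u
        have h3 : (∀ j ∈ (Finset.univ : Finset α), (fun (j : α) (v : Fin r → α) =>
            if j ∈ s then F j v else if j = a then ¬ F a v else True) j (coll j u)) ↔
            (∀ j ∈ s, F j (coll j u)) ∧ ¬ F a (coll a u) := by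
          constructor
          · intro h
            refine ⟨fun j hj => ?_, ?_⟩
            · have := h j (Finset.mem_univ j)
              simpa [hj] using this
            · have := h a (Finset.mem_univ a)
              simpa [has] using this
          · intro h j _
            by_cases hj : j ∈ s
            · simp only [hj, if_true]
              exact h.1 j hj
            · by_cases hja : j = a
              · subst hja
                simp only [has, if_false, if_true]
                exact h.2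
              · simp [hj, hja]
        rw [ind_congr h3]
        by_cases h4 : ∀ j ∈ s, F j (coll j u)
        · by_cases h5 : F a (coll a u)
          · rw [ind_false (p := ¬ ∀ j ∈ insert a s, F j (coll j u)) (by
              intro h6
              apply h6
              intro j hj
              rcases Finset.mem_insert.mp hj with rfl | hj
              · exact h5
              · exact h4 j hj), ind_false (p := ¬ ∀ j ∈ s, F j (coll j u)) (by
                intro h6; exact h6 h4), ind_false (fun h => h.2 h5)]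
            ring
          · rw [ind_true (p := ¬ ∀ j ∈ insert a s, F j (coll j u)) (by
              intro h6
              exact h5 (h6 a (Finset.mem_insert_self a s))),
              ind_false (p := ¬ ∀ j ∈ s, F j (coll j u)) (by
                intro h6; exact h6 h4), ind_true ⟨h4, h5⟩]
            ring
        · rw [ind_true (p := ¬ ∀ j ∈ insert a s, F j (coll j u)) (by
              intro h6
              exact h4 (fun j hj => h6 j (Finset.mem_insert_of_mem hj))),
            ind_true (p := ¬ ∀ j ∈ s, F j (coll j u)) h4,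
            ind_false (fun h => h4 h.1)]
          ring
      rw [Finset.sum_congr rfl (fun u _ => h2 u), Finset.sum_add_distrib,
        Finset.card_insert_of_notMem has]
      push_cast
      have h7 : ((s.card : ℝ) + 1) * b * (Fintype.card (Fin r → Option α) : ℝ) =
        s.card * b * Fintype.card (Fin r → Option α) +
          b * Fintype.card (Fin r → Option α) := by ring
      rw [h7]
      exact add_le_add ih h1
  have h1 := hpieces Finset.univ
  rw [Finset.card_univ] at h1
  have h2 : cnt A' = ∑ u, ind (¬ ∀ a ∈ (Finset.univ : Finset α), F a (coll a u)) * g u +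
      (c + lam) * ∑ u, ind (¬ ∀ a ∈ (Finset.univ : Finset α), F a (coll a u)) := by
    unfold cnt
    rw [Finset.mul_sum, ← Finset.sum_add_distrib]
    refine Finset.sum_congr rfl (fun u _ => ?_)
    simp only [hg]
    by_cases hA : A' u
    · have h3 : ¬ ∀ a ∈ (Finset.univ : Finset α), F a (coll a u) := by
        intro h4
        exact hdis u hA (fun a => h4 a (Finset.mem_univ a))
      rw [ind_true hA, ind_true h3]
      ring
    · rw [ind_false hA]
      ring
  have h3 : ∑ u : Fin r → Option α, ind (¬ ∀ a ∈ (Finset.univ : Finset α), F a (coll a u)) =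
      Fintype.card (Fin r → Option α) -
      cnt (fun u : Fin r → Option α => ∀ a, F a (coll a u)) := by
    unfold cnt
    have : ∀ u : Fin r → Option α, ind (¬ ∀ a ∈ (Finset.univ : Finset α), F a (coll a u)) =
        1 - ind (∀ a, F a (coll a u)) := by
      intro u
      rw [ind_not]
      congr 1
      refine ind_congr ?_
      simp
    rw [Finset.sum_congr rfl (fun u _ => this u), Finset.sum_sub_distrib]
    simp
  rw [h2, h3]
  linarith

lemma sum_update {X Y : Type} [Fintype X] [Fintype Y] [DecidableEq X] (j0 : X)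
    (f : (X → Y) → ℝ) :
    ∑ z : X → Y, ∑ u : Y, f (Function.update z j0 u) = Fintype.card Y * ∑ z, f z := by
  rw [← Fintype.sum_prod_type' (f := fun z u => f (Function.update z j0 u))]
  have h1 : ∑ p : (X → Y) × Y, f (Function.update p.1 j0 p.2) =
      ∑ p : (X → Y) × Y, f p.1 := by
    refine Finset.sum_bij' (fun p _ => (Function.update p.1 j0 p.2, p.1 j0))
      (fun p _ => (Function.update p.1 j0 p.2, p.1 j0)) ?_ ?_ ?_ ?_ ?_
    · intro p _; exact Finset.mem_univ _
    · intro p _; exact Finset.mem_univ _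
    · rintro ⟨z, u⟩ _; simp
    · rintro ⟨z, u⟩ _; simp
    · rintro ⟨z, u⟩ _; rfl
  rw [h1, Fintype.sum_prod_type]
  simp only [Finset.sum_const, nsmul_eq_mul, Finset.card_univ]
  rw [Finset.mul_sum]


/-! ### the induction step -/

/-- the template attached to `t0` and `z` -/
def Tm {α : Type} {n0 r : ℕ} (t0 : Fin n0 → Option α) (z : Fin n0 → Fin r → Option α) :
    Fin n0 ⊕ Fin n0 × Fin r → Option α :=
  Sum.elim t0 (fun js => (z js.1 js.2).orElse (fun _ => t0 js.1))

def Sp {α : Type} {n0 r : ℕ} (z : Fin n0 → Fin r → Option α) (w : Fin n0 → α) :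
    Fin n0 ⊕ Fin n0 × Fin r → Option α :=
  Sum.elim (fun j => some (w j)) (fun js => some ((z js.1 js.2).getD (w js.1)))

lemma Sp_coll {α : Type} {n0 r : ℕ} (t0 : Fin n0 → Option α) (z : Fin n0 → Fin r → Option α)
    (a : α) : Sp z (coll a t0) = fun p => some (coll a (Tm t0 z) p) := by
  funext p
  rcases p with j | ⟨j, s⟩
  · rfl
  · simp only [Sp, coll, Tm, Sum.elim_inr]
    cases z j s <;> rfl

/-- the coordinate subspace given by the block `j0` -/
def V0 {α : Type} {n0 r N : ℕ} (t0 : Fin n0 → Option α) (z : Fin n0 → Fin r → Option α)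
    (x : Fin N → Option α) (j0 : Fin n0) :
    (Fin n0 ⊕ Fin n0 × Fin r) ⊕ Fin N → Option α ⊕ Fin r :=
  Sum.elim (Sum.elim (fun j => Sum.inl (t0 j))
    (fun js => if js.1 = j0 then Sum.inr js.2 else
      Sum.inl ((z js.1 js.2).orElse (fun _ => t0 js.1)))) (fun q => Sum.inl (x q))

lemma V0_proper {α : Type} {n0 r N : ℕ} (t0 : Fin n0 → Option α)
    (z : Fin n0 → Fin r → Option α) (x : Fin N → Option α) (j0 : Fin n0) :
    Proper (V0 t0 z x j0) := by
  intro e
  exact ⟨Sum.inl (Sum.inr (j0, e)), by simp [V0]⟩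

lemma spt_V0 {α : Type} {n0 r N : ℕ} (t0 : Fin n0 → Option α)
    (z : Fin n0 → Fin r → Option α) (x : Fin N → Option α) (j0 : Fin n0) (h0 : t0 j0 = none)
    (u : Fin r → Option α) :
    spt (V0 t0 z x j0) u = Sum.elim (Tm t0 (Function.update z j0 u)) x := by
  funext p
  rcases p with (j | ⟨j, s⟩) | q
  · rfl
  · simp only [spt, V0, Sum.elim_inl, Sum.elim_inr, Tm]
    by_cases hj : j = j0
    · subst hj
      simp only [if_true, Sum.elim_inr, Function.update_self, h0]
      cases u s <;> rfl
    · simp [hj]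
  · rfl

theorem dhj_step {α : Type} [Fintype α] [Nonempty α] (h : HasDHJ α) : HasDHJ (Option α) := by
  by_contra hcon
  unfold HasDHJ at hcon
  push Not at hcon
  obtain ⟨δ0, hδ0, hno⟩ := hcon
  have hM := mdhj h
  set S : Set ℝ := {c : ℝ | 0 ≤ c ∧ ∃ n : ℕ, Bd (Option α) (Fin n) c} with hS
  have hone : (1:ℝ) ∈ S := by
    refine ⟨by norm_num, 0, fun A _ => ?_⟩
    rw [one_mul]
    exact cnt_le_card A
  have hSne : S.Nonempty := ⟨1, hone⟩
  have hSb : BddBelow S := ⟨0, fun c hc => hc.1⟩
  set d := sInf S with hd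
  have hd1 : d ≤ 1 := csInf_le hSb hone
  have hδd : δ0 ≤ d := by
    refine le_csInf hSne (fun c hc => ?_)
    obtain ⟨_, n, hn⟩ := hc
    by_contra hlt
    exact hno n (Bd_mono (not_le.mp hlt).le hn)
  have hd0 : 0 < d := lt_of_lt_of_le hδ0 hδd
  obtain ⟨n0, hn0⟩ := h (d / 4) (by positivity)
  set K0 : ℝ := ((Fintype.card (Fin n0 → Option α) : ℕ) : ℝ) with hK0
  set W : ℝ := ((Fintype.card (Fin n0 → α) : ℕ) : ℝ) with hW
  have hK01 : 1 ≤ K0 := by
    rw [hK0]; exact_mod_cast (Fintype.card_pos : 0 < Fintype.card (Fin n0 → Option α))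
  have hW1 : 1 ≤ W := by
    rw [hW]; exact_mod_cast (Fintype.card_pos : 0 < Fintype.card (Fin n0 → α))
  have hW0 : 0 < W := by linarith
  have hK00 : 0 < K0 := by linarith
  set θ : ℝ := d / (2 * K0) with hθ
  have hθ0 : 0 < θ := by positivity
  have hθ1 : θ ≤ 1 / 2 := by
    rw [hθ, div_le_iff₀ (by positivity)]
    linarith
  set γ : ℝ := d * θ / 5 with hγ
  have hγ0 : 0 < γ := by positivity
  have hγd : γ ≤ d / 10 := by
    have : d * θ ≤ d * (1 / 2) := mul_le_mul_of_nonneg_left hθ1 hd0.le
    rw [hγ]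
    linarith
  obtain ⟨c1, ⟨_, l, hl⟩, hc1⟩ := exists_lt_of_csInf_lt hSne (show sInf S < d + γ by linarith)
  have hBdl : Bd (Option α) (Fin l) (d + γ) := Bd_mono hc1.le hl
  set k : ℝ := ((Fintype.card α : ℕ) : ℝ) with hk
  have hk1 : 1 ≤ k := by
    rw [hk]; exact_mod_cast (Fintype.card_pos : 0 < Fintype.card α)
  have hk0 : 0 < k := by linarith
  obtain ⟨r, hr⟩ := tiles hM (Finset.univ : Finset α) l γ (γ / k) hγ0 (by positivity)
  set PM : ℝ := ((Fintype.card (Fin n0 ⊕ Fin n0 × Fin r → Option α) : ℕ) : ℝ) with hPM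
  have hPM1 : 1 ≤ PM := by
    rw [hPM]
    exact_mod_cast (Fintype.card_pos : 0 < Fintype.card (Fin n0 ⊕ Fin n0 × Fin r → Option α))
  have hPM0 : 0 < PM := by linarith
  set ε : ℝ := γ / (2 * PM) with hε
  have hε0 : 0 < ε := by positivity
  have hεγ : 2 * PM * ε = γ := by
    rw [hε]; field_simp
  obtain ⟨c2, ⟨_, N, hN⟩, hc2⟩ := exists_lt_of_csInf_lt hSne (show sInf S < d + ε by linarith)
  have hBdN : Bd (Option α) (Fin N) (d + ε) := Bd_mono hc2.le hN
  have hε1 : ε ≤ γ := by
    have : 1 * ε ≤ PM * ε := mul_le_mul_of_nonneg_right hPM1 hε0.le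
    linarith
  have hnot : ¬ Bd (Option α) ((Fin n0 ⊕ Fin n0 × Fin r) ⊕ Fin N) (d - ε) := by
    intro hB
    have e : ((Fin n0 ⊕ Fin n0 × Fin r) ⊕ Fin N) ≃
        Fin (Fintype.card ((Fin n0 ⊕ Fin n0 × Fin r) ⊕ Fin N)) := Fintype.equivFin _
    have hmem : d - ε ∈ S := ⟨by linarith, _, Bd_congr e hB⟩
    have := csInf_le hSb hmem
    linarith
  unfold Bd at hnot
  push Not at hnot
  obtain ⟨A, hA, hbig⟩ := hnot
  rw [card_sumArrow] at hbig
  set Q : ℝ := ((Fintype.card (Fin N → Option α) : ℕ) : ℝ) with hQ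
  have hQ1 : 1 ≤ Q := by
    rw [hQ]; exact_mod_cast (Fintype.card_pos : 0 < Fintype.card (Fin N → Option α))
  have hQ0 : 0 < Q := by linarith
  unfold cnt at hbig
  rw [sum_sumArrow] at hbig
  set St : (Fin n0 ⊕ Fin n0 × Fin r → Option α) → ℝ := fun t => ∑ x : Fin N → Option α,
    ind (A (Sum.elim t x)) with hSt
  have hbig' : (d - ε) * (PM * Q) < ∑ t, St t := hbig
  have hup : ∀ t, St t ≤ (d + ε) * Q := by
    intro t
    exact hBdN _ (LF_left hA t)
  have hlow : ∀ t, (d - γ) * Q ≤ St t := by
    classical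
    intro t
    have hsplit : ∑ t', St t' = St t + ∑ t' ∈ Finset.univ.erase t, St t' :=
      (Finset.add_sum_erase _ _ (Finset.mem_univ t)).symm
    have hrest : ∑ t' ∈ Finset.univ.erase t, St t' ≤ (PM - 1) * ((d + ε) * Q) := by
      calc ∑ t' ∈ Finset.univ.erase t, St t'
          ≤ ∑ _t' ∈ Finset.univ.erase t, (d + ε) * Q :=
            Finset.sum_le_sum (fun t' _ => hup t')
        _ = (PM - 1) * ((d + ε) * Q) := by
            rw [Finset.sum_const, Finset.card_erase_of_mem (Finset.mem_univ t),
              nsmul_eq_mul, Finset.card_univ,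
              Nat.cast_sub (show 1 ≤ Fintype.card (Fin n0 ⊕ Fin n0 × Fin r → Option α) from
                Fintype.card_pos),
              Nat.cast_one, ← hPM]
    have h1 : (d - ε) * (PM * Q) - (PM - 1) * ((d + ε) * Q) ≤ St t := by linarith
    have h2 : (d - ε) * (PM * Q) - (PM - 1) * ((d + ε) * Q) =
      (d - (2 * PM * ε) + ε) * Q := by ring
    rw [h2, hεγ] at h1
    have h3 : (d - γ) * Q ≤ (d - γ + ε) * Q :=
      mul_le_mul_of_nonneg_right (by linarith) hQ0.le
    linarith
  set Zc : ℝ := ((Fintype.card (Fin n0 → Fin r → Option α) : ℕ) : ℝ) with hZc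
  have hZc1 : 1 ≤ Zc := by
    rw [hZc]
    exact_mod_cast (Fintype.card_pos : 0 < Fintype.card (Fin n0 → Fin r → Option α))
  have hZc0 : 0 < Zc := by linarith
  -- step A
  have hstepA : (d - γ) * Q * W * Zc ≤ ∑ z : Fin n0 → Fin r → Option α,
      ∑ x : Fin N → Option α, ∑ w : Fin n0 → α, ind (A (Sum.elim (Sp z w) x)) := by
    have h1 : ∀ z : Fin n0 → Fin r → Option α, (d - γ) * Q * W ≤
        ∑ x : Fin N → Option α, ∑ w : Fin n0 → α, ind (A (Sum.elim (Sp z w) x)) := by
      intro z
      rw [Finset.sum_comm]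
      calc (d - γ) * Q * W = ∑ _w : Fin n0 → α, (d - γ) * Q := by
            rw [Finset.sum_const, nsmul_eq_mul, Finset.card_univ, ← hW]; ring
        _ ≤ _ := Finset.sum_le_sum (fun w _ => hlow (Sp z w))
    calc (d - γ) * Q * W * Zc = ∑ _z : Fin n0 → Fin r → Option α, (d - γ) * Q * W := by
          rw [Finset.sum_const, nsmul_eq_mul, Finset.card_univ, ← hZc]; ring
      _ ≤ _ := Finset.sum_le_sum (fun z _ => h1 z)
  -- step B
  set G : (Fin n0 → Option α) → (Fin n0 → Fin r → Option α) → (Fin N → Option α) → Prop :=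
    fun t0 z x => ∀ a, A (Sum.elim (Sp z (coll a t0)) x) with hG
  have hstepB : ∀ (z : Fin n0 → Fin r → Option α) (x : Fin N → Option α),
      ∑ w : Fin n0 → α, ind (A (Sum.elim (Sp z w) x)) ≤ d / 4 * W +
        W * ∑ t0 : Fin n0 → Option α, ind ((∃ p, t0 p = none) ∧ G t0 z x) := by
    intro z x
    by_cases hy : LF (fun w : Fin n0 → α => A (Sum.elim (Sp z w) x))
    · have := hn0 _ hy
      have h3 : 0 ≤ W * ∑ t0 : Fin n0 → Option α, ind ((∃ p, t0 p = none) ∧ G t0 z x) :=
        mul_nonneg (by positivity) (Finset.sum_nonneg (fun _ _ => ind_nonneg _))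
      unfold cnt at this
      linarith
    · unfold LF at hy
      push Not at hy
      obtain ⟨t0, ht0, hall⟩ := hy
      have h3 : (1:ℝ) ≤ ∑ t0 : Fin n0 → Option α, ind ((∃ p, t0 p = none) ∧ G t0 z x) := by
        rw [← ind_true (⟨ht0, hall⟩ : (∃ p, t0 p = none) ∧ G t0 z x)]
        exact Finset.single_le_sum (f := fun t0 : Fin n0 → Option α =>
          ind ((∃ p, t0 p = none) ∧ G t0 z x))
          (fun _ _ => ind_nonneg _) (Finset.mem_univ t0)
      have h4 : ∑ w : Fin n0 → α, ind (A (Sum.elim (Sp z w) x)) ≤ W :=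
        cnt_le_card (fun w : Fin n0 → α => A (Sum.elim (Sp z w) x))
      have h6 : W * 1 ≤ W * ∑ t0 : Fin n0 → Option α, ind ((∃ p, t0 p = none) ∧ G t0 z x) :=
        mul_le_mul_of_nonneg_left h3 (by positivity)
      have h5 : 0 ≤ d / 4 * W := by positivity
      linarith
  -- step C
  have hstepC : K0 * (θ * Zc * Q) ≤ ∑ t0 : Fin n0 → Option α,
      ∑ z : Fin n0 → Fin r → Option α, ∑ x : Fin N → Option α,
        ind ((∃ p, t0 p = none) ∧ G t0 z x) := by
    set T := ∑ t0 : Fin n0 → Option α,
      ∑ z : Fin n0 → Fin r → Option α, ∑ x : Fin N → Option α,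
        ind ((∃ p, t0 p = none) ∧ G t0 z x) with hT
    have h1 : (d - γ) * Q * W * Zc ≤ ∑ z : Fin n0 → Fin r → Option α,
        ∑ x : Fin N → Option α, (d / 4 * W +
        W * ∑ t0 : Fin n0 → Option α, ind ((∃ p, t0 p = none) ∧ G t0 z x)) :=
      hstepA.trans (Finset.sum_le_sum (fun z _ => Finset.sum_le_sum (fun x _ => hstepB z x)))
    have h2 : ∑ z : Fin n0 → Fin r → Option α,
        ∑ x : Fin N → Option α, (d / 4 * W +
        W * ∑ t0 : Fin n0 → Option α, ind ((∃ p, t0 p = none) ∧ G t0 z x)) =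
        Zc * (Q * (d / 4 * W)) + W * T := by
      have h3 : ∀ z : Fin n0 → Fin r → Option α,
          ∑ x : Fin N → Option α, (d / 4 * W +
          W * ∑ t0 : Fin n0 → Option α, ind ((∃ p, t0 p = none) ∧ G t0 z x)) =
          Q * (d / 4 * W) + W * ∑ t0 : Fin n0 → Option α, ∑ x : Fin N → Option α,
            ind ((∃ p, t0 p = none) ∧ G t0 z x) := by
        intro z
        rw [Finset.sum_add_distrib, ← Finset.mul_sum (s := Finset.univ) (a := W),
          Finset.sum_comm, Finset.sum_const, nsmul_eq_mul, Finset.card_univ, ← hQ]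
      rw [Finset.sum_congr rfl (fun z _ => h3 z), Finset.sum_add_distrib,
        ← Finset.mul_sum (s := Finset.univ) (a := W), Finset.sum_comm, Finset.sum_const,
        nsmul_eq_mul, Finset.card_univ, ← hZc]
    rw [h2] at h1
    have h4 : W * ((d - γ - d / 4) * Q * Zc) ≤ W * T := by
      have h5 : (d - γ) * Q * W * Zc - Zc * (Q * (d / 4 * W)) =
        W * ((d - γ - d / 4) * Q * Zc) := by ring
      linarith
    have h5 : (d - γ - d / 4) * Q * Zc ≤ T := le_of_mul_le_mul_left h4 hW0
    have h6 : K0 * (θ * Zc * Q) = d / 2 * Q * Zc := by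
      rw [hθ]; field_simp
    rw [h6]
    have h7 : d / 2 * Q * Zc ≤ (d - γ - d / 4) * Q * Zc :=
      mul_le_mul_of_nonneg_right (mul_le_mul_of_nonneg_right (by linarith) hQ0.le) hZc0.le
    linarith
  obtain ⟨t0, ht0⟩ : ∃ t0 : Fin n0 → Option α, θ * Zc * Q ≤
      ∑ z : Fin n0 → Fin r → Option α, ∑ x : Fin N → Option α,
        ind ((∃ p, t0 p = none) ∧ G t0 z x) := by
    by_contra hc
    push Not at hc
    have h1 : ∑ t0 : Fin n0 → Option α,
      ∑ z : Fin n0 → Fin r → Option α, ∑ x : Fin N → Option α,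
        ind ((∃ p, t0 p = none) ∧ G t0 z x) < ∑ _t0 : Fin n0 → Option α, θ * Zc * Q :=
      Finset.sum_lt_sum_of_nonempty Finset.univ_nonempty (fun t0 _ => hc t0)
    rw [Finset.sum_const, nsmul_eq_mul, Finset.card_univ, ← hK0] at h1
    linarith
  have hexists : ∃ p, t0 p = none := by
    by_contra hnp
    have : ∑ z : Fin n0 → Fin r → Option α, ∑ x : Fin N → Option α,
        ind ((∃ p, t0 p = none) ∧ G t0 z x) = 0 :=
      Finset.sum_eq_zero (fun z _ => Finset.sum_eq_zero (fun x _ =>
        ind_false (fun h => hnp h.1)))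
    rw [this] at ht0
    have : 0 < θ * Zc * Q := by positivity
    linarith
  obtain ⟨j0, hj0⟩ := hexists
  have hGsum : θ * Zc * Q ≤ ∑ z : Fin n0 → Fin r → Option α, ∑ x : Fin N → Option α,
      ind (G t0 z x) :=
    ht0.trans (Finset.sum_le_sum (fun z _ => Finset.sum_le_sum (fun x _ =>
      ind_mono (fun h => h.2))))
  -- step E
  set R : ℝ := ((Fintype.card (Fin r → Option α) : ℕ) : ℝ) with hR
  have hR1 : 1 ≤ R := by
    rw [hR]; exact_mod_cast (Fintype.card_pos : 0 < Fintype.card (Fin r → Option α))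
  have hR0 : 0 < R := by linarith
  have hstepE : ∀ (z : Fin n0 → Fin r → Option α) (x : Fin N → Option α),
      ∑ u : Fin r → Option α, ind (A (Sum.elim (Tm t0 (Function.update z j0 u)) x)) ≤
      (d + γ + γ) * (R - ∑ u : Fin r → Option α, ind (G t0 (Function.update z j0 u) x)) +
        γ * R := by
    intro z x
    have h1 := key hr hγ0 (by linarith) hBdl
      (fun u : Fin r → Option α => A (Sum.elim (Tm t0 (Function.update z j0 u)) x))
      (fun a v => A (Sum.elim (fun p => some (coll a
        (Tm t0 (Function.update z j0 (fun s => some (v s)))) p)) x)) ?_ ?_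
    · have h2 : ∀ u : Fin r → Option α, (∀ a, A (Sum.elim (fun p => some (coll a
          (Tm t0 (Function.update z j0 (fun s => some ((coll a u) s)))) p)) x)) ↔
          G t0 (Function.update z j0 u) x := by
        intro u
        simp only [hG]
        refine forall_congr' (fun a => ?_)
        rw [Sp_coll]
        have h3 : coll a (Tm t0 (Function.update z j0 (fun s => some ((coll a u) s)))) =
            coll a (Tm t0 (Function.update z j0 u)) := by
          funext p
          rcases p with j | ⟨j, s⟩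
          · rfl
          · simp only [coll, Tm, Sum.elim_inr]
            by_cases hj : j = j0
            · subst hj
              simp only [Function.update_self, hj0]
              cases u s <;> rfl
            · simp [hj]
        rw [h3]
      have h3 : cnt (fun u : Fin r → Option α => ∀ a, A (Sum.elim (fun p => some (coll a
          (Tm t0 (Function.update z j0 (fun s => some ((coll a u) s)))) p)) x)) =
          ∑ u : Fin r → Option α, ind (G t0 (Function.update z j0 u) x) := by
        unfold cnt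
        exact Finset.sum_congr rfl (fun u _ => ind_congr (h2 u))
      rw [h3] at h1
      have h4 : (Fintype.card α : ℝ) * (γ / k) = γ := by
        rw [← hk]; field_simp
      rw [h4] at h1
      exact h1
    · intro V hV
      have h2 := LF_spt hA (comp_proper (V0_proper t0 z x j0) hV)
      have h3 : (fun v : Fin l → Option α => A (spt (comp (V0 t0 z x j0) V) v)) =
          (fun v => A (Sum.elim (Tm t0 (Function.update z j0 (spt V v))) x)) := by
        funext v
        rw [spt_comp, spt_V0 t0 z x j0 hj0]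
      rw [h3] at h2
      exact h2
    · intro u hu hall
      obtain ⟨b, hb⟩ := hA (Sum.elim
        (fun p => (Tm t0 (Function.update z j0 u) p).map some) (fun q => some (x q)))
        ⟨Sum.inl (Sum.inl j0), by simp [Tm, hj0]⟩
      apply hb
      cases b with
      | none =>
        have h2 : coll none (Sum.elim
          (fun p => (Tm t0 (Function.update z j0 u) p).map some) (fun q => some (x q))) =
          Sum.elim (Tm t0 (Function.update z j0 u)) x := by
          funext p
          rcases p with p | q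
          · simp only [coll, Sum.elim_inl]
            cases Tm t0 (Function.update z j0 u) p <;> rfl
          · rfl
        rw [h2]
        exact hu
      | some a =>
        have h2 : coll (some a) (Sum.elim
          (fun p => (Tm t0 (Function.update z j0 u) p).map some) (fun q => some (x q))) =
          Sum.elim (fun p => some (coll a
            (Tm t0 (Function.update z j0 (fun s => some ((coll a u) s)))) p)) x := by
          funext p
          rcases p with p | q
          · simp only [coll, Sum.elim_inl]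
            rcases p with j | ⟨j, s⟩
            · simp only [Tm, Sum.elim_inl]
              cases t0 j <;> rfl
            · simp only [Tm, Sum.elim_inr]
              by_cases hj : j = j0
              · subst hj
                simp only [Function.update_self, hj0]
                cases u s <;> rfl
              · simp only [ne_eq, hj, not_false_eq_true, Function.update_of_ne]
                cases z j s <;> cases t0 j <;> rfl
          · rfl
        rw [h2]
        exact hall a
  -- step F
  have hF1 : ∑ z : Fin n0 → Fin r → Option α, ∑ x : Fin N → Option α,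
      ∑ u : Fin r → Option α, ind (A (Sum.elim (Tm t0 (Function.update z j0 u)) x)) =
      R * ∑ z : Fin n0 → Fin r → Option α, St (Tm t0 z) := by
    rw [hR, ← sum_update j0 (fun z : Fin n0 → Fin r → Option α => St (Tm t0 z))]
    refine Finset.sum_congr rfl (fun z _ => ?_)
    rw [Finset.sum_comm]
  have hF2 : ∑ z : Fin n0 → Fin r → Option α, ∑ x : Fin N → Option α,
      ∑ u : Fin r → Option α, ind (G t0 (Function.update z j0 u) x) =
      R * ∑ z : Fin n0 → Fin r → Option α, ∑ x : Fin N → Option α, ind (G t0 z x) := by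
    rw [hR, ← sum_update j0 (fun z : Fin n0 → Fin r → Option α =>
      ∑ x : Fin N → Option α, ind (G t0 z x))]
    refine Finset.sum_congr rfl (fun z _ => ?_)
    rw [Finset.sum_comm]
  have hF3 : Zc * ((d - γ) * Q) ≤ ∑ z : Fin n0 → Fin r → Option α, St (Tm t0 z) := by
    calc Zc * ((d - γ) * Q) = ∑ _z : Fin n0 → Fin r → Option α, (d - γ) * Q := by
          rw [Finset.sum_const, nsmul_eq_mul, Finset.card_univ, ← hZc]
      _ ≤ _ := Finset.sum_le_sum (fun z _ => hlow _)
  have hF4 : R * ∑ z : Fin n0 → Fin r → Option α, St (Tm t0 z) ≤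
      (d + γ + γ) * (Zc * (Q * R) - R * ∑ z : Fin n0 → Fin r → Option α,
        ∑ x : Fin N → Option α, ind (G t0 z x)) + Zc * (Q * (γ * R)) := by
    rw [← hF1, ← hF2]
    calc ∑ z : Fin n0 → Fin r → Option α, ∑ x : Fin N → Option α,
        ∑ u : Fin r → Option α, ind (A (Sum.elim (Tm t0 (Function.update z j0 u)) x))
        ≤ ∑ z : Fin n0 → Fin r → Option α, ∑ x : Fin N → Option α,
          ((d + γ + γ) * (R - ∑ u : Fin r → Option α,
            ind (G t0 (Function.update z j0 u) x)) + γ * R) :=
          Finset.sum_le_sum (fun z _ => Finset.sum_le_sum (fun x _ => hstepE z x))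
      _ = _ := by
          simp only [Finset.sum_add_distrib, ← Finset.mul_sum, Finset.sum_sub_distrib,
            Finset.sum_const, nsmul_eq_mul, Finset.card_univ]
          rw [← hQ, ← hZc]
          ring
  set GG := ∑ z : Fin n0 → Fin r → Option α, ∑ x : Fin N → Option α, ind (G t0 z x) with hGG
  have h1 : R * (Zc * ((d - γ) * Q)) ≤ (d + γ + γ) * (Zc * (Q * R) - R * GG) +
      Zc * (Q * (γ * R)) :=
    (mul_le_mul_of_nonneg_left hF3 hR0.le).trans hF4
  have h2 : (d + γ + γ) * (R * (θ * Zc * Q)) ≤ (d + γ + γ) * (R * GG) :=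
    mul_le_mul_of_nonneg_left (mul_le_mul_of_nonneg_left hGsum hR0.le) (by linarith)
  have h3 : (R * Zc * Q) * ((d + γ + γ) * θ) ≤ (R * Zc * Q) * (4 * γ) := by
    have h4 : R * (Zc * ((d - γ) * Q)) = (R * Zc * Q) * (d - γ) := by ring
    have h5 : (d + γ + γ) * (Zc * (Q * R) - R * GG) + Zc * (Q * (γ * R)) =
      (R * Zc * Q) * (d + γ + γ + γ) - (d + γ + γ) * (R * GG) := by ring
    have h6 : (d + γ + γ) * (R * (θ * Zc * Q)) = (R * Zc * Q) * ((d + γ + γ) * θ) := by ring
    rw [h4, h5] at h1
    rw [h6] at h2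
    linarith
  have h4 : (d + γ + γ) * θ ≤ 4 * γ := le_of_mul_le_mul_left h3 (by positivity)
  have h5 : d * θ = 5 * γ := by rw [hγ]; ring
  have h6 : 0 < γ * θ := by positivity
  linarith


/-! ### the density Hales-Jewett theorem -/

/-- change of alphabet -/
lemma hasDHJ_congr {α β : Type} [Fintype α] [Fintype β] (e : α ≃ β) (h : HasDHJ α) :
    HasDHJ β := by
  intro δ hδ
  obtain ⟨n, hn⟩ := h δ hδ
  refine ⟨n, fun A hA => ?_⟩
  have h1 : LF (fun x : Fin n → α => A (fun p => e (x p))) := by
    intro t ⟨p, hp⟩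
    obtain ⟨b, hb⟩ := hA (fun p => (t p).map e) ⟨p, by simp [hp]⟩
    refine ⟨e.symm b, fun hall => hb ?_⟩
    have : coll b (fun p => (t p).map e) = fun p => e (coll (e.symm b) t p) := by
      funext q
      simp only [coll]
      cases t q <;> simp
    rw [this]
    exact hall
  have h2 := hn _ h1
  have h3 : cnt (fun x : Fin n → α => A (fun p => e (x p))) = cnt A := by
    unfold cnt
    exact Equiv.sum_comp (Equiv.arrowCongr (Equiv.refl (Fin n)) e) (fun y => ind (A y))
  have h4 : Fintype.card (Fin n → α) = Fintype.card (Fin n → β) :=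
    Fintype.card_congr (Equiv.arrowCongr (Equiv.refl (Fin n)) e)
  rw [h3, h4] at h2
  exact h2

lemma hasDHJ_unit : HasDHJ Unit := by
  intro δ hδ
  refine ⟨1, fun A hA => ?_⟩
  obtain ⟨a, ha⟩ := hA (fun _ => none) ⟨0, rfl⟩
  have : cnt A = 0 := by
    unfold cnt
    refine Finset.sum_eq_zero (fun x _ => ind_false (fun hx => ha ?_))
    have : coll a (fun _ : Fin 1 => (none : Option Unit)) = x := by
      funext p
      exact Subsingleton.elim _ _
    rw [this]
    exact hx
  rw [this]
  positivity

lemma hasDHJ_fin (k : ℕ) : HasDHJ (Fin (k + 1)) := by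
  induction k with
  | zero => exact hasDHJ_congr (Equiv.ofUnique Unit (Fin 1)) hasDHJ_unit
  | succ k ih => exact hasDHJ_congr (finSuccEquiv (k + 1)).symm (dhj_step ih)

theorem hasDHJ (α : Type) [Fintype α] [Nonempty α] : HasDHJ α := by
  obtain ⟨k, hk⟩ : ∃ k, Fintype.card α = k + 1 :=
    ⟨Fintype.card α - 1, by have := Fintype.card_pos (α := α); omega⟩
  exact hasDHJ_congr (Fintype.equivFinOfCardEq hk).symm (hasDHJ_fin k)

lemma Bd_sum {α ι κ : Type} [Fintype α] [Fintype ι] [Fintype κ] [DecidableEq ι]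
    [DecidableEq κ] {c : ℝ} (h : Bd α κ c) : Bd α (ι ⊕ κ) c := by
  intro A hA
  unfold cnt
  rw [sum_sumArrow, card_sumArrow]
  calc ∑ w : ι → α, ∑ y : κ → α, ind (A (Sum.elim w y))
      ≤ ∑ _w : ι → α, c * Fintype.card (κ → α) :=
        Finset.sum_le_sum (fun w _ => h _ (LF_left hA w))
    _ = _ := by
        rw [Finset.sum_const, nsmul_eq_mul, Finset.card_univ]; ring

/-- **Density Hales-Jewett theorem**: for every finite alphabet `α` and every `δ > 0`, for all
large `n` every set of at least `δ |α|^n` words of length `n` contains a combinatorial line. -/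
theorem density_hales_jewett (α : Type) [Fintype α] [Nonempty α] {δ : ℝ} (hδ : 0 < δ) :
    ∃ N : ℕ, ∀ n : ℕ, N ≤ n → ∀ A : Finset (Fin n → α),
      δ * (Fintype.card α : ℝ) ^ n ≤ (A.card : ℝ) →
      ∃ l : Combinatorics.Line α (Fin n), ∀ a, l a ∈ A := by
  obtain ⟨N, hN⟩ := hasDHJ α (δ / 2) (by positivity)
  refine ⟨N, fun n hn A hA => ?_⟩
  by_contra hcon
  push Not at hcon
  obtain ⟨m, rfl⟩ : ∃ m, n = m + N := ⟨n - N, by omega⟩
  have hB : Bd α (Fin (m + N)) (δ / 2) := Bd_congr finSumFinEquiv (Bd_sum hN)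
  have hLF : LF (fun x : Fin (m + N) → α => x ∈ A) := by
    intro t ht
    obtain ⟨a, ha⟩ := hcon ⟨t, ht⟩
    refine ⟨a, fun h => ha ?_⟩
    have : (⟨t, ht⟩ : Combinatorics.Line α (Fin (m + N))) a = coll a t := by
      funext p
      rfl
    rw [this]
    exact h
  have h1 := hB _ hLF
  have h2 : cnt (fun x : Fin (m + N) → α => x ∈ A) = A.card := by
    classical
    unfold cnt
    have h : ∀ x : Fin (m + N) → α, ind (x ∈ A) = if x ∈ A then (1:ℝ) else 0 := by
      intro x
      by_cases hx : x ∈ A
      · rw [ind_true hx, if_pos hx]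
      · rw [ind_false hx, if_neg hx]
    rw [Finset.sum_congr rfl (fun x _ => h x), Finset.sum_ite_mem, Finset.univ_inter]
    simp
  rw [h2] at h1
  have h3 : (Fintype.card (Fin (m + N) → α) : ℝ) = (Fintype.card α : ℝ) ^ (m + N) := by
    rw [Fintype.card_fun, Fintype.card_fin]
    push_cast
    rfl
  rw [h3] at h1
  have h4 : 0 < (Fintype.card α : ℝ) ^ (m + N) := by
    have : 0 < Fintype.card α := Fintype.card_pos
    positivity
  nlinarith


end Pool.Agent.Helper861.DHJ
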