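import Mathlib

set_option autoImplicit false

/-!
# Generic orthogonal representations along an ordering

`N k ⊆ range k` is the set of earlier vertices to which vertex `k` has to be orthogonal.
`conf N t` is the sequential construction: the `k`-th vector is a (scaled) projection of the free
parameter `t k` to the orthogonal complement of the vectors of `N k`.
-/

open Matrix Finset

namespace Pool.Agent.Helper861.Delta

section Ring

variable {A : Type*} [CommRing A] {B : Type*} [CommRing B]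

/-- The Gram matrix of the vectors indexed by `S`. -/
def gram {r : ℕ} (v : ℕ → Fin r → A) (S : Finset ℕ) : Matrix S S A :=
  Matrix.of fun i j => v i ⬝ᵥ v j

/-- `det (gram v S)` times the projection of `x` to the complement of the `v i`, `i ∈ S`. -/
noncomputable def proj {r : ℕ} (S : Finset ℕ) (v : ℕ → Fin r → A) (x : Fin r → A) : Fin r → A :=
  (gram v S).det • x -
    ∑ i : S, (((gram v S).adjugate *ᵥ fun j : S => v j ⬝ᵥ x) i) • v i

theorem proj_orth {r : ℕ} (S : Finset ℕ) (v : ℕ → Fin r → A) (x : Fin r → A) (l : ℕ)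
    (hl : l ∈ S) : v l ⬝ᵥ proj S v x = 0 := by
  have h1 : (gram v S) *ᵥ ((gram v S).adjugate *ᵥ fun j : S => v j ⬝ᵥ x)
      = (gram v S).det • (fun j : S => v j ⬝ᵥ x) := by
    rw [Matrix.mulVec_mulVec, Matrix.mul_adjugate, Matrix.smul_mulVec, Matrix.one_mulVec]
  have h2 := congrFun h1 ⟨l, hl⟩
  unfold proj
  rw [dotProduct_sub, dotProduct_smul, dotProduct_sum]
  simp only [dotProduct_smul, smul_eq_mul]
  simp only [Matrix.mulVec, Pi.smul_apply, smul_eq_mul] at h2
  rw [← h2, sub_eq_zero]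
  unfold dotProduct
  refine Finset.sum_congr rfl fun i _ => ?_
  simp only [gram, Matrix.of_apply, dotProduct, Matrix.mulVec]
  ring

theorem proj_of_orth {r : ℕ} (S : Finset ℕ) (v : ℕ → Fin r → A) (x : Fin r → A)
    (h : ∀ j ∈ S, v j ⬝ᵥ x = 0) : proj S v x = (gram v S).det • x := by
  unfold proj
  have : (fun j : S => v j ⬝ᵥ x) = 0 := by
    funext j
    exact h j j.2
  rw [this, Matrix.mulVec_zero]
  simp

theorem gram_congr {r : ℕ} {S : Finset ℕ} {v v' : ℕ → Fin r → A} (h : ∀ i ∈ S, v i = v' i) :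
    gram v S = gram v' S := by
  ext i j
  simp only [gram, Matrix.of_apply]
  rw [h i i.2, h j j.2]

theorem proj_congr {r : ℕ} {S : Finset ℕ} {v v' : ℕ → Fin r → A} {x x' : Fin r → A}
    (h : ∀ i ∈ S, v i = v' i) (hx : x = x') : proj S v x = proj S v' x' := by
  subst hx
  unfold proj
  rw [gram_congr h]
  have h1 : (fun j : S => v j ⬝ᵥ x) = (fun j : S => v' j ⬝ᵥ x) := by
    funext j
    rw [h j j.2]
  rw [h1]
  congr 1
  refine Finset.sum_congr rfl fun i _ => ?_
  rw [h i i.2]

theorem map_dot {r : ℕ} (φ : A →+* B) (x y : Fin r → A) :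
    φ (x ⬝ᵥ y) = (fun i => φ (x i)) ⬝ᵥ (fun i => φ (y i)) := by
  simp [dotProduct, map_sum, map_mul]

theorem map_gram {r : ℕ} (φ : A →+* B) (v : ℕ → Fin r → A) (S : Finset ℕ) :
    φ.mapMatrix (gram v S) = gram (fun k i => φ (v k i)) S := by
  ext i j
  simp only [RingHom.mapMatrix_apply, Matrix.map_apply, gram, Matrix.of_apply]
  exact map_dot φ _ _

theorem map_proj {r : ℕ} (φ : A →+* B) (S : Finset ℕ) (v : ℕ → Fin r → A) (x : Fin r → A) :
    (fun k => φ (proj S v x k)) = proj S (fun k i => φ (v k i)) (fun k => φ (x k)) := by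
  funext k
  unfold proj
  rw [← map_gram φ v S, ← RingHom.map_det, ← RingHom.map_adjugate]
  simp only [Pi.sub_apply, Pi.smul_apply, smul_eq_mul, Finset.sum_apply, map_sub, map_mul, map_sum]
  congr 1
  refine Finset.sum_congr rfl fun i _ => ?_
  congr 1
  simp only [Matrix.mulVec, dotProduct, map_sum, map_mul, RingHom.mapMatrix_apply,
    Matrix.map_apply]

/-- The sequential construction. -/
noncomputable def conf {r : ℕ} (N : ℕ → Finset ℕ) (t : ℕ → Fin r → A) : ℕ → Fin r → A
  | k => proj (N k) (fun j => if _h : j < k then conf N t j else 0) (t k)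
  termination_by k => k

theorem conf_eq {r : ℕ} {N : ℕ → Finset ℕ} (hN : ∀ k, N k ⊆ range k) (t : ℕ → Fin r → A)
    (k : ℕ) : conf N t k = proj (N k) (conf N t) (t k) := by
  conv_lhs => rw [conf]
  refine proj_congr (fun i hi => ?_) rfl
  have : i < k := Finset.mem_range.mp (hN k hi)
  simp [this]

theorem conf_orth {r : ℕ} {N : ℕ → Finset ℕ} (hN : ∀ k, N k ⊆ range k) (t : ℕ → Fin r → A)
    (k l : ℕ) (hl : l ∈ N k) : conf N t l ⬝ᵥ conf N t k = 0 := by
  rw [conf_eq hN t k]
  exact proj_orth _ _ _ _ hl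

theorem conf_map {r : ℕ} {N : ℕ → Finset ℕ} (hN : ∀ k, N k ⊆ range k) (φ : A →+* B)
    (t : ℕ → Fin r → A) (k : ℕ) :
    (fun i => φ (conf N t k i)) = conf N (fun k i => φ (t k i)) k := by
  induction k using Nat.strong_induction_on with
  | _ k ih =>
    rw [conf_eq hN t k, conf_eq hN _ k, map_proj φ]
    refine proj_congr (fun i hi => ?_) rfl
    exact ih i (Finset.mem_range.mp (hN k hi))

theorem conf_congr {r : ℕ} {N : ℕ → Finset ℕ} (hN : ∀ k, N k ⊆ range k)
    {t t' : ℕ → Fin r → A} (k : ℕ) (h : ∀ j ≤ k, t j = t' j) : conf N t k = conf N t' k := by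
  induction k using Nat.strong_induction_on with
  | _ k ih =>
    rw [conf_eq hN t k, conf_eq hN _ k]
    refine proj_congr (fun i hi => ?_) (h k le_rfl)
    have hik := Finset.mem_range.mp (hN k hi)
    exact ih i hik fun j hj => h j (by omega)

/-- embedding of `A^r` in `A^(r+1)` -/
def emb {r : ℕ} (x : Fin r → A) : Fin (r + 1) → A := Fin.snoc x 0

theorem emb_dot {r : ℕ} (x y : Fin r → A) : emb x ⬝ᵥ emb y = x ⬝ᵥ y := by
  simp [emb, dotProduct, Fin.sum_univ_castSucc]

theorem emb_smul {r : ℕ} (a : A) (x : Fin r → A) : emb (a • x) = a • emb x := by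
  funext i
  refine Fin.lastCases ?_ (fun j => ?_) i
  · simp [emb]
  · simp [emb]

theorem emb_sub {r : ℕ} (x y : Fin r → A) : emb (x - y) = emb x - emb y := by
  funext i
  refine Fin.lastCases ?_ (fun j => ?_) i
  · simp [emb]
  · simp [emb]

theorem emb_sum {r : ℕ} {ι : Type*} (s : Finset ι) (f : ι → Fin r → A) :
    emb (∑ i ∈ s, f i) = ∑ i ∈ s, emb (f i) := by
  funext i
  refine Fin.lastCases ?_ (fun j => ?_) i
  · simp [emb]
  · simp [emb]

theorem emb_gram {r : ℕ} (S : Finset ℕ) (v : ℕ → Fin r → A) :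
    gram (fun k => emb (v k)) S = gram v S := by
  ext i j
  simp only [gram, Matrix.of_apply, emb_dot]

theorem emb_proj {r : ℕ} (S : Finset ℕ) (v : ℕ → Fin r → A) (x : Fin r → A) :
    proj S (fun k => emb (v k)) (emb x) = emb (proj S v x) := by
  unfold proj
  rw [emb_gram, emb_sub, emb_smul, emb_sum]
  congr 1
  refine Finset.sum_congr rfl fun i _ => ?_
  rw [emb_smul]
  simp only [emb_dot]

theorem emb_conf {r : ℕ} {N : ℕ → Finset ℕ} (hN : ∀ k, N k ⊆ range k)
    (t : ℕ → Fin r → A) (t' : ℕ → Fin (r + 1) → A) (k : ℕ) (h : ∀ j ≤ k, t' j = emb (t j)) :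
    conf N t' k = emb (conf N t k) := by
  induction k using Nat.strong_induction_on with
  | _ k ih =>
    rw [conf_eq hN t k, conf_eq hN t' k, ← emb_proj]
    refine proj_congr (fun i hi => ?_) (h k le_rfl)
    have hik := Finset.mem_range.mp (hN k hi)
    exact ih i hik fun j hj => h j (by omega)

end Ring

end Pool.Agent.Helper861.Delta
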