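import Pool.Agent.Helper861.DeltaA

set_option autoImplicit false

open Matrix Finset

namespace Pool.Agent.Helper861.Delta

/-- The matrix of inner products of the vectors of `S` and of `Y`, the columns being indexed by `S`
through the bijection `e`. -/
def gm {A : Type*} [CommRing A] {r : ℕ} (v : ℕ → Fin r → A) (S Y : Finset ℕ) (e : S ≃ Y) :
    Matrix S S A :=
  Matrix.of fun i j => v i ⬝ᵥ v (e j)

theorem map_gm {A B : Type*} [CommRing A] [CommRing B] {r : ℕ} (φ : A →+* B)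
    (v : ℕ → Fin r → A) (S Y : Finset ℕ) (e : S ≃ Y) :
    φ.mapMatrix (gm v S Y e) = gm (fun k i => φ (v k i)) S Y e := by
  ext i j
  simp only [RingHom.mapMatrix_apply, Matrix.map_apply, gm, Matrix.of_apply]
  exact map_dot φ _ _

variable {F : Type*} [Field F]

/-- The rows indexed by `S` of the matrix of inner products `S × Y` are independent. -/
def RI {r : ℕ} (v : ℕ → Fin r → F) (S Y : Finset ℕ) : Prop :=
  ∀ a : ℕ → F, (∀ y ∈ Y, ∑ i ∈ S, a i * (v i ⬝ᵥ v y) = 0) → ∀ i ∈ S, a i = 0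

theorem RI_iff {r : ℕ} (v : ℕ → Fin r → F) (S Y : Finset ℕ) (e : S ≃ Y) :
    (gm v S Y e).det ≠ 0 ↔ RI v S Y := by
  constructor
  · intro hdet a ha
    have h1 : (fun i : S => a i) ᵥ* gm v S Y e = 0 := by
      funext j
      have := ha (e j) (e j).2
      rw [← Finset.sum_coe_sort] at this
      simpa [Matrix.vecMul, dotProduct, gm] using this
    have h2 : (fun i : S => a i) = 0 := by
      by_contra hne
      exact hdet (Matrix.exists_vecMul_eq_zero_iff.mp ⟨_, hne, h1⟩)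
    intro i hi
    exact congrFun h2 ⟨i, hi⟩
  · intro hRI hdet
    obtain ⟨w, hw, hw0⟩ := Matrix.exists_vecMul_eq_zero_iff.mpr hdet
    apply hw
    have h1 := hRI (fun n => if h : n ∈ S then w ⟨n, h⟩ else 0) (fun y hy => by
      have h2 := congrFun hw0 (e.symm ⟨y, hy⟩)
      rw [← Finset.sum_coe_sort]
      simpa [Matrix.vecMul, dotProduct, gm] using h2)
    funext i
    have := h1 i i.2
    simpa using this

theorem RI_symm {r : ℕ} {v : ℕ → Fin r → F} {S Y : Finset ℕ} (h : S.card = Y.card)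
    (hRI : RI v S Y) : RI v Y S := by
  let e : S ≃ Y := Finset.equivOfCardEq h
  rw [← RI_iff v Y S e.symm]
  rw [← RI_iff v S Y e] at hRI
  have : gm v Y S e.symm = ((gm v S Y e)ᵀ).submatrix e.symm e.symm := by
    ext i j
    simp only [gm, Matrix.of_apply, Matrix.submatrix_apply, Matrix.transpose_apply,
      Equiv.apply_symm_apply]
    exact dotProduct_comm _ _
  rw [this, Matrix.det_submatrix_equiv_self, Matrix.det_transpose]
  exact hRI

theorem RI_mono_left {r : ℕ} {v : ℕ → Fin r → F} {S S' Y : Finset ℕ} (h : S' ⊆ S)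
    (hRI : RI v S Y) : RI v S' Y := by
  classical
  intro a ha
  have h1 := hRI (fun n => if n ∈ S' then a n else 0) (fun y hy => by
    refine Eq.trans ?_ (ha y hy)
    refine (Finset.sum_subset h ?_).symm.trans ?_
    · intro i _ hi
      simp [hi]
    · refine Finset.sum_congr rfl fun i hi => ?_
      simp [hi])
  intro i hi
  have := h1 i (h hi)
  simpa [hi] using this

theorem RI_gram {r : ℕ} (v : ℕ → Fin r → F) (S : Finset ℕ) :
    (gram v S).det ≠ 0 ↔ RI v S S := by
  rw [← RI_iff v S S (Equiv.refl _)]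
  rfl

/-- Evaluation of a polynomial at the parameters `t`. -/
noncomputable def ev {r : ℕ} (t : ℕ → Fin r → F) : MvPolynomial (ℕ × Fin r) F →+* F :=
  MvPolynomial.eval fun q => t q.1 q.2

/-- The universal parameters. -/
noncomputable def tX (F : Type*) [Field F] (r : ℕ) : ℕ → Fin r → MvPolynomial (ℕ × Fin r) F :=
  fun k i => MvPolynomial.X (k, i)

theorem ev_tX {r : ℕ} (t : ℕ → Fin r → F) : (fun k i => ev t (tX F r k i)) = t := by
  funext k i
  simp [ev, tX]

/-- Zariski open sets defined by one polynomial. -/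
def ZO {r : ℕ} (P : (ℕ → Fin r → F) → Prop) : Prop :=
  ∃ p : MvPolynomial (ℕ × Fin r) F, ∀ t, (ev t p ≠ 0 ↔ P t)

theorem ZO.and {r : ℕ} {P Q : (ℕ → Fin r → F) → Prop} (hP : ZO P) (hQ : ZO Q) :
    ZO (fun t => P t ∧ Q t) := by
  obtain ⟨p, hp⟩ := hP
  obtain ⟨q, hq⟩ := hQ
  refine ⟨p * q, fun t => ?_⟩
  rw [map_mul, mul_ne_zero_iff, hp, hq]

theorem ZO.exists_and [Infinite F] {r : ℕ} {P Q : (ℕ → Fin r → F) → Prop} (hP : ZO P) (hQ : ZO Q)
    (h1 : ∃ t, P t) (h2 : ∃ t, Q t) : ∃ t, P t ∧ Q t := by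
  obtain ⟨p, hp⟩ := hP
  obtain ⟨q, hq⟩ := hQ
  obtain ⟨t1, ht1⟩ := h1
  obtain ⟨t2, ht2⟩ := h2
  have hp0 : p ≠ 0 := by
    rintro rfl
    exact (hp t1).mpr ht1 (map_zero _)
  have hq0 : q ≠ 0 := by
    rintro rfl
    exact (hq t2).mpr ht2 (map_zero _)
  have hpq : p * q ≠ 0 := mul_ne_zero hp0 hq0
  obtain ⟨x, hx⟩ : ∃ x : ℕ × Fin r → F, MvPolynomial.eval x (p * q) ≠ 0 := by
    by_contra hcon
    push Not at hcon
    apply hpq
    apply MvPolynomial.funext
    intro x
    rw [hcon x, map_zero]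
  refine ⟨fun k i => x (k, i), ?_⟩
  have hx' : ev (fun k i => x (k, i)) (p * q) ≠ 0 := hx
  rw [map_mul, mul_ne_zero_iff, hp, hq] at hx'
  exact hx'

theorem ZO_RI {r : ℕ} {N : ℕ → Finset ℕ} (hN : ∀ k, N k ⊆ range k) {S Y : Finset ℕ}
    (h : S.card = Y.card) : ZO (fun t : ℕ → Fin r → F => RI (conf N t) S Y) := by
  let e : S ≃ Y := Finset.equivOfCardEq h
  refine ⟨(gm (conf N (tX F r)) S Y e).det, fun t => ?_⟩
  rw [RingHom.map_det, map_gm]
  have : (fun k i => ev t (conf N (tX F r) k i)) = conf N t := by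
    funext k
    rw [conf_map hN (ev t) (tX F r) k, ev_tX]
  rw [this]
  exact RI_iff _ _ _ e

theorem ZO_dot {r : ℕ} {N : ℕ → Finset ℕ} (hN : ∀ k, N k ⊆ range k) (i j : ℕ) :
    ZO (fun t : ℕ → Fin r → F => conf N t i ⬝ᵥ conf N t j ≠ 0) := by
  refine ⟨conf N (tX F r) i ⬝ᵥ conf N (tX F r) j, fun t => ?_⟩
  rw [map_dot]
  have : ∀ k, (fun i => ev t (conf N (tX F r) k i)) = conf N t k := by
    intro k
    rw [conf_map hN (ev t) (tX F r) k, ev_tX]
  rw [this, this]

theorem ZO_true {r : ℕ} : ZO (fun _ : ℕ → Fin r → F => True) := ⟨1, fun t => by simp⟩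

/-- Finitely many nonempty Zariski open conditions can be satisfied together. -/
theorem exists_all [Infinite F] {r : ℕ} {ι : Type*} (s : Finset ι)
    (P : ι → (ℕ → Fin r → F) → Prop) (hZ : ∀ i ∈ s, ZO (P i)) (hex : ∀ i ∈ s, ∃ t, P i t) :
    ∃ t, ∀ i ∈ s, P i t := by
  classical
  have key : ∀ s' : Finset ι, s' ⊆ s →
      ZO (fun t => ∀ i ∈ s', P i t) ∧ ∃ t, ∀ i ∈ s', P i t := by
    intro s'
    induction s' using Finset.induction_on with
    | empty =>
      intro _
      refine ⟨?_, ⟨fun _ _ => 0, by simp⟩⟩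
      simpa using (ZO_true (F := F) (r := r))
    | insert a s' ha ih =>
      intro hs
      have ha' := hs (Finset.mem_insert_self a s')
      obtain ⟨h1, h2⟩ := ih fun x hx => hs (Finset.mem_insert_of_mem hx)
      have h3 := (hZ a ha').and h1
      have h4 := (hZ a ha').exists_and h1 (hex a ha') h2
      simp only [Finset.forall_mem_insert]
      exact ⟨h3, h4⟩
  exact (key s subset_rfl).2

/-- Duality: a vector outside the span of the `v i`, `i ∈ S`, is detected by a vector orthogonal to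
all `v i`. -/
theorem exists_orth {r : ℕ} (S : Finset ℕ) (v : ℕ → Fin r → F) (x : Fin r → F)
    (hx : ∀ c : ℕ → F, x ≠ ∑ i ∈ S, c i • v i) :
    ∃ z : Fin r → F, (∀ i ∈ S, v i ⬝ᵥ z = 0) ∧ x ⬝ᵥ z ≠ 0 := by
  classical
  have h1 : x ∉ Submodule.span F (v '' (S : Set ℕ)) := by
    intro hmem
    rw [Submodule.mem_span_image_finset_iff_exists_fun] at hmem
    obtain ⟨c, hc⟩ := hmem
    refine hx (fun n => if h : n ∈ S then c ⟨n, h⟩ else 0) ?_
    rw [← hc]
    refine Eq.trans ?_ (Finset.sum_coe_sort S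
      (fun i => (if h : i ∈ S then c ⟨i, h⟩ else 0) • v i))
    refine Finset.sum_congr rfl fun i _ => ?_
    simp
  obtain ⟨f, hf1, hf2⟩ := Submodule.exists_le_ker_of_notMem h1
  have hf : ∀ y : Fin r → F, y ⬝ᵥ (fun i => f (Pi.single i 1)) = f y := by
    intro y
    rw [LinearMap.pi_apply_eq_sum_univ f y]
    simp only [dotProduct, smul_eq_mul]
    refine Finset.sum_congr rfl fun i _ => ?_
    congr 2
    funext j
    simp [Pi.single_apply, eq_comm]
  refine ⟨fun i => f (Pi.single i 1), fun i hi => ?_, ?_⟩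
  · rw [hf]
    have : v i ∈ Submodule.span F (v '' (S : Set ℕ)) :=
      Submodule.subset_span ⟨i, hi, rfl⟩
    exact hf2 this
  · rw [hf]
    exact hf1

end Pool.Agent.Helper861.Delta
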