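import Pool.Agent.Helper861.DeltaB

set_option autoImplicit false

open Matrix Finset

namespace Pool.Agent.Helper861.Delta

/-- The family of index sets for which the Gram determinants will be shown to be generically
nonzero. -/
def Adm (N : ℕ → Finset ℕ) (m : ℕ) (Y : Finset ℕ) : Prop :=
  Y ⊆ range m ∧ ∀ i < m, (N i).card ≤ (Y ∩ range i).card

theorem Adm.superset {N : ℕ → Finset ℕ} {m : ℕ} {Y Y' : Finset ℕ} (h : Adm N m Y)
    (h1 : Y ⊆ Y') (h2 : Y' ⊆ range m) : Adm N m Y' :=
  ⟨h2, fun i hi => (h.2 i hi).trans (Finset.card_le_card (Finset.inter_subset_inter_right h1))⟩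

theorem Adm.down {N : ℕ → Finset ℕ} {z : ℕ} {Y : Finset ℕ} (h : Adm N (z + 1) Y) (hz : z ∉ Y) :
    Adm N z Y := by
  refine ⟨fun x hx => ?_, fun i hi => h.2 i (by omega)⟩
  have h1 := Finset.mem_range.mp (h.1 hx)
  have h2 : x ≠ z := fun e => hz (e ▸ hx)
  exact Finset.mem_range.mpr (by omega)

theorem Adm.erase {N : ℕ → Finset ℕ} {z : ℕ} {Y : Finset ℕ} (h : Adm N (z + 1) Y) :
    Adm N z (Y.erase z) := by
  refine ⟨fun x hx => ?_, fun i hi => ?_⟩
  · have h1 := Finset.mem_range.mp (h.1 (Finset.mem_of_mem_erase hx))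
    have h2 := Finset.ne_of_mem_erase hx
    exact Finset.mem_range.mpr (by omega)
  · refine (h.2 i (by omega)).trans (Finset.card_le_card ?_)
    intro x hx
    rw [Finset.mem_inter] at hx ⊢
    refine ⟨Finset.mem_erase.mpr ⟨?_, hx.1⟩, hx.2⟩
    have := Finset.mem_range.mp hx.2
    omega

theorem Adm.card_le {N : ℕ → Finset ℕ} {z : ℕ} {Y : Finset ℕ} (h : Adm N (z + 1) Y) :
    (N z).card ≤ (Y.erase z).card := by
  refine (h.2 z (by omega)).trans (Finset.card_le_card ?_)
  intro x hx
  rw [Finset.mem_inter] at hx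
  refine Finset.mem_erase.mpr ⟨?_, hx.1⟩
  have := Finset.mem_range.mp hx.2
  omega

theorem Adm_N {N : ℕ → Finset ℕ} (hN : ∀ k, N k ⊆ range k)
    (hMA : ∀ i k, i < k → (N i).card ≤ (N k ∩ range i).card) (k : ℕ) : Adm N k (N k) :=
  ⟨hN k, fun i hi => hMA i k hi⟩

variable {F : Type*} [Field F]

theorem RI_solve {r : ℕ} {v : ℕ → Fin r → F} {S Y : Finset ℕ} (h : S.card = Y.card)
    (hRI : RI v S Y) (b : ℕ → F) :
    ∃ a : ℕ → F, ∀ y ∈ Y, ∑ i ∈ S, a i * (v i ⬝ᵥ v y) = b y := by
  let e : S ≃ Y := Finset.equivOfCardEq h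
  have hdet := (RI_iff v S Y e).mpr hRI
  have hu : IsUnit (gm v S Y e).det := isUnit_iff_ne_zero.mpr hdet
  refine ⟨fun n => if h : n ∈ S then ((fun j : S => b (e j)) ᵥ* (gm v S Y e)⁻¹) ⟨n, h⟩ else 0,
    fun y hy => ?_⟩
  have h1 : ((fun j : S => b (e j)) ᵥ* (gm v S Y e)⁻¹) ᵥ* (gm v S Y e)
      = (fun j : S => b (e j)) := by
    rw [Matrix.vecMul_vecMul, Matrix.nonsing_inv_mul _ hu, Matrix.vecMul_one]
  have h2 := congrFun h1 (e.symm ⟨y, hy⟩)
  rw [← Finset.sum_coe_sort]
  have h3 : b y = b (e (e.symm ⟨y, hy⟩)) := by simp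
  rw [h3, ← h2]
  simp only [Matrix.vecMul, dotProduct, gm, Matrix.of_apply, Equiv.apply_symm_apply]
  refine Finset.sum_congr rfl fun i _ => ?_
  simp

theorem sum_smul_dot {r : ℕ} (S : Finset ℕ) (a : ℕ → F) (v : ℕ → Fin r → F) (x : Fin r → F) :
    (∑ i ∈ S, a i • v i) ⬝ᵥ x = ∑ i ∈ S, a i * (v i ⬝ᵥ x) := by
  rw [sum_dotProduct]
  refine Finset.sum_congr rfl fun i _ => ?_
  rw [smul_dotProduct, smul_eq_mul]

/-- If `x` is orthogonal to `Y0`, nonzero, and the rows of `S` are independent over `Y0`, then `x`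
is detected by a vector orthogonal to `S`. -/
theorem exists_orth' {r : ℕ} {S Y0 : Finset ℕ} {v : ℕ → Fin r → F} (hRI : RI v S Y0)
    (x : Fin r → F) (hx : ∀ y ∈ Y0, x ⬝ᵥ v y = 0) (hx0 : x ≠ 0) :
    ∃ z : Fin r → F, (∀ i ∈ S, v i ⬝ᵥ z = 0) ∧ x ⬝ᵥ z ≠ 0 := by
  apply exists_orth
  intro c hc
  apply hx0
  have h1 : ∀ i ∈ S, c i = 0 := by
    apply hRI
    intro y hy
    rw [← sum_smul_dot, ← hc]
    exact hx y hy
  rw [hc]
  refine Finset.sum_eq_zero fun i hi => ?_
  rw [h1 i hi, zero_smul]

theorem conf_update_lt {r : ℕ} {N : ℕ → Finset ℕ} (hN : ∀ k, N k ⊆ range k)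
    (t : ℕ → Fin r → F) (z : ℕ) (x : Fin r → F) (k : ℕ) (hk : k < z) :
    conf N (Function.update t z x) k = conf N t k := by
  refine conf_congr hN k fun j hj => ?_
  exact Function.update_of_ne (by omega) _ _

theorem conf_update_self {r : ℕ} {N : ℕ → Finset ℕ} (hN : ∀ k, N k ⊆ range k)
    (t : ℕ → Fin r → F) (z : ℕ) (x : Fin r → F) (hx : ∀ i ∈ N z, conf N t i ⬝ᵥ x = 0) :
    conf N (Function.update t z x) z = (gram (conf N t) (N z)).det • x := by
  rw [conf_eq hN, Function.update_self]
  rw [← proj_of_orth (N z) (conf N t) x hx]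
  refine proj_congr (fun i hi => ?_) rfl
  exact conf_update_lt hN t z x i (Finset.mem_range.mp (hN z hi))

/-- The case where the last vertex lies in exactly one of the two sets. -/
theorem step2 [Infinite F] {N : ℕ → Finset ℕ} (hN : ∀ k, N k ⊆ range k)
    (hMA : ∀ i k, i < k → (N i).card ≤ (N k ∩ range i).card) (z r : ℕ)
    (IH : ∀ S Y, Adm N z S → Adm N z Y → S.card = Y.card → Y.card < r →
      ∃ t : ℕ → Fin r → F, RI (conf N t) S Y)
    (S Y0 : Finset ℕ) (hS : Adm N z S) (hY : Adm N z Y0) (hc : S.card = Y0.card + 1)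
    (hr : S.card < r) (hz : (N z).card ≤ Y0.card) :
    ∃ t : ℕ → Fin r → F, RI (conf N t) S (insert z Y0) := by
  classical
  obtain ⟨w, hwS, hwY⟩ := Finset.exists_mem_notMem_of_card_lt_card
    (show Y0.card < S.card by omega)
  have hY1 : Adm N z (insert w Y0) :=
    hY.superset (Finset.subset_insert _ _) (Finset.insert_subset (hS.1 hwS) hY.1)
  have hY1c : S.card = (insert w Y0).card := by
    rw [Finset.card_insert_of_notMem hwY, hc]
  have hYr : Y0.card ≤ (range z).card := Finset.card_le_card hY.1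
  obtain ⟨S1, hS1a, hS1b, hS1c⟩ := Finset.exists_subsuperset_card_eq (hN z) hz hYr
  have hS1 : Adm N z S1 := (Adm_N hN hMA z).superset hS1a hS1b
  have e1 := IH S (insert w Y0) hS hY1 hY1c (by omega)
  have e2 := IH S1 Y0 hS1 hY hS1c (by omega)
  have e3 := IH (N z) (N z) (Adm_N hN hMA z) (Adm_N hN hMA z) rfl (by omega)
  have z1 := ZO_RI (F := F) (r := r) hN hY1c
  have z2 := ZO_RI (F := F) (r := r) hN hS1c
  have z3 := ZO_RI (F := F) (r := r) hN (S := N z) (Y := N z) rfl
  obtain ⟨t, h1, h2, h3⟩ := z1.exists_and (z2.and z3) e1 (z2.exists_and z3 e2 e3)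
  obtain ⟨a, ha⟩ := RI_solve hY1c h1 (fun y => if y = w then 1 else 0)
  set v := conf N t with hv
  have hζ : ∀ y ∈ Y0, (∑ i ∈ S, a i • v i) ⬝ᵥ v y = 0 := by
    intro y hy
    rw [sum_smul_dot, ha y (Finset.mem_insert_of_mem hy), if_neg]
    exact fun e => hwY (e ▸ hy)
  have hζw : (∑ i ∈ S, a i • v i) ⬝ᵥ v w = 1 := by
    rw [sum_smul_dot, ha w (Finset.mem_insert_self _ _), if_pos rfl]
  have hζ0 : (∑ i ∈ S, a i • v i) ≠ 0 := by
    intro h0
    rw [h0, zero_dotProduct] at hζw
    exact zero_ne_one hζw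
  obtain ⟨x, hx1, hx2⟩ := exists_orth' (RI_mono_left hS1a h2) _ hζ hζ0
  have hD : (gram v (N z)).det ≠ 0 := (RI_gram v (N z)).mpr h3
  refine ⟨Function.update t z x, ?_⟩
  intro b hb
  have hlt : ∀ k, k ∈ range z → conf N (Function.update t z x) k = v k := fun k hk =>
    conf_update_lt hN t z x k (Finset.mem_range.mp hk)
  have hb1 : ∀ y ∈ Y0, ∑ i ∈ S, b i * (v i ⬝ᵥ v y) = 0 := by
    intro y hy
    refine Eq.trans ?_ (hb y (Finset.mem_insert_of_mem hy))
    refine Finset.sum_congr rfl fun i hi => ?_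
    rw [hlt i (hS.1 hi), hlt y (hY.1 hy)]
  have hb2 : ∑ i ∈ S, b i * (v i ⬝ᵥ x) = 0 := by
    have h4 := hb z (Finset.mem_insert_self _ _)
    rw [conf_update_self hN t z x hx1] at h4
    have h5 : (gram v (N z)).det * ∑ i ∈ S, b i * (v i ⬝ᵥ x) = 0 := by
      refine Eq.trans ?_ h4
      rw [Finset.mul_sum]
      refine Finset.sum_congr rfl fun i hi => ?_
      rw [hlt i (hS.1 hi), dotProduct_smul, smul_eq_mul]
      ring
    exact (mul_eq_zero.mp h5).resolve_left hD
  set β := ∑ i ∈ S, b i * (v i ⬝ᵥ v w) with hβ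
  have h6 : ∀ i ∈ S, b i - β * a i = 0 := by
    apply h1
    intro y hy
    have h7 : ∑ i ∈ S, (b i - β * a i) * (v i ⬝ᵥ v y)
        = ∑ i ∈ S, b i * (v i ⬝ᵥ v y) - β * ∑ i ∈ S, a i * (v i ⬝ᵥ v y) := by
      rw [Finset.mul_sum, ← Finset.sum_sub_distrib]
      refine Finset.sum_congr rfl fun i _ => ?_
      ring
    rw [h7, ha y hy]
    rcases Finset.mem_insert.mp hy with rfl | hy0
    · rw [if_pos rfl, ← hβ]
      ring
    · rw [if_neg (fun e : y = w => hwY (e ▸ hy0)), hb1 y hy0]
      ring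
  have h8 : β * ((∑ i ∈ S, a i • v i) ⬝ᵥ x) = 0 := by
    rw [sum_smul_dot, Finset.mul_sum]
    refine Eq.trans ?_ hb2
    refine Finset.sum_congr rfl fun i hi => ?_
    rw [sub_eq_zero.mp (h6 i hi)]
    ring
  have h9 : β = 0 := (mul_eq_zero.mp h8).resolve_right hx2
  intro i hi
  have := h6 i hi
  rw [h9] at this
  simpa using this

/-- The case where the last vertex lies in both sets. -/
theorem step4 [Infinite F] {N : ℕ → Finset ℕ} (hN : ∀ k, N k ⊆ range k)
    (hMA : ∀ i k, i < k → (N i).card ≤ (N k ∩ range i).card) (z r : ℕ)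
    (IH : ∀ S Y, Adm N z S → Adm N z Y → S.card = Y.card → Y.card < r →
      ∃ t : ℕ → Fin r → F, RI (conf N t) S Y)
    (S0 Y0 : Finset ℕ) (hS : Adm N z S0) (hY : Adm N z Y0) (hc : S0.card = Y0.card)
    (hr : Y0.card < r) (hz : (N z).card ≤ Y0.card) :
    ∃ t : ℕ → Fin (r + 1) → F, RI (conf N t) (insert z S0) (insert z Y0) := by
  classical
  have e1 := IH S0 Y0 hS hY hc hr
  have e3 := IH (N z) (N z) (Adm_N hN hMA z) (Adm_N hN hMA z) rfl (by omega)
  have z1 := ZO_RI (F := F) (r := r) hN hc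
  have z3 := ZO_RI (F := F) (r := r) hN (S := N z) (Y := N z) rfl
  obtain ⟨t, h1, h3⟩ := z1.exists_and z3 e1 e3
  set v := conf N t with hv
  have hD : (gram v (N z)).det ≠ 0 := (RI_gram v (N z)).mpr h3
  let e : Fin (r + 1) → F := Pi.single (Fin.last r) 1
  let t' : ℕ → Fin (r + 1) → F := fun k => if k < z then emb (t k) else e
  have hlt : ∀ k, k ∈ range z → conf N t' k = emb (v k) := by
    intro k hk
    have hk' := Finset.mem_range.mp hk
    refine emb_conf hN t t' k fun j hj => ?_
    simp only [t']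
    rw [if_pos (by omega)]
  have hemb : ∀ x : Fin r → F, emb x ⬝ᵥ e = 0 := by
    intro x
    simp [emb, e]
  have hee : e ⬝ᵥ e = 1 := by
    simp [e]
  have hz' : conf N t' z = (gram v (N z)).det • e := by
    rw [conf_eq hN]
    have : t' z = e := by simp [t']
    rw [this]
    have hg : gram v (N z) = gram (conf N t') (N z) := by
      rw [← emb_gram]
      exact gram_congr fun i hi => (hlt i (hN z hi)).symm
    rw [hg]
    refine proj_of_orth _ _ _ fun j hj => ?_
    rw [hlt j (hN z hj)]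
    exact hemb _
  have hzS : z ∉ S0 := fun h => by
    have := Finset.mem_range.mp (hS.1 h)
    omega
  have hzY : z ∉ Y0 := fun h => by
    have := Finset.mem_range.mp (hY.1 h)
    omega
  refine ⟨t', ?_⟩
  intro a ha
  have ha1 : a z = 0 := by
    have h4 := ha z (Finset.mem_insert_self _ _)
    rw [Finset.sum_insert hzS, hz'] at h4
    have h5 : ∑ i ∈ S0, a i * (conf N t' i ⬝ᵥ ((gram v (N z)).det • e)) = 0 := by
      refine Finset.sum_eq_zero fun i hi => ?_
      rw [hlt i (hS.1 hi), dotProduct_smul, hemb, smul_zero, mul_zero]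
    rw [h5, add_zero, dotProduct_smul, smul_dotProduct, hee] at h4
    simp only [smul_eq_mul, mul_one] at h4
    rcases mul_eq_zero.mp h4 with h6 | h6
    · exact h6
    · rcases mul_eq_zero.mp h6 with h7 | h7 <;> exact absurd h7 hD
  have ha2 : ∀ i ∈ S0, a i = 0 := by
    apply h1
    intro y hy
    have h4 := ha y (Finset.mem_insert_of_mem hy)
    rw [Finset.sum_insert hzS, ha1, zero_mul, zero_add] at h4
    refine Eq.trans ?_ h4
    refine Finset.sum_congr rfl fun i hi => ?_
    rw [hlt i (hS.1 hi), hlt y (hY.1 hy), emb_dot]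
  intro i hi
  rcases Finset.mem_insert.mp hi with rfl | hi0
  · exact ha1
  · exact ha2 i hi0

/-- Generic nonvanishing of the Gram determinants of sizes smaller than the dimension. -/
theorem GR [Infinite F] {N : ℕ → Finset ℕ} (hN : ∀ k, N k ⊆ range k)
    (hMA : ∀ i k, i < k → (N i).card ≤ (N k ∩ range i).card) :
    ∀ (m r : ℕ) (S Y : Finset ℕ), Adm N m S → Adm N m Y → S.card = Y.card → Y.card < r →
      ∃ t : ℕ → Fin r → F, RI (conf N t) S Y := by
  intro m
  induction m with
  | zero =>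
    intro r S Y hS hY _ _
    refine ⟨fun _ _ => 0, ?_⟩
    intro a _ i hi
    have := hS.1 hi
    simp at this
  | succ z ih =>
    intro r S Y hS hY hc hr
    by_cases hzS : z ∈ S
    · by_cases hzY : z ∈ Y
      · obtain ⟨r', rfl⟩ : ∃ r', r = r' + 1 := ⟨r - 1, by omega⟩
        have h1 := step4 hN hMA z r' (ih r') (S.erase z) (Y.erase z) hS.erase hY.erase
          (by rw [Finset.card_erase_of_mem hzS, Finset.card_erase_of_mem hzY, hc])
          (by
            rw [Finset.card_erase_of_mem hzY]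
            have : 0 < Y.card := Finset.card_pos.mpr ⟨z, hzY⟩
            omega)
          hY.card_le
        rwa [Finset.insert_erase hzS, Finset.insert_erase hzY] at h1
      · have hpos : 0 < S.card := Finset.card_pos.mpr ⟨z, hzS⟩
        obtain ⟨t, ht⟩ := step2 hN hMA z r (ih r) Y (S.erase z) (hY.down hzY) hS.erase
          (by rw [Finset.card_erase_of_mem hzS]; omega) hr hS.card_le
        rw [Finset.insert_erase hzS] at ht
        exact ⟨t, RI_symm hc.symm ht⟩
    · by_cases hzY : z ∈ Y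
      · have hpos : 0 < Y.card := Finset.card_pos.mpr ⟨z, hzY⟩
        obtain ⟨t, ht⟩ := step2 hN hMA z r (ih r) S (Y.erase z) (hS.down hzS) hY.erase
          (by rw [Finset.card_erase_of_mem hzY]; omega) (by omega) hY.card_le
        rw [Finset.insert_erase hzY] at ht
        exact ⟨t, ht⟩
      · exact ih r S Y (hS.down hzS) (hY.down hzY) hc hr

/-- A vector orthogonal to fewer than `r` vectors. -/
theorem exists_ne_zero_orth {r : ℕ} (v : ℕ → Fin r → F) (Y : Finset ℕ) (h : Y.card < r) :
    ∃ x : Fin r → F, x ≠ 0 ∧ ∀ y ∈ Y, x ⬝ᵥ v y = 0 := by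
  classical
  let f : (Fin r → F) →ₗ[F] (Y → F) := (Matrix.of fun y : Y => v y).mulVecLin
  have hker : LinearMap.ker f ≠ ⊥ := by
    apply LinearMap.ker_ne_bot_of_finrank_lt
    simpa using h
  obtain ⟨x, hx, hx0⟩ := (Submodule.ne_bot_iff _).mp hker
  refine ⟨x, hx0, fun y hy => ?_⟩
  have h1 : f x = 0 := hx
  have h2 := congrFun h1 ⟨y, hy⟩
  rw [dotProduct_comm]
  exact h2

/-- Generic independence of sets whose size is the dimension. -/
theorem GR' [Infinite F] {N : ℕ → Finset ℕ} (hN : ∀ k, N k ⊆ range k)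
    (hMA : ∀ i k, i < k → (N i).card ≤ (N k ∩ range i).card) (r : ℕ) :
    ∀ (m : ℕ) (Y : Finset ℕ), Adm N m Y → Y.card = r →
      ∃ t : ℕ → Fin r → F, RI (conf N t) Y Y := by
  intro m
  induction m with
  | zero =>
    intro Y hY _
    refine ⟨fun _ _ => 0, ?_⟩
    intro a _ i hi
    have := hY.1 hi
    simp at this
  | succ z ih =>
    intro Y hY hr
    by_cases hzY : z ∈ Y
    · classical
      have hpos : 0 < Y.card := Finset.card_pos.mpr ⟨z, hzY⟩
      have hY0 : Adm N z (Y.erase z) := hY.erase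
      have hY0c : (Y.erase z).card = r - 1 := by rw [Finset.card_erase_of_mem hzY, hr]
      have hzc : (N z).card ≤ (Y.erase z).card := hY.card_le
      set Y0 := Y.erase z with hY0def
      have hYr : Y0.card ≤ (range z).card := Finset.card_le_card hY0.1
      obtain ⟨S1, hS1a, hS1b, hS1c⟩ := Finset.exists_subsuperset_card_eq (hN z) hzc hYr
      have hS1 : Adm N z S1 := (Adm_N hN hMA z).superset hS1a hS1b
      have e1 := GR (F := F) hN hMA z r S1 Y0 hS1 hY0 hS1c (by omega)
      have e2 := GR (F := F) hN hMA z r Y0 Y0 hY0 hY0 rfl (by omega)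
      have e3 := GR (F := F) hN hMA z r (N z) (N z) (Adm_N hN hMA z) (Adm_N hN hMA z) rfl
        (by omega)
      have z1 := ZO_RI (F := F) (r := r) hN hS1c
      have z2 := ZO_RI (F := F) (r := r) hN (S := Y0) (Y := Y0) rfl
      have z3 := ZO_RI (F := F) (r := r) hN (S := N z) (Y := N z) rfl
      obtain ⟨t, h1, h2, h3⟩ := z1.exists_and (z2.and z3) e1 (z2.exists_and z3 e2 e3)
      set v := conf N t with hv
      have hD : (gram v (N z)).det ≠ 0 := (RI_gram v (N z)).mpr h3
      obtain ⟨x0, hx00, hx0⟩ := exists_ne_zero_orth v Y0 (by omega)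
      obtain ⟨x, hx1, hx2⟩ := exists_orth' (RI_mono_left hS1a h1) x0 hx0 hx00
      refine ⟨Function.update t z x, ?_⟩
      set v' := conf N (Function.update t z x) with hv'
      have hlt : ∀ k, k ∈ range z → v' k = v k := fun k hk =>
        conf_update_lt hN t z x k (Finset.mem_range.mp hk)
      have hz' : v' z = (gram v (N z)).det • x := conf_update_self hN t z x hx1
      have hzY0 : z ∉ Y0 := Finset.notMem_erase z Y
      have hYins : Y = insert z Y0 := (Finset.insert_erase hzY).symm
      -- independence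
      have hind : ∀ b : ℕ → F, ∑ i ∈ Y, b i • v' i = 0 → ∀ i ∈ Y, b i = 0 := by
        intro b hb
        rw [hYins, Finset.sum_insert hzY0] at hb
        have hb0 : ∑ i ∈ Y0, b i • v' i = ∑ i ∈ Y0, b i • v i :=
          Finset.sum_congr rfl fun i hi => by rw [hlt i (hY0.1 hi)]
        rw [hb0] at hb
        have hbz : b z = 0 := by
          have h4 : (b z • v' z + ∑ i ∈ Y0, b i • v i) ⬝ᵥ x0 = 0 := by
            rw [hb, zero_dotProduct]
          rw [add_dotProduct, sum_smul_dot] at h4
          have h5 : ∑ i ∈ Y0, b i * (v i ⬝ᵥ x0) = 0 := by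
            refine Finset.sum_eq_zero fun i hi => ?_
            rw [dotProduct_comm, hx0 i hi, mul_zero]
          rw [h5, add_zero, hz', smul_dotProduct, smul_dotProduct, dotProduct_comm x x0] at h4
          simp only [smul_eq_mul] at h4
          rcases mul_eq_zero.mp h4 with h6 | h6
          · exact h6
          · rcases mul_eq_zero.mp h6 with h7 | h7
            · exact absurd h7 hD
            · exact absurd h7 hx2
        rw [hbz, zero_smul, zero_add] at hb
        have h7 : ∀ i ∈ Y0, b i = 0 := by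
          apply h2
          intro y _
          rw [← sum_smul_dot, hb, zero_dotProduct]
        intro i hi
        rw [hYins] at hi
        rcases Finset.mem_insert.mp hi with rfl | hi0
        · exact hbz
        · exact h7 i hi0
      have hli : LinearIndependent F (fun i : Y => v' i) := by
        rw [Fintype.linearIndependent_iff]
        intro g hg i
        have h8 := hind (fun n => if h : n ∈ Y then g ⟨n, h⟩ else 0) (by
          rw [← hg]
          refine Eq.trans (Finset.sum_coe_sort Y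
            (fun i => (if h : i ∈ Y then g ⟨i, h⟩ else 0) • v' i)).symm ?_
          refine Finset.sum_congr rfl fun i _ => ?_
          simp) i i.2
        simpa using h8
      have hspan : Submodule.span F (Set.range fun i : Y => v' i) = ⊤ := by
        apply hli.span_eq_top_of_card_eq_finrank'
        simp [hr]
      intro a ha
      apply hind
      have hall : ∀ u : Fin r → F, (∑ i ∈ Y, a i • v' i) ⬝ᵥ u = 0 := by
        intro u
        have hu : u ∈ Submodule.span F (Set.range fun i : Y => v' i) := by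
          rw [hspan]
          trivial
        induction hu using Submodule.span_induction with
        | mem u hu =>
          obtain ⟨y, rfl⟩ := hu
          rw [sum_smul_dot]
          exact ha y y.2
        | zero => exact dotProduct_zero _
        | add u w _ _ h9 h10 => rw [dotProduct_add, h9, h10, add_zero]
        | smul c u _ h9 => rw [dotProduct_smul, h9, smul_zero]
      funext j
      have := hall (Pi.single j 1)
      simpa using this
    · exact ih Y (hY.down hzY) hr

/-- **Main algebraic theorem.** -/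
theorem exists_conf [Infinite F] {N : ℕ → Finset ℕ} (hN : ∀ k, N k ⊆ range k)
    (hMA : ∀ i k, i < k → (N i).card ≤ (N k ∩ range i).card) (n r : ℕ)
    (hr : ∀ k < n, (N k).card < r) :
    ∃ v : ℕ → Fin r → F, ∀ j k, j < k → k < n → (v j ⬝ᵥ v k = 0 ↔ j ∈ N k) := by
  classical
  have key : ∃ t : ℕ → Fin r → F, ∀ p ∈ ((range n) ×ˢ (range n)).filter
      (fun p => p.1 < p.2 ∧ p.1 ∉ N p.2), conf N t p.1 ⬝ᵥ conf N t p.2 ≠ 0 := by
    apply exists_all
    · intro p _
      exact ZO_dot hN p.1 p.2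
    · rintro ⟨j, k⟩ hp
      rw [Finset.mem_filter, Finset.mem_product] at hp
      obtain ⟨⟨_, hk⟩, hjk, hjN⟩ := hp
      simp only at hk hjk hjN ⊢
      have hkr := hr k (Finset.mem_range.mp hk)
      have hAdm : Adm N k (insert j (N k)) :=
        (Adm_N hN hMA k).superset (Finset.subset_insert _ _)
          (Finset.insert_subset (Finset.mem_range.mpr hjk) (hN k))
      have hcard : (insert j (N k)).card = (N k).card + 1 := Finset.card_insert_of_notMem hjN
      have e1 : ∃ t : ℕ → Fin r → F, RI (conf N t) (insert j (N k)) (insert j (N k)) := by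
        rcases Nat.lt_or_ge (insert j (N k)).card r with h | h
        · exact GR hN hMA k r _ _ hAdm hAdm rfl h
        · exact GR' hN hMA r k _ hAdm (by omega)
      have e2 := GR (F := F) hN hMA k r (N k) (N k) (Adm_N hN hMA k) (Adm_N hN hMA k) rfl hkr
      have z1 := ZO_RI (F := F) (r := r) hN (S := insert j (N k)) (Y := insert j (N k)) rfl
      have z2 := ZO_RI (F := F) (r := r) hN (S := N k) (Y := N k) rfl
      obtain ⟨t, h1, h2⟩ := z1.exists_and z2 e1 e2
      set v := conf N t with hv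
      have hD : (gram v (N k)).det ≠ 0 := (RI_gram v (N k)).mpr h2
      obtain ⟨x, hx1, hx2⟩ := exists_orth (N k) v (v j) (fun c hc => by
        have h3 := h1 (fun i => if i = j then -1 else c i) (fun y _ => by
          rw [← sum_smul_dot, Finset.sum_insert hjN, if_pos rfl]
          have h4 : ∑ i ∈ N k, (if i = j then (-1 : F) else c i) • v i
              = ∑ i ∈ N k, c i • v i := by
            refine Finset.sum_congr rfl fun i hi => ?_
            rw [if_neg (fun e : i = j => hjN (e ▸ hi))]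
          rw [h4, ← hc]
          simp) j (Finset.mem_insert_self _ _)
        simp at h3)
      refine ⟨Function.update t k x, ?_⟩
      rw [conf_update_lt hN t k x j hjk, conf_update_self hN t k x hx1, dotProduct_smul,
        smul_eq_mul]
      exact mul_ne_zero hD hx2
  obtain ⟨t, ht⟩ := key
  refine ⟨conf N t, fun j k hjk hk => ⟨fun h => ?_, fun h => conf_orth hN t k j h⟩⟩
  by_contra hjN
  refine ht (j, k) ?_ h
  rw [Finset.mem_filter, Finset.mem_product]
  exact ⟨⟨Finset.mem_range.mpr (by omega), Finset.mem_range.mpr hk⟩, hjk, hjN⟩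

end Pool.Agent.Helper861.Delta
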