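import Pool.Agent.Helper861.DeltaC

set_option autoImplicit false

open Matrix Finset

namespace Pool.Agent.Helper861.Delta

/-- Greedy ordering: at every step the next vertex minimises the number of earlier vertices to
which it is related (a maximum adjacency ordering, when `R` is non-adjacency). -/
theorem exists_greedy {V : Type*} [Fintype V] [DecidableEq V] [Nonempty V] (R : V → V → Prop)
    [DecidableRel R] :
    ∀ n ≤ Fintype.card V, ∃ f : ℕ → V, Set.InjOn f (range n : Set ℕ) ∧
      ∀ i < n, ∀ w ∉ (range i).image f,
        ((range i).filter fun l => R (f i) (f l)).card ≤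
          ((range i).filter fun l => R w (f l)).card := by
  intro n
  induction n with
  | zero =>
    intro _
    refine ⟨fun _ => Classical.arbitrary V, by simp, fun i hi => absurd hi (by omega)⟩
  | succ k ih =>
    intro hk
    obtain ⟨f, hinj, hf⟩ := ih (by omega)
    have hcard : ((range k).image f).card < Fintype.card V :=
      lt_of_le_of_lt Finset.card_image_le (by simpa using hk)
    have hne : (((range k).image f)ᶜ).Nonempty := by
      rw [← Finset.card_pos, Finset.card_compl]
      omega
    obtain ⟨u, hu, hmin⟩ := Finset.exists_min_image _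
      (fun w => ((range k).filter fun l => R w (f l)).card) hne
    have hu' : u ∉ (range k).image f := Finset.mem_compl.mp hu
    let g : ℕ → V := Function.update f k u
    have hgk : g k = u := Function.update_self _ _ _
    have hg : ∀ l < k, g l = f l := fun l hl => Function.update_of_ne (by omega) _ _
    have himg : ∀ i ≤ k, (range i).image g = (range i).image f := by
      intro i hi
      refine Finset.image_congr fun l hl => ?_
      have := Finset.mem_range.mp hl
      exact hg l (by omega)
    have hfil : ∀ i ≤ k, ∀ w, ((range i).filter fun l => R w (g l)) =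
        ((range i).filter fun l => R w (f l)) := by
      intro i hi w
      refine Finset.filter_congr fun l hl => ?_
      have := Finset.mem_range.mp hl
      rw [hg l (by omega)]
    refine ⟨g, ?_, ?_⟩
    · intro a ha b hb hab
      have ha' : a < k + 1 := by simpa using ha
      have hb' : b < k + 1 := by simpa using hb
      rcases Nat.lt_succ_iff_lt_or_eq.mp ha' with ha1 | ha1 <;>
        rcases Nat.lt_succ_iff_lt_or_eq.mp hb' with hb1 | hb1
      · rw [hg a ha1, hg b hb1] at hab
        exact hinj (by simpa using ha1) (by simpa using hb1) hab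
      · exfalso
        rw [hg a ha1, hb1, hgk] at hab
        exact hu' (hab ▸ Finset.mem_image_of_mem f (Finset.mem_range.mpr ha1))
      · exfalso
        rw [hg b hb1, ha1, hgk] at hab
        exact hu' (hab ▸ Finset.mem_image_of_mem f (Finset.mem_range.mpr hb1))
      · omega
    · intro i hi w hw
      rcases Nat.lt_succ_iff_lt_or_eq.mp hi with hi1 | hi1
      · rw [himg i hi1.le] at hw
        rw [hfil i hi1.le, hfil i hi1.le, hg i hi1]
        exact hf i hi1 w hw
      · subst hi1
        rw [himg i le_rfl] at hw
        rw [hfil i le_rfl, hfil i le_rfl, hgk]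
        exact hmin w (Finset.mem_compl.mpr hw)

/-- **The delta conjecture** over every infinite field. -/
theorem delta (F : Type*) [Field F] [Infinite F] (V : Type*) [Fintype V] [DecidableEq V]
    (G : SimpleGraph V) [DecidableRel G.Adj] :
    ∃ A : Matrix V V F, A.IsSymm ∧
      (∀ i j : V, i ≠ j → (A i j ≠ 0 ↔ G.Adj i j)) ∧
      A.rank + G.minDegree ≤ Fintype.card V := by
  classical
  rcases isEmpty_or_nonempty V with hV | hV
  · refine ⟨0, ?_, fun i => isEmptyElim i, ?_⟩
    · ext i
      exact isEmptyElim i
    · rw [Matrix.rank_zero, SimpleGraph.minDegree_of_subsingleton]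
      simp
  obtain ⟨f, hinj, hf⟩ := exists_greedy (fun u w : V => ¬ G.Adj u w) (Fintype.card V) le_rfl
  set n := Fintype.card V with hn
  have hδ : G.minDegree < n := G.minDegree_lt_card
  obtain ⟨r, hr⟩ : ∃ r, r + G.minDegree = n := ⟨n - G.minDegree, by omega⟩
  have himg : (range n).image f = univ := by
    apply Finset.eq_univ_of_card
    rw [Finset.card_image_of_injOn hinj, Finset.card_range]
  let N : ℕ → Finset ℕ := fun k =>
    if k < n then (range k).filter fun l => ¬ G.Adj (f k) (f l) else range k
  have hNlt : ∀ k < n, N k = (range k).filter fun l => ¬ G.Adj (f k) (f l) := fun k hk => by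
    simp only [N]
    rw [if_pos hk]
  have hNge : ∀ k, ¬ k < n → N k = range k := fun k hk => by
    simp only [N]
    rw [if_neg hk]
  have hN : ∀ k, N k ⊆ range k := by
    intro k
    by_cases hk : k < n
    · rw [hNlt k hk]
      exact Finset.filter_subset _ _
    · rw [hNge k hk]
  have hMA : ∀ i k, i < k → (N i).card ≤ (N k ∩ range i).card := by
    intro i k hik
    by_cases hk : k < n
    · have h1 : N k ∩ range i = (range i).filter fun l => ¬ G.Adj (f k) (f l) := by
        rw [hNlt k hk]
        ext l
        simp only [Finset.mem_inter, Finset.mem_filter, Finset.mem_range]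
        constructor
        · rintro ⟨⟨_, h2⟩, h3⟩
          exact ⟨h3, h2⟩
        · rintro ⟨h2, h3⟩
          exact ⟨⟨by omega, h3⟩, h2⟩
      rw [h1, hNlt i (by omega)]
      refine hf i (by omega) (f k) ?_
      intro hmem
      obtain ⟨l, hl, hlk⟩ := Finset.mem_image.mp hmem
      have hl' := Finset.mem_range.mp hl
      have : l = k := hinj (by simp; omega) (by simpa using hk) hlk
      omega
    · rw [hNge k hk]
      have h1 : range k ∩ range i = range i := by
        ext l
        simp only [Finset.mem_inter, Finset.mem_range]
        omega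
      rw [h1]
      exact Finset.card_le_card (hN i)
  have hcard : ∀ k < n, (N k).card < r := by
    intro k hk
    have h1 : ((N k).image f) ⊆ (insert (f k) (G.neighborFinset (f k)))ᶜ := by
      intro x hx
      obtain ⟨l, hl, rfl⟩ := Finset.mem_image.mp hx
      rw [hNlt k hk, Finset.mem_filter, Finset.mem_range] at hl
      rw [Finset.mem_compl, Finset.mem_insert, not_or]
      refine ⟨fun h => ?_, fun h => hl.2 ((G.mem_neighborFinset _ _).mp h)⟩
      have : l = k := hinj (by simp; omega) (by simpa using hk) h
      omega
    have h2 : ((N k).image f).card = (N k).card := by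
      apply Finset.card_image_of_injOn
      intro a ha b hb hab
      have ha' := Finset.mem_range.mp (hN k ha)
      have hb' := Finset.mem_range.mp (hN k hb)
      exact hinj (by simp; omega) (by simp; omega) hab
    have h3 := Finset.card_le_card h1
    rw [h2, Finset.card_compl, Finset.card_insert_of_notMem (by simp),
      G.card_neighborFinset_eq_degree] at h3
    have h4 := G.minDegree_le_degree (f k)
    have h5 := G.degree_lt_card_verts (f k)
    omega
  obtain ⟨v, hv⟩ := exists_conf (F := F) hN hMA n r hcard
  have hsurj : ∀ x : V, ∃ k, k < n ∧ f k = x := by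
    intro x
    have : x ∈ (range n).image f := by rw [himg]; exact Finset.mem_univ x
    obtain ⟨k, hk, hkx⟩ := Finset.mem_image.mp this
    exact ⟨k, Finset.mem_range.mp hk, hkx⟩
  choose g hg1 hg2 using hsurj
  let W : Matrix V (Fin r) F := Matrix.of fun x => v (g x)
  have hA : ∀ x y, (W * Wᵀ) x y = v (g x) ⬝ᵥ v (g y) := by
    intro x y
    simp only [Matrix.mul_apply, Matrix.transpose_apply, W, Matrix.of_apply, dotProduct]
  have hlt : ∀ x y, g x < g y → ((W * Wᵀ) x y ≠ 0 ↔ G.Adj x y) := by
    intro x y hxy
    rw [hA, Ne, hv _ _ hxy (hg1 y), hNlt _ (hg1 y), Finset.mem_filter, hg2, hg2]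
    simp only [Finset.mem_range, hxy, true_and, not_not]
    exact G.adj_comm y x
  refine ⟨W * Wᵀ, ?_, ?_, ?_⟩
  · rw [Matrix.IsSymm, Matrix.transpose_mul, Matrix.transpose_transpose]
  · intro x y hxy
    have hne : g x ≠ g y := fun h => hxy (by rw [← hg2 x, ← hg2 y, h])
    rcases lt_or_gt_of_ne hne with h | h
    · exact hlt x y h
    · rw [hA, dotProduct_comm, ← hA, hlt y x h]
      exact G.adj_comm y x
  · have h1 : (W * Wᵀ).rank ≤ r :=
      (Matrix.rank_mul_le_left W Wᵀ).trans (by simpa using Matrix.rank_le_card_width W)
    omega

end Pool.Agent.Helper861.Delta
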