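import Pool.Agent.Helper861.DeltaD

set_option autoImplicit false

/-!
# Two further constructions

* `mr_le_of_core`: if the induced subgraph on a set `S` has minimum degree at least `k` then
  `mr G ≤ |G| - k` (over every infinite field);
* `mr_compl_le_of_degenerate`: if `G` is `a`-degenerate then the complement has real minimum
  rank at most `2a+1`.
-/

open Matrix Finset

namespace Pool.Agent.Helper861.Delta

section Field

variable {F : Type*} [Field F]

/-- An orthogonal representation with nonsingular Gram matrices is reached by the sequential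
construction. -/
theorem conf_realize {r : ℕ} {N : ℕ → Finset ℕ} (hN : ∀ k, N k ⊆ range k) (m : ℕ)
    (v : ℕ → Fin r → F) (horth : ∀ k < m, ∀ j ∈ N k, v j ⬝ᵥ v k = 0)
    (hdet : ∀ k < m, RI v (N k) (N k)) :
    ∃ t : ℕ → Fin r → F, ∀ k < m, conf N t k = v k := by
  refine ⟨fun k => ((gram v (N k)).det)⁻¹ • v k, fun k => ?_⟩
  induction k using Nat.strong_induction_on with
  | _ k ih =>
    intro hk
    rw [conf_eq hN]
    have h1 : proj (N k) (conf N fun k => ((gram v (N k)).det)⁻¹ • v k)
        (((gram v (N k)).det)⁻¹ • v k) = proj (N k) v (((gram v (N k)).det)⁻¹ • v k) := by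
      refine proj_congr (fun i hi => ?_) rfl
      have := Finset.mem_range.mp (hN k hi)
      exact ih i this (by omega)
    rw [h1, proj_of_orth]
    · rw [smul_smul, mul_inv_cancel₀ ((RI_gram v (N k)).mpr (hdet k hk)), one_smul]
    · intro j hj
      rw [dotProduct_smul, horth k hk j hj, smul_zero]

/-- `RI` only depends on the vectors of the two sets. -/
theorem RI_congr {r : ℕ} {v v' : ℕ → Fin r → F} {S Y : Finset ℕ} (hS : ∀ i ∈ S, v i = v' i)
    (hY : ∀ i ∈ Y, v i = v' i) (h : RI v S Y) : RI v' S Y := by
  intro a ha
  apply h
  intro y hy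
  rw [← ha y hy]
  refine Finset.sum_congr rfl fun i hi => ?_
  rw [hS i hi, hY y hy]

/-- The block configuration: the first `w` vectors are the standard basis vectors of `F^w`, the
others lie in the complementary `F^r`. -/
def blockConf {r : ℕ} (w : ℕ) (u : ℕ → Fin r → F) : ℕ → Fin (w + r) → F := fun k =>
  if h : k < w then Fin.append (Pi.single ⟨k, h⟩ 1) (0 : Fin r → F)
  else Fin.append (0 : Fin w → F) (u (k - w))

theorem append_dot {w r : ℕ} (x x' : Fin w → F) (y y' : Fin r → F) :
    Fin.append x y ⬝ᵥ Fin.append x' y' = x ⬝ᵥ x' + y ⬝ᵥ y' := by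
  simp [dotProduct, Fin.sum_univ_add]

theorem block_dot_lt {r w : ℕ} (u : ℕ → Fin r → F) {i j : ℕ} (hi : i < w) (hj : j < w) :
    blockConf w u i ⬝ᵥ blockConf w u j = if i = j then 1 else 0 := by
  simp only [blockConf, dif_pos hi, dif_pos hj, append_dot]
  by_cases h : i = j
  · subst h
    simp
  · rw [if_neg h]
    have : (⟨i, hi⟩ : Fin w) ≠ ⟨j, hj⟩ := fun e => h (Fin.mk.inj_iff.mp e)
    simp [this, Pi.single_apply]

theorem block_dot_mix {r w : ℕ} (u : ℕ → Fin r → F) {i j : ℕ} (hi : i < w) (hj : ¬ j < w) :
    blockConf w u i ⬝ᵥ blockConf w u j = 0 := by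
  simp only [blockConf, dif_pos hi, dif_neg hj, append_dot]
  simp

theorem block_dot_ge {r w : ℕ} (u : ℕ → Fin r → F) {i j : ℕ} (hi : ¬ i < w) (hj : ¬ j < w) :
    blockConf w u i ⬝ᵥ blockConf w u j = u (i - w) ⬝ᵥ u (j - w) := by
  simp only [blockConf, dif_neg hi, dif_neg hj, append_dot]
  simp

/-- The part of `Y` beyond `w`, shifted. -/
def tail (w : ℕ) (Y : Finset ℕ) : Finset ℕ := (Y.filter fun i => ¬ i < w).image fun i => i - w

theorem mem_tail {w : ℕ} {Y : Finset ℕ} {i : ℕ} : i ∈ tail w Y ↔ w + i ∈ Y := by
  simp only [tail, Finset.mem_image, Finset.mem_filter]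
  constructor
  · rintro ⟨j, ⟨h1, h2⟩, h3⟩
    have : w + i = j := by omega
    rwa [this]
  · intro h
    exact ⟨w + i, ⟨h, by omega⟩, by omega⟩

theorem RI_block {r w : ℕ} (u : ℕ → Fin r → F) (Y : Finset ℕ) (h : RI u (tail w Y) (tail w Y)) :
    RI (blockConf w u) Y Y := by
  intro a ha
  have hlow : ∀ i ∈ Y, i < w → a i = 0 := by
    intro i hi hiw
    have h1 := ha i hi
    rw [Finset.sum_eq_single i] at h1
    · rw [block_dot_lt u hiw hiw, if_pos rfl, mul_one] at h1
      exact h1
    · intro b _ hbi
      by_cases hb : b < w
      · rw [block_dot_lt u hb hiw, if_neg hbi, mul_zero]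
      · rw [dotProduct_comm, block_dot_mix u hiw hb, mul_zero]
    · intro hn
      exact absurd hi hn
  have hhigh : ∀ i ∈ tail w Y, a (w + i) = 0 := by
    apply h (fun i => a (w + i))
    intro y hy
    rw [mem_tail] at hy
    have h1 := ha (w + y) hy
    rw [← Finset.sum_filter_add_sum_filter_not Y (fun i => ¬ i < w)] at h1
    have h2 : ∑ x ∈ Y.filter (fun x => ¬ ¬ x < w),
        a x * (blockConf w u x ⬝ᵥ blockConf w u (w + y)) = 0 := by
      refine Finset.sum_eq_zero fun x hx => ?_
      rw [Finset.mem_filter, not_not] at hx
      rw [block_dot_mix u hx.2 (by omega), mul_zero]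
    rw [h2, add_zero] at h1
    rw [← h1, tail, Finset.sum_image]
    · refine Finset.sum_congr rfl fun x hx => ?_
      rw [Finset.mem_filter] at hx
      rw [block_dot_ge u hx.2 (by omega)]
      have e1 : w + (x - w) = x := by omega
      have e2 : w + y - w = y := by omega
      rw [e1, e2]
    · intro x hx x' hx' hxx
      have hx1 := (Finset.mem_filter.mp (Finset.mem_coe.mp hx)).2
      have hx2 := (Finset.mem_filter.mp (Finset.mem_coe.mp hx')).2
      have hxx' : x - w = x' - w := hxx
      omega
  intro i hi
  by_cases hiw : i < w
  · exact hlow i hi hiw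
  · have h1 : i - w ∈ tail w Y := by
      rw [mem_tail]
      have : w + (i - w) = i := by omega
      rwa [this]
    have h2 := hhigh _ h1
    have : w + (i - w) = i := by omega
    rwa [this] at h2

/-- **Main algebraic theorem with a free initial segment of length `w`.** -/
theorem exists_conf_block [Infinite F] {N : ℕ → Finset ℕ} (hN : ∀ k, N k ⊆ range k) (w : ℕ)
    (hMA : ∀ i k, i < k →
      (tail w (N (w + i))).card ≤ ((tail w (N (w + k))) ∩ range i).card) (m r : ℕ)
    (hr0 : 0 < r) (hr : ∀ k < m, (tail w (N (w + k))).card < r) :
    ∃ v : ℕ → Fin (w + r) → F, ∀ j k, j < k → k < w + m → (v j ⬝ᵥ v k = 0 ↔ j ∈ N k) := by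
  classical
  let N' : ℕ → Finset ℕ := fun j => tail w (N (w + j))
  have hN' : ∀ k, N' k ⊆ range k := by
    intro k i hi
    have h1 := Finset.mem_range.mp (hN (w + k) (mem_tail.mp hi))
    exact Finset.mem_range.mpr (by omega)
  -- the key fact: sets whose tail is generically independent are generically independent
  have key : ∀ (Y : Finset ℕ) (M : ℕ), (∀ k < M, k < w + m) →
      (∃ t : ℕ → Fin r → F, RI (conf N' t) (tail w Y) (tail w Y)) → Y ⊆ range M →
      ∃ t : ℕ → Fin (w + r) → F, RI (conf N t) Y Y := by
    intro Y M hM hY hYM
    have h1 : ∃ t : ℕ → Fin r → F, ∀ p ∈ (insert (tail w Y) ((range m).image N')),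
        RI (conf N' t) p p := by
      apply exists_all
      · intro p _
        exact ZO_RI hN' rfl
      · intro p hp
        rcases Finset.mem_insert.mp hp with rfl | hp
        · exact hY
        · obtain ⟨k, hk, rfl⟩ := Finset.mem_image.mp hp
          exact GR hN' hMA k r _ _ (Adm_N hN' hMA k) (Adm_N hN' hMA k) rfl
            (hr k (Finset.mem_range.mp hk))
    obtain ⟨t', ht'⟩ := h1
    set u := conf N' t' with hu
    have horth : ∀ k < w + m, ∀ j ∈ N k, blockConf w u j ⬝ᵥ blockConf w u k = 0 := by
      intro k hk j hj
      have hjk := Finset.mem_range.mp (hN k hj)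
      by_cases hkw : k < w
      · rw [block_dot_lt u (by omega) hkw, if_neg (by omega)]
      · by_cases hjw : j < w
        · exact block_dot_mix u hjw hkw
        · rw [block_dot_ge u hjw hkw]
          apply conf_orth hN'
          simp only [N']
          rw [mem_tail]
          have e1 : w + (j - w) = j := by omega
          have e2 : w + (k - w) = k := by omega
          rwa [e1, e2]
    have hdet : ∀ k < w + m, RI (blockConf w u) (N k) (N k) := by
      intro k hk
      apply RI_block
      by_cases hkw : k < w
      · have : tail w (N k) = ∅ := by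
          rw [Finset.eq_empty_iff_forall_notMem]
          intro i hi
          have := Finset.mem_range.mp (hN k (mem_tail.mp hi))
          omega
        rw [this]
        intro a _ i hi
        exact absurd hi (Finset.notMem_empty i)
      · apply ht'
        apply Finset.mem_insert_of_mem
        refine Finset.mem_image.mpr ⟨k - w, Finset.mem_range.mpr (by omega), ?_⟩
        simp only [N']
        have e2 : w + (k - w) = k := by omega
        rw [e2]
    obtain ⟨t, ht⟩ := conf_realize hN (w + m) (blockConf w u) horth hdet
    refine ⟨t, ?_⟩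
    have hYeq : ∀ i ∈ Y, blockConf w u i = conf N t i := fun i hi =>
      (ht i (hM i (Finset.mem_range.mp (hYM hi)))).symm
    exact RI_congr hYeq hYeq (RI_block u Y (ht' _ (Finset.mem_insert_self _ _)))
  have key2 : ∃ t : ℕ → Fin (w + r) → F, ∀ p ∈ ((range (w + m)) ×ˢ (range (w + m))).filter
      (fun p => p.1 < p.2 ∧ p.1 ∉ N p.2), conf N t p.1 ⬝ᵥ conf N t p.2 ≠ 0 := by
    apply exists_all
    · intro p _
      exact ZO_dot hN p.1 p.2
    · rintro ⟨j, k⟩ hp
      rw [Finset.mem_filter, Finset.mem_product] at hp
      obtain ⟨⟨_, hk⟩, hjk, hjN⟩ := hp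
      simp only at hk hjk hjN ⊢
      have hk' := Finset.mem_range.mp hk
      -- generic independence of the tails
      have htailN : ∃ t : ℕ → Fin r → F, RI (conf N' t) (tail w (N k)) (tail w (N k)) := by
        by_cases hkw : k < w
        · have : tail w (N k) = ∅ := by
            rw [Finset.eq_empty_iff_forall_notMem]
            intro i hi
            have := Finset.mem_range.mp (hN k (mem_tail.mp hi))
            omega
          rw [this]
          refine ⟨fun _ _ => 0, ?_⟩
          intro a _ i hi
          exact absurd hi (Finset.notMem_empty i)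
        · have e2 : w + (k - w) = k := by omega
          have h1 : tail w (N k) = N' (k - w) := by simp only [N']; rw [e2]
          rw [h1]
          exact GR hN' hMA (k - w) r _ _ (Adm_N hN' hMA _) (Adm_N hN' hMA _) rfl
            (hr (k - w) (by omega))
      have htailI : ∃ t : ℕ → Fin r → F,
          RI (conf N' t) (tail w (insert j (N k))) (tail w (insert j (N k))) := by
        by_cases hjw : j < w
        · have : tail w (insert j (N k)) = tail w (N k) := by
            ext i
            rw [mem_tail, mem_tail, Finset.mem_insert]
            constructor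
            · rintro (h | h)
              · omega
              · exact h
            · exact Or.inr
          rw [this]
          exact htailN
        · have e2 : w + (k - w) = k := by omega
          have h1 : tail w (insert j (N k)) = insert (j - w) (N' (k - w)) := by
            ext i
            simp only [N']
            rw [mem_tail, e2, Finset.mem_insert, Finset.mem_insert, mem_tail]
            constructor
            · rintro (h | h)
              · left; omega
              · exact Or.inr h
            · rintro (h | h)
              · left; omega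
              · exact Or.inr h
          have hnot : j - w ∉ N' (k - w) := by
            simp only [N']
            rw [mem_tail, e2]
            have e1 : w + (j - w) = j := by omega
            rwa [e1]
          rw [h1]
          have hAdm : Adm N' (k - w) (insert (j - w) (N' (k - w))) :=
            (Adm_N hN' hMA (k - w)).superset (Finset.subset_insert _ _)
              (Finset.insert_subset (Finset.mem_range.mpr (by omega)) (hN' _))
          have hcard : (insert (j - w) (N' (k - w))).card = (N' (k - w)).card + 1 :=
            Finset.card_insert_of_notMem hnot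
          have hkr : (N' (k - w)).card < r := hr (k - w) (by omega)
          rcases Nat.lt_or_ge (insert (j - w) (N' (k - w))).card r with h | h
          · exact GR hN' hMA (k - w) r _ _ hAdm hAdm rfl h
          · exact GR' hN' hMA r (k - w) _ hAdm (by omega)
      have hsub : insert j (N k) ⊆ range k :=
        Finset.insert_subset (Finset.mem_range.mpr hjk) (hN k)
      have e1 := key (insert j (N k)) k (fun i hi => by omega) htailI hsub
      have e2 := key (N k) k (fun i hi => by omega) htailN (hN k)
      have z1 := ZO_RI (F := F) (r := w + r) hN (S := insert j (N k)) (Y := insert j (N k)) rfl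
      have z2 := ZO_RI (F := F) (r := w + r) hN (S := N k) (Y := N k) rfl
      obtain ⟨t, h1, h2⟩ := z1.exists_and z2 e1 e2
      set v := conf N t with hv
      have hD : (gram v (N k)).det ≠ 0 := (RI_gram v (N k)).mpr h2
      obtain ⟨x, hx1, hx2⟩ := exists_orth (N k) v (v j) (fun c hc => by
        have h3 := h1 (fun i => if i = j then -1 else c i) (fun y _ => by
          rw [← sum_smul_dot, Finset.sum_insert hjN, if_pos rfl]
          have h4 : ∑ i ∈ N k, (if i = j then (-1 : F) else c i) • v i
              = ∑ i ∈ N k, c i • v i := by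
            refine Finset.sum_congr rfl fun i hi => ?_
            rw [if_neg (fun e : i = j => hjN (e ▸ hi))]
          rw [h4, ← hc]
          simp) j (Finset.mem_insert_self _ _)
        simp at h3)
      refine ⟨Function.update t k x, ?_⟩
      rw [conf_update_lt hN t k x j hjk, conf_update_self hN t k x hx1, dotProduct_smul,
        smul_eq_mul]
      exact mul_ne_zero hD hx2
  obtain ⟨t, ht⟩ := key2
  refine ⟨conf N t, fun j k hjk hk => ⟨fun h => ?_, fun h => conf_orth hN t k j h⟩⟩
  by_contra hjN
  refine ht (j, k) ?_ h
  rw [Finset.mem_filter, Finset.mem_product]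
  exact ⟨⟨Finset.mem_range.mpr (by omega), Finset.mem_range.mpr hk⟩, hjk, hjN⟩

end Field

end Pool.Agent.Helper861.Delta
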