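import Pool.Agent.Helper861.DeltaE

set_option autoImplicit false

open Matrix Finset

namespace Pool.Agent.Helper861.Delta

/-- From an ordering and an orthogonal representation along it to a symmetric matrix. -/
theorem matrix_of_conf {F : Type*} [Field F] {V : Type*} [Fintype V] [DecidableEq V]
    (G : SimpleGraph V) {n r : ℕ} (f : ℕ → V) (hsurj : ∀ x : V, ∃ k, k < n ∧ f k = x)
    (v : ℕ → Fin r → F)
    (hv : ∀ j k, j < k → k < n → (v j ⬝ᵥ v k = 0 ↔ ¬ G.Adj (f k) (f j))) :
    ∃ A : Matrix V V F, A.IsSymm ∧ (∀ i j : V, i ≠ j → (A i j ≠ 0 ↔ G.Adj i j)) ∧ A.rank ≤ r := by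
  choose g hg1 hg2 using hsurj
  let W : Matrix V (Fin r) F := Matrix.of fun x => v (g x)
  have hA : ∀ x y, (W * Wᵀ) x y = v (g x) ⬝ᵥ v (g y) := by
    intro x y
    simp only [Matrix.mul_apply, Matrix.transpose_apply, W, Matrix.of_apply, dotProduct]
  have hlt : ∀ x y, g x < g y → ((W * Wᵀ) x y ≠ 0 ↔ G.Adj x y) := by
    intro x y hxy
    rw [hA, Ne, hv _ _ hxy (hg1 y), hg2, hg2, not_not]
    exact G.adj_comm y x
  refine ⟨W * Wᵀ, ?_, ?_, ?_⟩
  · rw [Matrix.IsSymm, Matrix.transpose_mul, Matrix.transpose_transpose]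
  · intro x y hxy
    have hne : g x ≠ g y := fun h => hxy (by rw [← hg2 x, ← hg2 y, h])
    rcases lt_or_gt_of_ne hne with h | h
    · exact hlt x y h
    · rw [hA, dotProduct_comm, ← hA, hlt y x h]
      exact G.adj_comm y x
  · exact (Matrix.rank_mul_le_left W Wᵀ).trans (by simpa using Matrix.rank_le_card_width W)

open Classical in
/-- If `G[S]` has minimum degree `d` then `G` has minimum rank at most `|G| - d` over every
infinite field. -/
theorem core (F : Type*) [Field F] [Infinite F] (V : Type*) [Fintype V] [DecidableEq V]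
    (G : SimpleGraph V) (S : Finset V) (d : ℕ) (hS : S.Nonempty)
    (hd : ∀ x ∈ S, d ≤ (S.filter fun y => G.Adj x y).card) :
    ∃ A : Matrix V V F, A.IsSymm ∧ (∀ i j : V, i ≠ j → (A i j ≠ 0 ↔ G.Adj i j)) ∧
      A.rank + d ≤ Fintype.card V := by
  obtain ⟨x0, hx0⟩ := hS
  haveI : Nonempty S := ⟨⟨x0, hx0⟩⟩
  have hcS : Fintype.card S = S.card := Fintype.card_coe S
  set s := S.card with hs
  obtain ⟨g, hginj, hg⟩ := exists_greedy (V := S) (fun u w : S => ¬ G.Adj u w) s hcS.ge
  have hgimg : (range s).image g = univ := by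
    apply Finset.eq_univ_of_card
    rw [Finset.card_image_of_injOn hginj, Finset.card_range, hcS]
  set w := Sᶜ.card with hw
  have hsw : w + s = Fintype.card V := by
    rw [hw, hs, Finset.card_compl]
    have := Finset.card_le_univ S
    omega
  let e : Fin w ≃ (Sᶜ : Finset V) := (Finset.equivFin Sᶜ).symm
  let f : ℕ → V := fun k => if h : k < w then (e ⟨k, h⟩ : V) else (g (k - w) : V)
  have hflt : ∀ k (h : k < w), f k = (e ⟨k, h⟩ : V) := fun k h => by simp only [f]; rw [dif_pos h]
  have hfge : ∀ k, f (w + k) = (g k : V) := fun k => by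
    simp only [f]
    rw [dif_neg (by omega)]
    congr 2
    omega
  have hsurj : ∀ x : V, ∃ k, k < w + s ∧ f k = x := by
    intro x
    by_cases hx : x ∈ S
    · have : (⟨x, hx⟩ : S) ∈ (range s).image g := by rw [hgimg]; exact Finset.mem_univ _
      obtain ⟨k, hk, hkx⟩ := Finset.mem_image.mp this
      refine ⟨w + k, by have := Finset.mem_range.mp hk; omega, ?_⟩
      rw [hfge, hkx]
    · have hx' : x ∈ Sᶜ := Finset.mem_compl.mpr hx
      refine ⟨(e.symm ⟨x, hx'⟩ : Fin w), by omega, ?_⟩
      rw [hflt _ (e.symm ⟨x, hx'⟩).2]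
      simp
  let N : ℕ → Finset ℕ := fun k =>
    if k < w + s then (range k).filter fun l => ¬ G.Adj (f k) (f l) else range k
  have hNlt : ∀ k < w + s, N k = (range k).filter fun l => ¬ G.Adj (f k) (f l) := fun k hk => by
    simp only [N]
    rw [if_pos hk]
  have hNge : ∀ k, ¬ k < w + s → N k = range k := fun k hk => by
    simp only [N]
    rw [if_neg hk]
  have hN : ∀ k, N k ⊆ range k := by
    intro k
    by_cases hk : k < w + s
    · rw [hNlt k hk]
      exact Finset.filter_subset _ _
    · rw [hNge k hk]
  have htlt : ∀ k < s, tail w (N (w + k)) = (range k).filter fun l => ¬ G.Adj (g k) (g l) := by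
    intro k hk
    ext l
    rw [mem_tail, hNlt _ (by omega), Finset.mem_filter, Finset.mem_filter, hfge, hfge,
      Finset.mem_range, Finset.mem_range]
    constructor
    · rintro ⟨h1, h2⟩
      exact ⟨by omega, h2⟩
    · rintro ⟨h1, h2⟩
      exact ⟨by omega, h2⟩
  have htge : ∀ k, ¬ k < s → tail w (N (w + k)) = range k := by
    intro k hk
    ext l
    rw [mem_tail, hNge _ (by omega), Finset.mem_range, Finset.mem_range]
    omega
  have htsub : ∀ k, tail w (N (w + k)) ⊆ range k := by
    intro k l hl
    have := Finset.mem_range.mp (hN _ (mem_tail.mp hl))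
    exact Finset.mem_range.mpr (by omega)
  have hMA : ∀ i k, i < k →
      (tail w (N (w + i))).card ≤ ((tail w (N (w + k))) ∩ range i).card := by
    intro i k hik
    by_cases hk : k < s
    · have h1 : (tail w (N (w + k))) ∩ range i
          = (range i).filter fun l => ¬ G.Adj (g k) (g l) := by
        rw [htlt k hk]
        ext l
        simp only [Finset.mem_inter, Finset.mem_filter, Finset.mem_range]
        constructor
        · rintro ⟨⟨_, h2⟩, h3⟩
          exact ⟨h3, h2⟩
        · rintro ⟨h2, h3⟩
          exact ⟨⟨by omega, h3⟩, h2⟩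
      rw [h1, htlt i (by omega)]
      refine hg i (by omega) (g k) ?_
      intro hmem
      obtain ⟨l, hl, hlk⟩ := Finset.mem_image.mp hmem
      have hl' := Finset.mem_range.mp hl
      have : l = k := hginj (by simp; omega) (by simpa using hk) hlk
      omega
    · rw [htge k hk]
      have h1 : range k ∩ range i = range i := by
        ext l
        simp only [Finset.mem_inter, Finset.mem_range]
        omega
      rw [h1]
      exact Finset.card_le_card (htsub i)
  have hds : d < s := by
    have h1 : (S.filter fun y => G.Adj x0 y) ⊆ S.erase x0 := by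
      intro y hy
      rw [Finset.mem_filter] at hy
      exact Finset.mem_erase.mpr ⟨fun h => G.loopless.irrefl _ (h ▸ hy.2), hy.1⟩
    have h2 := Finset.card_le_card h1
    rw [Finset.card_erase_of_mem hx0] at h2
    have h3 := hd x0 hx0
    have h4 : 0 < S.card := Finset.card_pos.mpr ⟨x0, hx0⟩
    omega
  obtain ⟨r, hr⟩ : ∃ r, r + d = s := ⟨s - d, by omega⟩
  have hcard : ∀ k < s, (tail w (N (w + k))).card < r := by
    intro k hk
    rw [htlt k hk]
    set T := (range k).filter fun l => ¬ G.Adj (g k) (g l) with hT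
    have h1 : (T.image fun l => (g l : V)) ⊆
        S \ (insert (g k : V) (S.filter fun y => G.Adj (g k) y)) := by
      intro x hx
      obtain ⟨l, hl, rfl⟩ := Finset.mem_image.mp hx
      rw [hT, Finset.mem_filter, Finset.mem_range] at hl
      rw [Finset.mem_sdiff, Finset.mem_insert, not_or]
      refine ⟨(g l).2, fun h => ?_, fun h => hl.2 (Finset.mem_filter.mp h).2⟩
      have : l = k := hginj (by simp; omega) (by simpa using hk) (Subtype.ext h)
      omega
    have h2 : (T.image fun l => (g l : V)).card = T.card := by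
      apply Finset.card_image_of_injOn
      intro a ha b hb hab
      have ha' := Finset.mem_range.mp (Finset.mem_filter.mp (Finset.mem_coe.mp ha)).1
      have hb' := Finset.mem_range.mp (Finset.mem_filter.mp (Finset.mem_coe.mp hb)).1
      exact hginj (by simp; omega) (by simp; omega) (Subtype.ext hab)
    have h3 := Finset.card_le_card h1
    have h4 : insert (g k : V) (S.filter fun y => G.Adj (g k) y) ⊆ S :=
      Finset.insert_subset (g k).2 (Finset.filter_subset _ _)
    have h5 : (insert (g k : V) (S.filter fun y => G.Adj (g k) y)).card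
        = (S.filter fun y => G.Adj (g k) y).card + 1 := by
      apply Finset.card_insert_of_notMem
      intro h
      exact G.loopless.irrefl _ (Finset.mem_filter.mp h).2
    rw [h2, Finset.card_sdiff_of_subset h4, h5] at h3
    have h6 := hd _ (g k).2
    have h7 := Finset.card_le_card h4
    rw [h5] at h7
    omega
  have hr0 : 0 < r := by omega
  obtain ⟨v, hv⟩ := exists_conf_block (F := F) hN w hMA s r hr0 hcard
  obtain ⟨A, hA1, hA2, hA3⟩ := matrix_of_conf G (n := w + s) f hsurj v (by
    intro j k hjk hk
    rw [hv j k hjk hk, hNlt k hk, Finset.mem_filter, Finset.mem_range]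
    constructor
    · exact fun h => h.2
    · exact fun h => ⟨hjk, h⟩)
  exact ⟨A, hA1, hA2, by omega⟩

end Pool.Agent.Helper861.Delta
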