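import Pool.Agent.Helper861.DeltaF

set_option autoImplicit false

open Matrix Finset

namespace Pool.Agent.Helper861.Delta

/-- If every vertex has at most `a` predecessors to be orthogonal to and the dimension exceeds
`2a`, then over the reals all sets of at most `a+1` vectors are generically independent. -/
theorem sparse_RI {N : ℕ → Finset ℕ} (hN : ∀ k, N k ⊆ range k) (a r : ℕ)
    (ha : ∀ k, (N k).card ≤ a) (hr : 2 * a < r) :
    ∀ (m : ℕ) (Y : Finset ℕ), Y ⊆ range m → Y.card ≤ a + 1 →
      ∃ t : ℕ → Fin r → ℝ, RI (conf N t) Y Y := by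
  classical
  intro m
  induction m with
  | zero =>
    intro Y hY _
    refine ⟨fun _ _ => 0, ?_⟩
    intro b _ i hi
    have := hY hi
    simp at this
  | succ z ih =>
    intro Y hY hc
    by_cases hzY : z ∈ Y
    · have hY0r : Y.erase z ⊆ range z := by
        intro i hi
        have h1 := Finset.mem_range.mp (hY (Finset.mem_of_mem_erase hi))
        have h2 := Finset.ne_of_mem_erase hi
        exact Finset.mem_range.mpr (by omega)
      have hY0c : (Y.erase z).card ≤ a := by
        rw [Finset.card_erase_of_mem hzY]
        omega
      have hzY0 : z ∉ Y.erase z := Finset.notMem_erase z Y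
      have hYins : Y = insert z (Y.erase z) := (Finset.insert_erase hzY).symm
      set Y0 := Y.erase z with hY0def
      have e2 := ih Y0 hY0r (by omega)
      have e3 := ih (N z) (hN z) ((ha z).trans (by omega))
      have z2 := ZO_RI (F := ℝ) (r := r) hN (S := Y0) (Y := Y0) rfl
      have z3 := ZO_RI (F := ℝ) (r := r) hN (S := N z) (Y := N z) rfl
      obtain ⟨t, h2, h3⟩ := z2.exists_and z3 e2 e3
      set v := conf N t with hv
      have hD : (gram v (N z)).det ≠ 0 := (RI_gram v (N z)).mpr h3
      obtain ⟨x, hx0, hx⟩ := exists_ne_zero_orth v (Y0 ∪ N z) (by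
        have := Finset.card_union_le Y0 (N z)
        have := ha z
        omega)
      have hxx : x ⬝ᵥ x ≠ 0 := fun h => hx0 (dotProduct_self_eq_zero.mp h)
      have hxN : ∀ i ∈ N z, v i ⬝ᵥ x = 0 := fun i hi => by
        rw [dotProduct_comm]
        exact hx i (Finset.mem_union_right _ hi)
      refine ⟨Function.update t z x, ?_⟩
      set v' := conf N (Function.update t z x) with hv'
      have hlt : ∀ k, k ∈ range z → v' k = v k := fun k hk =>
        conf_update_lt hN t z x k (Finset.mem_range.mp hk)
      have hz' : v' z = (gram v (N z)).det • x := conf_update_self hN t z x hxN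
      have hz0 : ∀ i ∈ Y0, v' i ⬝ᵥ v' z = 0 := by
        intro i hi
        rw [hlt i (hY0r hi), hz', dotProduct_smul, dotProduct_comm,
          hx i (Finset.mem_union_left _ hi), smul_zero]
      intro b hb
      rw [hYins] at hb ⊢
      have hbz : b z = 0 := by
        have h4 := hb z (Finset.mem_insert_self _ _)
        rw [Finset.sum_insert hzY0] at h4
        have h5 : ∑ i ∈ Y0, b i * (v' i ⬝ᵥ v' z) = 0 := by
          refine Finset.sum_eq_zero fun i hi => ?_
          rw [hz0 i hi, mul_zero]
        rw [h5, add_zero, hz', smul_dotProduct, dotProduct_smul] at h4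
        simp only [smul_eq_mul] at h4
        rcases mul_eq_zero.mp h4 with h6 | h6
        · exact h6
        · rcases mul_eq_zero.mp h6 with h7 | h7
          · exact absurd h7 hD
          · rcases mul_eq_zero.mp h7 with h8 | h8
            · exact absurd h8 hD
            · exact absurd h8 hxx
      have h7 : ∀ i ∈ Y0, b i = 0 := by
        apply h2
        intro y hy
        have h4 := hb y (Finset.mem_insert_of_mem hy)
        rw [Finset.sum_insert hzY0, hbz, zero_mul, zero_add] at h4
        rw [← h4]
        refine Finset.sum_congr rfl fun i hi => ?_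
        rw [hlt i (hY0r hi), hlt y (hY0r hy)]
      intro i hi
      rcases Finset.mem_insert.mp hi with rfl | hi0
      · exact hbz
      · exact h7 i hi0
    · refine ih Y (fun i hi => ?_) hc
      have h1 := Finset.mem_range.mp (hY hi)
      have h2 : i ≠ z := fun e => hzY (e ▸ hi)
      exact Finset.mem_range.mpr (by omega)

theorem exists_conf_sparse {N : ℕ → Finset ℕ} (hN : ∀ k, N k ⊆ range k) (a r n : ℕ)
    (ha : ∀ k, (N k).card ≤ a) (hr : 2 * a < r) :
    ∃ v : ℕ → Fin r → ℝ, ∀ j k, j < k → k < n → (v j ⬝ᵥ v k = 0 ↔ j ∈ N k) := by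
  classical
  have key : ∃ t : ℕ → Fin r → ℝ, ∀ p ∈ ((range n) ×ˢ (range n)).filter
      (fun p => p.1 < p.2 ∧ p.1 ∉ N p.2), conf N t p.1 ⬝ᵥ conf N t p.2 ≠ 0 := by
    apply exists_all
    · intro p _
      exact ZO_dot hN p.1 p.2
    · rintro ⟨j, k⟩ hp
      rw [Finset.mem_filter, Finset.mem_product] at hp
      obtain ⟨⟨_, hk⟩, hjk, hjN⟩ := hp
      simp only at hk hjk hjN ⊢
      have hcard : (insert j (N k)).card = (N k).card + 1 := Finset.card_insert_of_notMem hjN
      have hsub : insert j (N k) ⊆ range k :=
        Finset.insert_subset (Finset.mem_range.mpr hjk) (hN k)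
      have hak := ha k
      have e1 := sparse_RI hN a r ha hr k (insert j (N k)) hsub (by omega)
      have e2 := sparse_RI hN a r ha hr k (N k) (hN k) (by omega)
      have z1 := ZO_RI (F := ℝ) (r := r) hN (S := insert j (N k)) (Y := insert j (N k)) rfl
      have z2 := ZO_RI (F := ℝ) (r := r) hN (S := N k) (Y := N k) rfl
      obtain ⟨t, h1, h2⟩ := z1.exists_and z2 e1 e2
      set v := conf N t with hv
      have hD : (gram v (N k)).det ≠ 0 := (RI_gram v (N k)).mpr h2
      obtain ⟨x, hx1, hx2⟩ := exists_orth (N k) v (v j) (fun c hc => by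
        have h3 := h1 (fun i => if i = j then -1 else c i) (fun y _ => by
          rw [← sum_smul_dot, Finset.sum_insert hjN, if_pos rfl]
          have h4 : ∑ i ∈ N k, (if i = j then (-1 : ℝ) else c i) • v i
              = ∑ i ∈ N k, c i • v i := by
            refine Finset.sum_congr rfl fun i hi => ?_
            rw [if_neg (fun e : i = j => hjN (e ▸ hi))]
          rw [h4, ← hc]
          simp) j (Finset.mem_insert_self _ _)
        simp at h3)
      refine ⟨Function.update t k x, ?_⟩
      rw [conf_update_lt hN t k x j hjk, conf_update_self hN t k x hx1, dotProduct_smul,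
        smul_eq_mul]
      exact mul_ne_zero hD hx2
  obtain ⟨t, ht⟩ := key
  refine ⟨conf N t, fun j k hjk hk => ⟨fun h => ?_, fun h => conf_orth hN t k j h⟩⟩
  by_contra hjN
  refine ht (j, k) ?_ h
  rw [Finset.mem_filter, Finset.mem_product]
  exact ⟨⟨Finset.mem_range.mpr (by omega), Finset.mem_range.mpr hk⟩, hjk, hjN⟩

open Classical in
/-- A degeneracy ordering. -/
theorem exists_degen {V : Type*} [Fintype V] [DecidableEq V] [Nonempty V] (G : SimpleGraph V)
    (a : ℕ) (ha : ∀ S : Finset V, S.Nonempty → ∃ x ∈ S, (S.filter fun y => G.Adj x y).card ≤ a) :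
    ∀ (n : ℕ) (S : Finset V), S.card = n → ∃ f : ℕ → V, Set.InjOn f (range n : Set ℕ) ∧
      (range n).image f = S ∧
      ∀ k < n, ((range k).filter fun l => G.Adj (f k) (f l)).card ≤ a := by
  intro n
  induction n with
  | zero =>
    intro S hS
    rw [Finset.card_eq_zero] at hS
    subst hS
    exact ⟨fun _ => Classical.arbitrary V, by simp, by simp, fun k hk => absurd hk (by omega)⟩
  | succ n ih =>
    intro S hS
    have hne : S.Nonempty := Finset.card_pos.mp (by omega)
    obtain ⟨x, hx, hxa⟩ := ha S hne
    obtain ⟨f, hinj, himg, hf⟩ := ih (S.erase x) (by rw [Finset.card_erase_of_mem hx]; omega)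
    let g : ℕ → V := Function.update f n x
    have hgn : g n = x := Function.update_self _ _ _
    have hg : ∀ l < n, g l = f l := fun l hl => Function.update_of_ne (by omega) _ _
    have himg' : (range n).image g = S.erase x := by
      rw [← himg]
      refine Finset.image_congr fun l hl => ?_
      exact hg l (Finset.mem_range.mp hl)
    refine ⟨g, ?_, ?_, ?_⟩
    · intro i hi j hj hij
      have hi' : i < n + 1 := by simpa using hi
      have hj' : j < n + 1 := by simpa using hj
      rcases Nat.lt_succ_iff_lt_or_eq.mp hi' with h1 | h1 <;>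
        rcases Nat.lt_succ_iff_lt_or_eq.mp hj' with h2 | h2
      · rw [hg i h1, hg j h2] at hij
        exact hinj (by simpa using h1) (by simpa using h2) hij
      · exfalso
        have h3 : g i ∈ S.erase x := by
          rw [← himg']
          exact Finset.mem_image_of_mem g (Finset.mem_range.mpr h1)
        rw [hij, h2, hgn] at h3
        exact Finset.notMem_erase x S h3
      · exfalso
        have h3 : g j ∈ S.erase x := by
          rw [← himg']
          exact Finset.mem_image_of_mem g (Finset.mem_range.mpr h2)
        rw [← hij, h1, hgn] at h3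
        exact Finset.notMem_erase x S h3
      · omega
    · rw [Finset.range_add_one, Finset.image_insert, himg', hgn, Finset.insert_erase hx]
    · intro k hk
      rcases Nat.lt_succ_iff_lt_or_eq.mp hk with h1 | h1
      · have h2 : ((range k).filter fun l => G.Adj (g k) (g l))
            = ((range k).filter fun l => G.Adj (f k) (f l)) := by
          refine Finset.filter_congr fun l hl => ?_
          have := Finset.mem_range.mp hl
          rw [hg l (by omega), hg k h1]
        rw [h2]
        exact hf k h1
      · subst h1
        refine le_trans ?_ hxa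
        have h2 : (((range k).filter fun l => G.Adj (g k) (g l)).image g) ⊆
            S.filter fun y => G.Adj x y := by
          intro y hy
          obtain ⟨l, hl, rfl⟩ := Finset.mem_image.mp hy
          rw [Finset.mem_filter] at hl ⊢
          have h3 : g l ∈ S.erase x := by
            rw [← himg']
            exact Finset.mem_image_of_mem g hl.1
          exact ⟨Finset.mem_of_mem_erase h3, hgn ▸ hl.2⟩
        rw [← Finset.card_image_of_injOn (f := g)]
        · exact Finset.card_le_card h2
        · intro i hi j hj hij
          have hi' := Finset.mem_range.mp (Finset.mem_filter.mp (Finset.mem_coe.mp hi)).1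
          have hj' := Finset.mem_range.mp (Finset.mem_filter.mp (Finset.mem_coe.mp hj)).1
          rw [hg i hi', hg j hj'] at hij
          exact hinj (by simpa using hi') (by simpa using hj') hij

open Classical in
/-- If every nonempty `G[S]` has a vertex of degree at most `a`, then the real minimum rank of the
complement of `G` is at most `2a+1`. -/
theorem degen_compl (V : Type*) [Fintype V] [DecidableEq V] (G : SimpleGraph V) (a : ℕ)
    (ha : ∀ S : Finset V, S.Nonempty → ∃ x ∈ S, (S.filter fun y => G.Adj x y).card ≤ a) :
    ∃ A : Matrix V V ℝ, A.IsSymm ∧ (∀ i j : V, i ≠ j → (A i j ≠ 0 ↔ Gᶜ.Adj i j)) ∧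
      A.rank ≤ 2 * a + 1 := by
  rcases isEmpty_or_nonempty V with hV | hV
  · refine ⟨0, ?_, fun i => isEmptyElim i, ?_⟩
    · ext i
      exact isEmptyElim i
    · rw [Matrix.rank_zero]
      omega
  obtain ⟨f, hinj, himg, hf⟩ := exists_degen G a ha (Fintype.card V) univ rfl
  set n := Fintype.card V with hn
  let N : ℕ → Finset ℕ := fun k =>
    if k < n then (range k).filter fun l => G.Adj (f k) (f l) else ∅
  have hNlt : ∀ k < n, N k = (range k).filter fun l => G.Adj (f k) (f l) := fun k hk => by
    simp only [N]
    rw [if_pos hk]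
  have hNge : ∀ k, ¬ k < n → N k = ∅ := fun k hk => by
    simp only [N]
    rw [if_neg hk]
  have hN : ∀ k, N k ⊆ range k := by
    intro k
    by_cases hk : k < n
    · rw [hNlt k hk]
      exact Finset.filter_subset _ _
    · rw [hNge k hk]
      exact Finset.empty_subset _
  have hNa : ∀ k, (N k).card ≤ a := by
    intro k
    by_cases hk : k < n
    · rw [hNlt k hk]
      exact hf k hk
    · rw [hNge k hk]
      simp
  obtain ⟨v, hv⟩ := exists_conf_sparse hN a (2 * a + 1) n hNa (by omega)
  refine matrix_of_conf Gᶜ (n := n) f ?_ v ?_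
  · intro x
    have : x ∈ (range n).image f := by rw [himg]; exact Finset.mem_univ x
    obtain ⟨k, hk, hkx⟩ := Finset.mem_image.mp this
    exact ⟨k, Finset.mem_range.mp hk, hkx⟩
  · intro j k hjk hk
    rw [hv j k hjk hk, hNlt k hk, Finset.mem_filter, Finset.mem_range, SimpleGraph.compl_adj]
    have hne : f k ≠ f j := by
      intro h
      have := hinj (by simpa using hk) (by simp; omega) h
      omega
    tauto

end Pool.Agent.Helper861.Delta
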