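import Mathlib

set_option autoImplicit false

namespace Pool.Agent.Helper861.Gammoid

open Finset

/-- Hall's condition for the set `S` (with neighbourhoods `N`). -/
def Mt {α C : Type*} [DecidableEq C] (N : α → Finset C) (S : Finset α) : Prop :=
  ∀ Y ⊆ S, Y.card ≤ (Y.biUnion N).card

/-- `f(D) = |N(D)| - |D ∩ I|`. -/
def ff {α C : Type*} [DecidableEq α] [DecidableEq C] (N : α → Finset C) (I D : Finset α) : ℤ :=
  ((D.biUnion N).card : ℤ) - ((D ∩ I).card : ℤ)

/-- `E`, `I` disjoint, `I` satisfies Hall's condition, and so does `I` together with any two elements of `E`. -/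
structure Ctx {α C : Type*} [DecidableEq α] [DecidableEq C] (N : α → Finset C) (E I : Finset α) : Prop where
  disj : Disjoint E I
  hI : Mt N I
  pair : ∀ a ∈ E, ∀ b ∈ E, Mt N ({a, b} ∪ I)

/-- the family of all `A ⊆ E ∪ I` with `f(A) ≤ k`. -/
def fam {α C : Type*} [DecidableEq α] [DecidableEq C] (N : α → Finset C) (E I : Finset α) (k : ℤ) :
    Finset (Finset α) := (E ∪ I).powerset.filter (fun A => ff N I A ≤ k)

theorem Mt_mono {α C : Type*} [DecidableEq C] {N : α → Finset C} {S T : Finset α} (h : Mt N T)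
    (hST : S ⊆ T) : Mt N S := fun Y hY => h Y (hY.trans hST)

theorem ff_submod {α C : Type*} [DecidableEq α] [DecidableEq C] (N : α → Finset C) (I A B : Finset α) :
    ff N I (A ∪ B) + ff N I (A ∩ B) + (((A.biUnion N ∩ B.biUnion N).card : ℤ)
      - (((A ∩ B).biUnion N).card : ℤ)) = ff N I A + ff N I B := by
  have h1 : (A ∪ B).biUnion N = A.biUnion N ∪ B.biUnion N := Finset.union_biUnion
  have h2 := Finset.card_union_add_card_inter (A.biUnion N) (B.biUnion N)
  have h3 : (A ∪ B) ∩ I = (A ∩ I) ∪ (B ∩ I) := Finset.union_inter_distrib_right A B I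
  have h4 : (A ∩ B) ∩ I = (A ∩ I) ∩ (B ∩ I) := Finset.inter_inter_distrib_right A B I
  have h5 := Finset.card_union_add_card_inter (A ∩ I) (B ∩ I)
  unfold ff
  rw [h1, h3, h4]
  zify at h2 h5
  linarith

theorem ff_submod_le {α C : Type*} [DecidableEq α] [DecidableEq C] (N : α → Finset C) (I A B : Finset α) :
    ff N I (A ∪ B) + ff N I (A ∩ B) ≤ ff N I A + ff N I B := by
  have h := ff_submod N I A B
  have h1 : (A ∩ B).biUnion N ⊆ A.biUnion N ∩ B.biUnion N :=
    Finset.subset_inter (Finset.biUnion_subset_biUnion_of_subset_left N Finset.inter_subset_left)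
      (Finset.biUnion_subset_biUnion_of_subset_left N Finset.inter_subset_right)
  have h2 : (((A ∩ B).biUnion N).card : ℤ) ≤ ((A.biUnion N ∩ B.biUnion N).card : ℤ) := by
    exact_mod_cast Finset.card_le_card h1
  linarith

theorem ff_lower {α C : Type*} [DecidableEq α] [DecidableEq C] {N : α → Finset C} {E I D S : Finset α}
    (hdisj : Disjoint E I) (hS : Mt N (S ∪ I)) (hSE : S ⊆ E) (hSD : S ⊆ D) :
    (S.card : ℤ) ≤ ff N I D := by
  have h1 := hS (S ∪ (D ∩ I)) (union_subset_union_right inter_subset_right)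
  have h2 : Disjoint S (D ∩ I) :=
    (hdisj.mono_left hSE).mono_right inter_subset_right
  rw [card_union_of_disjoint h2] at h1
  have h3 : (S ∪ (D ∩ I)).biUnion N ⊆ D.biUnion N :=
    biUnion_subset_biUnion_of_subset_left N (union_subset hSD inter_subset_left)
  have h4 := card_le_card h3
  unfold ff
  omega

/-- existence of the maximum tight set `I0`. -/
theorem exists_I0 {α C : Type*} [DecidableEq α] [DecidableEq C] {N : α → Finset C} {E I : Finset α}
    (hc : Ctx N E I) :
    ∃ I0 : Finset α, I0 ⊆ I ∧ ff N I I0 = 0 ∧ ∀ A ⊆ E ∪ I, ff N I A ≤ 0 → A ⊆ I0 := by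
  have h0 : ∀ D : Finset α, 0 ≤ ff N I D := by
    intro D
    have := ff_lower (N := N) (D := D) (S := ∅) hc.disj (by simpa using hc.hI)
      (empty_subset _) (empty_subset _)
    simpa using this
  have hne : (fam N E I 0).Nonempty := by
    refine ⟨∅, ?_⟩
    unfold fam
    rw [mem_filter]
    refine ⟨mem_powerset.mpr (empty_subset _), ?_⟩
    simp [ff]
  obtain ⟨I0, hI0, hmax⟩ := (fam N E I 0).exists_max_image (fun A => A.card) hne
  have hI0' := hI0
  unfold fam at hI0'
  rw [mem_filter, mem_powerset] at hI0'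
  have hff0 : ff N I I0 = 0 := le_antisymm hI0'.2 (h0 _)
  have hsub : ∀ A ⊆ E ∪ I, ff N I A ≤ 0 → A ⊆ I0 := by
    intro A hA hfA
    have h1 := ff_submod_le N I I0 A
    have h2 := h0 (I0 ∩ A)
    have h3 : I0 ∪ A ∈ fam N E I 0 := by
      unfold fam
      rw [mem_filter, mem_powerset]
      exact ⟨union_subset hI0'.1 hA, by linarith⟩
    have h4 := hmax _ h3
    have h5 : I0 = I0 ∪ A := eq_of_subset_of_card_le subset_union_left h4
    rw [h5]
    exact subset_union_right
  refine ⟨I0, ?_, hff0, hsub⟩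
  intro e he
  rcases mem_union.mp (hI0'.1 he) with heE | heI
  · exfalso
    have h1 := ff_lower (N := N) (D := I0) (S := {e}) hc.disj
      (by simpa using hc.pair e heE e heE) (singleton_subset_iff.mpr heE)
      (singleton_subset_iff.mpr he)
    rw [hff0] at h1
    simp at h1
  · exact heI

/-- the maximum tight set is contained in all maximal members of `fam k` (`k ≥ 0`). -/
theorem I0_subset {α C : Type*} [DecidableEq α] [DecidableEq C] {N : α → Finset C} {E I I0 : Finset α}
    (hc : Ctx N E I) (h1 : I0 ⊆ I) (h2 : ff N I I0 = 0) (k : ℤ) (A : Finset α)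
    (hA : Maximal (· ∈ fam N E I k) A) : I0 ⊆ A := by
  have hmem : A ∈ fam N E I k := hA.prop
  unfold fam at hmem
  rw [Finset.mem_filter, Finset.mem_powerset] at hmem
  have hI : Mt N ((∅ : Finset α) ∪ I) := by
    rw [Finset.empty_union]
    exact hc.hI
  have h0 : ((∅ : Finset α).card : ℤ) ≤ ff N I (A ∩ I0) :=
    ff_lower hc.disj hI (Finset.empty_subset _) (Finset.empty_subset _)
  rw [Finset.card_empty, Nat.cast_zero] at h0
  have hs := ff_submod_le N I A I0
  have hle : ff N I (A ∪ I0) ≤ k := by linarith [hmem.2]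
  have hin : A ∪ I0 ∈ fam N E I k := by
    unfold fam
    rw [Finset.mem_filter, Finset.mem_powerset]
    exact ⟨Finset.union_subset hmem.1 (h1.trans Finset.subset_union_right), hle⟩
  have h3 : A ∪ I0 ⊆ A := hA.le_of_ge hin Finset.subset_union_left
  exact Finset.subset_union_right.trans h3

/-- two different maximal members of `fam 1`. -/
theorem atoms {α C : Type*} [DecidableEq α] [DecidableEq C] {N : α → Finset C} {E I I0 : Finset α}
    (hc : Ctx N E I) (h1 : I0 ⊆ I) (h2 : ff N I I0 = 0) (h3 : ∀ A ⊆ E ∪ I, ff N I A ≤ 0 → A ⊆ I0)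
    (A B : Finset α) (hA : Maximal (· ∈ fam N E I 1) A) (hB : Maximal (· ∈ fam N E I 1) B)
    (hAB : A ≠ B) : A ∩ B = I0 ∧ A.biUnion N ∩ B.biUnion N = I0.biUnion N := by
  have mA := mem_filter.1 hA.prop
  have mB := mem_filter.1 hB.prop
  have hAs : A ⊆ E ∪ I := mem_powerset.1 mA.1
  have hBs : B ⊆ E ∪ I := mem_powerset.1 mB.1
  have hU : 1 < ff N I (A ∪ B) := by
    by_contra hle
    push Not at hle
    have hmem : A ∪ B ∈ fam N E I 1 :=
      mem_filter.2 ⟨mem_powerset.2 (union_subset hAs hBs), hle⟩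
    have e1 : A ∪ B ⊆ A := hA.le_of_ge hmem subset_union_left
    have e2 : A ∪ B ⊆ B := hB.le_of_ge hmem subset_union_right
    exact hAB (Subset.antisymm (subset_union_left.trans e2) (subset_union_right.trans e1))
  have hle := ff_submod_le N I A B
  have hI1 : ff N I (A ∩ B) ≤ 0 := by
    have := mA.2
    have := mB.2
    omega
  have hint : A ∩ B = I0 := by
    refine Subset.antisymm (h3 _ (inter_subset_left.trans hAs) hI1) ?_
    exact subset_inter (I0_subset hc h1 h2 1 A hA) (I0_subset hc h1 h2 1 B hB)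
  refine ⟨hint, ?_⟩
  have heq := ff_submod N I A B
  rw [hint, h2] at heq
  have hcard : (A.biUnion N ∩ B.biUnion N).card ≤ (I0.biUnion N).card := by
    have := mA.2
    have := mB.2
    omega
  have hsub : I0.biUnion N ⊆ A.biUnion N ∩ B.biUnion N := by
    rw [← hint]
    exact subset_inter (biUnion_subset_biUnion_of_subset_left N inter_subset_left)
      (biUnion_subset_biUnion_of_subset_left N inter_subset_right)
  exact (eq_of_subset_of_card_le hsub hcard).symm

/-- intersections of different maximal members of `fam 2`. -/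
theorem inter_D {α C : Type*} [DecidableEq α] [DecidableEq C] {N : α → Finset C} {E I I0 : Finset α}
    (hc : Ctx N E I) (h1 : I0 ⊆ I) (h2 : ff N I I0 = 0) (h3 : ∀ A ⊆ E ∪ I, ff N I A ≤ 0 → A ⊆ I0)
    (A B : Finset α) (hA : Maximal (· ∈ fam N E I 2) A) (hB : Maximal (· ∈ fam N E I 2) B)
    (hAB : A ≠ B) : A ∩ B = I0 ∨ Maximal (· ∈ fam N E I 1) (A ∩ B) := by
  have memf : ∀ (k : ℤ) (X : Finset α), X ∈ fam N E I k ↔ X ⊆ E ∪ I ∧ ff N I X ≤ k := by
    intro k X
    unfold fam
    rw [mem_filter, mem_powerset]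
  obtain ⟨hA1, hA2⟩ := (memf 2 A).1 hA.1
  obtain ⟨hB1, hB2⟩ := (memf 2 B).1 hB.1
  have hAU : 3 ≤ ff N I (A ∪ B) := by
    by_contra hcon
    have hle : ff N I (A ∪ B) ≤ 2 := by omega
    have hm : A ∪ B ∈ fam N E I 2 := (memf 2 _).2 ⟨union_subset hA1 hB1, hle⟩
    have e1 : A ∪ B ⊆ A := hA.2 hm subset_union_left
    have e2 : A ∪ B ⊆ B := hB.2 hm subset_union_right
    exact hAB (Subset.antisymm (subset_union_left.trans e2) (subset_union_right.trans e1))
  have hsub := ff_submod_le N I A B
  have hint : ff N I (A ∩ B) ≤ 1 := by omega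
  by_cases hI0 : A ∩ B = I0
  · left; exact hI0
  right
  have hI0A := I0_subset hc h1 h2 2 A hA
  have hI0B := I0_subset hc h1 h2 2 B hB
  have hI0AB : I0 ⊆ A ∩ B := subset_inter hI0A hI0B
  have hnot : ¬ (A ∩ B ⊆ I0) := fun h => hI0 (Subset.antisymm h hI0AB)
  have hmem : A ∩ B ∈ fam N E I 1 := (memf 1 _).2 ⟨inter_subset_left.trans hA1, hint⟩
  obtain ⟨M, hM1, hM2⟩ := Finset.exists_le_maximal (fam N E I 1) hmem
  have hM1' : A ∩ B ⊆ M := hM1
  obtain ⟨hM3, hM4⟩ := (memf 1 M).1 hM2.1
  have key : ∀ X : Finset α, Maximal (· ∈ fam N E I 2) X → A ∩ B ⊆ X → M ⊆ X := by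
    intro X hX hABX
    obtain ⟨hX1, hX2⟩ := (memf 2 X).1 hX.1
    have hs := ff_submod_le N I M X
    have hge : 1 ≤ ff N I (M ∩ X) := by
      by_contra hcon
      have h0 : ff N I (M ∩ X) ≤ 0 := by omega
      have := h3 (M ∩ X) (inter_subset_left.trans hM3) h0
      exact hnot ((subset_inter hM1' hABX).trans this)
    have hle : ff N I (M ∪ X) ≤ 2 := by omega
    have hm : M ∪ X ∈ fam N E I 2 := (memf 2 _).2 ⟨union_subset hM3 hX1, hle⟩
    have e1 : M ∪ X ⊆ X := hX.2 hm subset_union_right
    exact subset_union_left.trans e1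
  have hMA := key A hA inter_subset_left
  have hMB := key B hB inter_subset_right
  have hEq : M = A ∩ B := Subset.antisymm (subset_inter hMA hMB) hM1'
  rw [← hEq]
  exact hM2

/-- the deficiency of a union of atoms is at most `0`. -/
theorem def_atoms {α C : Type*} [DecidableEq α] [DecidableEq C] {N : α → Finset C} {E I I0 : Finset α}
    (hc : Ctx N E I) (h1 : I0 ⊆ I) (h2 : ff N I I0 = 0) (h3 : ∀ A ⊆ E ∪ I, ff N I A ≤ 0 → A ⊆ I0)
    (Q : Finset (Finset α)) (hQ : ∀ A ∈ Q, Maximal (· ∈ fam N E I 1) A) :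
    (((Q.biUnion id ∪ I0).card : ℤ) - ((Q.biUnion id ∪ I0).biUnion N).card) ≤ 0 := by
  have hI0 : (I0.card : ℤ) - (I0.biUnion N).card = 0 := by
    have h4 : I0 ∩ I = I0 := Finset.inter_eq_left.mpr h1
    unfold ff at h2
    rw [h4] at h2
    linarith
  have hA0 : ∀ A : Finset α, Maximal (· ∈ fam N E I 1) A →
      (A.card : ℤ) - (A.biUnion N).card ≤ 0 := by
    intro A hA
    have hm := hA.prop
    simp only [fam, Finset.mem_filter, Finset.mem_powerset] at hm
    obtain ⟨hsub, hff⟩ := hm
    have hcard : A.card = (A ∩ E).card + (A ∩ I).card := by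
      rw [← Finset.card_union_of_disjoint]
      · rw [← Finset.inter_union_distrib_left, Finset.inter_eq_left.mpr hsub]
      · exact Finset.disjoint_of_subset_left Finset.inter_subset_right
          (Finset.disjoint_of_subset_right Finset.inter_subset_right hc.disj)
    have hE : ((A ∩ E).card : ℤ) ≤ ff N I A := by
      rcases Nat.lt_or_ge (A ∩ E).card 2 with hlt | hge
      · have h5 : (A ∩ E).card = 0 ∨ (A ∩ E).card = 1 := by omega
        rcases h5 with h5 | h5
        · have h6 := ff_lower (N := N) (E := E) (I := I) (D := A) (S := ∅) hc.disj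
            (by simpa using hc.hI) (by simp) (by simp)
          rw [h5]
          simpa using h6
        · obtain ⟨a, ha⟩ := Finset.card_eq_one.mp h5
          have haA : a ∈ A ∩ E := by rw [ha]; simp
          obtain ⟨ha1, ha2⟩ := Finset.mem_inter.mp haA
          have h6 := ff_lower (N := N) (E := E) (I := I) (D := A) (S := {a}) hc.disj
            (by
              have := hc.pair a ha2 a ha2
              simpa using this) (by simpa using ha2) (by simpa using ha1)
          rw [h5]
          simpa using h6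
      · exfalso
        obtain ⟨a, ha, b, hb, hab⟩ := Finset.one_lt_card.mp (show 1 < (A ∩ E).card by omega)
        obtain ⟨ha1, ha2⟩ := Finset.mem_inter.mp ha
        obtain ⟨hb1, hb2⟩ := Finset.mem_inter.mp hb
        have h6 := ff_lower (N := N) (E := E) (I := I) (D := A) (S := {a, b}) hc.disj
            (hc.pair a ha2 b hb2) (by
              intro x hx
              simp only [Finset.mem_insert, Finset.mem_singleton] at hx
              rcases hx with rfl | rfl <;> assumption) (by
              intro x hx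
              simp only [Finset.mem_insert, Finset.mem_singleton] at hx
              rcases hx with rfl | rfl <;> assumption)
        rw [Finset.card_pair hab] at h6
        push_cast at h6
        linarith
    have h7 : ff N I A = ((A.biUnion N).card : ℤ) - ((A ∩ I).card : ℤ) := rfl
    have h8 : (A.card : ℤ) = (A ∩ E).card + (A ∩ I).card := by exact_mod_cast hcard
    linarith
  induction Q using Finset.induction_on with
  | empty =>
    simp only [Finset.biUnion_empty, Finset.empty_union]
    exact hI0.le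
  | insert A Q hAQ ih =>
    have hQ' : ∀ B ∈ Q, Maximal (· ∈ fam N E I 1) B := fun B hB =>
      hQ B (Finset.mem_insert_of_mem hB)
    have hAm := hQ A (Finset.mem_insert_self A Q)
    have ih' := ih hQ'
    have hIA : I0 ⊆ A := I0_subset hc h1 h2 1 A hAm
    have hdA := hA0 A hAm
    obtain ⟨P, hP⟩ : ∃ P, P = Q.biUnion id ∪ I0 := ⟨_, rfl⟩
    have hins : (insert A Q).biUnion id ∪ I0 = A ∪ P := by
      rw [hP, Finset.biUnion_insert, Finset.union_assoc]
      rfl
    rw [hins]
    rw [← hP] at ih'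
    have hAP : A ∩ P = I0 := by
      apply Finset.Subset.antisymm
      · intro x hx
        obtain ⟨hx1, hx2⟩ := Finset.mem_inter.mp hx
        rw [hP] at hx2
        rcases Finset.mem_union.mp hx2 with h | h
        · obtain ⟨B, hB, hxB⟩ := Finset.mem_biUnion.mp h
          have hne : A ≠ B := by
            rintro rfl
            exact hAQ hB
          have h9 := (atoms hc h1 h2 h3 A B hAm (hQ' B hB) hne).1
          rw [← h9]
          exact Finset.mem_inter.mpr ⟨hx1, hxB⟩
        · exact h
      · intro x hx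
        refine Finset.mem_inter.mpr ⟨hIA hx, ?_⟩
        rw [hP]
        exact Finset.mem_union_right _ hx
    have hNAP : A.biUnion N ∩ P.biUnion N = I0.biUnion N := by
      apply Finset.Subset.antisymm
      · intro x hx
        obtain ⟨hx1, hx2⟩ := Finset.mem_inter.mp hx
        obtain ⟨y, hy, hxy⟩ := Finset.mem_biUnion.mp hx2
        rw [hP] at hy
        rcases Finset.mem_union.mp hy with h | h
        · obtain ⟨B, hB, hyB⟩ := Finset.mem_biUnion.mp h
          have hne : A ≠ B := by
            rintro rfl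
            exact hAQ hB
          have h9 := (atoms hc h1 h2 h3 A B hAm (hQ' B hB) hne).2
          rw [← h9]
          exact Finset.mem_inter.mpr ⟨hx1, Finset.mem_biUnion.mpr ⟨y, hyB, hxy⟩⟩
        · exact Finset.mem_biUnion.mpr ⟨y, h, hxy⟩
      · intro x hx
        obtain ⟨y, hy, hxy⟩ := Finset.mem_biUnion.mp hx
        refine Finset.mem_inter.mpr ⟨Finset.mem_biUnion.mpr ⟨y, hIA hy, hxy⟩,
          Finset.mem_biUnion.mpr ⟨y, ?_, hxy⟩⟩
        rw [hP]
        exact Finset.mem_union_right _ hy
    have hc1 := Finset.card_union_add_card_inter A P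
    have hNun : (A ∪ P).biUnion N = A.biUnion N ∪ P.biUnion N := Finset.union_biUnion
    have hc2 := Finset.card_union_add_card_inter (A.biUnion N) (P.biUnion N)
    rw [hAP] at hc1
    rw [hNAP, ← hNun] at hc2
    have hc1' : ((A ∪ P).card : ℤ) + I0.card = A.card + P.card := by exact_mod_cast hc1
    have hc2' : (((A ∪ P).biUnion N).card : ℤ) + (I0.biUnion N).card
        = (A.biUnion N).card + (P.biUnion N).card := by exact_mod_cast hc2
    linarith

theorem dd_super {α C : Type*} [DecidableEq α] [DecidableEq C] (N : α → Finset C)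
    (P D : Finset α) : ((P.card : ℤ) - (P.biUnion N).card) + ((D.card : ℤ) - (D.biUnion N).card) ≤
      (((P ∪ D).card : ℤ) - ((P ∪ D).biUnion N).card) +
        (((P ∩ D).card : ℤ) - ((P ∩ D).biUnion N).card) := by
  have e1 : (P ∪ D).card + (P ∩ D).card = P.card + D.card := card_union_add_card_inter P D
  have e2 : (P ∪ D).biUnion N = P.biUnion N ∪ D.biUnion N := by
    ext x
    simp only [mem_biUnion, mem_union]
    constructor
    · rintro ⟨a, ha | ha, hx⟩
      · exact Or.inl ⟨a, ha, hx⟩
      · exact Or.inr ⟨a, ha, hx⟩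
    · rintro (⟨a, ha, hx⟩ | ⟨a, ha, hx⟩)
      · exact ⟨a, Or.inl ha, hx⟩
      · exact ⟨a, Or.inr ha, hx⟩
  have e3 : (P ∩ D).biUnion N ⊆ P.biUnion N ∩ D.biUnion N := by
    intro x hx
    rw [mem_biUnion] at hx
    obtain ⟨a, ha, hx⟩ := hx
    rw [mem_inter] at ha
    rw [mem_inter, mem_biUnion, mem_biUnion]
    exact ⟨⟨a, ha.1, hx⟩, ⟨a, ha.2, hx⟩⟩
  have e4 := card_le_card e3
  have e5 : (P.biUnion N ∪ D.biUnion N).card + (P.biUnion N ∩ D.biUnion N).card =
      (P.biUnion N).card + (D.biUnion N).card := card_union_add_card_inter _ _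
  rw [e2]
  omega

/-- superadditivity of the deficiency over different maximal members of `fam 2`. -/
theorem sum_D {α C : Type*} [DecidableEq α] [DecidableEq C] {N : α → Finset C} {E I I0 : Finset α}
    (hc : Ctx N E I) (h1 : I0 ⊆ I) (h2 : ff N I I0 = 0) (h3 : ∀ A ⊆ E ∪ I, ff N I A ≤ 0 → A ⊆ I0)
    (Q : Finset (Finset α)) (hQ : ∀ A ∈ Q, Maximal (· ∈ fam N E I 2) A) :
    (∑ D ∈ Q, (((D ∩ E).card : ℤ) - 2)) ≤
      (((Q.biUnion id ∪ I0).card : ℤ) - ((Q.biUnion id ∪ I0).biUnion N).card) := by
  induction Q using Finset.induction_on with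
  | empty =>
    rw [sum_empty, biUnion_empty, empty_union]
    unfold ff at h2
    rw [inter_eq_left.2 h1] at h2
    omega
  | insert D Q hD ih =>
    have ih' := ih (fun A hA => hQ A (mem_insert_of_mem hA))
    have hDmax := hQ D (mem_insert_self D Q)
    rw [sum_insert hD]
    have hDmem : D ∈ fam N E I 2 := hDmax.prop
    unfold fam at hDmem
    rw [mem_filter, mem_powerset] at hDmem
    obtain ⟨hDsub, hDff⟩ := hDmem
    have hcard : D.card = (D ∩ E).card + (D ∩ I).card := by
      rw [← card_union_of_disjoint]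
      · rw [← inter_union_distrib_left, inter_eq_left.2 hDsub]
      · exact (hc.disj.mono inter_subset_right inter_subset_right)
    have hdd : ((D ∩ E).card : ℤ) - 2 ≤ (D.card : ℤ) - (D.biUnion N).card := by
      unfold ff at hDff
      omega
    have hI0D : I0 ⊆ D := I0_subset hc h1 h2 2 D hDmax
    -- the intersection
    have hint : (Q.biUnion id ∪ I0) ∩ D = ((Q.image (· ∩ D)).filter (· ≠ I0)).biUnion id ∪ I0 := by
      ext x
      simp only [mem_inter, mem_union, mem_biUnion, id, mem_filter, mem_image]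
      constructor
      · rintro ⟨⟨A, hA, hx⟩ | hx, hxD⟩
        · by_cases hAI : A ∩ D = I0
          · right
            rw [← hAI, mem_inter]
            exact ⟨hx, hxD⟩
          · left
            exact ⟨A ∩ D, ⟨⟨A, hA, rfl⟩, hAI⟩, mem_inter.2 ⟨hx, hxD⟩⟩
        · exact Or.inr hx
      · rintro (⟨_, ⟨⟨A, hA, rfl⟩, -⟩, hx⟩ | hx)
        · rw [mem_inter] at hx
          exact ⟨Or.inl ⟨A, hA, hx.1⟩, hx.2⟩
        · exact ⟨Or.inr hx, hI0D hx⟩
    have hatoms := def_atoms hc h1 h2 h3 ((Q.image (· ∩ D)).filter (· ≠ I0)) (by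
      intro B hB
      rw [mem_filter, mem_image] at hB
      obtain ⟨⟨A, hA, rfl⟩, hne⟩ := hB
      have hAD : A ≠ D := by
        rintro rfl
        exact hD hA
      rcases inter_D hc h1 h2 h3 A D (hQ A (mem_insert_of_mem hA)) hDmax hAD with h | h
      · exact absurd h hne
      · exact h)
    rw [← hint] at hatoms
    have hsup := dd_super N (Q.biUnion id ∪ I0) D
    have hun : (insert D Q).biUnion id ∪ I0 = (Q.biUnion id ∪ I0) ∪ D := by
      rw [biUnion_insert]
      ext x
      simp only [mem_union, id]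
      tauto
    rw [hun]
    linarith

/-- the line-sum inequality. -/
theorem line_sum {α C : Type*} [DecidableEq α] [DecidableEq C] {N : α → Finset C} {E I : Finset α}
    (hc : Ctx N E I) (Q : Finset (Finset α)) (hQ : ∀ A ∈ Q, Maximal (· ∈ fam N E I 2) A)
    (S : Finset α) (hS : S ⊆ E) (hSI : Mt N (S ∪ I)) :
    (∑ D ∈ Q, (((D ∩ E).card : ℤ) - 2)) ≤ (E.card : ℤ) - S.card := by
  obtain ⟨I0, h1, h2, h3⟩ := exists_I0 hc
  have hsum := sum_D hc h1 h2 h3 Q hQ
  set P := Q.biUnion id ∪ I0 with hP
  have hPE : P ⊆ E ∪ I := by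
    rw [hP]
    apply Finset.union_subset
    · rw [Finset.biUnion_subset]
      intro A hA
      have hA1 := (hQ A hA).prop
      unfold fam at hA1
      rw [Finset.mem_filter, Finset.mem_powerset] at hA1
      exact hA1.1
    · exact h1.trans Finset.subset_union_right
  have hHall : (P ∩ (S ∪ I)).card ≤ (P.biUnion N).card :=
    (hSI _ Finset.inter_subset_right).trans (Finset.card_le_card
      (Finset.biUnion_subset_biUnion_of_subset_left N Finset.inter_subset_left))
  have hcard : (P ∩ (S ∪ I)).card + (P \ (S ∪ I)).card = P.card :=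
    Finset.card_inter_add_card_sdiff P (S ∪ I)
  have hsub : P \ (S ∪ I) ⊆ E \ S := by
    intro x hx
    rw [Finset.mem_sdiff, Finset.notMem_union] at hx
    rcases Finset.mem_union.1 (hPE hx.1) with h4 | h4
    · exact Finset.mem_sdiff.2 ⟨h4, hx.2.1⟩
    · exact absurd h4 hx.2.2
  have hle : (P \ (S ∪ I)).card ≤ (E \ S).card := Finset.card_le_card hsub
  have hES : (E \ S).card + S.card = E.card := Finset.card_sdiff_add_card_eq_card hS
  omega

/-- a dependent triple lies in a maximal member of `fam 2`. -/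
theorem triple_mem {α C : Type*} [DecidableEq α] [DecidableEq C] {N : α → Finset C} {E I : Finset α}
    (hc : Ctx N E I) {e x y : α} (he : e ∈ E) (hx : x ∈ E) (hy : y ∈ E) (hex : e ≠ x) (hey : e ≠ y)
    (hxy : x ≠ y) (hdep : ¬ Mt N ({e, x, y} ∪ I)) :
    ∃ D : Finset α, Maximal (· ∈ fam N E I 2) D ∧ e ∈ D ∧ x ∈ D ∧ y ∈ D := by
  unfold Mt at hdep
  push Not at hdep
  obtain ⟨Y, hY, hlt⟩ := hdep
  have hmem : ∀ z ∈ Y, z = e ∨ z = x ∨ z = y ∨ z ∈ I := by
    intro z hz
    have := hY hz
    simp only [Finset.mem_union, Finset.mem_insert, Finset.mem_singleton] at this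
    tauto
  have heY : e ∈ Y := by
    by_contra hcon
    have h1 : Y ⊆ {x, y} ∪ I := by
      intro z hz
      have h2 := hmem z hz
      have h3 : z ≠ e := fun h => hcon (h ▸ hz)
      simp only [Finset.mem_union, Finset.mem_insert, Finset.mem_singleton]
      tauto
    have := hc.pair x hx y hy Y h1
    omega
  have hxY : x ∈ Y := by
    by_contra hcon
    have h1 : Y ⊆ {e, y} ∪ I := by
      intro z hz
      have h2 := hmem z hz
      have h3 : z ≠ x := fun h => hcon (h ▸ hz)
      simp only [Finset.mem_union, Finset.mem_insert, Finset.mem_singleton]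
      tauto
    have := hc.pair e he y hy Y h1
    omega
  have hyY : y ∈ Y := by
    by_contra hcon
    have h1 : Y ⊆ {e, x} ∪ I := by
      intro z hz
      have h2 := hmem z hz
      have h3 : z ≠ y := fun h => hcon (h ▸ hz)
      simp only [Finset.mem_union, Finset.mem_insert, Finset.mem_singleton]
      tauto
    have := hc.pair e he x hx Y h1
    omega
  have hsub : Y ⊆ E ∪ I := by
    intro z hz
    rw [Finset.mem_union]
    rcases hmem z hz with h | h | h | h
    · rw [h]; exact Or.inl he
    · rw [h]; exact Or.inl hx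
    · rw [h]; exact Or.inl hy
    · exact Or.inr h
  have hcard : Y.card ≤ 3 + (Y ∩ I).card := by
    have h1 : Y ⊆ ({e, x, y} : Finset α) ∪ (Y ∩ I) := by
      intro z hz
      have h2 := hmem z hz
      simp only [Finset.mem_union, Finset.mem_insert, Finset.mem_singleton, Finset.mem_inter]
      tauto
    have h3 := Finset.card_le_card h1
    have h4 := Finset.card_union_le ({e, x, y} : Finset α) (Y ∩ I)
    have h5 : ({e, x, y} : Finset α).card ≤ 3 := Finset.card_le_three
    omega
  have hfam : Y ∈ fam N E I 2 := by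
    unfold fam
    rw [Finset.mem_filter, Finset.mem_powerset]
    refine ⟨hsub, ?_⟩
    unfold ff
    omega
  obtain ⟨D, hD1, hD2⟩ := (fam N E I 2).exists_le_maximal hfam
  exact ⟨D, hD2, hD1 heY, hD1 hxY, hD1 hyY⟩

/-- three elements of `E` in a member of `fam 2` are dependent. -/
theorem triple_dep {α C : Type*} [DecidableEq α] [DecidableEq C] {N : α → Finset C} {E I : Finset α}
    (hc : Ctx N E I) {D : Finset α} (hD : D ∈ fam N E I 2) {a b c : α} (ha : a ∈ D ∩ E) (hb : b ∈ D ∩ E)
    (hcc : c ∈ D ∩ E) (hab : a ≠ b) (hac : a ≠ c) (hbc : b ≠ c) : ¬ Mt N ({a, b, c} ∪ I) := by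
  intro hM
  have hf : ff N I D ≤ 2 := (Finset.mem_filter.1 hD).2
  have h1 := ff_lower (S := {a, b, c}) (D := D) hc.disj hM (by
    intro x hx
    simp only [Finset.mem_insert, Finset.mem_singleton] at hx
    rcases hx with rfl | rfl | rfl
    · exact (Finset.mem_inter.1 ha).2
    · exact (Finset.mem_inter.1 hb).2
    · exact (Finset.mem_inter.1 hcc).2) (by
    intro x hx
    simp only [Finset.mem_insert, Finset.mem_singleton] at hx
    rcases hx with rfl | rfl | rfl
    · exact (Finset.mem_inter.1 ha).1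
    · exact (Finset.mem_inter.1 hb).1
    · exact (Finset.mem_inter.1 hcc).1)
  have h2 : ({a, b, c} : Finset α).card = 3 := Finset.card_eq_three.2 ⟨a, b, c, hab, hac, hbc, rfl⟩
  rw [h2] at h1
  have h3 : ((3 : ℕ) : ℤ) ≤ 2 := h1.trans hf
  norm_num at h3

/-- an element through which the long lines have small total excess. -/
theorem exists_good_elt {α C : Type*} [DecidableEq α] [DecidableEq C] {N : α → Finset C} {E I : Finset α}
    (hc : Ctx N E I) (q : ℕ) (S : Finset α) (hS : S ⊆ E) (hSI : Mt N (S ∪ I))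
    (hcard : E.card < (q + 1) * S.card)
    (hlines : ∀ X ⊆ E, (∀ a ∈ X, ∀ b ∈ X, ∀ c ∈ X, a ≠ b → a ≠ c → b ≠ c → ¬ Mt N ({a, b, c} ∪ I)) →
      X.card ≤ q + 1) :
    ∃ e ∈ E, ∃ Rm ⊆ E.erase e, Rm.card < q ∧ ∀ x ∈ (E.erase e) \ Rm, ∀ y ∈ (E.erase e) \ Rm, x ≠ y →
      Mt N ({e, x, y} ∪ I) := by
  classical
  set 𝒟 := (fam N E I 2).filter
    (fun D => Maximal (· ∈ fam N E I 2) D ∧ 3 ≤ (D ∩ E).card) with h𝒟
  have h𝒟m : ∀ D ∈ 𝒟, D ∈ fam N E I 2 ∧ Maximal (· ∈ fam N E I 2) D ∧ 3 ≤ (D ∩ E).card := by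
    intro D hD
    rw [h𝒟, mem_filter] at hD
    exact hD
  have hbd : ∀ D ∈ 𝒟, (D ∩ E).card ≤ q + 1 := by
    intro D hD
    refine hlines (D ∩ E) inter_subset_right ?_
    intro a ha b hb c hcc hab hac hbc
    exact triple_dep hc (h𝒟m D hD).1 ha hb hcc hab hac hbc
  set w : α → ℤ := fun e => ∑ D ∈ 𝒟.filter (fun D => e ∈ D), (((D ∩ E).card : ℤ) - 2) with hw
  have hsw : ∑ e ∈ E, w e = ∑ D ∈ 𝒟, ((D ∩ E).card : ℤ) * (((D ∩ E).card : ℤ) - 2) := by
    simp only [hw, sum_filter]
    rw [sum_comm]
    refine sum_congr rfl fun D hD => ?_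
    rw [← sum_filter, sum_const, nsmul_eq_mul, filter_mem_eq_inter, inter_comm]
  have hle : ∑ D ∈ 𝒟, ((D ∩ E).card : ℤ) * (((D ∩ E).card : ℤ) - 2) ≤
      ((q : ℤ) + 1) * ∑ D ∈ 𝒟, (((D ∩ E).card : ℤ) - 2) := by
    rw [mul_sum]
    refine sum_le_sum fun D hD => ?_
    have h1 : ((D ∩ E).card : ℤ) ≤ (q : ℤ) + 1 := by exact_mod_cast hbd D hD
    have h2 : (3 : ℤ) ≤ ((D ∩ E).card : ℤ) := by exact_mod_cast (h𝒟m D hD).2.2
    exact mul_le_mul_of_nonneg_right h1 (by linarith)
  have hls := line_sum hc 𝒟 (fun D hD => (h𝒟m D hD).2.1) S hS hSI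
  have hcard' : (E.card : ℤ) < ((q : ℤ) + 1) * S.card := by exact_mod_cast hcard
  have hlt : ∑ e ∈ E, w e < ∑ _e ∈ E, (q : ℤ) := by
    rw [hsw, sum_const, nsmul_eq_mul]
    have h3 : ((q : ℤ) + 1) * ∑ D ∈ 𝒟, (((D ∩ E).card : ℤ) - 2) ≤
        ((q : ℤ) + 1) * ((E.card : ℤ) - S.card) :=
      mul_le_mul_of_nonneg_left hls (by positivity)
    nlinarith
  obtain ⟨e, he, hwe⟩ := exists_lt_of_sum_lt hlt
  refine ⟨e, he, ?_⟩
  let xD : Finset α → α := fun D => if h : ((D ∩ E).erase e).Nonempty then h.choose else e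
  have hxD : ∀ D ∈ 𝒟, e ∈ D → xD D ∈ (D ∩ E).erase e := by
    intro D hD heD
    have h1 : ((D ∩ E).erase e).Nonempty := by
      rw [← card_pos, card_erase_of_mem (mem_inter.2 ⟨heD, he⟩)]
      have := (h𝒟m D hD).2.2
      omega
    have h2 : xD D = h1.choose := dif_pos h1
    rw [h2]
    exact h1.choose_spec
  refine ⟨(𝒟.filter (fun D => e ∈ D)).biUnion (fun D => ((D ∩ E).erase e).erase (xD D)), ?_, ?_, ?_⟩
  · intro z hz
    obtain ⟨D, hD, hzD⟩ := mem_biUnion.1 hz
    have h1 := mem_of_mem_erase hzD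
    have h2 := mem_erase.1 h1
    exact mem_erase.2 ⟨h2.1, (mem_inter.1 h2.2).2⟩
  · have h1 := card_biUnion_le (s := 𝒟.filter (fun D => e ∈ D))
      (t := fun D => ((D ∩ E).erase e).erase (xD D))
    have h2 : ((∑ D ∈ 𝒟.filter (fun D => e ∈ D),
        (((D ∩ E).erase e).erase (xD D)).card : ℕ) : ℤ) = w e := by
      rw [hw]
      push_cast
      refine sum_congr rfl fun D hD => ?_
      obtain ⟨hD1, hD2⟩ := mem_filter.1 hD
      rw [card_erase_of_mem (hxD D hD1 hD2), card_erase_of_mem (mem_inter.2 ⟨hD2, he⟩)]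
      have := (h𝒟m D hD1).2.2
      omega
    have h3 : ((((𝒟.filter (fun D => e ∈ D)).biUnion
        (fun D => ((D ∩ E).erase e).erase (xD D))).card : ℕ) : ℤ) < q := by
      refine lt_of_le_of_lt ?_ hwe
      rw [← h2]
      exact_mod_cast h1
    exact_mod_cast h3
  · intro x hx y hy hxy
    obtain ⟨hx1, hx2⟩ := mem_sdiff.1 hx
    obtain ⟨hy1, hy2⟩ := mem_sdiff.1 hy
    obtain ⟨hxe, hxE⟩ := mem_erase.1 hx1
    obtain ⟨hye, hyE⟩ := mem_erase.1 hy1
    by_contra hdep
    obtain ⟨D, hD, heD, hxD', hyD'⟩ := triple_mem hc he hxE hyE (Ne.symm hxe) (Ne.symm hye) hxy hdep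
    have h3 : 3 ≤ (D ∩ E).card := by
      have hsub : ({e, x, y} : Finset α) ⊆ D ∩ E := by
        intro z hz
        simp only [mem_insert, mem_singleton] at hz
        rcases hz with rfl | rfl | rfl
        · exact mem_inter.2 ⟨heD, he⟩
        · exact mem_inter.2 ⟨hxD', hxE⟩
        · exact mem_inter.2 ⟨hyD', hyE⟩
      have hc3 : ({e, x, y} : Finset α).card = 3 :=
        card_eq_three.2 ⟨e, x, y, Ne.symm hxe, Ne.symm hye, hxy, rfl⟩
      rw [← hc3]
      exact card_le_card hsub
    have hD𝒟 : D ∈ 𝒟 := by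
      rw [h𝒟, mem_filter]
      exact ⟨hD.1, hD, h3⟩
    have hDf : D ∈ 𝒟.filter (fun D => e ∈ D) := mem_filter.2 ⟨hD𝒟, heD⟩
    by_cases hxx : x = xD D
    · apply hy2
      refine mem_biUnion.2 ⟨D, hDf, mem_erase.2 ⟨?_, mem_erase.2 ⟨hye, mem_inter.2 ⟨hyD', hyE⟩⟩⟩⟩
      rw [← hxx]
      exact Ne.symm hxy
    · apply hx2
      exact mem_biUnion.2 ⟨D, hDf, mem_erase.2 ⟨hxx, mem_erase.2 ⟨hxe, mem_inter.2 ⟨hxD', hxE⟩⟩⟩⟩

/-- the density theorem. -/
theorem density {α C : Type*} [DecidableEq α] [DecidableEq C] (N : α → Finset C) (q : ℕ) (hq : 1 ≤ q) :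
    ∀ (ρ : ℕ) (E I : Finset α), Ctx N E I →
      (∀ Y ⊆ E, ∀ X ⊆ E, (∀ a ∈ X, ∀ b ∈ X, Mt N ({a, b} ∪ (Y ∪ I))) →
        (∀ a ∈ X, ∀ b ∈ X, ∀ c ∈ X, a ≠ b → a ≠ c → b ≠ c → ¬ Mt N ({a, b, c} ∪ (Y ∪ I))) →
        X.card ≤ q + 1) →
      (∀ S ⊆ E, Mt N (S ∪ I) → S.card ≤ ρ + 1) → E.card ≤ q * ρ + 1 := by
  intro ρ
  induction ρ with
  | zero =>
    intro E I hc _ hr
    by_contra hcon
    have h1 : 1 < E.card := by omega
    obtain ⟨a, ha, b, hb, hab⟩ := Finset.one_lt_card.1 h1
    have h2 := hr {a, b} (by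
      intro x hx
      rw [Finset.mem_insert, Finset.mem_singleton] at hx
      rcases hx with rfl | rfl
      · exact ha
      · exact hb) (hc.pair a ha b hb)
    rw [Finset.card_pair hab] at h2
    omega
  | succ ρ ih =>
    intro E0 I hc0 hl0 hr0
    by_contra hcon
    have hcon' : q * (ρ + 1) + 2 ≤ E0.card := by omega
    obtain ⟨E, hE0, hEc⟩ := Finset.exists_subset_card_eq hcon'
    have hc : Ctx N E I := ⟨hc0.disj.mono_left hE0, hc0.hI,
      fun a ha b hb => hc0.pair a (hE0 ha) b (hE0 hb)⟩
    have hl : ∀ Y ⊆ E, ∀ X ⊆ E, (∀ a ∈ X, ∀ b ∈ X, Mt N ({a, b} ∪ (Y ∪ I))) →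
        (∀ a ∈ X, ∀ b ∈ X, ∀ c ∈ X, a ≠ b → a ≠ c → b ≠ c → ¬ Mt N ({a, b, c} ∪ (Y ∪ I))) →
        X.card ≤ q + 1 := fun Y hY X hX => hl0 Y (hY.trans hE0) X (hX.trans hE0)
    have hr : ∀ S ⊆ E, Mt N (S ∪ I) → S.card ≤ ρ + 1 + 1 := fun S hS => hr0 S (hS.trans hE0)
    have hq1 : q * (ρ + 1) = q * ρ + q := by ring
    obtain ⟨S, hS, hSI, hSc⟩ : ∃ S ⊆ E, Mt N (S ∪ I) ∧ ρ + 2 ≤ S.card := by
      by_contra hno
      push Not at hno
      have h3 := ih E I hc hl (fun S hS hSI => by
        have := hno S hS hSI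
        omega)
      omega
    have hcard : E.card < (q + 1) * S.card := by
      have h4 : (q + 1) * (ρ + 2) ≤ (q + 1) * S.card := Nat.mul_le_mul_left _ hSc
      have h5 : (q + 1) * (ρ + 2) = q * ρ + 2 * q + ρ + 2 := by ring
      omega
    obtain ⟨e, he, Rm, hRm, hRmc, hgood⟩ := exists_good_elt hc q S hS hSI hcard (by
      intro X hX hdep
      refine hl ∅ (Finset.empty_subset _) X hX ?_ ?_
      · intro a ha b hb
        rw [Finset.empty_union]
        exact hc.pair a (hX ha) b (hX hb)
      · intro a ha b hb c hcc hab hac hbc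
        rw [Finset.empty_union]
        exact hdep a ha b hb c hcc hab hac hbc)
    have hE'E : (E.erase e) \ Rm ⊆ E := Finset.sdiff_subset.trans (Finset.erase_subset _ _)
    have heE' : e ∉ (E.erase e) \ Rm := by
      intro h
      exact (Finset.notMem_erase e E) (Finset.sdiff_subset h)
    have hE'c : q * ρ + 2 ≤ ((E.erase e) \ Rm).card := by
      rw [Finset.card_sdiff_of_subset hRm, Finset.card_erase_of_mem he]
      omega
    have hswap : ∀ Y : Finset α, Y ∪ insert e I = insert e Y ∪ I := by
      intro Y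
      rw [Finset.insert_union, Finset.union_insert]
    have h6 := ih ((E.erase e) \ Rm) (insert e I) ⟨?_, ?_, ?_⟩ ?_ ?_
    · omega
    · rw [Finset.disjoint_insert_right]
      exact ⟨heE', hc.disj.mono_left hE'E⟩
    · have h7 := hc.pair e he e he
      have h8 : ({e, e} : Finset α) ∪ I = insert e I := by
        rw [Finset.insert_eq_self.2 (Finset.mem_singleton_self e), Finset.insert_eq]
      rw [h8] at h7
      exact h7
    · intro a ha b hb
      rw [hswap]
      by_cases hab : a = b
      · subst hab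
        have h8 : insert e ({a, a} : Finset α) ∪ I = {e, a} ∪ I := by
          rw [Finset.insert_eq_self.2 (Finset.mem_singleton_self a)]
        rw [h8]
        exact hc.pair e he a (hE'E ha)
      · exact hgood a ha b hb hab
    · intro Y hY X hX h7 h8
      refine hl (insert e Y) (Finset.insert_subset he (hY.trans hE'E)) X (hX.trans hE'E) ?_ ?_
      · intro a ha b hb
        rw [← hswap]
        exact h7 a ha b hb
      · intro a ha b hb c hcc hab hac hbc
        rw [← hswap]
        exact h8 a ha b hb c hcc hab hac hbc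
    · intro S' hS' hS'I
      rw [hswap] at hS'I
      have h7 := hr (insert e S') (Finset.insert_subset he (hS'.trans hE'E)) hS'I
      rw [Finset.card_insert_of_notMem (fun h => heE' (hS' h))] at h7
      omega

/-- Rado's theorem for monotone submodular functions. -/
theorem rado {ι β : Type*} [Fintype ι] [DecidableEq ι] [DecidableEq β] (r : Finset β → ℕ)
    (h0 : r ∅ = 0) (hmono : ∀ A B, A ⊆ B → r A ≤ r B)
    (hsub : ∀ A B, r (A ∪ B) + r (A ∩ B) ≤ r A + r B) (A : ι → Finset β)
    (h : ∀ J : Finset ι, J.card ≤ r (J.biUnion A)) :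
    ∃ x : ι → β, (∀ i, x i ∈ A i) ∧ ∀ J : Finset ι, J.card ≤ r (J.image x) := by
  induction hn : ∑ i, (A i).card using Nat.strong_induction_on generalizing A with
  | _ n ih =>
  by_cases hall : ∀ i, (A i).card ≤ 1
  · have hone : ∀ i, ∃ x, A i = {x} := by
      intro i
      rw [← Finset.card_eq_one]
      have h1 := h {i}
      rw [Finset.singleton_biUnion, Finset.card_singleton] at h1
      have h2 : A i ≠ ∅ := by
        intro h3
        rw [h3, h0] at h1
        omega
      have h3 := Finset.card_pos.mpr (Finset.nonempty_iff_ne_empty.mpr h2)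
      have h4 := hall i
      omega
    choose x hx using hone
    refine ⟨x, fun i => by rw [hx i]; exact Finset.mem_singleton_self _, fun J => ?_⟩
    have h1 : J.biUnion A = J.image x := by
      ext b
      simp only [Finset.mem_biUnion, Finset.mem_image, hx, Finset.mem_singleton]
      constructor
      · rintro ⟨i, hi, rfl⟩
        exact ⟨i, hi, rfl⟩
      · rintro ⟨i, hi, rfl⟩
        exact ⟨i, hi, rfl⟩
    rw [← h1]
    exact h J
  · push Not at hall
    obtain ⟨i0, hi0⟩ := hall
    obtain ⟨y, hy, z, hz, hyz⟩ := Finset.one_lt_card.mp hi0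
    -- reduction
    have red : ∀ w ∈ A i0, (∀ J : Finset ι, J.card ≤ r (J.biUnion (Function.update A i0 ((A i0).erase w)))) →
        ∃ x : ι → β, (∀ i, x i ∈ A i) ∧ ∀ J : Finset ι, J.card ≤ r (J.image x) := by
      intro w hw hJ
      have hle : ∀ i, (Function.update A i0 ((A i0).erase w)) i ⊆ A i := by
        intro i
        by_cases hi : i = i0
        · subst hi
          rw [Function.update_self]
          exact Finset.erase_subset _ _
        · rw [Function.update_of_ne hi]
      have hlt : ∑ i, ((Function.update A i0 ((A i0).erase w)) i).card < n := by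
        rw [← hn]
        apply Finset.sum_lt_sum
        · intro i _
          exact Finset.card_le_card (hle i)
        · refine ⟨i0, Finset.mem_univ _, ?_⟩
          rw [Function.update_self]
          exact Finset.card_erase_lt_of_mem hw
      obtain ⟨x, hx1, hx2⟩ := ih _ hlt _ hJ rfl
      exact ⟨x, fun i => hle i (hx1 i), hx2⟩
    by_cases c1 : ∀ J : Finset ι, J.card ≤ r (J.biUnion (Function.update A i0 ((A i0).erase y)))
    · exact red y hy c1
    by_cases c2 : ∀ J : Finset ι, J.card ≤ r (J.biUnion (Function.update A i0 ((A i0).erase z)))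
    · exact red z hz c2
    exfalso
    push Not at c1 c2
    obtain ⟨J, hJ⟩ := c1
    obtain ⟨K, hK⟩ := c2
    have mem : ∀ (w : β) (J : Finset ι), r (J.biUnion (Function.update A i0 ((A i0).erase w))) < J.card →
        i0 ∈ J := by
      intro w J hJ
      by_contra hcon
      have : J.biUnion (Function.update A i0 ((A i0).erase w)) = J.biUnion A := by
        apply Finset.biUnion_congr rfl
        intro i hi
        rw [Function.update_of_ne]
        rintro rfl
        exact hcon hi
      rw [this] at hJ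
      have := h J
      omega
    have hJ0 := mem y J hJ
    have hK0 := mem z K hK
    have incl : ∀ (w : β) (J : Finset ι), ∀ i ∈ J.erase i0, A i ⊆
        J.biUnion (Function.update A i0 ((A i0).erase w)) := by
      intro w J i hi
      rw [Finset.mem_erase] at hi
      have h1 := Finset.subset_biUnion_of_mem (Function.update A i0 ((A i0).erase w)) hi.2
      rwa [Function.update_of_ne hi.1] at h1
    have incl0 : ∀ (w : β) (J : Finset ι), i0 ∈ J → (A i0).erase w ⊆
        J.biUnion (Function.update A i0 ((A i0).erase w)) := by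
      intro w J hi
      have h1 := Finset.subset_biUnion_of_mem (Function.update A i0 ((A i0).erase w)) hi
      rwa [Function.update_self] at h1
    have iJ := incl y J
    have iK := incl z K
    have iJ0 := incl0 y J hJ0
    have iK0 := incl0 z K hK0
    set P := J.biUnion (Function.update A i0 ((A i0).erase y)) with hP
    set Q := K.biUnion (Function.update A i0 ((A i0).erase z)) with hQ
    have hu : (insert i0 (J.erase i0 ∪ K.erase i0)).biUnion A ⊆ P ∪ Q := by
      rw [Finset.biUnion_subset]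
      intro i hi
      rw [Finset.mem_insert, Finset.mem_union] at hi
      rcases hi with hi | hi | hi
      · subst hi
        intro w hw
        rw [Finset.mem_union]
        by_cases hwy : w = y
        · right
          apply iK0
          rw [Finset.mem_erase]
          exact ⟨fun hwz => hyz (hwy ▸ hwz), hw⟩
        · left
          exact iJ0 (Finset.mem_erase.mpr ⟨hwy, hw⟩)
      · exact (iJ i hi).trans Finset.subset_union_left
      · exact (iK i hi).trans Finset.subset_union_right
    have hi : (J.erase i0 ∩ K.erase i0).biUnion A ⊆ P ∩ Q := by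
      rw [Finset.biUnion_subset]
      intro i hi
      rw [Finset.mem_inter] at hi
      exact Finset.subset_inter (iJ i hi.1) (iK i hi.2)
    have e1 := h (insert i0 (J.erase i0 ∪ K.erase i0))
    have e2 := h (J.erase i0 ∩ K.erase i0)
    have e3 := hmono _ _ hu
    have e4 := hmono _ _ hi
    have e5 := hsub P Q
    have e6 := Finset.card_union_add_card_inter (J.erase i0) (K.erase i0)
    have e7 : (insert i0 (J.erase i0 ∪ K.erase i0)).card = (J.erase i0 ∪ K.erase i0).card + 1 := by
      apply Finset.card_insert_of_notMem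
      simp
    have e8 := Finset.card_erase_add_one hJ0
    have e9 := Finset.card_erase_add_one hK0
    omega

theorem partition_indep_mono {F V ι : Type*} [Field F] [AddCommGroup V] [Module F V] [FiniteDimensional F V]
    (v : ι → V) (S T : Set ι) (h : S ⊆ T) :
    Module.finrank F (Submodule.span F (v '' S)) ≤ Module.finrank F (Submodule.span F (v '' T)) :=
  Submodule.finrank_mono (Submodule.span_mono (Set.image_mono h))

theorem partition_indep_sub {F V ι : Type*} [Field F] [AddCommGroup V] [Module F V] [FiniteDimensional F V]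
    (v : ι → V) (S T : Set ι) :
    Module.finrank F (Submodule.span F (v '' (S ∪ T))) + Module.finrank F (Submodule.span F (v '' (S ∩ T))) ≤
      Module.finrank F (Submodule.span F (v '' S)) + Module.finrank F (Submodule.span F (v '' T)) := by
  rw [← Submodule.finrank_sup_add_finrank_inf_eq (Submodule.span F (v '' S)) (Submodule.span F (v '' T)),
    Set.image_union, Submodule.span_union]
  apply Nat.add_le_add_left
  apply Submodule.finrank_mono
  apply le_inf
  · exact Submodule.span_mono (Set.image_mono Set.inter_subset_left)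
  · exact Submodule.span_mono (Set.image_mono Set.inter_subset_right)

/-- partition of a finite family of vectors into `k` linearly independent classes. -/
theorem partition_indep {F V ι : Type*} [Field F] [AddCommGroup V] [Module F V] [FiniteDimensional F V]
    [Fintype ι] [DecidableEq ι] (v : ι → V) (k : ℕ)
    (h : ∀ X : Finset ι, X.card ≤ k * Module.finrank F (Submodule.span F (v '' (X : Set ι)))) :
    ∃ c : ι → Fin k, ∀ j, LinearIndepOn F v {i | c i = j} := by
  classical
  let ρ : Set ι → ℕ := fun S => Module.finrank F (Submodule.span F (v '' S))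
  have hρ0 : ρ ∅ = 0 := by
    show Module.finrank F (Submodule.span F (v '' ∅)) = 0
    rw [Set.image_empty, Submodule.span_empty, finrank_bot]
  let r : Finset (ι × Fin k) → ℕ := fun Y => ∑ j : Fin k, ρ {i | (i, j) ∈ Y}
  obtain ⟨x, hx1, hx2⟩ := rado r (by
      show ∑ j : Fin k, ρ {i | (i, j) ∈ (∅ : Finset (ι × Fin k))} = 0
      apply Finset.sum_eq_zero
      intro j _
      have : {i : ι | (i, j) ∈ (∅ : Finset (ι × Fin k))} = ∅ := by
        ext i
        simp
      rw [this, hρ0])
    (by
      intro A B hAB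
      apply Finset.sum_le_sum
      intro j _
      exact partition_indep_mono v _ _ (fun i hi => hAB hi))
    (by
      intro A B
      show ∑ j : Fin k, ρ {i | (i, j) ∈ A ∪ B} + ∑ j : Fin k, ρ {i | (i, j) ∈ A ∩ B} ≤
        ∑ j : Fin k, ρ {i | (i, j) ∈ A} + ∑ j : Fin k, ρ {i | (i, j) ∈ B}
      rw [← Finset.sum_add_distrib, ← Finset.sum_add_distrib]
      apply Finset.sum_le_sum
      intro j _
      have e1 : {i : ι | (i, j) ∈ A ∪ B} = {i | (i, j) ∈ A} ∪ {i | (i, j) ∈ B} := by
        ext i
        simp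
      have e2 : {i : ι | (i, j) ∈ A ∩ B} = {i | (i, j) ∈ A} ∩ {i | (i, j) ∈ B} := by
        ext i
        simp
      rw [e1, e2]
      exact partition_indep_sub v _ _)
    (fun i => (Finset.univ : Finset (Fin k)).image (fun j => (i, j)))
    (by
      intro J
      refine (h J).trans (le_of_eq ?_)
      show _ = ∑ j : Fin k, ρ {i | (i, j) ∈ J.biUnion (fun i => (Finset.univ : Finset (Fin k)).image (fun j => (i, j)))}
      have e : ∀ j : Fin k, {i | (i, j) ∈ J.biUnion (fun i => (Finset.univ : Finset (Fin k)).image (fun j => (i, j)))} = (J : Set ι) := by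
        intro j
        ext i
        simp
      simp only [e]
      rw [Finset.sum_const, Finset.card_univ, Fintype.card_fin, smul_eq_mul])
  have hx1' : ∀ i, x i = (i, (x i).2) := by
    intro i
    obtain ⟨j, _, hj⟩ := Finset.mem_image.mp (hx1 i)
    rw [← hj]
  refine ⟨fun i => (x i).2, fun j => ?_⟩
  have hJ := hx2 (Finset.univ.filter (fun i => (x i).2 = j))
  have hr : r ((Finset.univ.filter (fun i => (x i).2 = j)).image x) = ρ {i | (x i).2 = j} := by
    show ∑ j' : Fin k, ρ {i | (i, j') ∈ (Finset.univ.filter (fun i => (x i).2 = j)).image x} = _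
    rw [Finset.sum_eq_single j]
    · congr 1
      ext i
      simp only [Set.mem_setOf_eq, Finset.mem_image, Finset.mem_filter, Finset.mem_univ, true_and]
      constructor
      · rintro ⟨i', h1, h2⟩
        have h3 := hx1' i'
        rw [h2] at h3
        have h4 : i = i' := congrArg Prod.fst h3
        rw [h4]
        exact h1
      · intro h1
        exact ⟨i, h1, by rw [hx1' i, h1]⟩
    · intro j' _ hne
      have e : {i | (i, j') ∈ (Finset.univ.filter (fun i => (x i).2 = j)).image x} = ∅ := by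
        ext i
        simp only [Set.mem_setOf_eq, Finset.mem_image, Finset.mem_filter, Finset.mem_univ, true_and,
          Set.mem_empty_iff_false, iff_false]
        rintro ⟨i', h1, h2⟩
        rw [h2] at h1
        exact hne h1
      rw [e, hρ0]
    · intro h
      exact absurd (Finset.mem_univ j) h
  rw [hr] at hJ
  show LinearIndependent F (fun i : {i | (x i).2 = j} => v i)
  rw [linearIndependent_iff_card_le_finrank_span]
  have e1 : Set.range (fun i : {i | (x i).2 = j} => v i) = v '' {i | (x i).2 = j} := by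
    ext y
    simp
  show Fintype.card {i | (x i).2 = j} ≤ Module.finrank F (Submodule.span F (Set.range (fun i : {i | (x i).2 = j} => v i)))
  rw [e1]
  refine le_trans (le_of_eq ?_) hJ
  rw [Fintype.card_subtype]
  rfl

/-- a functional equal to `1` on a linearly independent family. -/
theorem exists_functional {F V ι : Type*} [Field F] [AddCommGroup V] [Module F V] (v : ι → V) (s : Set ι)
    (h : LinearIndepOn F v s) : ∃ φ : V →ₗ[F] F, ∀ i ∈ s, φ (v i) = 1 := by
  have h' : LinearIndependent F (fun i : s => v i) := h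
  obtain ⟨φ, hφ⟩ := LinearMap.exists_extend ((Module.Basis.span h').constr F (fun _ => (1 : F)))
  refine ⟨φ, fun i hi => ?_⟩
  have h1 := LinearMap.congr_fun hφ ((Module.Basis.span h') ⟨i, hi⟩)
  rw [Module.Basis.constr_basis] at h1
  rw [← h1]
  show φ (v i) = φ (((Module.Basis.span h') ⟨i, hi⟩ : Submodule.span F (Set.range fun i : s => v i)) : V)
  rw [Module.Basis.span_apply]

/-- lines over a finite field have at most `q + 1` points (modulo the span of `Y`). -/
theorem card_line_le {F V ι : Type*} [Field F] [Fintype F] [AddCommGroup V] [Module F V] [DecidableEq ι]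
    (v : ι → V) (Y X : Finset ι)
    (h2 : ∀ a ∈ X, ∀ b ∈ X, LinearIndepOn F v (({a, b} ∪ Y : Finset ι) : Set ι))
    (h3 : ∀ a ∈ X, ∀ b ∈ X, ∀ c ∈ X, a ≠ b → a ≠ c → b ≠ c →
      ¬ LinearIndepOn F v (({a, b, c} ∪ Y : Finset ι) : Set ι)) :
    X.card ≤ Fintype.card F + 1 := by
  classical
  have hF : 1 ≤ Fintype.card F := Fintype.card_pos
  rcases Nat.lt_or_ge 2 X.card with hX | hX
  swap
  · omega
  -- set forms
  have e2 : ∀ a b : ι, (({a, b} ∪ Y : Finset ι) : Set ι) = insert a (insert b (Y : Set ι)) := by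
    intro a b
    ext z
    simp [or_assoc]
  have e3 : ∀ a b c : ι, (({a, b, c} ∪ Y : Finset ι) : Set ι) =
      insert a (insert b (insert c (Y : Set ι))) := by
    intro a b c
    ext z
    simp [or_assoc]
  have h2' : ∀ a ∈ X, ∀ b ∈ X, LinearIndepOn F v (insert a (insert b (Y : Set ι))) := by
    intro a ha b hb
    rw [← e2]
    exact h2 a ha b hb
  have h3' : ∀ a ∈ X, ∀ b ∈ X, ∀ c ∈ X, a ≠ b → a ≠ c → b ≠ c →
      ¬ LinearIndepOn F v (insert a (insert b (insert c (Y : Set ι)))) := by
    intro a ha b hb c hc h1 h2 h4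
    rw [← e3]
    exact h3 a ha b hb c hc h1 h2 h4
  -- elements of X are outside Y
  have hout : ∀ a ∈ X, a ∉ Y := by
    intro a ha haY
    have hc2 : 1 < (X.erase a).card := by
      rw [Finset.card_erase_of_mem ha]
      omega
    obtain ⟨b, hb, c, hc, hbc⟩ := Finset.one_lt_card.1 hc2
    rw [Finset.mem_erase] at hb hc
    apply h3' a ha b hb.2 c hc.2 (Ne.symm hb.1) (Ne.symm hc.1) hbc
    have : insert a (insert b (insert c (Y : Set ι))) = insert b (insert c (Y : Set ι)) := by
      apply Set.insert_eq_of_mem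
      right; right
      exact haY
    rw [this]
    exact h2' b hb.2 c hc.2
  -- the base pair
  obtain ⟨a, ha, b, hb, hab⟩ := Finset.one_lt_card.1 (show 1 < X.card by omega)
  set U : Submodule F V := Submodule.span F (v '' (Y : Set ι)) with hU
  have hpair : ∀ c ∈ X, ∀ d ∈ X, c ≠ d → ∀ t : F, v c - t • v d ∉ U := by
    intro c hc d hd hcd t ht
    have h := (linearIndepOn_insert_iff.1 (h2' c hc d hd)).2
    have h4 : v c ∈ Submodule.span F (v '' (insert d (Y : Set ι))) := by
      rw [Set.image_insert_eq, Submodule.mem_span_insert]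
      exact ⟨t, v c - t • v d, ht, by abel⟩
    rcases h h4 with h5 | h5
    · exact hcd h5
    · exact hout c hc h5
  have key : ∀ c ∈ X.erase a, ∃ p : F × F, p.2 ≠ 0 ∧ v c - p.1 • v a - p.2 • v b ∈ U := by
    intro c hc
    rw [Finset.mem_erase] at hc
    by_cases hcb : c = b
    · refine ⟨(0, 1), one_ne_zero, ?_⟩
      rw [hcb]
      simp
    · have hdep := h3' c hc.2 a ha b hb hc.1 hcb hab
      rw [linearIndepOn_insert_iff] at hdep
      have h4 : v c ∈ Submodule.span F (v '' (insert a (insert b (Y : Set ι)))) := by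
        by_contra h5
        exact hdep ⟨h2' a ha b hb, fun h6 => absurd h6 h5⟩
      rw [Set.image_insert_eq, Set.image_insert_eq, Submodule.mem_span_insert] at h4
      obtain ⟨α, z, hz, hcz⟩ := h4
      rw [Submodule.mem_span_insert] at hz
      obtain ⟨β, u, hu, hzu⟩ := hz
      refine ⟨(α, β), ?_, ?_⟩
      · intro hβ
        apply hpair c hc.2 a ha hc.1 α
        have hβ' : β = 0 := hβ
        rw [hcz, hzu, hβ', zero_smul, zero_add, add_sub_cancel_left]
        exact hu
      · show v c - α • v a - β • v b ∈ U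
        rw [hcz, hzu]
        have : α • v a + (β • v b + u) - α • v a - β • v b = u := by abel
        rw [this]
        exact hu
  choose! f hf using key
  have hinj : Set.InjOn (fun c => (f c).1 * ((f c).2)⁻¹) (X.erase a : Set ι) := by
    intro c hc d hd hcd
    by_contra hne
    have hc' : c ∈ X.erase a := hc
    have hd' : d ∈ X.erase a := hd
    obtain ⟨hβ, hcU⟩ := hf c hc'
    obtain ⟨hβ', hdU⟩ := hf d hd'
    have hs : (f c).1 * ((f c).2)⁻¹ = (f d).1 * ((f d).2)⁻¹ := hcd
    apply hpair c (Finset.mem_of_mem_erase hc') d (Finset.mem_of_mem_erase hd') hne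
      ((f c).2 * ((f d).2)⁻¹)
    have h1 : v c - ((f c).2 * ((f d).2)⁻¹) • v d =
        (v c - (f c).1 • v a - (f c).2 • v b) -
          ((f c).2 * ((f d).2)⁻¹) • (v d - (f d).1 • v a - (f d).2 • v b) := by
      have h2 : (f c).2 * ((f d).2)⁻¹ * (f d).1 = (f c).1 := by
        have : (f c).2 * ((f d).2)⁻¹ * (f d).1 = (f c).2 * ((f d).1 * ((f d).2)⁻¹) := by ring
        rw [this, ← hs]
        field_simp
      have h3 : (f c).2 * ((f d).2)⁻¹ * (f d).2 = (f c).2 := by
        field_simp
      rw [smul_sub, smul_sub, smul_smul, smul_smul, h2, h3]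
      abel
    rw [h1]
    exact U.sub_mem hcU (U.smul_mem _ hdU)
  have hcard : (X.erase a).card ≤ (Finset.univ : Finset F).card :=
    Finset.card_le_card_of_injOn _ (fun _ _ => Finset.mem_univ _) hinj
  rw [Finset.card_erase_of_mem ha, Finset.card_univ] at hcard
  omega

/-- Hall's theorem in the form of the frozen statement (`0 < m`). -/
theorem hall_iff (n K m : ℕ) (hm : 0 < m) (R : Fin n ⊕ Fin K → Fin m → Prop) [∀ x, DecidablePred (R x)]
    (S : Finset (Fin n)) :
    (∃ f : Fin n ⊕ Fin K → Fin m,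
      Set.InjOn f ((Sum.inl '' (S : Set (Fin n))) ∪ Set.range Sum.inr) ∧
      ∀ x ∈ ((Sum.inl '' (S : Set (Fin n))) ∪ Set.range Sum.inr), R x (f x)) ↔
    Mt (fun x : Fin n ⊕ Fin K => Finset.univ.filter (R x))
      (S.image Sum.inl ∪ (Finset.univ : Finset (Fin K)).image Sum.inr) := by
  classical
  set T : Finset (Fin n ⊕ Fin K) :=
    S.image Sum.inl ∪ (Finset.univ : Finset (Fin K)).image Sum.inr with hT
  have hTc : (Sum.inl '' (S : Set (Fin n))) ∪ Set.range Sum.inr = (T : Set (Fin n ⊕ Fin K)) := by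
    rw [hT]; push_cast; simp [Set.image_univ]
  rw [hTc]
  constructor
  · rintro ⟨f, hinj, hR⟩ Y hY
    calc Y.card = (Y.image f).card :=
          (Finset.card_image_of_injOn (hinj.mono (by exact_mod_cast hY))).symm
      _ ≤ _ := by
        apply Finset.card_le_card
        intro c hc
        obtain ⟨y, hy, rfl⟩ := Finset.mem_image.1 hc
        exact Finset.mem_biUnion.2 ⟨y, hy, Finset.mem_filter.2 ⟨Finset.mem_univ _,
          hR y (by exact_mod_cast hY hy)⟩⟩
  · intro h
    obtain ⟨g, hg, hgm⟩ := (Finset.all_card_le_biUnion_card_iff_exists_injective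
      (fun x : T => Finset.univ.filter (R x.1))).1 (by
      intro s
      have := h (s.map (Function.Embedding.subtype _)) (by
        intro x hx
        obtain ⟨y, hy, rfl⟩ := Finset.mem_map.1 hx
        exact y.2)
      rw [Finset.card_map] at this
      refine this.trans (Finset.card_le_card ?_)
      intro c hc
      obtain ⟨x, hx, hxc⟩ := Finset.mem_biUnion.1 hc
      obtain ⟨y, hy, rfl⟩ := Finset.mem_map.1 hx
      exact Finset.mem_biUnion.2 ⟨y, hy, hxc⟩)
    refine ⟨fun x => if h : x ∈ T then g ⟨x, h⟩ else ⟨0, hm⟩, ?_, ?_⟩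
    · intro x hx y hy hxy
      have hx' : x ∈ T := hx
      have hy' : y ∈ T := hy
      simp only [dif_pos hx', dif_pos hy'] at hxy
      exact congrArg Subtype.val (hg hxy)
    · intro x hx
      have hx' : x ∈ T := hx
      simp only [dif_pos hx']
      exact (Finset.mem_filter.1 (hgm ⟨x, hx'⟩)).2

/-- from the density bound to functionals. -/
theorem lin_part {F V : Type*} [Field F] [AddCommGroup V] [Module F V] [FiniteDimensional F V] {n : ℕ}
    (v : Fin n → V) (hv : ∀ i, v i ≠ 0) (k : ℕ)
    (hX : ∀ X : Finset (Fin n), (∀ a ∈ X, ∀ b ∈ X, LinearIndepOn F v {a, b}) →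
      X.card ≤ k * Module.finrank F (Submodule.span F (v '' (X : Set (Fin n))))) :
    ∃ L : V →ₗ[F] (Fin k → F), ∀ i, L (v i) ≠ 0 := by
  classical
  obtain ⟨X0, hX0, hmax⟩ := Finset.exists_max_image
    ((Finset.univ : Finset (Finset (Fin n))).filter
      (fun X => ∀ a ∈ X, ∀ b ∈ X, LinearIndepOn F v {a, b})) Finset.card
    ⟨∅, by simp⟩
  have hP : ∀ a ∈ X0, ∀ b ∈ X0, LinearIndepOn F v {a, b} := (Finset.mem_filter.1 hX0).2
  obtain ⟨c, hc⟩ := partition_indep (F := F) (fun i : {x // x ∈ X0} => v i) k (by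
    intro X
    have h1 := hX (X.map (Function.Embedding.subtype _)) (by
      intro a ha b hb
      obtain ⟨a', _, rfl⟩ := Finset.mem_map.1 ha
      obtain ⟨b', _, rfl⟩ := Finset.mem_map.1 hb
      exact hP _ a'.2 _ b'.2)
    rw [Finset.card_map] at h1
    have h2 : v '' ((X.map (Function.Embedding.subtype _) : Finset (Fin n)) : Set (Fin n))
        = (fun i : {x // x ∈ X0} => v i) '' (X : Set {x // x ∈ X0}) := by
      rw [Finset.coe_map, Set.image_image]
      rfl
    rw [h2] at h1
    exact h1)
  choose φ hφ using fun j => exists_functional (F := F) (fun i : {x // x ∈ X0} => v i) _ (hc j)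
  have hin : ∀ i (hi : i ∈ X0), LinearMap.pi φ (v i) ≠ 0 := by
    intro i hi h
    have h1 := congrFun h (c ⟨i, hi⟩)
    have h2 := hφ (c ⟨i, hi⟩) ⟨i, hi⟩ rfl
    rw [LinearMap.pi_apply, Pi.zero_apply] at h1
    have h3 : φ (c ⟨i, hi⟩) (v i) = 1 := h2
    rw [h3] at h1
    exact one_ne_zero h1
  refine ⟨LinearMap.pi φ, fun i => ?_⟩
  by_cases hi : i ∈ X0
  · exact hin i hi
  · intro h0
    have key : ∀ a ∈ X0, LinearIndepOn F v {i, a} := by
      intro a ha
      refine LinearIndepOn.insert (LinearIndepOn.singleton (hv a)) ?_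
      rw [Set.image_singleton, Submodule.mem_span_singleton]
      rintro ⟨t, ht⟩
      have ht0 : t ≠ 0 := by
        rintro rfl
        rw [zero_smul] at ht
        exact hv i ht.symm
      apply hin a ha
      have : t • LinearMap.pi φ (v a) = 0 := by
        rw [← map_smul, ht, h0]
      exact (smul_eq_zero.1 this).resolve_left ht0
    have hmem : insert i X0 ∈ (Finset.univ : Finset (Finset (Fin n))).filter
      (fun X => ∀ a ∈ X, ∀ b ∈ X, LinearIndepOn F v {a, b}) := by
      rw [Finset.mem_filter]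
      refine ⟨Finset.mem_univ _, ?_⟩
      intro a ha b hb
      rcases Finset.mem_insert.1 ha with e1 | ha1
      · rcases Finset.mem_insert.1 hb with e2 | hb1
        · rw [e1, e2, Set.pair_eq_singleton]
          exact LinearIndepOn.singleton (hv _)
        · rw [e1]
          exact key b hb1
      · rcases Finset.mem_insert.1 hb with e2 | hb1
        · rw [e2, Set.pair_comm]
          exact key a ha1
        · exact hP a ha1 b hb1
    have := hmax _ hmem
    rw [Finset.card_insert_of_notMem hi] at this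
    omega

/-- the density theorem applied to vectors. -/
theorem dens_app {F V : Type*} [Field F] [Fintype F] [AddCommGroup V] [Module F V] [FiniteDimensional F V]
    {n K m : ℕ} (v : Fin n → V) (N : Fin n ⊕ Fin K → Finset (Fin m))
    (hkey : ∀ S : Finset (Fin n), LinearIndepOn F v (S : Set (Fin n)) ↔
      Mt N (S.image Sum.inl ∪ (Finset.univ : Finset (Fin K)).image Sum.inr))
    (X : Finset (Fin n)) (hX : ∀ a ∈ X, ∀ b ∈ X, LinearIndepOn F v {a, b}) :
    X.card ≤ Fintype.card F * Module.finrank F (Submodule.span F (v '' (X : Set (Fin n)))) := by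
  have himg : ∀ (a b : Fin n), ({a, b} : Finset (Fin n)).image (Sum.inl : Fin n → Fin n ⊕ Fin K) =
      {Sum.inl a, Sum.inl b} := by
    intro a b
    rw [Finset.image_insert, Finset.image_singleton]
  have himg3 : ∀ (a b c : Fin n), ({a, b, c} : Finset (Fin n)).image
      (Sum.inl : Fin n → Fin n ⊕ Fin K) = {Sum.inl a, Sum.inl b, Sum.inl c} := by
    intro a b c
    rw [Finset.image_insert, Finset.image_insert, Finset.image_singleton]
  have hq : 1 ≤ Fintype.card F := Fintype.card_pos
  rcases X.eq_empty_or_nonempty with h0 | ⟨a0, ha0⟩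
  · rw [h0]; simp
  have hva : v a0 ≠ 0 := by
    have h1 := hX a0 ha0 a0 ha0
    have h2 := h1.ne_zero (i := a0) (by simp)
    exact h2
  have hpos : 0 < Module.finrank F (Submodule.span F (v '' (X : Set (Fin n)))) := by
    rw [Module.finrank_pos_iff_exists_ne_zero]
    refine ⟨⟨v a0, Submodule.subset_span ⟨a0, ha0, rfl⟩⟩, ?_⟩
    intro h
    exact hva (congrArg Subtype.val h)
  obtain ⟨ρ, hρ⟩ : ∃ ρ, Module.finrank F (Submodule.span F (v '' (X : Set (Fin n)))) = ρ + 1 :=
    ⟨_, (Nat.succ_pred_eq_of_pos hpos).symm⟩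
  have hinj : Function.Injective (Sum.inl : Fin n → Fin n ⊕ Fin K) := Sum.inl_injective
  have hctx : Ctx N (X.image Sum.inl) ((Finset.univ : Finset (Fin K)).image Sum.inr) := by
    refine ⟨?_, ?_, ?_⟩
    · rw [Finset.disjoint_left]
      intro x hx hx'
      rw [Finset.mem_image] at hx hx'
      obtain ⟨y, _, rfl⟩ := hx
      obtain ⟨z, _, hz⟩ := hx'
      exact Sum.inr_ne_inl hz
    · have h1 := (hkey ∅).1 (by simp)
      rwa [Finset.image_empty, Finset.empty_union] at h1
    · intro a ha b hb
      rw [Finset.mem_image] at ha hb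
      obtain ⟨a', ha', rfl⟩ := ha
      obtain ⟨b', hb', rfl⟩ := hb
      have h1 := (hkey {a', b'}).1 (by rw [Finset.coe_pair]; exact hX a' ha' b' hb')
      rwa [himg] at h1
  have hlines : ∀ Y ⊆ X.image (Sum.inl : Fin n → Fin n ⊕ Fin K), ∀ X' ⊆ X.image
      (Sum.inl : Fin n → Fin n ⊕ Fin K),
      (∀ a ∈ X', ∀ b ∈ X', Mt N ({a, b} ∪ (Y ∪ (Finset.univ : Finset (Fin K)).image Sum.inr))) →
      (∀ a ∈ X', ∀ b ∈ X', ∀ c ∈ X', a ≠ b → a ≠ c → b ≠ c →
        ¬ Mt N ({a, b, c} ∪ (Y ∪ (Finset.univ : Finset (Fin K)).image Sum.inr))) →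
        X'.card ≤ Fintype.card F + 1 := by
    intro Y hY X' hX' h2 h3
    obtain ⟨Y0, hY0, rfl⟩ := Finset.subset_image_iff.1 hY
    obtain ⟨X0, hX0, rfl⟩ := Finset.subset_image_iff.1 hX'
    rw [Finset.card_image_of_injective _ hinj]
    apply card_line_le v Y0 X0
    · intro a ha b hb
      rw [hkey, Finset.image_union, himg, Finset.union_assoc]
      exact h2 _ (Finset.mem_image_of_mem _ ha) _ (Finset.mem_image_of_mem _ hb)
    · intro a ha b hb c hc hab hac hbc
      rw [hkey, Finset.image_union, himg3, Finset.union_assoc]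
      exact h3 _ (Finset.mem_image_of_mem _ ha) _ (Finset.mem_image_of_mem _ hb) _
        (Finset.mem_image_of_mem _ hc) (hinj.ne hab) (hinj.ne hac) (hinj.ne hbc)
  have hrank : ∀ S ⊆ X.image (Sum.inl : Fin n → Fin n ⊕ Fin K),
      Mt N (S ∪ (Finset.univ : Finset (Fin K)).image Sum.inr) → S.card ≤ ρ + 1 := by
    intro S hS hM
    obtain ⟨S0, hS0, rfl⟩ := Finset.subset_image_iff.1 hS
    rw [Finset.card_image_of_injective _ hinj]
    have h1 := (hkey S0).2 hM
    have h2 : LinearIndependent F (fun x : (S0 : Set (Fin n)) => v x) := h1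
    have h3 := finrank_span_eq_card h2
    have h4 : Set.range (fun x : (S0 : Set (Fin n)) => v x) = v '' (S0 : Set (Fin n)) :=
      (Set.image_eq_range _ _).symm
    rw [h4] at h3
    have h5 : Fintype.card (S0 : Set (Fin n)) = S0.card := by simp
    rw [h5] at h3
    rw [← h3, ← hρ]
    apply Submodule.finrank_mono
    apply Submodule.span_mono
    apply Set.image_mono
    exact_mod_cast hS0
  have h := density N (Fintype.card F) hq ρ _ _ hctx hlines hrank
  rw [Finset.card_image_of_injective _ hinj] at h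
  rw [hρ]
  calc X.card ≤ Fintype.card F * ρ + 1 := h
    _ ≤ Fintype.card F * (ρ + 1) := by rw [mul_add, mul_one]; omega

/-- the main theorem. -/
theorem main (F : Type) [Field F] [Fintype F] (n r : ℕ) (v : Fin n → (Fin r → F))
    (hv : ∀ i, v i ≠ 0)
    (h : ∃ (K m : ℕ) (R : Fin n ⊕ Fin K → Fin m → Prop),
        ∀ S : Finset (Fin n),
          LinearIndependent F (fun i : S => v i.1) ↔
            ∃ f : Fin n ⊕ Fin K → Fin m,
              Set.InjOn f ((Sum.inl '' (S : Set (Fin n))) ∪ Set.range Sum.inr) ∧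
              ∀ x ∈ ((Sum.inl '' (S : Set (Fin n))) ∪ Set.range Sum.inr), R x (f x)) :
    ∃ L : (Fin r → F) →ₗ[F] (Fin (Fintype.card F) → F), ∀ i, L (v i) ≠ 0 := by
  classical
  obtain ⟨K, m, R, h⟩ := h
  have hm : 0 < m ∨ n = 0 := by
    rcases Nat.eq_zero_or_pos n with hn | hn
    · exact Or.inr hn
    · left
      have h0 : LinearIndependent F (fun i : ((∅ : Finset (Fin n)) : Finset (Fin n)) => v i.1) := by
        have : IsEmpty ((∅ : Finset (Fin n)) : Finset (Fin n)) := by
          constructor; intro x; exact absurd x.2 (Finset.notMem_empty _)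
        exact linearIndependent_empty_type
      obtain ⟨f, -⟩ := (h ∅).1 h0
      exact (f (Sum.inl ⟨0, hn⟩)).pos
  rcases hm with hm | hn
  · apply lin_part v hv
    intro X hX
    refine dens_app (K := K) v (fun x => Finset.univ.filter (R x)) ?_ X hX
    intro S
    rw [← hall_iff n K m hm R S, ← h S]
    rfl
  · subst hn
    exact ⟨0, fun i => i.elim0⟩

end Pool.Agent.Helper861.Gammoid
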