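import Mathlib
import Pool.Agent.Helper861.Gammoid

set_option autoImplicit false

namespace Pool.Agent.Helper861.Gammoid

open Finset

/-- all `K₀`-linear functionals on `F` are `a ↦ τ (b * a)`. -/
theorem dual_repr (K₀ F : Type*) [Field K₀] [Field F] [Algebra K₀ F] [FiniteDimensional K₀ F] :
    ∃ τ : F →ₗ[K₀] K₀, ∀ Λ : F →ₗ[K₀] K₀, ∃ b : F, ∀ a, Λ a = τ (b * a) := by
  obtain ⟨τ, hτ⟩ : ∃ τ : Module.Dual K₀ F, τ 1 ≠ 0 := by
    by_contra h
    push Not at h
    exact one_ne_zero ((Module.forall_dual_apply_eq_zero_iff K₀ (1 : F)).1 h)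
  let L : F →ₗ[K₀] Module.Dual K₀ F := (LinearMap.mul K₀ F).compr₂ τ
  have hL : ∀ b a, L b a = τ (b * a) := fun b a => rfl
  have hinj : Function.Injective L := by
    rw [← LinearMap.ker_eq_bot, LinearMap.ker_eq_bot']
    intro b hb
    by_contra hb0
    apply hτ
    have h1 := hL b b⁻¹
    rw [hb, mul_inv_cancel₀ hb0] at h1
    exact h1.symm
  have hsurj : Function.Surjective L :=
    (LinearMap.injective_iff_surjective_of_finrank_eq_finrank Subspace.dual_finrank_eq.symm).1 hinj
  refine ⟨τ, fun Λ => ?_⟩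
  obtain ⟨b, hb⟩ := hsurj Λ
  exact ⟨b, fun a => by rw [← hb]; exact hL b a⟩

/-- from `K₀`-independence of `c x ⊗ v x` to an `F`-linear map not vanishing on the `v x`. -/
theorem exists_L {K₀ F ι : Type*} [Field K₀] [Field F] [Algebra K₀ F] [FiniteDimensional K₀ F] {r : ℕ}
    (v : ι → (Fin r → F)) (k : ℕ) (c : ι → Fin k → F)
    (h : LinearIndependent K₀ (fun x : ι => (fun (i : Fin k) (j : Fin r) => c x i * v x j))) :
    ∃ L : (Fin r → F) →ₗ[F] (Fin k → F), ∀ x, L (v x) ≠ 0 := by
  obtain ⟨Λ, hΛ⟩ := exists_functional (F := K₀)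
    (fun x : ι => (fun (i : Fin k) (j : Fin r) => c x i * v x j)) Set.univ
    (linearIndepOn_univ.2 h)
  obtain ⟨τ, hτ⟩ := dual_repr K₀ F
  choose b hb using fun (i : Fin k) (j : Fin r) =>
    hτ (Λ ∘ₗ (LinearMap.single K₀ (fun _ : Fin k => Fin r → F) i) ∘ₗ
      (LinearMap.single K₀ (fun _ : Fin r => F) j))
  have hw : ∀ w : Fin k → Fin r → F, Λ w = ∑ i, ∑ j, τ (b i j * w i j) := by
    intro w
    conv_lhs => rw [← Finset.univ_sum_single w]
    rw [map_sum]
    refine Finset.sum_congr rfl fun i _ => ?_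
    have e : Λ (Pi.single i (w i)) =
        (Λ ∘ₗ (LinearMap.single K₀ (fun _ : Fin k => Fin r → F) i)) (w i) := rfl
    rw [e]
    conv_lhs => rw [← Finset.univ_sum_single (w i)]
    rw [map_sum]
    refine Finset.sum_congr rfl fun j _ => ?_
    exact hb i j (w i j)
  refine ⟨(Matrix.of b).mulVecLin, fun x hx => ?_⟩
  have h1 := hΛ x (Set.mem_univ x)
  rw [hw] at h1
  have h2 : ∀ i, ∑ j, b i j * v x j = 0 := by
    intro i
    have := congrFun hx i
    simpa [Matrix.mulVecLin_apply, Matrix.mulVec, dotProduct] using this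
  have h3 : ∀ i, ∑ j, τ (b i j * (c x i * v x j)) = 0 := by
    intro i
    rw [← map_sum]
    have : ∑ j, b i j * (c x i * v x j) = c x i * ∑ j, b i j * v x j := by
      rw [Finset.mul_sum]
      refine Finset.sum_congr rfl fun j _ => ?_
      ring
    rw [this, h2 i, mul_zero, map_zero]
  rw [Finset.sum_congr rfl fun i _ => h3 i] at h1
  simp at h1

theorem span_count_single {K₀ F ι : Type*} [Field K₀] [Field F] [Algebra K₀ F]
    {r : ℕ} (v : ι → (Fin r → F)) (k : ℕ) (J : Set ι) (i : Fin k) (u : Fin r → F)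
    (hu : u ∈ Submodule.span F (v '' J)) : ∀ a : F,
    (Pi.single i (a • u) : Fin k → Fin r → F) ∈ Submodule.span K₀
        {w : Fin k → Fin r → F | ∃ x ∈ J, ∃ c : Fin k → F, w = fun i j => c i * v x j} := by
  classical
  induction hu using Submodule.span_induction with
  | mem u h =>
    obtain ⟨x, hx, rfl⟩ := h
    intro a
    refine Submodule.subset_span ⟨x, hx, Pi.single i a, ?_⟩
    funext i' j
    by_cases h : i' = i
    · subst h
      simp
    · rw [Pi.single_eq_of_ne h, Pi.single_eq_of_ne h]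
      simp
  | zero =>
    intro a
    rw [smul_zero, Pi.single_zero]
    exact Submodule.zero_mem _
  | add u u' _ _ h h' =>
    intro a
    rw [smul_add, Pi.single_add]
    exact Submodule.add_mem _ (h a) (h' a)
  | smul b u _ h =>
    intro a
    rw [smul_smul]
    exact h (a * b)

/-- the dimension count for Rado's condition. -/
theorem span_count {K₀ F ι : Type*} [Field K₀] [Field F] [Algebra K₀ F] [FiniteDimensional K₀ F]
    [Finite ι] {r : ℕ} (v : ι → (Fin r → F)) (k : ℕ) (J : Set ι) :
    k * Module.finrank K₀ F * Module.finrank F (Submodule.span F (v '' J)) ≤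
      Module.finrank K₀ (Submodule.span K₀
        {w : Fin k → Fin r → F | ∃ x ∈ J, ∃ c : Fin k → F, w = fun i j => c i * v x j}) := by
  classical
  set U : Submodule F (Fin r → F) := Submodule.span F (v '' J) with hU
  set S : Submodule K₀ (Fin k → Fin r → F) := Submodule.span K₀
        {w : Fin k → Fin r → F | ∃ x ∈ J, ∃ c : Fin k → F, w = fun i j => c i * v x j} with hS
  have hmem : ∀ g : Fin k → U, (fun i => (g i : Fin r → F)) ∈ S := by
    intro g
    have h1 : (fun i => (g i : Fin r → F)) =
        ∑ i, (Pi.single i ((g i : Fin r → F)) : Fin k → Fin r → F) := by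
      rw [Finset.univ_sum_single]
    rw [h1]
    refine Submodule.sum_mem _ fun i _ => ?_
    have h2 := span_count_single (K₀ := K₀) v k J i (g i : Fin r → F) (g i).2 1
    rw [one_smul] at h2
    exact h2
  let L : (Fin k → U) →ₗ[K₀] S :=
    { toFun := fun g => ⟨fun i => (g i : Fin r → F), hmem g⟩
      map_add' := fun g g' => rfl
      map_smul' := fun a g => rfl }
  have hL : Function.Injective L := by
    intro g g' h
    have h1 := congrArg Subtype.val h
    funext i
    apply Subtype.ext
    exact congrFun h1 i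
  haveI : Module.Finite K₀ (Fin r → F) := Module.Finite.pi
  haveI : Module.Finite K₀ (Fin k → Fin r → F) := Module.Finite.pi
  have h1 := LinearMap.finrank_le_finrank_of_injective hL
  haveI : Module.Finite K₀ U := Module.Finite.trans F U
  rw [Module.finrank_pi_fintype] at h1
  simp only [Finset.sum_const, Finset.card_univ, Fintype.card_fin, smul_eq_mul] at h1
  rw [← Module.finrank_mul_finrank K₀ F U] at h1
  calc k * Module.finrank K₀ F * Module.finrank F U
      = k * (Module.finrank K₀ F * Module.finrank F U) := by ring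
    _ ≤ _ := h1

/-- Rado's theorem gives `K₀`-independent `c x ⊗ v x`. -/
theorem exists_indep {K₀ F ι : Type*} [Field K₀] [Field F] [Fintype F] [Algebra K₀ F]
    [FiniteDimensional K₀ F] [Fintype ι] [DecidableEq ι] {r : ℕ} (v : ι → (Fin r → F)) (k : ℕ)
    (h : ∀ X : Finset ι, X.card ≤ k * Module.finrank K₀ F *
      Module.finrank F (Submodule.span F (v '' (X : Set ι)))) :
    ∃ c : ι → Fin k → F,
      LinearIndependent K₀ (fun x : ι => (fun (i : Fin k) (j : Fin r) => c x i * v x j)) := by
  classical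
  obtain ⟨W, hW⟩ : ∃ W : ι × (Fin k → F) → (Fin k → Fin r → F),
      W = fun y i j => y.2 i * v y.1 j := ⟨_, rfl⟩
  obtain ⟨rk, hrk⟩ : ∃ rk : Finset (ι × (Fin k → F)) → ℕ,
      rk = fun (Y : Finset (ι × (Fin k → F))) =>
        Module.finrank K₀ (Submodule.span K₀ (W '' (Y : Set (ι × (Fin k → F))))) :=
    ⟨_, rfl⟩
  obtain ⟨A, hA⟩ : ∃ A : ι → Finset (ι × (Fin k → F)),
      A = fun x => (univ : Finset (Fin k → F)).image (fun c => (x, c)) := ⟨_, rfl⟩
  have h0 : rk ∅ = 0 := by
    rw [hrk]
    show Module.finrank K₀ (Submodule.span K₀ (W '' ((∅ : Finset (ι × (Fin k → F))) : Set _))) = 0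
    rw [Finset.coe_empty, Set.image_empty, Submodule.span_empty]
    exact finrank_bot K₀ _
  have hmono : ∀ A B, A ⊆ B → rk A ≤ rk B := by
    intro A B hAB
    rw [hrk]
    exact Submodule.finrank_mono (Submodule.span_mono (Set.image_mono (by exact_mod_cast hAB)))
  have hsub : ∀ A B, rk (A ∪ B) + rk (A ∩ B) ≤ rk A + rk B := by
    intro A B
    rw [hrk]
    show Module.finrank K₀ (Submodule.span K₀ (W '' ((A ∪ B : Finset _) : Set _)))
      + Module.finrank K₀ (Submodule.span K₀ (W '' ((A ∩ B : Finset _) : Set _)))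
      ≤ Module.finrank K₀ (Submodule.span K₀ (W '' (A : Set _)))
      + Module.finrank K₀ (Submodule.span K₀ (W '' (B : Set _)))
    rw [Finset.coe_union, Set.image_union, Submodule.span_union,
      ← Submodule.finrank_sup_add_finrank_inf_eq (Submodule.span K₀ (W '' (A : Set (ι × (Fin k → F)))))
        (Submodule.span K₀ (W '' (B : Set (ι × (Fin k → F)))))]
    have key : Submodule.span K₀ (W '' ((A ∩ B : Finset (ι × (Fin k → F))) : Set (ι × (Fin k → F))))
        ≤ Submodule.span K₀ (W '' (A : Set (ι × (Fin k → F))))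
          ⊓ Submodule.span K₀ (W '' (B : Set (ι × (Fin k → F)))) := by
      rw [Finset.coe_inter]
      exact le_inf (Submodule.span_mono (Set.image_mono Set.inter_subset_left))
        (Submodule.span_mono (Set.image_mono Set.inter_subset_right))
    exact Nat.add_le_add_left (Submodule.finrank_mono key) _
  have hcond : ∀ J : Finset ι, J.card ≤ rk (J.biUnion A) := by
    intro J
    refine (h J).trans ((span_count v k (J : Set ι)).trans ?_)
    rw [hrk]
    refine Submodule.finrank_mono (Submodule.span_mono ?_)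
    rintro w ⟨x, hx, c, rfl⟩
    refine ⟨(x, c), ?_, ?_⟩
    · rw [Finset.mem_coe, Finset.mem_biUnion]
      refine ⟨x, hx, ?_⟩
      rw [hA]
      exact Finset.mem_image.mpr ⟨c, Finset.mem_univ _, rfl⟩
    · rw [hW]
  obtain ⟨x, hx1, hx2⟩ := rado rk h0 hmono hsub A hcond
  have hx3 : ∀ i, ∃ c : Fin k → F, x i = (i, c) := by
    intro i
    have := hx1 i
    rw [hA] at this
    obtain ⟨c, -, hc⟩ := Finset.mem_image.mp this
    exact ⟨c, hc.symm⟩
  choose c hc using hx3
  refine ⟨c, ?_⟩
  rw [linearIndependent_iff_card_le_finrank_span]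
  have h4 := hx2 univ
  rw [Finset.card_univ] at h4
  refine h4.trans (le_of_eq ?_)
  rw [hrk, Set.finrank]
  have h5 : W '' ((univ.image x : Finset (ι × (Fin k → F))) : Set (ι × (Fin k → F)))
      = Set.range (fun x : ι => (fun (i : Fin k) (j : Fin r) => c x i * v x j)) := by
    rw [Finset.coe_image, Finset.coe_univ, Set.image_univ, ← Set.range_comp]
    congr 1
    funext i
    show W (x i) = _
    rw [hc i, hW]
  show Module.finrank K₀ (Submodule.span K₀
    (W '' ((univ.image x : Finset (ι × (Fin k → F))) : Set (ι × (Fin k → F))))) = _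
  rw [h5]

theorem exists_map_aux {F ι : Type*} [Field F] [Fintype F] {r : ℕ} (X : Finset ι)
    (v : ι → (Fin r → F)) (hv : ∀ i ∈ X, v i ≠ 0) : ∃ l : Module.Dual F (Fin r → F),
      ∀ Y : Finset ι, (∀ i ∈ Y, i ∈ X ∧ l (v i) = 0) →
        Fintype.card F * Y.card ≤ X.card := by
  classical
  have hfin : Finite (Module.Dual F (Fin r → F)) := Module.finite_of_finite F
  have : Fintype (Module.Dual F (Fin r → F)) := Fintype.ofFinite _
  by_contra hcon
  push Not at hcon
  have h1 : ∀ l : Module.Dual F (Fin r → F), X.card <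
      Fintype.card F * (X.filter (fun i => l (v i) = 0)).card := by
    intro l
    obtain ⟨Y, hY, h⟩ := hcon l
    refine lt_of_lt_of_le h (Nat.mul_le_mul_left _ (Finset.card_le_card fun i hi => ?_))
    exact Finset.mem_filter.2 (hY i hi)
  have hker : ∀ i ∈ X, Fintype.card F *
      (Finset.univ.filter (fun l : Module.Dual F (Fin r → F) => l (v i) = 0)).card =
        Fintype.card (Module.Dual F (Fin r → F)) := by
    intro i hi
    set ev : Module.Dual F (Fin r → F) →ₗ[F] F := Module.Dual.eval F (Fin r → F) (v i) with hev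
    have hsurj : Function.Surjective ev := by
      have hne : ∃ l : Module.Dual F (Fin r → F), l (v i) ≠ 0 := by
        by_contra hc
        push Not at hc
        exact hv i hi ((Module.forall_dual_apply_eq_zero_iff F (v i)).1 hc)
      obtain ⟨l, hl⟩ := hne
      intro c
      refine ⟨(c * (l (v i))⁻¹) • l, ?_⟩
      show ((c * (l (v i))⁻¹) • l) (v i) = c
      rw [LinearMap.smul_apply, smul_eq_mul, mul_assoc, inv_mul_cancel₀ hl, mul_one]
    have hc := Submodule.card_eq_card_quotient_mul_card (LinearMap.ker ev)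
    have hq : Nat.card (Module.Dual F (Fin r → F) ⧸ LinearMap.ker ev) = Nat.card F :=
      Nat.card_congr (LinearMap.quotKerEquivOfSurjective ev hsurj).toEquiv
    have hk : Nat.card (LinearMap.ker ev) =
        (Finset.univ.filter (fun l : Module.Dual F (Fin r → F) => l (v i) = 0)).card := by
      rw [← Fintype.card_subtype, ← Nat.card_eq_fintype_card]
      rfl
    rw [hq, hk] at hc
    rw [← Nat.card_eq_fintype_card, ← Nat.card_eq_fintype_card, hc]
    ring
  have hsum : ∑ l : Module.Dual F (Fin r → F), (X.filter (fun i => l (v i) = 0)).card =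
      ∑ i ∈ X, (Finset.univ.filter (fun l : Module.Dual F (Fin r → F) => l (v i) = 0)).card := by
    simp_rw [Finset.card_filter]
    rw [Finset.sum_comm]
  have hlt : ∑ _l : Module.Dual F (Fin r → F), X.card <
      ∑ l : Module.Dual F (Fin r → F), Fintype.card F * (X.filter (fun i => l (v i) = 0)).card :=
    Finset.sum_lt_sum_of_nonempty ⟨0, Finset.mem_univ _⟩ (fun l _ => h1 l)
  rw [← Finset.mul_sum, hsum, Finset.mul_sum, Finset.sum_congr rfl hker, Finset.sum_const,
    Finset.sum_const, Finset.card_univ, smul_eq_mul, smul_eq_mul, mul_comm] at hlt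
  exact lt_irrefl _ hlt

/-- fewer than `q ^ k` nonzero vectors are avoided by a linear map to `F ^ k`. -/
theorem exists_map_of_card_lt {F ι : Type*} [Field F] [Fintype F] {r : ℕ} (X : Finset ι)
    (v : ι → (Fin r → F)) (hv : ∀ i ∈ X, v i ≠ 0) (k : ℕ) (h : X.card < Fintype.card F ^ k) :
    ∃ L : (Fin r → F) →ₗ[F] (Fin k → F), ∀ i ∈ X, L (v i) ≠ 0 := by
  classical
  induction k generalizing X with
  | zero =>
    refine ⟨0, fun i hi => ?_⟩
    rw [pow_zero, Nat.lt_one_iff, Finset.card_eq_zero] at h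
    rw [h] at hi
    exact absurd hi (Finset.notMem_empty i)
  | succ k ih =>
    obtain ⟨l, hl⟩ := exists_map_aux X v hv
    have hl' := hl (X.filter (fun i => l (v i) = 0)) (fun i hi => Finset.mem_filter.1 hi)
    have hq : 0 < Fintype.card F := Fintype.card_pos
    have hlt : (X.filter (fun i => l (v i) = 0)).card < Fintype.card F ^ k := by
      have h2 : Fintype.card F * (X.filter (fun i => l (v i) = 0)).card <
          Fintype.card F * Fintype.card F ^ k := by
        rw [← pow_succ']
        exact lt_of_le_of_lt hl' h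
      exact Nat.lt_of_mul_lt_mul_left h2
    obtain ⟨L', hL'⟩ := ih (X.filter (fun i => l (v i) = 0))
      (fun i hi => hv i (Finset.mem_of_mem_filter i hi)) hlt
    refine ⟨LinearMap.pi (fun j : Fin (k + 1) =>
      Fin.cons (α := fun _ => (Fin r → F) →ₗ[F] F) l (fun j => (LinearMap.proj j).comp L') j), ?_⟩
    intro i hi h0
    by_cases hz : l (v i) = 0
    · apply hL' i (Finset.mem_filter.2 ⟨hi, hz⟩)
      funext j
      have := congrFun h0 j.succ
      simpa using this
    · apply hz
      have := congrFun h0 0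
      simpa using this

/-- degree of a finite field over its prime field. -/
theorem exists_prime_field (F : Type) [Field F] [Fintype F] (p e : ℕ) (hp : p.Prime)
    (hcard : Fintype.card F = p ^ e) :
    ∃ (_ : Fact p.Prime) (_ : Algebra (ZMod p) F), Module.finrank (ZMod p) F = e := by
  haveI hF : Fact p.Prime := ⟨hp⟩
  have hne : e ≠ 0 := by
    rintro rfl
    have h1 : 1 < Fintype.card F := Fintype.one_lt_card
    rw [hcard, pow_zero] at h1
    exact lt_irrefl _ h1
  have hchar : CharP F p := by
    obtain ⟨q, hq⟩ := CharP.exists F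
    haveI := hq
    obtain ⟨n, hq', hc⟩ := FiniteField.card F q
    have h1 : p ∣ q ^ (n : ℕ) := by
      rw [← hc, hcard]
      exact dvd_pow_self p hne
    have h2 : p = q := (Nat.prime_dvd_prime_iff_eq hp hq').mp (hp.dvd_of_dvd_pow h1)
    rw [h2]; exact hq
  letI : Algebra (ZMod p) F := ZMod.algebra F p
  refine ⟨hF, inferInstance, ?_⟩
  have h3 := Module.card_eq_pow_finrank (K := ZMod p) (V := F)
  rw [ZMod.card, hcard] at h3
  exact (Nat.pow_right_injective hp.two_le h3).symm


/-- the density theorem applied to vectors, sharp form. -/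
theorem dens_app' {F V : Type*} [Field F] [Fintype F] [AddCommGroup V] [Module F V] [FiniteDimensional F V]
    {n K m : ℕ} (v : Fin n → V) (N : Fin n ⊕ Fin K → Finset (Fin m))
    (hkey : ∀ S : Finset (Fin n), LinearIndepOn F v (S : Set (Fin n)) ↔
      Mt N (S.image Sum.inl ∪ (Finset.univ : Finset (Fin K)).image Sum.inr))
    (X : Finset (Fin n)) (hne : X.Nonempty) (hX : ∀ a ∈ X, ∀ b ∈ X, LinearIndepOn F v {a, b}) :
    X.card ≤ Fintype.card F * (Module.finrank F (Submodule.span F (v '' (X : Set (Fin n)))) - 1) + 1 := by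
  have himg : ∀ (a b : Fin n), ({a, b} : Finset (Fin n)).image (Sum.inl : Fin n → Fin n ⊕ Fin K) =
      {Sum.inl a, Sum.inl b} := by
    intro a b
    rw [Finset.image_insert, Finset.image_singleton]
  have himg3 : ∀ (a b c : Fin n), ({a, b, c} : Finset (Fin n)).image
      (Sum.inl : Fin n → Fin n ⊕ Fin K) = {Sum.inl a, Sum.inl b, Sum.inl c} := by
    intro a b c
    rw [Finset.image_insert, Finset.image_insert, Finset.image_singleton]
  have hq : 1 ≤ Fintype.card F := Fintype.card_pos
  obtain ⟨a0, ha0⟩ := hne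
  have hva : v a0 ≠ 0 := by
    have h1 := hX a0 ha0 a0 ha0
    have h2 := h1.ne_zero (i := a0) (by simp)
    exact h2
  have hpos : 0 < Module.finrank F (Submodule.span F (v '' (X : Set (Fin n)))) := by
    rw [Module.finrank_pos_iff_exists_ne_zero]
    refine ⟨⟨v a0, Submodule.subset_span ⟨a0, ha0, rfl⟩⟩, ?_⟩
    intro h
    exact hva (congrArg Subtype.val h)
  obtain ⟨ρ, hρ⟩ : ∃ ρ, Module.finrank F (Submodule.span F (v '' (X : Set (Fin n)))) = ρ + 1 :=
    ⟨_, (Nat.succ_pred_eq_of_pos hpos).symm⟩
  have hinj : Function.Injective (Sum.inl : Fin n → Fin n ⊕ Fin K) := Sum.inl_injective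
  have hctx : Ctx N (X.image Sum.inl) ((Finset.univ : Finset (Fin K)).image Sum.inr) := by
    refine ⟨?_, ?_, ?_⟩
    · rw [Finset.disjoint_left]
      intro x hx hx'
      rw [Finset.mem_image] at hx hx'
      obtain ⟨y, _, rfl⟩ := hx
      obtain ⟨z, _, hz⟩ := hx'
      exact Sum.inr_ne_inl hz
    · have h1 := (hkey ∅).1 (by simp)
      rwa [Finset.image_empty, Finset.empty_union] at h1
    · intro a ha b hb
      rw [Finset.mem_image] at ha hb
      obtain ⟨a', ha', rfl⟩ := ha
      obtain ⟨b', hb', rfl⟩ := hb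
      have h1 := (hkey {a', b'}).1 (by rw [Finset.coe_pair]; exact hX a' ha' b' hb')
      rwa [himg] at h1
  have hlines : ∀ Y ⊆ X.image (Sum.inl : Fin n → Fin n ⊕ Fin K), ∀ X' ⊆ X.image
      (Sum.inl : Fin n → Fin n ⊕ Fin K),
      (∀ a ∈ X', ∀ b ∈ X', Mt N ({a, b} ∪ (Y ∪ (Finset.univ : Finset (Fin K)).image Sum.inr))) →
      (∀ a ∈ X', ∀ b ∈ X', ∀ c ∈ X', a ≠ b → a ≠ c → b ≠ c →
        ¬ Mt N ({a, b, c} ∪ (Y ∪ (Finset.univ : Finset (Fin K)).image Sum.inr))) →
        X'.card ≤ Fintype.card F + 1 := by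
    intro Y hY X' hX' h2 h3
    obtain ⟨Y0, hY0, rfl⟩ := Finset.subset_image_iff.1 hY
    obtain ⟨X0, hX0, rfl⟩ := Finset.subset_image_iff.1 hX'
    rw [Finset.card_image_of_injective _ hinj]
    apply card_line_le v Y0 X0
    · intro a ha b hb
      rw [hkey, Finset.image_union, himg, Finset.union_assoc]
      exact h2 _ (Finset.mem_image_of_mem _ ha) _ (Finset.mem_image_of_mem _ hb)
    · intro a ha b hb c hc hab hac hbc
      rw [hkey, Finset.image_union, himg3, Finset.union_assoc]
      exact h3 _ (Finset.mem_image_of_mem _ ha) _ (Finset.mem_image_of_mem _ hb) _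
        (Finset.mem_image_of_mem _ hc) (hinj.ne hab) (hinj.ne hac) (hinj.ne hbc)
  have hrank : ∀ S ⊆ X.image (Sum.inl : Fin n → Fin n ⊕ Fin K),
      Mt N (S ∪ (Finset.univ : Finset (Fin K)).image Sum.inr) → S.card ≤ ρ + 1 := by
    intro S hS hM
    obtain ⟨S0, hS0, rfl⟩ := Finset.subset_image_iff.1 hS
    rw [Finset.card_image_of_injective _ hinj]
    have h1 := (hkey S0).2 hM
    have h2 : LinearIndependent F (fun x : (S0 : Set (Fin n)) => v x) := h1
    have h3 := finrank_span_eq_card h2
    have h4 : Set.range (fun x : (S0 : Set (Fin n)) => v x) = v '' (S0 : Set (Fin n)) :=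
      (Set.image_eq_range _ _).symm
    rw [h4] at h3
    have h5 : Fintype.card (S0 : Set (Fin n)) = S0.card := by simp
    rw [h5] at h3
    rw [← h3, ← hρ]
    apply Submodule.finrank_mono
    apply Submodule.span_mono
    apply Set.image_mono
    exact_mod_cast hS0
  have h := density N (Fintype.card F) hq ρ _ _ hctx hlines hrank
  rw [Finset.card_image_of_injective _ hinj] at h
  rw [hρ, Nat.add_sub_cancel]
  exact h



/-- representatives of the parallel classes. -/
theorem reps {F V : Type*} [Field F] [AddCommGroup V] [Module F V] {n : ℕ} (v : Fin n → V)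
    (hv : ∀ i, v i ≠ 0) :
    ∃ X0 : Finset (Fin n), (∀ a ∈ X0, ∀ b ∈ X0, LinearIndepOn F v {a, b}) ∧
      ∀ (W : Type) [AddCommGroup W] [Module F W] (L : V →ₗ[F] W), (∀ i ∈ X0, L (v i) ≠ 0) →
        ∀ i, L (v i) ≠ 0 := by
  classical
  obtain ⟨X0, hX0, hmax⟩ := Finset.exists_max_image
    ((Finset.univ : Finset (Finset (Fin n))).filter
      (fun X => ∀ a ∈ X, ∀ b ∈ X, LinearIndepOn F v {a, b})) Finset.card
    ⟨∅, by simp⟩
  have hP : ∀ a ∈ X0, ∀ b ∈ X0, LinearIndepOn F v {a, b} := (Finset.mem_filter.1 hX0).2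
  refine ⟨X0, hP, ?_⟩
  intro W _ _ L hin i
  by_cases hi : i ∈ X0
  · exact hin i hi
  · intro h0
    have key : ∀ a ∈ X0, LinearIndepOn F v {i, a} := by
      intro a ha
      refine LinearIndepOn.insert (LinearIndepOn.singleton (hv a)) ?_
      rw [Set.image_singleton, Submodule.mem_span_singleton]
      rintro ⟨t, ht⟩
      have ht0 : t ≠ 0 := by
        rintro rfl
        rw [zero_smul] at ht
        exact hv i ht.symm
      apply hin a ha
      have : t • L (v a) = 0 := by
        rw [← map_smul, ht, h0]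
      exact (smul_eq_zero.1 this).resolve_left ht0
    have hmem : insert i X0 ∈ (Finset.univ : Finset (Finset (Fin n))).filter
      (fun X => ∀ a ∈ X, ∀ b ∈ X, LinearIndepOn F v {a, b}) := by
      rw [Finset.mem_filter]
      refine ⟨Finset.mem_univ _, ?_⟩
      intro a ha b hb
      rcases Finset.mem_insert.1 ha with e1 | ha1
      · rcases Finset.mem_insert.1 hb with e2 | hb1
        · rw [e1, e2, Set.pair_eq_singleton]
          exact LinearIndepOn.singleton (hv _)
        · rw [e1]
          exact key b hb1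
      · rcases Finset.mem_insert.1 hb with e2 | hb1
        · rw [e2, Set.pair_comm]
          exact key a ha1
        · exact hP a ha1 b hb1
    have := hmax _ hmem
    rw [Finset.card_insert_of_notMem hi] at this
    omega


/-- from density to functionals through the prime field. -/
theorem lin_part2 {K₀ F : Type} [Field K₀] [Field F] [Fintype F] [Algebra K₀ F]
    [FiniteDimensional K₀ F] {n r : ℕ} (v : Fin n → (Fin r → F)) (hv : ∀ i, v i ≠ 0) (k : ℕ)
    (hX : ∀ X : Finset (Fin n), (∀ a ∈ X, ∀ b ∈ X, LinearIndepOn F v {a, b}) →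
      X.card ≤ k * Module.finrank K₀ F *
        Module.finrank F (Submodule.span F (v '' (X : Set (Fin n))))) :
    ∃ L : (Fin r → F) →ₗ[F] (Fin k → F), ∀ i, L (v i) ≠ 0 := by
  classical
  obtain ⟨X0, hP, hrep⟩ := reps (F := F) v hv
  obtain ⟨c, hc⟩ := exists_indep (K₀ := K₀) (fun i : {x // x ∈ X0} => v i) k (by
    intro X
    have h1 := hX (X.map (Function.Embedding.subtype _)) (by
      intro a ha b hb
      obtain ⟨a', _, rfl⟩ := Finset.mem_map.1 ha
      obtain ⟨b', _, rfl⟩ := Finset.mem_map.1 hb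
      exact hP _ a'.2 _ b'.2)
    rw [Finset.card_map] at h1
    have h2 : v '' ((X.map (Function.Embedding.subtype _) : Finset (Fin n)) : Set (Fin n))
        = (fun i : {x // x ∈ X0} => v i) '' (X : Set {x // x ∈ X0}) := by
      rw [Finset.coe_map, Set.image_image]
      rfl
    rw [h2] at h1
    exact h1)
  obtain ⟨L, hL⟩ := exists_L (K₀ := K₀) (fun i : {x // x ∈ X0} => v i) k c hc
  exact ⟨L, hrep _ L (fun i hi => hL ⟨i, hi⟩)⟩

/-- the frozen form of the gammoid hypothesis, turned into Hall's condition. -/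
theorem key_of_frozen (F : Type) [Field F] (n r : ℕ) (hn : 0 < n) (v : Fin n → (Fin r → F))
    (h : ∃ (K m : ℕ) (R : Fin n ⊕ Fin K → Fin m → Prop),
        ∀ S : Finset (Fin n),
          LinearIndependent F (fun i : S => v i.1) ↔
            ∃ f : Fin n ⊕ Fin K → Fin m,
              Set.InjOn f ((Sum.inl '' (S : Set (Fin n))) ∪ Set.range Sum.inr) ∧
              ∀ x ∈ ((Sum.inl '' (S : Set (Fin n))) ∪ Set.range Sum.inr), R x (f x)) :
    ∃ (K m : ℕ) (N : Fin n ⊕ Fin K → Finset (Fin m)),
      ∀ S : Finset (Fin n), LinearIndepOn F v (S : Set (Fin n)) ↔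
        Mt N (S.image Sum.inl ∪ (Finset.univ : Finset (Fin K)).image Sum.inr) := by
  classical
  obtain ⟨K, m, R, h⟩ := h
  have hm : 0 < m := by
    have h0 : LinearIndependent F (fun i : ((∅ : Finset (Fin n)) : Finset (Fin n)) => v i.1) := by
      have : IsEmpty ((∅ : Finset (Fin n)) : Finset (Fin n)) := by
        constructor; intro x; exact absurd x.2 (Finset.notMem_empty _)
      exact linearIndependent_empty_type
    obtain ⟨f, -⟩ := (h ∅).1 h0
    exact (f (Sum.inl ⟨0, hn⟩)).pos
  refine ⟨K, m, fun x => Finset.univ.filter (R x), ?_⟩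
  intro S
  rw [← hall_iff n K m hm R S, ← h S]
  rfl

/-- the main theorem, strong form. -/
theorem main2 (F : Type) [Field F] [Fintype F] (n r : ℕ) (v : Fin n → (Fin r → F))
    (hv : ∀ i, v i ≠ 0)
    (h : ∃ (K m : ℕ) (R : Fin n ⊕ Fin K → Fin m → Prop),
        ∀ S : Finset (Fin n),
          LinearIndependent F (fun i : S => v i.1) ↔
            ∃ f : Fin n ⊕ Fin K → Fin m,
              Set.InjOn f ((Sum.inl '' (S : Set (Fin n))) ∪ Set.range Sum.inr) ∧
              ∀ x ∈ ((Sum.inl '' (S : Set (Fin n))) ∪ Set.range Sum.inr), R x (f x)) :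
    (∀ p e k : ℕ, p.Prime → Fintype.card F = p ^ e → p ^ e ≤ k * e →
      ∃ L : (Fin r → F) →ₗ[F] (Fin k → F), ∀ i, L (v i) ≠ 0) ∧
    (∀ k : ℕ, Module.finrank F (Submodule.span F (Set.range v)) ≤ Fintype.card F ^ k →
      ∃ L : (Fin r → F) →ₗ[F] (Fin (k + 1) → F), ∀ i, L (v i) ≠ 0) := by
  classical
  rcases Nat.eq_zero_or_pos n with hn | hn
  · subst hn
    exact ⟨fun _ _ _ _ _ _ => ⟨0, fun i => i.elim0⟩, fun _ _ => ⟨0, fun i => i.elim0⟩⟩
  obtain ⟨K, m, N, hkey⟩ := key_of_frozen F n r hn v h
  refine ⟨?_, ?_⟩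
  · intro p e k hp hcard hk
    obtain ⟨hpf, halg, hfin⟩ := exists_prime_field F p e hp hcard
    have hfd : FiniteDimensional (ZMod p) F := Module.Finite.of_finite
    apply lin_part2 (K₀ := ZMod p) v hv k
    intro X hX
    rw [hfin]
    refine (dens_app v N hkey X hX).trans ?_
    rw [hcard]
    exact Nat.mul_le_mul_right _ hk
  · intro k hk
    obtain ⟨X0, hP, hrep⟩ := reps (F := F) v hv
    have hq : 1 < Fintype.card F := Fintype.one_lt_card
    have hcard : X0.card < Fintype.card F ^ (k + 1) := by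
      rcases X0.eq_empty_or_nonempty with h0 | hne
      · rw [h0, Finset.card_empty]
        positivity
      · have h1 := dens_app' v N hkey X0 hne hP
        have h2 : Module.finrank F (Submodule.span F (v '' (X0 : Set (Fin n)))) ≤
            Fintype.card F ^ k := by
          refine le_trans (Submodule.finrank_mono (Submodule.span_mono ?_)) hk
          exact Set.image_subset_range _ _
        have h3 : 0 < Fintype.card F ^ k := by positivity
        have h4 : Module.finrank F (Submodule.span F (v '' (X0 : Set (Fin n)))) - 1 + 1 ≤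
            Fintype.card F ^ k := by omega
        have h5 : Fintype.card F * (Module.finrank F (Submodule.span F (v '' (X0 : Set (Fin n)))) - 1
            + 1) ≤ Fintype.card F * Fintype.card F ^ k := Nat.mul_le_mul_left _ h4
        rw [mul_add, mul_one] at h5
        rw [pow_succ, mul_comm (Fintype.card F ^ k)]
        omega
    obtain ⟨L, hL⟩ := exists_map_of_card_lt X0 v (fun i _ => hv i) (k + 1) hcard
    exact ⟨L, hrep _ L hL⟩

end Pool.Agent.Helper861.Gammoid
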