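import Mathlib
import Pool.Agent.Helper861.Gammoid2

set_option autoImplicit false

namespace Pool.Agent.Helper861.Gammoid

open Finset

/-- all elements adjacent to a colour of `C'`. -/
def Acol {ι κ C : Type*} [Fintype ι] [Fintype κ] [DecidableEq C] (N : ι ⊕ κ → Finset C)
    (C' : Finset C) : Finset (ι ⊕ κ) := univ.filter (fun w => ∃ c ∈ C', c ∈ N w)

/-- `S` is independent in the dual: Hall's condition for the colours in the complement of `S`. -/
def CoInd {ι κ C : Type*} [Fintype ι] [Fintype κ] [DecidableEq ι] [DecidableEq κ] [DecidableEq C]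
    (N : ι ⊕ κ → Finset C) (S : Finset ι) : Prop :=
  ∀ C' : Finset C, C'.card ≤ ((Acol N C') \ (S.image Sum.inl)).card

/-- presentation of the dual. -/
def dualN {ι κ C : Type*} [Fintype ι] [Fintype κ] [DecidableEq C]
    (N : ι ⊕ κ → Finset C) : ι ⊕ C → Finset (ι ⊕ κ)
  | Sum.inl x => {Sum.inl x}
  | Sum.inr c => univ.filter (fun w => c ∈ N w)

/-- the matched elements: the basis and all extra elements. -/
def Pall {ι κ : Type*} [Fintype κ] [DecidableEq ι] [DecidableEq κ] (BM : Finset ι) : Finset (ι ⊕ κ) :=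
  BM.image Sum.inl ∪ univ.image Sum.inr

/-- arcs of the digraph. -/
def arc {ι κ C : Type*} [Fintype κ] [DecidableEq ι] [DecidableEq κ]
    (N : ι ⊕ κ → Finset C) (BM : Finset ι) (φ : ι ⊕ κ → C) (u w : ι ⊕ κ) : Prop :=
  u ∈ Pall (κ := κ) BM ∧ φ u ∈ N w ∧ w ≠ u

/-- reachability avoiding `c`. -/
def Rch {ι κ C : Type*} [Fintype κ] [DecidableEq ι] [DecidableEq κ]
    (N : ι ⊕ κ → Finset C) (BM : Finset ι) (φ : ι ⊕ κ → C) (c u w : ι ⊕ κ) : Prop :=
  Relation.ReflTransGen (fun a b => arc N BM φ a b ∧ b ≠ c) u w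

open Classical in
/-- the sinks reachable from `x`. -/
noncomputable def Bx {ι κ C : Type*} [Fintype ι] [Fintype κ] [DecidableEq ι] [DecidableEq κ]
    (N : ι ⊕ κ → Finset C) (BM : Finset ι) (φ : ι ⊕ κ → C) (x : ι) : Finset ι :=
  (BMᶜ).filter (fun b => Relation.ReflTransGen (arc N BM φ) (Sum.inl x) (Sum.inl b))

open Classical in
/-- the sinks reachable from `x` avoiding `c`. -/
noncomputable def Zs {ι κ C : Type*} [Fintype ι] [Fintype κ] [DecidableEq ι] [DecidableEq κ]
    (N : ι ⊕ κ → Finset C) (BM : Finset ι) (φ : ι ⊕ κ → C) (x : ι) (c : ι ⊕ κ) : Finset ι :=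
  (BMᶜ).filter (fun b => Rch N BM φ c (Sum.inl x) (Sum.inl b))

/-- the bad event for `x`. -/
def EV {ι κ C : Type*} [Fintype ι] [Fintype κ] [DecidableEq ι] [DecidableEq κ]
    (N : ι ⊕ κ → Finset C) (BM : Finset ι) (φ : ι ⊕ κ → C) (h : ℕ) (x : ι) (F : Finset ι) : Prop :=
  ∃ c : ι ⊕ κ, c ≠ Sum.inl x ∧ Zs N BM φ x c ⊆ F ∧ h ≤ (Zs N BM φ x c).card

/-- a matching of `BM` and all extra elements onto the colours. -/
structure IsMatch {ι κ C : Type*} [Fintype ι] [Fintype κ] [DecidableEq ι] [DecidableEq κ] [DecidableEq C]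
    (N : ι ⊕ κ → Finset C) (BM : Finset ι) (φ : ι ⊕ κ → C) : Prop where
  mem : ∀ u ∈ Pall (κ := κ) BM, φ u ∈ N u
  inj : Set.InjOn φ (Pall (κ := κ) BM : Set (ι ⊕ κ))
  surj : ∀ c : C, ∃ u ∈ Pall (κ := κ) BM, φ u = c


/-- laminarity of dominated sets. -/
theorem lam {ι κ C : Type*} [Fintype ι] [Fintype κ] [DecidableEq ι] [DecidableEq κ]
    (N : ι ⊕ κ → Finset C) (BM : Finset ι) (φ : ι ⊕ κ → C) (x : ι) (c c' : ι ⊕ κ) :
    Zs N BM φ x c ⊆ Zs N BM φ x c' ∨ Zs N BM φ x c' ⊆ Zs N BM φ x c ∨
      Bx N BM φ x ⊆ Zs N BM φ x c ∪ Zs N BM φ x c' := by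
  classical
  have key : ∀ d d' : ι ⊕ κ, ¬ Rch N BM φ d (Sum.inl x) d' →
      Zs N BM φ x d ⊆ Zs N BM φ x d' := by
    intro d d' hd b hb
    unfold Zs at hb ⊢
    rw [Finset.mem_filter] at hb ⊢
    refine ⟨hb.1, ?_⟩
    have h2 : ∀ w : ι ⊕ κ, Rch N BM φ d (Sum.inl x) w → Rch N BM φ d' (Sum.inl x) w := by
      intro w hw
      unfold Rch at hw
      induction hw with
      | refl => exact Relation.ReflTransGen.refl
      | tail h1 h3 ih =>
        rename_i u v
        refine Relation.ReflTransGen.tail ih ⟨h3.1, ?_⟩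
        intro hv
        apply hd
        rw [← hv]
        exact Relation.ReflTransGen.tail h1 h3
    exact h2 _ hb.2
  by_cases h1 : Rch N BM φ c (Sum.inl x) c'
  · by_cases h2 : Rch N BM φ c' (Sum.inl x) c
    · right; right
      have h3 : ∀ w : ι ⊕ κ, Relation.ReflTransGen (arc N BM φ) (Sum.inl x) w →
          Rch N BM φ c (Sum.inl x) w ∨ Rch N BM φ c' (Sum.inl x) w := by
        intro w hw
        induction hw with
        | refl => exact Or.inl Relation.ReflTransGen.refl
        | tail h4 h5 ih =>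
          rename_i u v
          rcases ih with ih | ih
          · by_cases hv : v = c
            · right
              rw [hv]
              exact h2
            · left
              exact Relation.ReflTransGen.tail ih ⟨h5, hv⟩
          · by_cases hv : v = c'
            · left
              rw [hv]
              exact h1
            · right
              exact Relation.ReflTransGen.tail ih ⟨h5, hv⟩
      intro b hb
      unfold Bx at hb
      rw [Finset.mem_filter] at hb
      rw [Finset.mem_union]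
      unfold Zs
      rcases h3 _ hb.2 with h | h
      · left
        rw [Finset.mem_filter]
        exact ⟨hb.1, h⟩
      · right
        rw [Finset.mem_filter]
        exact ⟨hb.1, h⟩
    · right; left
      exact key c' c h2
  · left
    exact key c c' h1

/-- `{x, b} ∪ Z(x, b)` is dependent in the dual. -/
theorem dep_single {ι κ C : Type*} [Fintype ι] [Fintype κ] [DecidableEq ι] [DecidableEq κ] [DecidableEq C]
    (N : ι ⊕ κ → Finset C) (BM : Finset ι) (φ : ι ⊕ κ → C) (hφ : IsMatch N BM φ) (x : ι) (hx : x ∈ BM)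
    (y : ι) (hxy : y ≠ x) :
    ¬ CoInd N ({x, y} ∪ Zs N BM φ x (Sum.inl y)) := by
  classical
  intro hco
  set P0 : Finset (ι ⊕ κ) := (Pall (κ := κ) BM).filter
    (fun u => Rch N BM φ (Sum.inl y) (Sum.inl x) u) with hP0
  have hxP0 : (Sum.inl x : ι ⊕ κ) ∈ P0 := by
    rw [hP0, Finset.mem_filter]
    refine ⟨?_, Relation.ReflTransGen.refl⟩
    unfold Pall
    exact Finset.mem_union_left _ (Finset.mem_image_of_mem _ hx)
  have hcard : (P0.image φ).card = P0.card := by
    apply Finset.card_image_of_injOn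
    intro a ha b hb hab
    have ha' := (Finset.mem_filter.mp (Finset.mem_coe.mp ha)).1
    have hb' := (Finset.mem_filter.mp (Finset.mem_coe.mp hb)).1
    exact hφ.inj (Finset.mem_coe.mpr ha') (Finset.mem_coe.mpr hb') hab
  have hsub : (Acol N (P0.image φ)) \ (({x, y} ∪ Zs N BM φ x (Sum.inl y)).image Sum.inl)
      ⊆ P0.erase (Sum.inl x) := by
    intro w hw
    rw [Finset.mem_sdiff] at hw
    obtain ⟨hw1, hw2⟩ := hw
    unfold Acol at hw1
    rw [Finset.mem_filter] at hw1
    obtain ⟨-, c, hc, hcw⟩ := hw1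
    rw [Finset.mem_image] at hc
    obtain ⟨u, hu, rfl⟩ := hc
    have hwx : w ≠ Sum.inl x := by
      rintro rfl
      apply hw2
      apply Finset.mem_image_of_mem
      simp
    have hwy : w ≠ Sum.inl y := by
      rintro rfl
      apply hw2
      apply Finset.mem_image_of_mem
      simp
    rw [hP0, Finset.mem_filter] at hu
    obtain ⟨huP, huR⟩ := hu
    have hwR : Rch N BM φ (Sum.inl y) (Sum.inl x) w := by
      by_cases hwu : w = u
      · rw [hwu]; exact huR
      · exact Relation.ReflTransGen.tail huR ⟨⟨huP, hcw, hwu⟩, hwy⟩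
    rw [Finset.mem_erase]
    refine ⟨hwx, ?_⟩
    rw [hP0, Finset.mem_filter]
    refine ⟨?_, hwR⟩
    by_contra hwP
    rcases w with b | k
    · have hb : b ∉ BM := by
        intro hb
        apply hwP
        unfold Pall
        exact Finset.mem_union_left _ (Finset.mem_image_of_mem _ hb)
      apply hw2
      apply Finset.mem_image_of_mem
      apply Finset.mem_union_right
      unfold Zs
      rw [Finset.mem_filter]
      exact ⟨Finset.mem_compl.mpr hb, hwR⟩
    · apply hwP
      unfold Pall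
      exact Finset.mem_union_right _ (Finset.mem_image_of_mem _ (Finset.mem_univ _))
  have h1 := hco (P0.image φ)
  have h2 := Finset.card_le_card hsub
  rw [Finset.card_erase_of_mem hxP0] at h2
  have h3 : 0 < P0.card := Finset.card_pos.mpr ⟨_, hxP0⟩
  omega

/-- `{x} ∪ Bx` is dependent in the dual. -/
theorem dep_Bx {ι κ C : Type*} [Fintype ι] [Fintype κ] [DecidableEq ι] [DecidableEq κ] [DecidableEq C]
    (N : ι ⊕ κ → Finset C) (BM : Finset ι) (φ : ι ⊕ κ → C) (hφ : IsMatch N BM φ) (x : ι) (hx : x ∈ BM) :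
    ¬ CoInd N ({x} ∪ Bx N BM φ x) := by
  classical
  intro hco
  let P0 : Finset (ι ⊕ κ) := (Pall (κ := κ) BM).filter
    (fun u => Relation.ReflTransGen (arc N BM φ) (Sum.inl x) u)
  have hP0 : ∀ u, u ∈ P0 ↔ u ∈ Pall (κ := κ) BM ∧
      Relation.ReflTransGen (arc N BM φ) (Sum.inl x) u := by
    intro u; exact Finset.mem_filter
  have hxP : (Sum.inl x : ι ⊕ κ) ∈ Pall (κ := κ) BM := by
    unfold Pall
    exact Finset.mem_union_left _ (Finset.mem_image_of_mem _ hx)
  have hx0 : (Sum.inl x : ι ⊕ κ) ∈ P0 := (hP0 _).2 ⟨hxP, Relation.ReflTransGen.refl⟩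
  have hcard : (P0.image φ).card = P0.card := by
    apply Finset.card_image_of_injOn
    intro u hu v hv huv
    exact hφ.inj (((hP0 u).1 hu).1) (((hP0 v).1 hv).1) huv
  have h1 := hco (P0.image φ)
  have hsub : (Acol N (P0.image φ)) \ (({x} ∪ Bx N BM φ x).image Sum.inl) ⊆
      P0.erase (Sum.inl x) := by
    intro w hw
    rw [Finset.mem_sdiff] at hw
    obtain ⟨hw1, hw2⟩ := hw
    unfold Acol at hw1
    rw [Finset.mem_filter] at hw1
    obtain ⟨-, c, hc, hcw⟩ := hw1
    obtain ⟨u, hu, rfl⟩ := Finset.mem_image.1 hc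
    have hu' := (hP0 u).1 hu
    have hreach : Relation.ReflTransGen (arc N BM φ) (Sum.inl x) w := by
      by_cases hwu : w = u
      · rw [hwu]; exact hu'.2
      · exact hu'.2.tail ⟨hu'.1, hcw, hwu⟩
    rw [Finset.mem_erase]
    refine ⟨?_, (hP0 w).2 ⟨?_, hreach⟩⟩
    · rintro rfl
      apply hw2
      exact Finset.mem_image_of_mem _ (Finset.mem_union_left _ (Finset.mem_singleton_self x))
    · rcases w with b | k
      · by_cases hb : b ∈ BM
        · unfold Pall
          exact Finset.mem_union_left _ (Finset.mem_image_of_mem _ hb)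
        · exfalso
          apply hw2
          apply Finset.mem_image_of_mem
          apply Finset.mem_union_right
          unfold Bx
          exact Finset.mem_filter.2 ⟨Finset.mem_compl.2 hb, hreach⟩
      · unfold Pall
        exact Finset.mem_union_right _ (Finset.mem_image_of_mem _ (Finset.mem_univ k))
  have h2 := Finset.card_le_card hsub
  rw [Finset.card_erase_of_mem hx0] at h2
  have h3 : 0 < P0.card := Finset.card_pos.2 ⟨_, hx0⟩
  rw [hcard] at h1
  omega

/-- `{x, y} ∪ Z(x, c) ∪ Z(y, c)` is dependent in the dual. -/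
theorem dep_double {ι κ C : Type*} [Fintype ι] [Fintype κ] [DecidableEq ι] [DecidableEq κ] [DecidableEq C]
    (N : ι ⊕ κ → Finset C) (BM : Finset ι) (φ : ι ⊕ κ → C) (hφ : IsMatch N BM φ) (x y : ι) (hx : x ∈ BM)
    (hy : y ∈ BM) (hxy : x ≠ y) (c : ι ⊕ κ) (hcx : c ≠ Sum.inl x) (hcy : c ≠ Sum.inl y) :
    ¬ CoInd N ({x, y} ∪ (Zs N BM φ x c ∪ Zs N BM φ y c)) := by
  classical
  intro hco
  set S : Finset ι := {x, y} ∪ (Zs N BM φ x c ∪ Zs N BM φ y c) with hS
  set P0 : Finset (ι ⊕ κ) := (Pall (κ := κ) BM).filter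
    (fun u => Rch N BM φ c (Sum.inl x) u ∨ Rch N BM φ c (Sum.inl y) u) with hP0
  have hxP : (Sum.inl x : ι ⊕ κ) ∈ P0 := by
    rw [hP0, mem_filter]
    refine ⟨?_, Or.inl Relation.ReflTransGen.refl⟩
    unfold Pall
    exact mem_union_left _ (mem_image_of_mem _ hx)
  have hyP : (Sum.inl y : ι ⊕ κ) ∈ P0 := by
    rw [hP0, mem_filter]
    refine ⟨?_, Or.inr Relation.ReflTransGen.refl⟩
    unfold Pall
    exact mem_union_left _ (mem_image_of_mem _ hy)
  have h1 := hco (P0.image φ)
  have hcard : (P0.image φ).card = P0.card := by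
    apply card_image_of_injOn
    intro u hu v hv huv
    exact hφ.inj (mem_of_mem_filter u hu) (mem_of_mem_filter v hv) huv
  have hsub : (Acol N (P0.image φ)) \ (S.image Sum.inl)
      ⊆ insert c ((P0.erase (Sum.inl x)).erase (Sum.inl y)) := by
    intro w hw
    rw [mem_sdiff] at hw
    obtain ⟨hw1, hw2⟩ := hw
    have hxw : w ≠ Sum.inl x := by
      rintro rfl
      exact hw2 (mem_image_of_mem _ (by rw [hS]; simp))
    have hyw : w ≠ Sum.inl y := by
      rintro rfl
      exact hw2 (mem_image_of_mem _ (by rw [hS]; simp))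
    by_cases hwc : w = c
    · rw [hwc]; exact mem_insert_self _ _
    apply mem_insert_of_mem
    rw [mem_erase, mem_erase]
    refine ⟨hyw, hxw, ?_⟩
    unfold Acol at hw1
    rw [mem_filter] at hw1
    obtain ⟨-, col, hcol, hcolw⟩ := hw1
    rw [mem_image] at hcol
    obtain ⟨u, hu, rfl⟩ := hcol
    by_cases hwu : w = u
    · rw [hwu]; exact hu
    rw [hP0, mem_filter] at hu
    obtain ⟨huP, hur⟩ := hu
    have harc : arc N BM φ u w := ⟨huP, hcolw, hwu⟩
    have hreach : Rch N BM φ c (Sum.inl x) w ∨ Rch N BM φ c (Sum.inl y) w := by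
      rcases hur with h | h
      · exact Or.inl (Relation.ReflTransGen.tail h ⟨harc, hwc⟩)
      · exact Or.inr (Relation.ReflTransGen.tail h ⟨harc, hwc⟩)
    rw [hP0, mem_filter]
    refine ⟨?_, hreach⟩
    unfold Pall
    rcases w with b | k
    · by_cases hb : b ∈ BM
      · exact mem_union_left _ (mem_image_of_mem _ hb)
      · exfalso
        apply hw2
        apply mem_image_of_mem
        rw [hS]
        rcases hreach with h | h
        · refine mem_union_right _ (mem_union_left _ ?_)
          unfold Zs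
          rw [mem_filter]
          exact ⟨mem_compl.mpr hb, h⟩
        · refine mem_union_right _ (mem_union_right _ ?_)
          unfold Zs
          rw [mem_filter]
          exact ⟨mem_compl.mpr hb, h⟩
    · exact mem_union_right _ (mem_image_of_mem _ (mem_univ _))
  have h2 := card_le_card hsub
  have h3 := card_insert_le c ((P0.erase (Sum.inl x)).erase (Sum.inl y))
  have hyP' : (Sum.inl y : ι ⊕ κ) ∈ P0.erase (Sum.inl x) := by
    rw [mem_erase]
    exact ⟨fun h => hxy (Sum.inl_injective h).symm, hyP⟩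
  have h4 := card_erase_of_mem hyP'
  have h5 := card_erase_of_mem hxP
  have h6 : 0 < (P0.erase (Sum.inl x)).card := card_pos.mpr ⟨_, hyP'⟩
  omega

/-- the sets `Z(x, c)` from a Hall violator. -/
theorem cut_pair {ι κ C : Type*} [Fintype ι] [Fintype κ] [DecidableEq ι] [DecidableEq κ] [DecidableEq C]
    (N : ι ⊕ κ → Finset C) (BM : Finset ι) (φ : ι ⊕ κ → C) (hφ : IsMatch N BM φ) (F : Finset ι)
    (hF : F ⊆ BMᶜ) (x y : ι) (hxy : x ≠ y) (hx : x ∈ BM) (hdep : ¬ CoInd N ({x, y} ∪ F)) :
    (Zs N BM φ x (Sum.inl y) ⊆ F) ∨ (y ∈ BM ∧ Zs N BM φ y (Sum.inl x) ⊆ F) ∨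
    (y ∈ BM ∧ ∃ c : ι ⊕ κ, c ≠ Sum.inl x ∧ c ≠ Sum.inl y ∧ Zs N BM φ x c ⊆ F ∧ Zs N BM φ y c ⊆ F) := by
  unfold CoInd at hdep
  push Not at hdep
  obtain ⟨C', hC'⟩ := hdep
  have memA : ∀ w, w ∈ Acol N C' ↔ ∃ c ∈ C', c ∈ N w := by
    intro w
    simp [Acol]
  obtain ⟨P, hP⟩ : ∃ P : Finset (ι ⊕ κ), ∀ u, u ∈ P ↔ u ∈ Pall (κ := κ) BM ∧ φ u ∈ C' :=
    ⟨(Pall (κ := κ) BM).filter (fun u => φ u ∈ C'), fun u => mem_filter⟩
  have hPcard : P.card = C'.card := by
    have himg : P.image φ = C' := by
      ext c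
      constructor
      · intro h
        obtain ⟨u, hu, rfl⟩ := mem_image.mp h
        exact ((hP u).mp hu).2
      · intro h
        obtain ⟨u, hu, rfl⟩ := hφ.surj c
        exact mem_image.mpr ⟨u, (hP u).mpr ⟨hu, h⟩, rfl⟩
    rw [← himg, card_image_of_injOn]
    intro a ha b hb hab
    exact hφ.inj (mem_coe.mpr ((hP a).mp (mem_coe.mp ha)).1)
      (mem_coe.mpr ((hP b).mp (mem_coe.mp hb)).1) hab
  have inlPall : ∀ b : ι, (Sum.inl b : ι ⊕ κ) ∈ Pall (κ := κ) BM → b ∈ BM := by
    intro b hb
    simpa [Pall] using hb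
  have hPA : ∀ u ∈ P, u ∈ Acol N C' := by
    intro u hu
    obtain ⟨h1, h2⟩ := (hP u).mp hu
    exact (memA u).mpr ⟨φ u, h2, hφ.mem u h1⟩
  have hFP : ∀ f ∈ F, (Sum.inl f : ι ⊕ κ) ∉ Pall (κ := κ) BM := by
    intro f hf h
    have h1 := hF hf
    rw [mem_compl] at h1
    exact h1 (inlPall f h)
  have hPF : ∀ u ∈ P, u ∉ F.image (Sum.inl : ι → ι ⊕ κ) := by
    intro u hu h
    obtain ⟨f, hf, rfl⟩ := mem_image.mp h
    exact hFP f hf ((hP _).mp hu).1
  obtain ⟨O, hO⟩ : ∃ O : Finset (ι ⊕ κ), ∀ u, u ∈ O ↔ u ∈ Acol N C' ∧ u ∉ P ∧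
      u ∉ F.image (Sum.inl : ι → ι ⊕ κ) := by
    refine ⟨Acol N C' \ (P ∪ F.image (Sum.inl : ι → ι ⊕ κ)), fun u => ?_⟩
    rw [mem_sdiff, mem_union, not_or]
  have closure : ∀ (z : ι) (c : ι ⊕ κ), Sum.inl z ∈ P → (∀ w ∈ O, w = c) →
      Zs N BM φ z c ⊆ F := by
    intro z c hz hOc b hb
    have hb' : b ∈ BMᶜ ∧ Rch N BM φ c (Sum.inl z) (Sum.inl b) := by
      classical
      unfold Zs at hb
      simpa only [mem_filter] using hb
    obtain ⟨hb1, hb2⟩ := hb'
    have hreach : ∀ w, Rch N BM φ c (Sum.inl z) w → w ∈ P ∨ w ∈ F.image (Sum.inl : ι → ι ⊕ κ) := by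
      intro w hw
      unfold Rch at hw
      induction hw with
      | refl => exact Or.inl hz
      | @tail u w _ hst ih =>
        obtain ⟨⟨hu, hφu, _⟩, hwc⟩ := hst
        rcases ih with h | h
        · have hwA : w ∈ Acol N C' := (memA w).mpr ⟨φ u, ((hP u).mp h).2, hφu⟩
          by_contra hcon
          rw [not_or] at hcon
          exact hwc (hOc w ((hO w).mpr ⟨hwA, hcon.1, hcon.2⟩))
        · obtain ⟨f, hf, rfl⟩ := mem_image.mp h
          exact absurd hu (hFP f hf)
    rcases hreach _ hb2 with h | h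
    · have h1 := inlPall b ((hP _).mp h).1
      rw [mem_compl] at hb1
      exact absurd h1 hb1
    · obtain ⟨f, hf, hfb⟩ := mem_image.mp h
      rw [Sum.inl.injEq] at hfb
      rw [← hfb]
      exact hf
  have hcount : (P \ {Sum.inl x, Sum.inl y}).card + (O \ {Sum.inl x, Sum.inl y}).card < P.card := by
    rw [hPcard]
    refine lt_of_le_of_lt ?_ hC'
    rw [← card_union_of_disjoint]
    · apply card_le_card
      intro u hu
      rw [mem_union, mem_sdiff, mem_sdiff] at hu
      rw [mem_sdiff]
      rcases hu with ⟨h1, h2⟩ | ⟨h1, h2⟩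
      · refine ⟨hPA u h1, ?_⟩
        intro h3
        obtain ⟨f, hf, rfl⟩ := mem_image.mp h3
        rw [mem_union] at hf
        rcases hf with hf | hf
        · apply h2
          rw [mem_insert, mem_singleton] at hf
          rcases hf with rfl | rfl
          · simp
          · simp
        · exact hPF _ h1 (mem_image_of_mem _ hf)
      · refine ⟨((hO u).mp h1).1, ?_⟩
        intro h3
        obtain ⟨f, hf, rfl⟩ := mem_image.mp h3
        rw [mem_union] at hf
        rcases hf with hf | hf
        · apply h2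
          rw [mem_insert, mem_singleton] at hf
          rcases hf with rfl | rfl
          · simp
          · simp
        · exact ((hO _).mp h1).2.2 (mem_image_of_mem _ hf)
    · rw [disjoint_left]
      intro u h1 h2
      exact ((hO u).mp (mem_sdiff.mp h2).1).2.1 (mem_sdiff.mp h1).1
  have hne : (Sum.inl x : ι ⊕ κ) ≠ Sum.inl y := fun h => hxy (Sum.inl.inj h)
  by_cases hxP : (Sum.inl x : ι ⊕ κ) ∈ P
  · by_cases hyP : (Sum.inl y : ι ⊕ κ) ∈ P
    · have hyB : y ∈ BM := inlPall y ((hP _).mp hyP).1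
      have hc2 : (P \ {Sum.inl x, Sum.inl y}).card + 2 = P.card := by
        have hsub : ({Sum.inl x, Sum.inl y} : Finset (ι ⊕ κ)) ⊆ P := by
          intro u hu
          rw [mem_insert, mem_singleton] at hu
          rcases hu with rfl | rfl
          · exact hxP
          · exact hyP
        have h2 : ({Sum.inl x, Sum.inl y} : Finset (ι ⊕ κ)).card = 2 := card_pair hne
        rw [← h2]
        exact card_sdiff_add_card_eq_card hsub
      have hOe : O \ {Sum.inl x, Sum.inl y} = O := by
        ext u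
        rw [mem_sdiff, mem_insert, mem_singleton, not_or]
        constructor
        · exact fun h => h.1
        · intro h
          refine ⟨h, ?_, ?_⟩
          · rintro rfl
            exact ((hO _).mp h).2.1 hxP
          · rintro rfl
            exact ((hO _).mp h).2.1 hyP
      rw [hOe] at hcount
      have hO1 : O.card ≤ 1 := by omega
      rcases O.eq_empty_or_nonempty with h0 | ⟨c, hc⟩
      · left
        apply closure x _ hxP
        intro w hw
        rw [h0] at hw
        exact absurd hw (notMem_empty w)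
      · right; right
        have hall : ∀ w ∈ O, w = c := fun w hw => card_le_one.mp hO1 w hw c hc
        refine ⟨hyB, c, ?_, ?_, closure x c hxP hall, closure y c hyP hall⟩
        · rintro rfl
          exact ((hO _).mp hc).2.1 hxP
        · rintro rfl
          exact ((hO _).mp hc).2.1 hyP
    · left
      have hc1 : (P \ {Sum.inl x, Sum.inl y}).card + 1 = P.card := by
        have : P \ {Sum.inl x, Sum.inl y} = P.erase (Sum.inl x) := by
          ext u
          rw [mem_sdiff, mem_insert, mem_singleton, not_or, mem_erase]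
          constructor
          · exact fun h => ⟨h.2.1, h.1⟩
          · intro h
            refine ⟨h.2, h.1, ?_⟩
            rintro rfl
            exact hyP h.2
        rw [this, card_erase_add_one hxP]
      have hO0 : (O \ {Sum.inl x, Sum.inl y}).card = 0 := by omega
      rw [card_eq_zero, sdiff_eq_empty_iff_subset] at hO0
      apply closure x _ hxP
      intro w hw
      have h1 := hO0 hw
      rw [mem_insert, mem_singleton] at h1
      rcases h1 with rfl | h1
      · exact absurd hxP ((hO _).mp hw).2.1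
      · exact h1
  · by_cases hyP : (Sum.inl y : ι ⊕ κ) ∈ P
    · right; left
      have hyB : y ∈ BM := inlPall y ((hP _).mp hyP).1
      have hc1 : (P \ {Sum.inl x, Sum.inl y}).card + 1 = P.card := by
        have : P \ {Sum.inl x, Sum.inl y} = P.erase (Sum.inl y) := by
          ext u
          rw [mem_sdiff, mem_insert, mem_singleton, not_or, mem_erase]
          constructor
          · exact fun h => ⟨h.2.2, h.1⟩
          · intro h
            refine ⟨h.2, ?_, h.1⟩
            rintro rfl
            exact hxP h.2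
        rw [this, card_erase_add_one hyP]
      have hO0 : (O \ {Sum.inl x, Sum.inl y}).card = 0 := by omega
      rw [card_eq_zero, sdiff_eq_empty_iff_subset] at hO0
      refine ⟨hyB, closure y _ hyP ?_⟩
      intro w hw
      have h1 := hO0 hw
      rw [mem_insert, mem_singleton] at h1
      rcases h1 with h1 | rfl
      · exact h1
      · exact absurd hyP ((hO _).mp hw).2.1
    · exfalso
      have : P \ {Sum.inl x, Sum.inl y} = P := by
        ext u
        rw [mem_sdiff, mem_insert, mem_singleton, not_or]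
        constructor
        · exact fun h => h.1
        · intro h
          refine ⟨h, ?_, ?_⟩
          · rintro rfl
            exact hxP h
          · rintro rfl
            exact hyP h
      rw [this] at hcount
      omega

/-- complements of bases: subsets of `BMᶜ` are independent in the dual. -/
theorem coind_compl {ι κ C : Type*} [Fintype ι] [Fintype κ] [DecidableEq ι] [DecidableEq κ] [DecidableEq C]
    (N : ι ⊕ κ → Finset C) (BM : Finset ι) (φ : ι ⊕ κ → C) (hφ : IsMatch N BM φ) (F : Finset ι)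
    (hF : F ⊆ BMᶜ) : CoInd N F := by
  classical
  intro C'
  choose g hg1 hg2 using hφ.surj
  refine Finset.card_le_card_of_injOn g ?_ ?_
  · intro c hc
    have hc' : c ∈ C' := hc
    rw [Finset.mem_coe, Finset.mem_sdiff]
    constructor
    · unfold Acol
      rw [Finset.mem_filter]
      refine ⟨Finset.mem_univ _, c, hc', ?_⟩
      have h := hφ.mem (g c) (hg1 c)
      rw [hg2 c] at h
      exact h
    · intro h
      rw [Finset.mem_image] at h
      obtain ⟨x, hx, hxe⟩ := h
      have h1 := hg1 c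
      rw [← hxe] at h1
      unfold Pall at h1
      rw [Finset.mem_union] at h1
      rcases h1 with h1 | h1
      · rw [Finset.mem_image] at h1
        obtain ⟨y, hy, hye⟩ := h1
        have hyx : y = x := Sum.inl_injective hye
        have h2 := hF hx
        rw [Finset.mem_compl] at h2
        rw [hyx] at hy
        exact h2 hy
      · rw [Finset.mem_image] at h1
        obtain ⟨y, _, hye⟩ := h1
        exact Sum.inr_ne_inl hye
  · intro a _ b _ hab
    have h := congrArg φ hab
    rw [hg2 a, hg2 b] at h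
    exact h

/-- the good set is pairwise independent over `F` in the dual. -/
theorem pair_coind {ι κ C : Type*} [Fintype ι] [Fintype κ] [DecidableEq ι] [DecidableEq κ] [DecidableEq C]
    (N : ι ⊕ κ → Finset C) (BM : Finset ι) (φ : ι ⊕ κ → C) (hφ : IsMatch N BM φ) (s h : ℕ)
    (hs : ∀ S : Finset ι, S.card < s → CoInd N S) (hh : 1 ≤ h) (h2 : 2 * h + 1 ≤ s)
    (F : Finset ι) (hF : F ⊆ BMᶜ) (a b : ι)
    (ha : a ∈ BMᶜ \ F ∨ (a ∈ BM ∧ ¬ EV N BM φ h a F)) (hb : b ∈ BMᶜ \ F ∨ (b ∈ BM ∧ ¬ EV N BM φ h b F)) :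
    CoInd N ({a, b} ∪ F) := by
  have anti : ∀ S S' : Finset ι, S ⊆ S' → CoInd N S' → CoInd N S := by
    intro S S' hSS h' C'
    refine le_trans (h' C') (card_le_card ?_)
    exact sdiff_subset_sdiff (Subset.refl _) (image_subset_image hSS)
  have hs' : ∀ S : Finset ι, ¬ CoInd N S → s ≤ S.card := by
    intro S hS
    by_contra hcon
    exact hS (hs S (by omega))
  have cA : ∀ x y : ι, x ∈ BM → ¬ EV N BM φ h x F → y ≠ x → Zs N BM φ x (Sum.inl y) ⊆ F → False := by
    intro x y hx hEV hyx hZ
    have h1 := hs' _ (dep_single N BM φ hφ x hx y hyx)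
    have h3 : (({x, y} : Finset ι) ∪ Zs N BM φ x (Sum.inl y)).card
        ≤ 2 + (Zs N BM φ x (Sum.inl y)).card := by
      refine le_trans (card_union_le _ _) ?_
      have := Finset.card_le_two (a := x) (b := y)
      omega
    apply hEV
    refine ⟨Sum.inl y, ?_, hZ, by omega⟩
    intro hh'
    exact hyx (Sum.inl_injective hh')
  have cB : ∀ x y : ι, x ∈ BM → y ∈ BM → x ≠ y → ¬ EV N BM φ h x F → ¬ EV N BM φ h y F →
      ∀ c : ι ⊕ κ, c ≠ Sum.inl x → c ≠ Sum.inl y → Zs N BM φ x c ⊆ F → Zs N BM φ y c ⊆ F →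
      False := by
    intro x y hx hy hxy hEx hEy c hcx hcy hZx hZy
    have h1 := hs' _ (dep_double N BM φ hφ x y hx hy hxy c hcx hcy)
    have h3 : (({x, y} : Finset ι) ∪ (Zs N BM φ x c ∪ Zs N BM φ y c)).card
        ≤ 2 + ((Zs N BM φ x c).card + (Zs N BM φ y c).card) := by
      refine le_trans (card_union_le _ _) ?_
      have h4 := Finset.card_le_two (a := x) (b := y)
      have h5 := card_union_le (Zs N BM φ x c) (Zs N BM φ y c)
      omega
    by_cases h6 : h ≤ (Zs N BM φ x c).card
    · exact hEx ⟨c, hcx, hZx, h6⟩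
    · exact hEy ⟨c, hcy, hZy, by omega⟩
  have cC : ∀ x y : ι, x ∈ BM → ¬ EV N BM φ h x F → y ≠ x → (y ∈ BM → ¬ EV N BM φ h y F) →
      CoInd N ({x, y} ∪ F) := by
    intro x y hx hEx hyx hEy
    by_contra hdep
    rcases cut_pair N BM φ hφ F hF x y hyx.symm hx hdep with h1 | ⟨hy, h1⟩ | ⟨hy, c, hcx, hcy, h1, h3⟩
    · exact cA x y hx hEx hyx h1
    · exact cA y x hy (hEy hy) hyx.symm h1
    · exact cB x y hx hy hyx.symm hEx (hEy hy) c hcx hcy h1 h3
  have hb' : b ∈ BM → ¬ EV N BM φ h b F := by
    intro hbm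
    rcases hb with hb | hb
    · exact absurd hbm (mem_compl.mp (mem_sdiff.mp hb).1)
    · exact hb.2
  have ha' : a ∈ BM → ¬ EV N BM φ h a F := by
    intro ham
    rcases ha with ha | ha
    · exact absurd ham (mem_compl.mp (mem_sdiff.mp ha).1)
    · exact ha.2
  by_cases ham : a ∈ BM
  · by_cases hba : b = a
    · subst hba
      by_cases hne : (BMᶜ).Nonempty
      · obtain ⟨y, hy⟩ := hne
        have hyb : y ≠ b := by
          intro hyb
          rw [hyb] at hy
          exact (mem_compl.mp hy) ham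
        have h1 := cC b y ham (ha' ham) hyb (fun hyM => absurd hyM (mem_compl.mp hy))
        refine anti _ _ ?_ h1
        refine union_subset_union ?_ (Subset.refl _)
        intro z hz
        simp only [mem_insert, mem_singleton] at hz ⊢
        tauto
      · rw [not_nonempty_iff_eq_empty] at hne
        have hF0 : F = ∅ := by
          rw [hne] at hF
          exact subset_empty.mp hF
        apply hs
        rw [hF0]
        simp
        omega
    · exact cC a b ham (ha' ham) hba hb'
  · by_cases hbm : b ∈ BM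
    · have hab : a ≠ b := by
        intro hab
        rw [hab] at ham
        exact ham hbm
      rw [pair_comm]
      exact cC b a hbm (hb' hbm) hab (fun h' => absurd h' ham)
    · apply coind_compl N BM φ hφ
      intro z hz
      simp only [mem_union, mem_insert, mem_singleton] at hz
      rcases hz with (hz | hz) | hz
      · rw [hz]; exact mem_compl.mpr ham
      · rw [hz]; exact mem_compl.mpr hbm
      · exact hF hz

/-- total weight. -/
theorem wt_sum {ι : Type*} [DecidableEq ι] (B : Finset ι) (t : ℝ) :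
    ∑ F ∈ B.powerset, t ^ F.card * (1 - t) ^ (B.card - F.card) = 1 := by
  rw [Finset.sum_pow_mul_eq_add_pow t (1 - t) B]
  have h : t + (1 - t) = 1 := by ring
  rw [h, one_pow]

/-- weight of the supersets of `Z`. -/
theorem wt_super {ι : Type*} [DecidableEq ι] (B Z : Finset ι) (hZ : Z ⊆ B) (t : ℝ) :
    ∑ F ∈ B.powerset, (if Z ⊆ F then t ^ F.card * (1 - t) ^ (B.card - F.card) else 0) = t ^ Z.card := by
  rw [← Finset.sum_filter]
  have h1 : ∑ F ∈ B.powerset with Z ⊆ F, t ^ F.card * (1 - t) ^ (B.card - F.card)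
      = ∑ G ∈ (B \ Z).powerset, t ^ Z.card * (t ^ G.card * (1 - t) ^ ((B \ Z).card - G.card)) := by
    refine Finset.sum_nbij' (fun F => F \ Z) (fun G => Z ∪ G) ?_ ?_ ?_ ?_ ?_
    · intro F hF
      rw [Finset.mem_filter, Finset.mem_powerset] at hF
      rw [Finset.mem_powerset]
      exact Finset.sdiff_subset_sdiff hF.1 (Finset.Subset.refl Z)
    · intro G hG
      rw [Finset.mem_powerset] at hG
      rw [Finset.mem_filter, Finset.mem_powerset]
      exact ⟨Finset.union_subset hZ (hG.trans Finset.sdiff_subset), Finset.subset_union_left⟩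
    · intro F hF
      rw [Finset.mem_filter] at hF
      exact Finset.union_sdiff_of_subset hF.2
    · intro G hG
      rw [Finset.mem_powerset] at hG
      have hd : Disjoint G Z := Finset.disjoint_of_subset_left hG Finset.sdiff_disjoint
      ext x
      rw [Finset.mem_sdiff, Finset.mem_union]
      constructor
      · rintro ⟨h | h, h'⟩
        · exact absurd h h'
        · exact h
      · intro h
        exact ⟨Or.inr h, fun h' => (Finset.disjoint_left.mp hd) h h'⟩
    · intro F hF
      rw [Finset.mem_filter, Finset.mem_powerset] at hF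
      have e1 : (F \ Z).card = F.card - Z.card := Finset.card_sdiff_of_subset hF.2
      have e2 : (B \ Z).card = B.card - Z.card := Finset.card_sdiff_of_subset hZ
      have l1 : Z.card ≤ F.card := Finset.card_le_card hF.2
      have l2 : F.card ≤ B.card := Finset.card_le_card hF.1
      rw [e1, e2, ← mul_assoc, ← pow_add]
      congr 2 <;> omega
  rw [h1, ← Finset.mul_sum, Finset.sum_pow_mul_eq_add_pow]
  rw [show t + (1 - t) = 1 by ring, one_pow, mul_one]

/-- mean size of the complement. -/
theorem wt_mean {ι : Type*} [DecidableEq ι] (B : Finset ι) (t : ℝ) :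
    ∑ F ∈ B.powerset, t ^ F.card * (1 - t) ^ (B.card - F.card) * ((B.card : ℝ) - F.card) =
      (1 - t) * B.card := by
  induction B using Finset.induction_on with
  | empty => simp
  | insert a B ha ih =>
    rw [Finset.sum_powerset_insert ha, Finset.card_insert_of_notMem ha]
    have h1 : ∑ F ∈ B.powerset, t ^ F.card * (1 - t) ^ (B.card + 1 - F.card) *
        (((B.card + 1 : ℕ) : ℝ) - F.card) = (1 - t) * ((1 - t) * B.card + 1) := by
      have h0 : (1 - t) * ((1 - t) * B.card + 1) =
          (1 - t) * (∑ F ∈ B.powerset, t ^ F.card * (1 - t) ^ (B.card - F.card) * ((B.card : ℝ) - F.card) +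
            ∑ F ∈ B.powerset, t ^ F.card * (1 - t) ^ (B.card - F.card)) := by
        rw [ih, wt_sum B t]
      rw [h0, ← Finset.sum_add_distrib, Finset.mul_sum]
      apply Finset.sum_congr rfl
      intro F hF
      have hle : F.card ≤ B.card := Finset.card_le_card (Finset.mem_powerset.1 hF)
      have e : B.card + 1 - F.card = (B.card - F.card) + 1 := by omega
      rw [e, pow_succ]
      push_cast
      ring
    have h2 : ∑ F ∈ B.powerset, t ^ (insert a F).card * (1 - t) ^ (B.card + 1 - (insert a F).card) *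
        (((B.card + 1 : ℕ) : ℝ) - (insert a F).card) = t * ((1 - t) * B.card) := by
      rw [← ih, Finset.mul_sum]
      apply Finset.sum_congr rfl
      intro F hF
      have hnot : a ∉ F := fun h => ha (Finset.mem_powerset.1 hF h)
      rw [Finset.card_insert_of_notMem hnot, Nat.add_sub_add_right, pow_succ]
      push_cast
      ring
    rw [h1, h2]
    push_cast
    ring

/-- convexity estimate. -/
theorem conv_est (t : ℝ) (ht0 : 0 < t) (ht1 : t < 1) (L h y : ℕ) (hL : 2 * h ≤ L) (hh : 1 ≤ h)
    (hy : y ≤ L - h) : ((L - h : ℕ) : ℝ) * (t ^ (L - y) - t ^ L) ≤ y * (t ^ h - t ^ L) := by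
  obtain ⟨s, hs⟩ : ∃ s, L - h = y + s := Nat.exists_eq_add_of_le hy
  have hL' : L = h + (y + s) := by omega
  subst hL'
  have e1 : h + (y + s) - h = y + s := by omega
  have e2 : h + (y + s) - y = h + s := by omega
  rw [e1, e2]
  have hA : (∑ i ∈ Finset.range y, t ^ i) * (1 - t) = 1 - t ^ y := geom_sum_mul_neg t y
  have hB : (∑ i ∈ Finset.range s, t ^ i) * (1 - t) = 1 - t ^ s := geom_sum_mul_neg t s
  set A : ℝ := ∑ i ∈ Finset.range y, t ^ i with hAdef
  set B : ℝ := ∑ i ∈ Finset.range s, t ^ i with hBdef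
  have hA1 : A ≤ y := by
    calc A ≤ ∑ _i ∈ Finset.range y, (1 : ℝ) :=
          Finset.sum_le_sum fun i _ => pow_le_one₀ ht0.le ht1.le
      _ = y := by simp
  have hB1 : (s : ℝ) * t ^ s ≤ B := by
    calc (s : ℝ) * t ^ s = ∑ _i ∈ Finset.range s, t ^ s := by simp
      _ ≤ B := Finset.sum_le_sum fun i hi =>
          pow_le_pow_of_le_one ht0.le ht1.le (Finset.mem_range.mp hi).le
  have hts : 0 < t ^ s := pow_pos ht0 s
  have hth : 0 < t ^ h := pow_pos ht0 h
  have h1 : (s : ℝ) * t ^ s * A ≤ y * B := by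
    calc (s : ℝ) * t ^ s * A ≤ (s : ℝ) * t ^ s * y :=
          mul_le_mul_of_nonneg_left hA1 (by positivity)
      _ = y * ((s : ℝ) * t ^ s) := by ring
      _ ≤ y * B := mul_le_mul_of_nonneg_left hB1 (Nat.cast_nonneg _)
  have h2 : (s : ℝ) * t ^ s * A * (1 - t) ≤ y * B * (1 - t) :=
    mul_le_mul_of_nonneg_right h1 (by linarith)
  have h3 : (s : ℝ) * t ^ s * (1 - t ^ y) ≤ y * (1 - t ^ s) := by
    calc (s : ℝ) * t ^ s * (1 - t ^ y) = (s : ℝ) * t ^ s * A * (1 - t) := by rw [← hA]; ring
      _ ≤ y * B * (1 - t) := h2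
      _ = y * (1 - t ^ s) := by rw [← hB]; ring
  have h4 : t ^ h * ((s : ℝ) * t ^ s * (1 - t ^ y)) ≤ t ^ h * (y * (1 - t ^ s)) :=
    mul_le_mul_of_nonneg_left h3 hth.le
  push_cast
  rw [pow_add, pow_add, pow_add]
  nlinarith

/-- probability of containing a member of a laminar-complement family. -/
theorem fam_prob {ι : Type*} [DecidableEq ι] (B A : Finset ι) (hA : A ⊆ B) (Q : Finset (Finset ι)) (h : ℕ)
    (hh : 1 ≤ h) (hL : 2 * h ≤ A.card) (hQ : ∀ Z ∈ Q, Z ⊆ A ∧ h ≤ Z.card)
    (hlam : ∀ Z ∈ Q, ∀ Z' ∈ Q, Z ⊆ Z' ∨ Z' ⊆ Z ∨ A ⊆ Z ∪ Z') (t : ℝ) (ht0 : 0 < t) (ht1 : t < 1)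
    [DecidablePred fun F : Finset ι => ∃ Z ∈ Q, Z ⊆ F] :
    ∑ F ∈ B.powerset, (if ∃ Z ∈ Q, Z ⊆ F then t ^ F.card * (1 - t) ^ (B.card - F.card) else 0) ≤
      2 * t ^ h := by
  have ht1' : (0 : ℝ) ≤ 1 - t := by linarith
  have hw0 : ∀ F : Finset ι, (0 : ℝ) ≤ t ^ F.card * (1 - t) ^ (B.card - F.card) := fun F =>
    mul_nonneg (pow_nonneg ht0.le _) (pow_nonneg ht1' _)
  obtain ⟨M, hMdef⟩ : ∃ M : Finset (Finset ι), ∀ Z, Z ∈ M ↔ (Z ∈ Q ∧ ∀ Z' ∈ Q, Z' ⊆ Z → Z' = Z) := by
    classical
    exact ⟨Q.filter (fun Z => ∀ Z' ∈ Q, Z' ⊆ Z → Z' = Z), fun Z => by rw [mem_filter]⟩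
  have hM : ∀ Z ∈ M, Z ∈ Q := fun Z hZ => ((hMdef Z).1 hZ).1
  have hmin : ∀ Z ∈ Q, ∃ Z0 ∈ M, Z0 ⊆ Z := by
    intro Z hZ
    obtain ⟨Z0, hZ0, hm⟩ := (Q.filter (fun Y => Y ⊆ Z)).exists_min_image Finset.card
      ⟨Z, by rw [mem_filter]; exact ⟨hZ, Finset.Subset.refl Z⟩⟩
    rw [mem_filter] at hZ0
    refine ⟨Z0, (hMdef Z0).2 ⟨hZ0.1, fun Z' hZ' hsub => ?_⟩, hZ0.2⟩
    exact Finset.eq_of_subset_of_card_le hsub
      (hm Z' (by rw [mem_filter]; exact ⟨hZ', hsub.trans hZ0.2⟩))
  have hdisj : ∀ Z ∈ M, ∀ Z' ∈ M, Z ≠ Z' → Disjoint (A \ Z) (A \ Z') := by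
    intro Z hZ Z' hZ' hne
    have h1 := (hMdef Z).1 hZ
    have h2 := (hMdef Z').1 hZ'
    rw [Finset.disjoint_left]
    intro x hx hx'
    rw [mem_sdiff] at hx hx'
    rcases hlam Z h1.1 Z' h2.1 with h3 | h3 | h3
    · exact hne (h2.2 Z h1.1 h3)
    · exact hne (h1.2 Z' h2.1 h3).symm
    · rcases mem_union.1 (h3 hx.1) with h4 | h4
      · exact hx.2 h4
      · exact hx'.2 h4
  have hsum : ∑ Z ∈ M, (A.card - Z.card) ≤ A.card := by
    calc ∑ Z ∈ M, (A.card - Z.card) = ∑ Z ∈ M, (A \ Z).card := by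
          apply sum_congr rfl
          intro Z hZ
          rw [card_sdiff_of_subset (hQ Z (hM Z hZ)).1]
      _ = (M.biUnion (fun Z => A \ Z)).card := (card_biUnion hdisj).symm
      _ ≤ A.card := card_le_card (biUnion_subset.2 fun Z _ => sdiff_subset)
  have hterm : ∀ Z ∈ M, ∀ F : Finset ι,
      (0 : ℝ) ≤ (if Z ⊆ F then t ^ F.card * (1 - t) ^ (B.card - F.card) else 0) -
        (if A ⊆ F then t ^ F.card * (1 - t) ^ (B.card - F.card) else 0) := by
    intro Z hZ F
    have hZA := (hQ Z (hM Z hZ)).1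
    by_cases h1 : A ⊆ F
    · rw [if_pos h1, if_pos (hZA.trans h1), sub_self]
    · rw [if_neg h1, sub_zero]
      split_ifs
      · exact hw0 F
      · exact le_refl _
  have hpt : ∀ F ∈ B.powerset,
      (if ∃ Z ∈ Q, Z ⊆ F then t ^ F.card * (1 - t) ^ (B.card - F.card) else 0) ≤
      (if A ⊆ F then t ^ F.card * (1 - t) ^ (B.card - F.card) else 0) +
        ∑ Z ∈ M, ((if Z ⊆ F then t ^ F.card * (1 - t) ^ (B.card - F.card) else 0) -
          (if A ⊆ F then t ^ F.card * (1 - t) ^ (B.card - F.card) else 0)) := by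
    intro F _
    by_cases hex : ∃ Z ∈ Q, Z ⊆ F
    · rw [if_pos hex]
      obtain ⟨Z, hZ, hZF⟩ := hex
      obtain ⟨Z0, hZ0, hZ0Z⟩ := hmin Z hZ
      have h5 := Finset.single_le_sum (f := fun Z => (if Z ⊆ F then t ^ F.card * (1 - t) ^ (B.card - F.card) else 0) -
          (if A ⊆ F then t ^ F.card * (1 - t) ^ (B.card - F.card) else 0))
          (fun Z hZ => hterm Z hZ F) hZ0
      simp only [if_pos (hZ0Z.trans hZF)] at h5
      linarith
    · rw [if_neg hex]
      have h6 : (0 : ℝ) ≤ (if A ⊆ F then t ^ F.card * (1 - t) ^ (B.card - F.card) else 0) := by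
        split_ifs
        · exact hw0 F
        · exact le_refl _
      have h7 := Finset.sum_nonneg (fun Z hZ => hterm Z hZ F)
      linarith
  have hbig : ∑ F ∈ B.powerset, (if ∃ Z ∈ Q, Z ⊆ F then t ^ F.card * (1 - t) ^ (B.card - F.card) else 0) ≤
      t ^ A.card + ∑ Z ∈ M, (t ^ Z.card - t ^ A.card) := by
    refine (Finset.sum_le_sum hpt).trans (le_of_eq ?_)
    rw [Finset.sum_add_distrib, wt_super B A hA t, Finset.sum_comm]
    congr 1
    apply sum_congr rfl
    intro Z hZ
    rw [Finset.sum_sub_distrib, wt_super B A hA t, wt_super B Z ((hQ Z (hM Z hZ)).1.trans hA) t]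
  have hLh : h ≤ A.card - h := by omega
  have hpos : (0 : ℝ) < ((A.card - h : ℕ) : ℝ) := by
    have : 0 < A.card - h := by omega
    exact_mod_cast this
  have hth : (0 : ℝ) ≤ t ^ h - t ^ A.card := by
    have := pow_le_pow_of_le_one ht0.le ht1.le (show h ≤ A.card by omega)
    linarith
  have hconv : ((A.card - h : ℕ) : ℝ) * ∑ Z ∈ M, (t ^ Z.card - t ^ A.card) ≤
      (A.card : ℝ) * (t ^ h - t ^ A.card) := by
    calc ((A.card - h : ℕ) : ℝ) * ∑ Z ∈ M, (t ^ Z.card - t ^ A.card)
        = ∑ Z ∈ M, ((A.card - h : ℕ) : ℝ) * (t ^ Z.card - t ^ A.card) := Finset.mul_sum _ _ _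
      _ ≤ ∑ Z ∈ M, ((A.card - Z.card : ℕ) : ℝ) * (t ^ h - t ^ A.card) := by
          apply Finset.sum_le_sum
          intro Z hZ
          have h8 := hQ Z (hM Z hZ)
          have h9 := card_le_card h8.1
          have h10 := conv_est t ht0 ht1 A.card h (A.card - Z.card) hL hh (by omega)
          rwa [show A.card - (A.card - Z.card) = Z.card by omega] at h10
      _ = ((∑ Z ∈ M, (A.card - Z.card) : ℕ) : ℝ) * (t ^ h - t ^ A.card) := by
          rw [Nat.cast_sum, Finset.sum_mul]
      _ ≤ (A.card : ℝ) * (t ^ h - t ^ A.card) := by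
          apply mul_le_mul_of_nonneg_right _ hth
          exact_mod_cast hsum
  have h2L : (A.card : ℝ) ≤ 2 * ((A.card - h : ℕ) : ℝ) := by
    have : A.card ≤ 2 * (A.card - h) := by omega
    exact_mod_cast this
  have hfin : ∑ Z ∈ M, (t ^ Z.card - t ^ A.card) ≤ 2 * (t ^ h - t ^ A.card) := by
    have h11 : ((A.card - h : ℕ) : ℝ) * ∑ Z ∈ M, (t ^ Z.card - t ^ A.card) ≤
        ((A.card - h : ℕ) : ℝ) * (2 * (t ^ h - t ^ A.card)) := by
      refine hconv.trans ?_
      have := mul_le_mul_of_nonneg_right h2L hth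
      linarith
    exact le_of_mul_le_mul_left h11 hpos
  have hlast : (0 : ℝ) ≤ t ^ A.card := pow_nonneg ht0.le _
  linarith

/-- numerical estimate. -/
theorem num_est (q h : ℕ) (hq : 2 ≤ q) (hh : q ^ 3 ≤ 2 * h + 2) :
    2 * (1 - 1 / (2 * ((q : ℝ) - 1) ^ 2)) ^ h < 1 / 2 := by
  have hq' : (2 : ℝ) ≤ q := by exact_mod_cast hq
  have hh' : (q : ℝ) ^ 3 ≤ 2 * h + 2 := by exact_mod_cast hh
  have hpos : (0 : ℝ) < 2 * ((q : ℝ) - 1) ^ 2 := by
    have : (0 : ℝ) < (q : ℝ) - 1 := by linarith
    positivity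
  obtain ⟨θ, hθ⟩ : ∃ θ : ℝ, θ = 1 / (2 * ((q : ℝ) - 1) ^ 2) := ⟨_, rfl⟩
  have hθ1 : θ ≤ 1 := by
    rw [hθ, div_le_one hpos]
    nlinarith
  have hθh : 3 / 2 ≤ θ * h := by
    rw [hθ, one_div, inv_mul_eq_div, le_div_iff₀ hpos]
    have h3 : (0 : ℝ) ≤ ((q : ℝ) - 2) ^ 3 := by
      have : (0 : ℝ) ≤ (q : ℝ) - 2 := by linarith
      positivity
    nlinarith
  rw [← hθ]
  have h1 : (1 - θ) ^ h ≤ Real.exp (-(θ * h)) := by
    have e1 : 1 - θ ≤ Real.exp (-θ) := by
      have := Real.add_one_le_exp (-θ)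
      linarith
    calc (1 - θ) ^ h ≤ (Real.exp (-θ)) ^ h := pow_le_pow_left₀ (by linarith) e1 h
      _ = Real.exp (-(θ * h)) := by
        rw [← Real.exp_nat_mul]
        congr 1
        ring
  have h2 : Real.exp (-(θ * h)) ≤ Real.exp (-(3 / 2)) := Real.exp_le_exp.mpr (by linarith)
  have h3 : Real.exp (-(3 / 2)) < 1 / 4 := by
    have h5 : Real.exp (3 / 2) ^ 2 = Real.exp 1 ^ 3 := by
      rw [← Real.exp_nat_mul, ← Real.exp_nat_mul]
      norm_num
    have h6 : (2.7 : ℝ) < Real.exp 1 := by
      have := Real.exp_one_gt_d9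
      linarith
    have h7 : (16 : ℝ) < Real.exp (3 / 2) ^ 2 := by
      rw [h5]
      have : (2.7 : ℝ) ^ 3 ≤ Real.exp 1 ^ 3 := pow_le_pow_left₀ (by norm_num) h6.le 3
      norm_num at this ⊢
      linarith
    have h8 : (4 : ℝ) < Real.exp (3 / 2) := by
      have hp := Real.exp_pos (3 / 2)
      nlinarith
    rw [Real.exp_neg, inv_lt_comm₀ (Real.exp_pos _) (by norm_num)]
    norm_num
    linarith
  linarith

theorem coind_mt_bi {ι κ C : Type*} [Fintype ι] [Fintype κ] [Fintype C] [DecidableEq ι]
    [DecidableEq κ] [DecidableEq C] (N : ι ⊕ κ → Finset C) (S1 : Finset ι) (C' : Finset C) :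
    ((S1.image Sum.inl ∪ C'.image Sum.inr : Finset (ι ⊕ C))).biUnion (dualN N) =
      (S1.image Sum.inl : Finset (ι ⊕ κ)) ∪ Acol N C' := by
  ext w
  simp only [mem_biUnion, mem_union, mem_image, Acol, mem_filter, mem_univ, true_and]
  constructor
  · rintro ⟨y, ⟨x, hx, rfl⟩ | ⟨c, hc, rfl⟩, hw⟩
    · simp only [dualN, mem_singleton] at hw
      exact Or.inl ⟨x, hx, hw.symm⟩
    · simp only [dualN, mem_filter, mem_univ, true_and] at hw
      exact Or.inr ⟨c, hc, hw⟩
  · rintro (⟨x, hx, rfl⟩ | ⟨c, hc, hw⟩)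
    · exact ⟨Sum.inl x, Or.inl ⟨x, hx, rfl⟩, by simp [dualN]⟩
    · exact ⟨Sum.inr c, Or.inr ⟨c, hc, rfl⟩, by simp [dualN, hw]⟩

theorem coind_mt_card {ι C : Type*} [DecidableEq ι] [DecidableEq C] (S1 : Finset ι)
    (C' : Finset C) : (S1.image Sum.inl ∪ C'.image Sum.inr : Finset (ι ⊕ C)).card =
      S1.card + C'.card := by
  rw [card_union_of_disjoint, card_image_of_injective _ Sum.inl_injective,
    card_image_of_injective _ Sum.inr_injective]
  rw [disjoint_left]
  intro a ha hb
  obtain ⟨x, -, rfl⟩ := mem_image.1 ha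
  obtain ⟨y, -, h⟩ := mem_image.1 hb
  exact Sum.inr_ne_inl h

/-- Hall duality. -/
theorem coind_mt {ι κ C : Type*} [Fintype ι] [Fintype κ] [Fintype C] [DecidableEq ι] [DecidableEq κ]
    [DecidableEq C] (N : ι ⊕ κ → Finset C) (S : Finset ι) :
    CoInd N S ↔ Mt (dualN N) (S.image Sum.inl ∪ (univ : Finset C).image Sum.inr) := by

  constructor
  · intro h Y hY
    set S1 : Finset ι := S.filter (fun x => (Sum.inl x : ι ⊕ C) ∈ Y) with hS1
    set C' : Finset C := univ.filter (fun c => (Sum.inr c : ι ⊕ C) ∈ Y) with hC'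
    have hYe : Y = S1.image Sum.inl ∪ C'.image Sum.inr := by
      ext y
      simp only [mem_union, mem_image, hS1, hC', mem_filter, mem_univ, true_and]
      constructor
      · intro hy
        have h1 := hY hy
        simp only [mem_union, mem_image, mem_univ, true_and] at h1
        rcases h1 with ⟨x, hx, rfl⟩ | ⟨c, rfl⟩
        · exact Or.inl ⟨x, ⟨hx, hy⟩, rfl⟩
        · exact Or.inr ⟨c, hy, rfl⟩
      · rintro (⟨x, ⟨_, hx⟩, rfl⟩ | ⟨c, hc, rfl⟩)
        · exact hx
        · exact hc
    rw [hYe, coind_mt_bi, coind_mt_card]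
    have h1 : (S1.image Sum.inl : Finset (ι ⊕ κ)).card + (Acol N C' \ S.image Sum.inl).card =
        ((S1.image Sum.inl : Finset (ι ⊕ κ)) ∪ (Acol N C' \ S.image Sum.inl)).card := by
      rw [card_union_of_disjoint]
      rw [disjoint_left]
      intro a ha hb
      obtain ⟨x, hx, rfl⟩ := mem_image.1 ha
      exact (mem_sdiff.1 hb).2 (mem_image.2 ⟨x, (mem_filter.1 hx).1, rfl⟩)
    have h2 : ((S1.image Sum.inl : Finset (ι ⊕ κ)) ∪ (Acol N C' \ S.image Sum.inl)).card ≤
        ((S1.image Sum.inl : Finset (ι ⊕ κ)) ∪ Acol N C').card :=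
      card_le_card (union_subset_union_right sdiff_subset)
    have h3 := h C'
    rw [card_image_of_injective _ Sum.inl_injective] at h1
    omega
  · intro h C'
    have h1 := h (S.image Sum.inl ∪ C'.image Sum.inr)
      (union_subset_union_right (image_subset_image (subset_univ _)))
    rw [coind_mt_bi, coind_mt_card] at h1
    have h2 : (Acol N C' \ (S.image Sum.inl : Finset (ι ⊕ κ))).card +
        (S.image Sum.inl : Finset (ι ⊕ κ)).card =
        (Acol N C' ∪ (S.image Sum.inl : Finset (ι ⊕ κ))).card := card_sdiff_add_card _ _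
    rw [card_image_of_injective _ Sum.inl_injective, union_comm] at h2
    omega

theorem coindAux_union {α C : Type*} [DecidableEq α] [DecidableEq C] (N : α → Finset C)
    (T A B : Finset α) (hT : Mt N T) (hA : A ⊆ T) (hB : B ⊆ T)
    (hAt : (A.biUnion N).card = A.card) (hBt : (B.biUnion N).card = B.card) :
    ((A ∪ B).biUnion N).card = (A ∪ B).card := by
  have h1 : (A ∪ B).biUnion N = A.biUnion N ∪ B.biUnion N := by
    ext c
    simp only [mem_biUnion, mem_union]
    constructor
    · rintro ⟨a, ha | ha, hc⟩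
      · exact Or.inl ⟨a, ha, hc⟩
      · exact Or.inr ⟨a, ha, hc⟩
    · rintro (⟨a, ha, hc⟩ | ⟨a, ha, hc⟩)
      · exact ⟨a, Or.inl ha, hc⟩
      · exact ⟨a, Or.inr ha, hc⟩
  have h2 := Finset.card_union_add_card_inter (A.biUnion N) (B.biUnion N)
  have h3 := Finset.card_union_add_card_inter A B
  have h4 : (A ∩ B).card ≤ ((A ∩ B).biUnion N).card := hT _ (inter_subset_left.trans hA)
  have h5 : ((A ∩ B).biUnion N) ⊆ A.biUnion N ∩ B.biUnion N := by
    intro c hc
    simp only [mem_biUnion, mem_inter] at hc ⊢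
    obtain ⟨a, ⟨ha, hb⟩, hc⟩ := hc
    exact ⟨⟨a, ha, hc⟩, ⟨a, hb, hc⟩⟩
  have h6 := card_le_card h5
  have h7 := hT (A ∪ B) (union_subset hA hB)
  rw [h1] at h7 ⊢
  omega

theorem coindAux_max {α C : Type*} [DecidableEq α] [DecidableEq C] (N : α → Finset C)
    (T : Finset α) (hT : Mt N T) : ∃ Θ ⊆ T, (Θ.biUnion N).card = Θ.card ∧
      ∀ Y ⊆ T, (Y.biUnion N).card = Y.card → Y ⊆ Θ := by
  classical
  obtain ⟨Θ, hΘ, hmax⟩ := Finset.exists_max_image
    (T.powerset.filter (fun Y => (Y.biUnion N).card = Y.card)) Finset.card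
    ⟨∅, by simp⟩
  rw [mem_filter, mem_powerset] at hΘ
  refine ⟨Θ, hΘ.1, hΘ.2, fun Y hY hYt => ?_⟩
  have h1 := coindAux_union N T Θ Y hT hΘ.1 hY hΘ.2 hYt
  have h2 := hmax (Θ ∪ Y) (by
    rw [mem_filter, mem_powerset]
    exact ⟨union_subset hΘ.1 hY, h1⟩)
  have h3 : Θ = Θ ∪ Y := Finset.eq_of_subset_of_card_le subset_union_left h2
  rw [h3]
  exact subset_union_right

theorem coindAux_mp {ι κ C : Type*} [Fintype ι] [Fintype κ] [Fintype C]
    [DecidableEq ι] [DecidableEq κ] [DecidableEq C] (N : ι ⊕ κ → Finset C) (S S' : Finset ι)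
    (hT : Mt N (S'.image Sum.inl ∪ (univ : Finset κ).image Sum.inr))
    (hmax : ∀ w, w ∉ S → w ∉ S' →
      ¬ Mt N ((insert w S').image Sum.inl ∪ (univ : Finset κ).image Sum.inr))
    (hcard : S'.card + Fintype.card κ < Fintype.card C) : ¬ CoInd N S := by
  intro hco
  obtain ⟨T, hTdef⟩ : ∃ T : Finset (ι ⊕ κ),
      T = S'.image Sum.inl ∪ (univ : Finset κ).image Sum.inr := ⟨_, rfl⟩
  rw [← hTdef] at hT
  have hTc : T.card ≤ S'.card + Fintype.card κ := by
    rw [hTdef]
    refine (card_union_le _ _).trans ?_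
    exact Nat.add_le_add card_image_le (card_image_le.trans (by rw [card_univ]))
  obtain ⟨Θ, hΘT, hΘt, hΘm⟩ := coindAux_max N T hT
  have hN : ∀ w, w ∉ S → w ∉ S' → N (Sum.inl w) ⊆ Θ.biUnion N := by
    intro w hwS hwS'
    have h1 := hmax w hwS hwS'
    have h2 : (insert w S').image Sum.inl ∪ (univ : Finset κ).image Sum.inr =
        insert (Sum.inl w) T := by
      rw [image_insert, insert_union, hTdef]
    rw [h2] at h1
    unfold Mt at h1
    push Not at h1
    obtain ⟨Y, hY, hYc⟩ := h1
    have hwY : (Sum.inl w : ι ⊕ κ) ∈ Y := by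
      by_contra hn
      have h3 : Y ⊆ T := (Finset.subset_insert_iff_of_notMem hn).1 hY
      exact absurd (hT Y h3) (not_le.2 hYc)
    obtain ⟨Z, hZ⟩ : ∃ Z : Finset (ι ⊕ κ), Z = Y.erase (Sum.inl w) := ⟨_, rfl⟩
    have hZT : Z ⊆ T := by
      rw [hZ]
      exact Finset.subset_insert_iff.1 hY
    have hZc : Z.card + 1 = Y.card := by
      rw [hZ]
      exact Finset.card_erase_add_one hwY
    have hZY : Z.biUnion N ⊆ Y.biUnion N := by
      rw [hZ]
      exact biUnion_subset_biUnion_of_subset_left _ (erase_subset _ _)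
    have h4 := hT Z hZT
    have h5 := card_le_card hZY
    have h6 : (Z.biUnion N).card = Z.card := by omega
    have h7 : Z.biUnion N = Y.biUnion N := Finset.eq_of_subset_of_card_le hZY (by omega)
    have h8 : Z ⊆ Θ := hΘm Z hZT h6
    intro c hc
    have h9 : c ∈ Y.biUnion N := mem_biUnion.2 ⟨_, hwY, hc⟩
    rw [← h7] at h9
    exact (biUnion_subset_biUnion_of_subset_left _ h8) h9
  have h1 := hco ((Θ.biUnion N)ᶜ)
  have h2 : Acol N ((Θ.biUnion N)ᶜ) \ S.image Sum.inl ⊆ T \ Θ := by
    intro u hu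
    rw [mem_sdiff] at hu ⊢
    obtain ⟨hu1, hu2⟩ := hu
    unfold Acol at hu1
    rw [mem_filter] at hu1
    obtain ⟨_, c, hc, hcu⟩ := hu1
    rw [mem_compl] at hc
    constructor
    · rcases u with x | y
      · have hxS : x ∉ S := fun h => hu2 (mem_image_of_mem _ h)
        by_contra hn
        have hxS' : x ∉ S' := by
          intro h
          apply hn
          rw [hTdef]
          exact mem_union_left _ (mem_image_of_mem _ h)
        exact hc (hN x hxS hxS' hcu)
      · rw [hTdef]
        exact mem_union_right _ (mem_image_of_mem _ (mem_univ y))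
    · intro h
      exact hc (mem_biUnion.2 ⟨u, h, hcu⟩)
  have h3 := card_le_card h2
  have h4 : (T \ Θ).card + Θ.card = T.card := by
    rw [card_sdiff_of_subset hΘT]
    have := card_le_card hΘT
    omega
  have h5 : ((Θ.biUnion N)ᶜ).card + (Θ.biUnion N).card = Fintype.card C := by
    rw [card_compl]
    have := card_le_univ (Θ.biUnion N)
    omega
  omega

theorem coindAux_mpr {ι κ C : Type*} [Fintype ι] [Fintype κ] [Fintype C]
    [DecidableEq ι] [DecidableEq κ] [DecidableEq C] (N : ι ⊕ κ → Finset C) (S S' : Finset ι)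
    (hT : Mt N (S'.image Sum.inl ∪ (univ : Finset κ).image Sum.inr))
    (hdis : ∀ w ∈ S', w ∉ S)
    (hcard : S'.card + Fintype.card κ = Fintype.card C) : CoInd N S := by
  obtain ⟨T, hTdef⟩ : ∃ T : Finset (ι ⊕ κ),
      T = S'.image Sum.inl ∪ (univ : Finset κ).image Sum.inr := ⟨_, rfl⟩
  rw [← hTdef] at hT
  have hTc : T.card = Fintype.card C := by
    rw [hTdef, card_union_of_disjoint, card_image_of_injective _ Sum.inl_injective,
      card_image_of_injective _ Sum.inr_injective, card_univ, hcard]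
    rw [Finset.disjoint_left]
    intro u hu hu'
    obtain ⟨x, _, rfl⟩ := mem_image.1 hu
    obtain ⟨y, _, hy⟩ := mem_image.1 hu'
    exact absurd hy (by simp)
  obtain ⟨f, hf, hfN⟩ := (Finset.all_card_le_biUnion_card_iff_exists_injective
    (fun x : {x // x ∈ T} => N x.1)).1 (by
      intro s
      have h1 := hT (s.image Subtype.val) (by
        intro u hu
        obtain ⟨x, _, rfl⟩ := mem_image.1 hu
        exact x.2)
      rw [card_image_of_injective _ Subtype.val_injective, image_biUnion] at h1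
      exact h1)
  have hbij : Function.Bijective f := by
    rw [Fintype.bijective_iff_injective_and_card]
    refine ⟨hf, ?_⟩
    rw [Fintype.card_coe, hTc]
  intro C'
  let e := Equiv.ofBijective f hbij
  have hinj : Function.Injective (fun c : C => ((e.symm c).1 : ι ⊕ κ)) :=
    Subtype.val_injective.comp e.symm.injective
  rw [← card_image_of_injective C' hinj]
  apply card_le_card
  intro u hu
  obtain ⟨c, hc, rfl⟩ := mem_image.1 hu
  have hfc : f (e.symm c) = c := e.apply_symm_apply c
  have hmem : c ∈ N (e.symm c).1 := by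
    have h := hfN (e.symm c)
    rw [hfc] at h
    exact h
  rw [mem_sdiff]
  refine ⟨?_, ?_⟩
  · unfold Acol
    rw [mem_filter]
    exact ⟨mem_univ _, c, hc, hmem⟩
  · intro h
    obtain ⟨x, hx, hxe⟩ := mem_image.1 h
    have h2 : ((e.symm c).1 : ι ⊕ κ) ∈ T := (e.symm c).2
    change Sum.inl x = ((e.symm c).1 : ι ⊕ κ) at hxe
    rw [← hxe, hTdef, mem_union] at h2
    rcases h2 with h3 | h3
    · obtain ⟨x', hx', he⟩ := mem_image.1 h3
      have : x' = x := Sum.inl_injective he
      subst this
      exact hdis x' hx' hx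
    · obtain ⟨y, _, he⟩ := mem_image.1 h3
      exact absurd he (by simp)

/-- independence in the dual is spanning of the complement. -/
theorem coind_iff {F V ι κ C : Type*} [Field F] [AddCommGroup V] [Module F V] [Fintype ι] [Fintype κ]
    [Fintype C] [DecidableEq ι] [DecidableEq κ] [DecidableEq C] (v : ι → V) (N : ι ⊕ κ → Finset C)
    (hkey : ∀ S : Finset ι, LinearIndepOn F v (S : Set ι) ↔
      Mt N (S.image Sum.inl ∪ (univ : Finset κ).image Sum.inr))
    (hC : Fintype.card C = Fintype.card κ + Module.finrank F (Submodule.span F (Set.range v)))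
    (S : Finset ι) :
    CoInd N S ↔ Submodule.span F (v '' ((Sᶜ : Finset ι) : Set ι)) = Submodule.span F (Set.range v) := by
  classical
  obtain ⟨b, hbt, -, hspan, hb⟩ := exists_linearIndepOn_extension (K := F) (v := v)
    (s := ∅) (t := ((Sᶜ : Finset ι) : Set ι)) (linearIndepOn_empty F v) (Set.empty_subset _)
  obtain ⟨S', hS'⟩ : ∃ S' : Finset ι, (S' : Set ι) = b := ⟨b.toFinite.toFinset, Set.Finite.coe_toFinset _⟩
  subst hS'
  have hspan2 : Submodule.span F (v '' ((Sᶜ : Finset ι) : Set ι)) =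
      Submodule.span F (v '' (S' : Set ι)) :=
    le_antisymm (Submodule.span_le.2 hspan) (Submodule.span_mono (Set.image_mono hbt))
  have hfin : Module.finrank F (Submodule.span F (v '' (S' : Set ι))) = S'.card := by
    have h1 := finrank_span_eq_card (R := F) (b := fun x : (S' : Set ι) => v x) hb
    rw [Set.image_eq_range]
    rw [h1]
    simp
  have hdis : ∀ w ∈ S', w ∉ S := by
    intro w hw hwS
    have := hbt (Finset.mem_coe.2 hw)
    rw [Finset.mem_coe, mem_compl] at this
    exact this hwS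
  have hMt := (hkey S').1 hb
  haveI : FiniteDimensional F (Submodule.span F (Set.range v)) :=
    FiniteDimensional.span_of_finite F (Set.finite_range v)
  have hle : Submodule.span F (v '' (S' : Set ι)) ≤ Submodule.span F (Set.range v) :=
    Submodule.span_mono (Set.image_subset_range _ _)
  have hrank : S'.card ≤ Module.finrank F (Submodule.span F (Set.range v)) := by
    rw [← hfin]
    exact Submodule.finrank_mono hle
  rw [hspan2]
  constructor
  · intro hco
    by_contra hne
    have hlt : S'.card < Module.finrank F (Submodule.span F (Set.range v)) := by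
      refine lt_of_le_of_ne hrank (fun h => hne ?_)
      exact Submodule.eq_of_le_of_finrank_eq hle (by rw [hfin, h])
    refine coindAux_mp N S S' hMt ?_ (by omega) hco
    intro w hwS hwS' hM
    have h1 := (hkey (insert w S')).2 hM
    rw [coe_insert, linearIndepOn_insert (by exact_mod_cast hwS')] at h1
    apply h1.2
    apply hspan
    exact Set.mem_image_of_mem v (by rw [Finset.mem_coe, mem_compl]; exact hwS)
  · intro heq
    refine coindAux_mpr N S S' hMt hdis ?_
    rw [heq] at hfin
    omega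

/-- representation of the dual. -/
theorem dual_rep {F V ι : Type} [Field F] [AddCommGroup V] [Module F V] [FiniteDimensional F V]
    [Fintype ι] [DecidableEq ι] (v : ι → V) :
    ∃ (W : Type) (_ : AddCommGroup W) (_ : Module F W) (_ : FiniteDimensional F W) (w : ι → W),
      ∀ S : Finset ι, LinearIndepOn F w (S : Set ι) ↔
        Submodule.span F (v '' ((Sᶜ : Finset ι) : Set ι)) = Submodule.span F (Set.range v) := by
  classical
  obtain ⟨R, hR⟩ : ∃ R : Submodule F (ι → F), ∀ a : ι → F,
      a ∈ R ↔ ∃ l : Module.Dual F V, ∀ i, l (v i) = a i := by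
    refine ⟨LinearMap.range (LinearMap.pi (fun i => (Module.Dual.eval F V (v i)))), ?_⟩
    intro a
    rw [LinearMap.mem_range]
    constructor
    · rintro ⟨l, hl⟩
      exact ⟨l, fun i => by rw [← hl]; rfl⟩
    · rintro ⟨l, hl⟩
      exact ⟨l, by ext i; exact hl i⟩
  refine ⟨(ι → F) ⧸ R, inferInstance, inferInstance, inferInstance,
    fun i => R.mkQ (Pi.single i 1), ?_⟩
  intro S
  have key : ∀ f : ι → F, (∑ i ∈ S, f i • R.mkQ (Pi.single i (1 : F)) = 0 ↔
      ∃ l : Module.Dual F V, ∀ i, l (v i) = if i ∈ S then f i else 0) := by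
    intro f
    have h1 : ∑ i ∈ S, f i • R.mkQ (Pi.single i (1 : F))
        = R.mkQ (fun i => if i ∈ S then f i else 0) := by
      have h2 : (fun i => if i ∈ S then f i else 0) = ∑ i ∈ S, f i • (Pi.single i (1 : F) : ι → F) := by
        ext j
        rw [Finset.sum_apply]
        simp only [Pi.smul_apply, smul_eq_mul, Pi.single_apply, mul_ite, mul_one, mul_zero]
        rw [Finset.sum_ite_eq]
      rw [h2, map_sum]
      simp only [map_smul]
    rw [h1, Submodule.mkQ_apply, Submodule.Quotient.mk_eq_zero, hR]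
  rw [linearIndepOn_finset_iff]
  constructor
  · intro h
    apply le_antisymm
    · apply Submodule.span_mono
      exact Set.image_subset_range _ _
    · rw [Submodule.span_le]
      rintro _ ⟨i, rfl⟩
      by_contra hi
      obtain ⟨l, hl, hl2⟩ := Submodule.exists_le_ker_of_notMem hi
      have hv : ∀ j, j ∉ S → l (v j) = 0 := by
        intro j hj
        have : v j ∈ Submodule.span F (v '' ((Sᶜ : Finset ι) : Set ι)) :=
          Submodule.subset_span ⟨j, by simpa using hj, rfl⟩
        exact hl2 this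
      have hiS : i ∈ S := by
        by_contra hiS
        exact hl (hv i hiS)
      have := h (fun j => l (v j)) ((key _).2 ⟨l, fun j => by
        by_cases hj : j ∈ S
        · rw [if_pos hj]
        · rw [if_neg hj]; exact hv j hj⟩) i hiS
      exact hl this
  · intro h f hf i hi
    obtain ⟨l, hl⟩ := (key f).1 hf
    have h1 : Submodule.span F (v '' ((Sᶜ : Finset ι) : Set ι)) ≤ LinearMap.ker l := by
      rw [Submodule.span_le]
      rintro _ ⟨j, hj, rfl⟩
      have hj' : j ∉ S := by simpa using hj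
      show l (v j) = 0
      rw [hl, if_neg hj']
    rw [h] at h1
    have h2 : l (v i) = 0 := h1 (Submodule.subset_span ⟨i, rfl⟩)
    rw [hl, if_pos hi] at h2
    exact h2

/-- padding the presentation. -/
theorem pad {F V ι κ C : Type*} [Field F] [AddCommGroup V] [Module F V] [Fintype ι] [Fintype κ]
    [Fintype C] [DecidableEq ι] [DecidableEq κ] [DecidableEq C] (v : ι → V) (N : ι ⊕ κ → Finset C)
    (hkey : ∀ S : Finset ι, LinearIndepOn F v (S : Set ι) ↔
      Mt N (S.image Sum.inl ∪ (univ : Finset κ).image Sum.inr)) :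
    ∃ (d : ℕ) (N' : ι ⊕ (κ ⊕ Fin d) → Finset C),
      (∀ S : Finset ι, LinearIndepOn F v (S : Set ι) ↔
        Mt N' (S.image Sum.inl ∪ (univ : Finset (κ ⊕ Fin d)).image Sum.inr)) ∧
      Fintype.card C = Fintype.card (κ ⊕ Fin d) + Module.finrank F (Submodule.span F (Set.range v)) := by
  classical
  set r : ℕ := Module.finrank F (Submodule.span F (Set.range v)) with hr
  haveI : FiniteDimensional F (Submodule.span F (Set.range v)) :=
    FiniteDimensional.span_of_finite F (Set.finite_range v)
  -- independent sets have at most r elements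
  have hcardS : ∀ S : Finset ι, LinearIndepOn F v (S : Set ι) →
      Module.finrank F (Submodule.span F (v '' (S : Set ι))) = S.card := by
    intro S hS
    have h1 := finrank_span_eq_card (R := F) (b := fun x : (S : Set ι) => v x) hS
    have h2 : Set.range (fun x : (S : Set ι) => v x) = v '' (S : Set ι) := by
      ext y
      simp
    rw [h2] at h1
    rw [h1]
    simp
  have hle : ∀ S : Finset ι, LinearIndepOn F v (S : Set ι) → S.card ≤ r := by
    intro S hS
    rw [← hcardS S hS, hr]
    exact Submodule.finrank_mono (Submodule.span_mono (Set.image_subset_range _ _))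
  obtain ⟨b, -, -, hb2, hb3⟩ := exists_linearIndepOn_extension (K := F) (v := v)
    (linearIndepOn_empty F v) (Set.empty_subset Set.univ)
  set B : Finset ι := b.toFinset with hB
  have hBb : (B : Set ι) = b := Set.coe_toFinset b
  have hBind : LinearIndepOn F v (B : Set ι) := by rw [hBb]; exact hb3
  have hBcard : B.card = r := by
    rw [← hcardS B hBind, hr]
    apply congrArg (fun W : Submodule F V => Module.finrank F W)
    apply le_antisymm
    · exact Submodule.span_mono (Set.image_subset_range _ _)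
    · rw [hBb]
      apply Submodule.span_le.mpr
      rw [← Set.image_univ]
      exact hb2
  have hinj1 : Function.Injective (Sum.inl : ι → ι ⊕ κ) := Sum.inl_injective
  have hcardT : ∀ S : Finset ι, (S.image Sum.inl ∪ (univ : Finset κ).image Sum.inr :
      Finset (ι ⊕ κ)).card = S.card + Fintype.card κ := by
    intro S
    rw [card_union_of_disjoint, card_image_of_injective _ Sum.inl_injective,
      card_image_of_injective _ Sum.inr_injective, card_univ]
    rw [disjoint_left]
    intro x hx hx'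
    rw [mem_image] at hx hx'
    obtain ⟨i, _, rfl⟩ := hx
    obtain ⟨j, _, h⟩ := hx'
    exact absurd h (by simp)
  have hrC : r + Fintype.card κ ≤ Fintype.card C := by
    have h := (hkey B).mp hBind _ (Subset.refl _)
    rw [hcardT, hBcard] at h
    exact h.trans (card_le_univ _)
  set d : ℕ := Fintype.card C - Fintype.card κ - r with hd
  let N' : ι ⊕ (κ ⊕ Fin d) → Finset C :=
    Sum.elim (fun i => N (Sum.inl i)) (Sum.elim (fun k => N (Sum.inr k)) (fun _ => univ))
  let f : ι ⊕ κ → ι ⊕ (κ ⊕ Fin d) := Sum.map id Sum.inl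
  have hf : Function.Injective f := Function.injective_id.sumMap Sum.inl_injective
  have hN'f : ∀ x, N' (f x) = N x := by
    intro x
    rcases x with x | x <;> rfl
  refine ⟨d, N', ?_, ?_⟩
  · intro S
    constructor
    · intro hS Y hY
      by_cases hex : ∃ j : Fin d, Sum.inr (Sum.inr j) ∈ Y
      · obtain ⟨j, hj⟩ := hex
        have huniv : Y.biUnion N' = univ := by
          apply eq_univ_of_forall
          intro c
          rw [mem_biUnion]
          exact ⟨_, hj, mem_univ c⟩
        rw [huniv, card_univ]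
        have hT' : (S.image Sum.inl ∪ (univ : Finset (κ ⊕ Fin d)).image Sum.inr :
            Finset (ι ⊕ (κ ⊕ Fin d))).card ≤ S.card + (Fintype.card κ + d) := by
          refine (card_union_le _ _).trans ?_
          apply add_le_add card_image_le
          refine card_image_le.trans ?_
          rw [card_univ, Fintype.card_sum, Fintype.card_fin]
        have h1 := card_le_card hY
        have h2 := hle S hS
        omega
      · have hY0 : Y = (univ.filter (fun x => f x ∈ Y)).image f := by
          ext y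
          rw [mem_image]
          constructor
          · intro hy
            have hyT := hY hy
            rcases y with i | (k | j)
            · exact ⟨Sum.inl i, by rw [mem_filter]; exact ⟨mem_univ _, hy⟩, rfl⟩
            · exact ⟨Sum.inr k, by rw [mem_filter]; exact ⟨mem_univ _, hy⟩, rfl⟩
            · exact absurd ⟨j, hy⟩ hex
          · rintro ⟨x, hx, rfl⟩
            rw [mem_filter] at hx
            exact hx.2
        rw [hY0, card_image_of_injective _ hf, image_biUnion]
        simp only [hN'f]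
        apply (hkey S).mp hS
        intro x hx
        rw [mem_filter] at hx
        have hfx := hY hx.2
        rw [mem_union, mem_image, mem_image] at hfx ⊢
        rcases x with i | k
        · left
          rcases hfx with ⟨i', hi', h⟩ | ⟨k', _, h⟩
          · exact ⟨i', hi', by
              have h' : i' = i := Sum.inl_injective h
              rw [h']⟩
          · exact absurd h (by simp [f])
        · right
          exact ⟨k, mem_univ _, rfl⟩
    · intro hS
      rw [hkey S]
      intro Y hY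
      have h := hS (Y.image f) (by
        intro y hy
        rw [mem_image] at hy
        obtain ⟨x, hx, rfl⟩ := hy
        have hxT := hY hx
        rw [mem_union, mem_image, mem_image] at hxT ⊢
        rcases hxT with ⟨i, hi, rfl⟩ | ⟨k, _, rfl⟩
        · left
          exact ⟨i, hi, rfl⟩
        · right
          exact ⟨Sum.inl k, mem_univ _, rfl⟩)
      rw [card_image_of_injective _ hf, image_biUnion] at h
      simp only [hN'f] at h
      exact h
  · rw [Fintype.card_sum, Fintype.card_fin]
    omega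

/-- a basis and its matching. -/
theorem exists_phi {F V ι κ C : Type*} [Field F] [AddCommGroup V] [Module F V] [Fintype ι] [Fintype κ]
    [Fintype C] [DecidableEq ι] [DecidableEq κ] [DecidableEq C] (v : ι → V) (N : ι ⊕ κ → Finset C)
    (hkey : ∀ S : Finset ι, LinearIndepOn F v (S : Set ι) ↔
      Mt N (S.image Sum.inl ∪ (univ : Finset κ).image Sum.inr))
    (hC : Fintype.card C = Fintype.card κ + Module.finrank F (Submodule.span F (Set.range v)))
    (hpos : 0 < Module.finrank F (Submodule.span F (Set.range v))) :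
    ∃ (BM : Finset ι) (φ : ι ⊕ κ → C), IsMatch N BM φ ∧
      BM.card = Module.finrank F (Submodule.span F (Set.range v)) := by
  classical
  obtain ⟨b, -, -, hspan, hind⟩ := exists_linearIndepOn_extension (linearIndepOn_empty F v)
    (Set.empty_subset (Set.univ : Set ι))
  set BM : Finset ι := b.toFinset with hBM
  have hBMc : (BM : Set ι) = b := by rw [hBM, Set.coe_toFinset]
  have hsp : Submodule.span F (Set.range v) = Submodule.span F (Set.range (fun x : b => v x)) := by
    apply le_antisymm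
    · rw [Submodule.span_le]
      rw [Set.image_univ] at hspan
      refine hspan.trans ?_
      rw [Set.image_eq_range]
    · apply Submodule.span_mono
      rintro _ ⟨x, rfl⟩
      exact ⟨x, rfl⟩
  have hcard : BM.card = Module.finrank F (Submodule.span F (Set.range v)) := by
    rw [hsp, finrank_span_eq_card hind, hBM, Set.toFinset_card]
  have hMt : Mt N (Pall (κ := κ) BM) := by
    have h1 := (hkey BM).1 (by rw [hBMc]; exact hind)
    exact h1
  have hHall : ∀ s : Finset {u // u ∈ Pall (κ := κ) BM}, s.card ≤ (s.biUnion (fun u => N u.1)).card := by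
    intro s
    have h1 := hMt (s.map (Function.Embedding.subtype _)) (by
      intro u hu
      rw [Finset.mem_map] at hu
      obtain ⟨x, _, rfl⟩ := hu
      exact x.2)
    rw [Finset.card_map] at h1
    refine h1.trans (le_of_eq ?_)
    congr 1
    ext c
    simp only [Finset.mem_biUnion, Finset.mem_map, Function.Embedding.coe_subtype]
    constructor
    · rintro ⟨u, ⟨x, hx, rfl⟩, hc⟩
      exact ⟨x, hx, hc⟩
    · rintro ⟨x, hx, hc⟩
      exact ⟨x.1, ⟨x, hx, rfl⟩, hc⟩
  obtain ⟨g, hginj, hgmem⟩ := (Finset.all_card_le_biUnion_card_iff_exists_injective _).1 hHall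
  have hPcard : (Pall (κ := κ) BM).card = Fintype.card C := by
    unfold Pall
    rw [Finset.card_union_of_disjoint, Finset.card_image_of_injective _ Sum.inl_injective,
      Finset.card_image_of_injective _ Sum.inr_injective, Finset.card_univ, hC, hcard, add_comm]
    rw [Finset.disjoint_left]
    intro u hu hu'
    rw [Finset.mem_image] at hu hu'
    obtain ⟨x, _, rfl⟩ := hu
    obtain ⟨y, _, hy⟩ := hu'
    exact Sum.inl_ne_inr hy.symm
  have hgbij : Function.Bijective g := by
    rw [Fintype.bijective_iff_injective_and_card]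
    refine ⟨hginj, ?_⟩
    rw [Fintype.card_coe, hPcard]
  have hCne : Nonempty C := by
    rw [← Fintype.card_pos_iff, hC]
    omega
  obtain ⟨c0⟩ := hCne
  set φ : ι ⊕ κ → C := fun u => if h : u ∈ Pall (κ := κ) BM then g ⟨u, h⟩ else c0 with hφ
  have hφe : ∀ u (h : u ∈ Pall (κ := κ) BM), φ u = g ⟨u, h⟩ := by
    intro u h
    simp only [hφ]
    rw [dif_pos h]
  refine ⟨BM, φ, ⟨?_, ?_, ?_⟩, hcard⟩
  · intro u hu
    rw [hφe u hu]
    exact hgmem ⟨u, hu⟩
  · intro u hu w hw huw
    have hu' : u ∈ Pall (κ := κ) BM := hu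
    have hw' : w ∈ Pall (κ := κ) BM := hw
    rw [hφe u hu', hφe w hw'] at huw
    exact congrArg Subtype.val (hginj huw)
  · intro c
    obtain ⟨⟨u, hu⟩, hc⟩ := hgbij.2 c
    exact ⟨u, hu, by rw [hφe u hu, hc]⟩

/-- the density bound for contractions. -/
theorem dens_contract {F V ι κ C : Type*} [Field F] [Fintype F] [AddCommGroup V] [Module F V]
    [FiniteDimensional F V] [DecidableEq ι] [Fintype κ] [DecidableEq κ] [DecidableEq C] (v : ι → V)
    (N : ι ⊕ κ → Finset C)
    (hkey : ∀ S : Finset ι, LinearIndepOn F v (S : Set ι) ↔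
      Mt N (S.image Sum.inl ∪ (univ : Finset κ).image Sum.inr))
    (X Y : Finset ι) (hdisj : Disjoint X Y)
    (hX : ∀ a ∈ X, ∀ b ∈ X, LinearIndepOn F v (({a, b} ∪ Y : Finset ι) : Set ι)) (ρ : ℕ)
    (hr : ∀ S ⊆ X, LinearIndepOn F v ((S ∪ Y : Finset ι) : Set ι) → S.card ≤ ρ) :
    X.card ≤ Fintype.card F * ρ := by
  have himg : ∀ (a b : ι), ({a, b} : Finset ι).image (Sum.inl : ι → ι ⊕ κ) =
      {Sum.inl a, Sum.inl b} := by
    intro a b
    rw [Finset.image_insert, Finset.image_singleton]
  have himg3 : ∀ (a b c : ι), ({a, b, c} : Finset ι).image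
      (Sum.inl : ι → ι ⊕ κ) = {Sum.inl a, Sum.inl b, Sum.inl c} := by
    intro a b c
    rw [Finset.image_insert, Finset.image_insert, Finset.image_singleton]
  have hq : 1 ≤ Fintype.card F := Fintype.card_pos
  rcases X.eq_empty_or_nonempty with h0 | ⟨a0, ha0⟩
  · rw [h0]; simp
  have hinj : Function.Injective (Sum.inl : ι → ι ⊕ κ) := Sum.inl_injective
  have hρ1 : 1 ≤ ρ := by
    have h1 := hX a0 ha0 a0 ha0
    have h2 := hr {a0} (by simpa using ha0) (by simpa using h1)
    simpa using h2
  obtain ⟨ρ', rfl⟩ : ∃ ρ', ρ = ρ' + 1 := ⟨ρ - 1, by omega⟩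
  have hctx : Ctx N (X.image Sum.inl) (Y.image Sum.inl ∪ (univ : Finset κ).image Sum.inr) := by
    refine ⟨?_, ?_, ?_⟩
    · rw [Finset.disjoint_left]
      intro x hx hx'
      rw [Finset.mem_image] at hx
      obtain ⟨y, hy, rfl⟩ := hx
      rw [Finset.mem_union, Finset.mem_image, Finset.mem_image] at hx'
      rcases hx' with ⟨z, hz, hzy⟩ | ⟨z, _, hz⟩
      · have := hinj hzy
        subst this
        exact (Finset.disjoint_left.mp hdisj) hy hz
      · exact Sum.inr_ne_inl hz
    · apply (hkey Y).1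
      refine (hX a0 ha0 a0 ha0).mono ?_
      intro x hx
      simp only [Finset.coe_union, Set.mem_union]
      exact Or.inr hx
    · intro a ha b hb
      rw [Finset.mem_image] at ha hb
      obtain ⟨a', ha', rfl⟩ := ha
      obtain ⟨b', hb', rfl⟩ := hb
      have h1 := (hkey ({a', b'} ∪ Y)).1 (hX a' ha' b' hb')
      rwa [Finset.image_union, himg, Finset.union_assoc] at h1
  have hlines : ∀ Y1 ⊆ X.image (Sum.inl : ι → ι ⊕ κ), ∀ X' ⊆ X.image
      (Sum.inl : ι → ι ⊕ κ),
      (∀ a ∈ X', ∀ b ∈ X', Mt N ({a, b} ∪ (Y1 ∪ (Y.image Sum.inl ∪ (univ : Finset κ).image Sum.inr)))) →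
      (∀ a ∈ X', ∀ b ∈ X', ∀ c ∈ X', a ≠ b → a ≠ c → b ≠ c →
        ¬ Mt N ({a, b, c} ∪ (Y1 ∪ (Y.image Sum.inl ∪ (univ : Finset κ).image Sum.inr)))) →
        X'.card ≤ Fintype.card F + 1 := by
    intro Y1 hY1 X' hX' h2 h3
    obtain ⟨Y0, hY0, rfl⟩ := Finset.subset_image_iff.1 hY1
    obtain ⟨X0, hX0, rfl⟩ := Finset.subset_image_iff.1 hX'
    rw [Finset.card_image_of_injective _ hinj]
    apply card_line_le v (Y0 ∪ Y) X0
    · intro a ha b hb
      rw [hkey, Finset.image_union, Finset.image_union, himg, Finset.union_assoc, Finset.union_assoc]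
      exact h2 _ (Finset.mem_image_of_mem _ ha) _ (Finset.mem_image_of_mem _ hb)
    · intro a ha b hb c hc hab hac hbc
      rw [hkey, Finset.image_union, Finset.image_union, himg3, Finset.union_assoc,
        Finset.union_assoc]
      exact h3 _ (Finset.mem_image_of_mem _ ha) _ (Finset.mem_image_of_mem _ hb) _
        (Finset.mem_image_of_mem _ hc) (hinj.ne hab) (hinj.ne hac) (hinj.ne hbc)
  have hrank : ∀ S ⊆ X.image (Sum.inl : ι → ι ⊕ κ),
      Mt N (S ∪ (Y.image Sum.inl ∪ (univ : Finset κ).image Sum.inr)) → S.card ≤ ρ' + 1 := by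
    intro S hS hM
    obtain ⟨S0, hS0, rfl⟩ := Finset.subset_image_iff.1 hS
    rw [Finset.card_image_of_injective _ hinj]
    apply hr S0 (by exact_mod_cast hS0)
    rw [hkey, Finset.image_union, Finset.union_assoc]
    exact hM
  have h := density N (Fintype.card F) hq ρ' _ _ hctx hlines hrank
  rw [Finset.card_image_of_injective _ hinj] at h
  calc X.card ≤ Fintype.card F * ρ' + 1 := h
    _ ≤ Fintype.card F * (ρ' + 1) := by rw [mul_add, mul_one]; omega

/-- greedy construction of the linear map from small cocircuits. -/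
theorem greedy {F V ι : Type*} [Field F] [Fintype F] [AddCommGroup V] [Module F V] [DecidableEq ι]
    (v : ι → V) (X : Finset ι) (k : ℕ)
    (h : ∀ Y ⊆ X, Y.Nonempty → ∃ S ⊆ Y, S.card < Fintype.card F ^ k ∧
      Submodule.span F (v '' ((Y \ S : Finset ι) : Set ι)) ≠ Submodule.span F (v '' (Y : Set ι))) :
    ∃ L : V →ₗ[F] (Fin k → F), ∀ i ∈ X, L (v i) ≠ 0 := by
  classical
  induction X using Finset.strongInduction with
  | H X ih =>
    rcases X.eq_empty_or_nonempty with hX | hX
    · subst hX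
      exact ⟨0, fun i hi => absurd hi (Finset.notMem_empty i)⟩
    · obtain ⟨S, hS, hcard, hne⟩ := h X (Finset.Subset.refl X) hX
      have hle : Submodule.span F (v '' ((X \ S : Finset ι) : Set ι)) ≤
          Submodule.span F (v '' (X : Set ι)) := by
        apply Submodule.span_mono
        apply Set.image_mono
        intro a ha
        exact Finset.mem_coe.2 (Finset.sdiff_subset (Finset.mem_coe.1 ha))
      have hx0 : ∃ x0 ∈ X, v x0 ∉ Submodule.span F (v '' ((X \ S : Finset ι) : Set ι)) := by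
        by_contra hcon
        push Not at hcon
        apply hne
        refine le_antisymm hle ?_
        rw [Submodule.span_le]
        rintro _ ⟨x, hx, rfl⟩
        exact hcon x (Finset.mem_coe.1 hx)
      obtain ⟨x0, hx0X, hx0U⟩ := hx0
      obtain ⟨φ, hφ0, hφU⟩ := Submodule.exists_le_ker_of_notMem hx0U
      set S1 : Finset ι := X.filter (fun x => φ (v x) ≠ 0) with hS1
      have hS1S : S1 ⊆ S := by
        intro x hx
        rw [hS1, Finset.mem_filter] at hx
        by_contra hxS
        apply hx.2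
        have : v x ∈ LinearMap.ker φ := hφU (Submodule.subset_span ⟨x, by
          rw [Finset.mem_coe, Finset.mem_sdiff]; exact ⟨hx.1, hxS⟩, rfl⟩)
        exact this
      have hx0S1 : x0 ∈ S1 := by
        rw [hS1, Finset.mem_filter]; exact ⟨hx0X, hφ0⟩
      have hss : X \ S1 ⊂ X := by
        rw [Finset.ssubset_iff_of_subset Finset.sdiff_subset]
        exact ⟨x0, hx0X, fun hx => (Finset.mem_sdiff.1 hx).2 hx0S1⟩
      obtain ⟨L', hL'⟩ := ih (X \ S1) hss (fun Y hY hYn => h Y (hY.trans Finset.sdiff_subset) hYn)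
      have hu : ∃ u : Fin k → F, u ∉ S1.image (fun x => -(φ (v x))⁻¹ • L' (v x)) := by
        by_contra hcon
        push Not at hcon
        have h1 : Fintype.card (Fin k → F) ≤ (S1.image (fun x => -(φ (v x))⁻¹ • L' (v x))).card := by
          rw [← Finset.card_univ]
          exact Finset.card_le_card (fun u _ => hcon u)
        have h2 : (S1.image (fun x => -(φ (v x))⁻¹ • L' (v x))).card ≤ S.card :=
          Finset.card_image_le.trans (Finset.card_le_card hS1S)
        have h3 : Fintype.card (Fin k → F) = Fintype.card F ^ k := by simp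
        omega
      obtain ⟨u, hu⟩ := hu
      refine ⟨L' + φ.smulRight u, ?_⟩
      intro i hi hzero
      rw [LinearMap.add_apply, LinearMap.smulRight_apply] at hzero
      by_cases hiS : i ∈ S1
      · have hφi : φ (v i) ≠ 0 := by
          rw [hS1, Finset.mem_filter] at hiS
          exact hiS.2
        apply hu
        rw [Finset.mem_image]
        refine ⟨i, hiS, ?_⟩
        have h1 : L' (v i) = -(φ (v i) • u) := eq_neg_of_add_eq_zero_left hzero
        rw [h1, neg_smul, smul_neg, neg_neg, smul_smul, inv_mul_cancel₀ hφi, one_smul]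
      · have hφi : φ (v i) = 0 := by
          by_contra hne0
          exact hiS (by rw [hS1, Finset.mem_filter]; exact ⟨hi, hne0⟩)
        rw [hφi, zero_smul, add_zero] at hzero
        exact hL' i (Finset.mem_sdiff.2 ⟨hi, hiS⟩) hzero


/-- **Small cocircuits**: a simple nonempty `GF(q)`-representable gammoid has a set of fewer than `q ^ 3`
elements whose removal lowers the rank. -/
theorem small_cocircuit {F V ι κ C : Type} [Field F] [Fintype F] [AddCommGroup V] [Module F V]
    [FiniteDimensional F V] [Fintype ι] [Fintype κ] [Fintype C] [DecidableEq ι] [DecidableEq κ]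
    [DecidableEq C] [Nonempty ι] (v : ι → V) (hpair : ∀ a b, LinearIndepOn F v {a, b})
    (N : ι ⊕ κ → Finset C)
    (hkey : ∀ S : Finset ι, LinearIndepOn F v (S : Set ι) ↔
      Mt N (S.image Sum.inl ∪ (univ : Finset κ).image Sum.inr)) :
    ∃ S : Finset ι, S.card < Fintype.card F ^ 3 ∧
      Submodule.span F (v '' ((Sᶜ : Finset ι) : Set ι)) ≠ Submodule.span F (Set.range v) := by
  classical
  by_contra hcon
  push Not at hcon
  obtain ⟨d, N', hkey', hC⟩ := pad v N hkey
  set r := Module.finrank F (Submodule.span F (Set.range v)) with hr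
  set q := Fintype.card F with hq
  have hq2 : 2 ≤ q := Fintype.one_lt_card
  have hfs : FiniteDimensional F (Submodule.span F (Set.range v)) := inferInstance
  have hpos : 0 < r := by
    obtain ⟨a⟩ := ‹Nonempty ι›
    have h1 : v a ≠ 0 := (hpair a a).ne_zero (i := a) (by simp)
    rw [hr, Module.finrank_pos_iff_exists_ne_zero]
    refine ⟨⟨v a, Submodule.subset_span ⟨a, rfl⟩⟩, ?_⟩
    intro h
    exact h1 (congrArg Subtype.val h)
  obtain ⟨BM, φ, hφ, hBM0⟩ := exists_phi v N' hkey' hC hpos
  have hBM : BM.card = r := hBM0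
  have hs : ∀ S : Finset ι, S.card < q ^ 3 → CoInd N' S :=
    fun S hS => (coind_iff v N' hkey' hC S).2 (hcon S hS)
  obtain ⟨W, iW1, iW2, iW3, w, hw⟩ := dual_rep (F := F) v
  have hwc : ∀ S : Finset ι, LinearIndepOn F w (S : Set ι) ↔ CoInd N' S := by
    intro S
    rw [hw, ← coind_iff v N' hkey' hC]
  have hkeyW : ∀ S : Finset ι, LinearIndepOn F w (S : Set ι) ↔
      Mt (dualN N') (S.image Sum.inl ∪ (univ : Finset C).image Sum.inr) := by
    intro S
    rw [hwc, coind_mt]
  -- density of the primal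
  have hn : Fintype.card ι ≤ q * r := by
    have h1 := dens_contract v N' hkey' (univ : Finset ι) ∅ (by simp)
      (by
        intro a _ b _
        have := hpair a b
        simpa using this) r
      (by
        intro S _ hS
        rw [Finset.union_empty] at hS
        have h2 : LinearIndependent F (fun x : (S : Set ι) => v x) := hS
        have h3 := finrank_span_eq_card h2
        have h4 : Set.range (fun x : (S : Set ι) => v x) = v '' (S : Set ι) :=
          (Set.image_eq_range _ _).symm
        rw [h4] at h3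
        have h5 : Fintype.card (S : Set ι) = S.card := by simp
        rw [h5] at h3
        rw [← h3, hr]
        exact Submodule.finrank_mono (Submodule.span_mono (Set.image_subset_range _ _)))
    rwa [Finset.card_univ] at h1
  have hBc : (BMᶜ : Finset ι).card = Fintype.card ι - r := by
    rw [Finset.card_compl, hBM]
  have hBle : r ≤ Fintype.card ι := by
    rw [← hBM]; exact Finset.card_le_univ _
  -- independent sets of the dual are small
  have hrankW : ∀ T : Finset ι, LinearIndepOn F w (T : Set ι) → T.card ≤ (BMᶜ : Finset ι).card := by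
    intro T hT
    have h1 := (hw T).1 hT
    have h2 : r ≤ (Tᶜ : Finset ι).card := by
      rw [hr, ← h1]
      have h3 := finrank_span_finset_le_card (R := F) ((Tᶜ : Finset ι).image v)
      rw [Finset.coe_image] at h3
      exact h3.trans Finset.card_image_le
    rw [Finset.card_compl] at h2
    rw [hBc]
    have : T.card ≤ Fintype.card ι := Finset.card_le_univ _
    omega
  obtain ⟨h, hh1, hh2, hh3⟩ : ∃ h : ℕ, 1 ≤ h ∧ 2 * h + 1 ≤ q ^ 3 ∧ q ^ 3 ≤ 2 * h + 2 := by
    have h8 : 2 ^ 3 ≤ q ^ 3 := Nat.pow_le_pow_left hq2 3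
    refine ⟨(q ^ 3 - 1) / 2, ?_, ?_, ?_⟩ <;> omega
  set B : Finset ι := BMᶜ with hB
  -- the main inequality for every F
  have hmain : ∀ G ∈ B.powerset, (r : ℝ) ≤ ((q : ℝ) - 1) * ((B.card : ℝ) - G.card) +
      ∑ x ∈ BM, (if EV N' BM φ h x G then (1 : ℝ) else 0) := by
    intro G hG
    rw [Finset.mem_powerset] at hG
    set Q : Finset ι := (B \ G) ∪ BM.filter (fun x => ¬ EV N' BM φ h x G) with hQ
    have hdisj1 : Disjoint (B \ G) (BM.filter (fun x => ¬ EV N' BM φ h x G)) := by
      rw [Finset.disjoint_left]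
      intro x hx hx'
      have h1 := (Finset.mem_sdiff.1 hx).1
      rw [hB, Finset.mem_compl] at h1
      exact h1 (Finset.mem_filter.1 hx').1
    have hdisj2 : Disjoint Q G := by
      rw [Finset.disjoint_left]
      intro x hx hx'
      rcases Finset.mem_union.1 hx with h1 | h1
      · exact (Finset.mem_sdiff.1 h1).2 hx'
      · have h2 := hG hx'
        rw [hB, Finset.mem_compl] at h2
        exact h2 (Finset.mem_filter.1 h1).1
    have hmem : ∀ a ∈ Q, a ∈ BMᶜ \ G ∨ (a ∈ BM ∧ ¬ EV N' BM φ h a G) := by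
      intro a ha
      rcases Finset.mem_union.1 ha with h1 | h1
      · exact Or.inl h1
      · exact Or.inr (Finset.mem_filter.1 h1)
    have h1 := dens_contract w (dualN N') hkeyW Q G hdisj2
      (by
        intro a ha b hb
        rw [hwc]
        exact pair_coind N' BM φ hφ (q ^ 3) h hs hh1 hh2 G hG a b (hmem a ha) (hmem b hb))
      (B.card - G.card)
      (by
        intro S hS hSG
        have h2 := hrankW _ hSG
        rw [Finset.card_union_of_disjoint (hdisj2.mono_left hS)] at h2
        omega)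
    have hGB : G.card ≤ B.card := Finset.card_le_card hG
    have h2 : Q.card = (B.card - G.card) + (BM.filter (fun x => ¬ EV N' BM φ h x G)).card := by
      rw [hQ, Finset.card_union_of_disjoint hdisj1, Finset.card_sdiff_of_subset hG]
    have h3 : (BM.filter (fun x => EV N' BM φ h x G)).card +
        (BM.filter (fun x => ¬ EV N' BM φ h x G)).card = r := by
      rw [Finset.card_filter_add_card_filter_not, hBM]
    have h4 : ∑ x ∈ BM, (if EV N' BM φ h x G then (1 : ℝ) else 0) =
        ((BM.filter (fun x => EV N' BM φ h x G)).card : ℝ) := by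
      rw [Finset.sum_ite, Finset.sum_const_zero, add_zero, Finset.sum_const, nsmul_eq_mul, mul_one]
    rw [h4]
    rw [h2] at h1
    have h5 : ((B.card - G.card : ℕ) : ℝ) = (B.card : ℝ) - G.card := by
      rw [Nat.cast_sub hGB]
    have h6 : (((B.card - G.card) + (BM.filter (fun x => ¬ EV N' BM φ h x G)).card : ℕ) : ℝ) ≤
        ((q * (B.card - G.card) : ℕ) : ℝ) := by exact_mod_cast h1
    rw [Nat.cast_add, Nat.cast_mul, h5] at h6
    have h7 : ((BM.filter (fun x => EV N' BM φ h x G)).card : ℝ) +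
        ((BM.filter (fun x => ¬ EV N' BM φ h x G)).card : ℝ) = r := by exact_mod_cast h3
    linarith
  -- the weights
  set t : ℝ := 1 - 1 / (2 * ((q : ℝ) - 1) ^ 2) with ht
  have hq1 : (1 : ℝ) ≤ (q : ℝ) - 1 := by
    have : (2 : ℝ) ≤ q := by exact_mod_cast hq2
    linarith
  have hq1' : (1 : ℝ) ≤ ((q : ℝ) - 1) ^ 2 := by nlinarith
  have hden : 0 < 2 * ((q : ℝ) - 1) ^ 2 := by linarith
  have hfrac : 0 < 1 / (2 * ((q : ℝ) - 1) ^ 2) := by positivity
  have hfrac2 : 1 / (2 * ((q : ℝ) - 1) ^ 2) ≤ 1 / 2 := by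
    apply one_div_le_one_div_of_le <;> linarith
  have ht0 : 0 < t := by rw [ht]; linarith
  have ht1 : t < 1 := by rw [ht]; linarith
  have hprob : ∀ x ∈ BM, ∑ G ∈ B.powerset, (t ^ G.card * (1 - t) ^ (B.card - G.card)) *
      (if EV N' BM φ h x G then (1 : ℝ) else 0) ≤ 2 * t ^ h := by
    intro x hx
    set Q : Finset (Finset ι) := ((univ : Finset (ι ⊕ (κ ⊕ Fin d))).filter
      (fun c => c ≠ Sum.inl x ∧ h ≤ (Zs N' BM φ x c).card)).image (fun c => Zs N' BM φ x c) with hQ
    have hEV : ∀ G : Finset ι, EV N' BM φ h x G ↔ ∃ Z ∈ Q, Z ⊆ G := by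
      intro G
      constructor
      · rintro ⟨c, hc1, hc2, hc3⟩
        exact ⟨_, Finset.mem_image.2 ⟨c, Finset.mem_filter.2 ⟨Finset.mem_univ _, hc1, hc3⟩, rfl⟩, hc2⟩
      · rintro ⟨Z, hZ, hZG⟩
        obtain ⟨c, hc, rfl⟩ := Finset.mem_image.1 hZ
        obtain ⟨-, hc1, hc2⟩ := Finset.mem_filter.1 hc
        exact ⟨c, hc1, hZG, hc2⟩
    have hZB : ∀ c, Zs N' BM φ x c ⊆ Bx N' BM φ x := by
      intro c b hb
      obtain ⟨hb1, hb2⟩ := Finset.mem_filter.1 hb
      refine Finset.mem_filter.2 ⟨hb1, ?_⟩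
      have hb3 : Relation.ReflTransGen (fun a b => arc N' BM φ a b ∧ b ≠ c) (Sum.inl x) (Sum.inl b) := hb2
      have hle : (fun a b => arc N' BM φ a b ∧ b ≠ c) ≤ arc N' BM φ := fun _ _ hab => hab.1
      exact Relation.ReflTransGen.mono hle _ _ hb3
    have hBxc : q ^ 3 ≤ (Bx N' BM φ x).card + 1 := by
      by_contra hlt
      push Not at hlt
      apply dep_Bx N' BM φ hφ x hx
      apply hs
      have := Finset.card_union_le {x} (Bx N' BM φ x)
      rw [Finset.card_singleton] at this
      omega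
    have h1 := fam_prob B (Bx N' BM φ x) (Finset.filter_subset _ _) Q h hh1 (by omega)
      (by
        intro Z hZ
        obtain ⟨c, hc, rfl⟩ := Finset.mem_image.1 hZ
        exact ⟨hZB c, (Finset.mem_filter.1 hc).2.2⟩)
      (by
        intro Z hZ Z' hZ'
        obtain ⟨c, hc, rfl⟩ := Finset.mem_image.1 hZ
        obtain ⟨c', hc', rfl⟩ := Finset.mem_image.1 hZ'
        exact lam N' BM φ x c c') t ht0 ht1
    refine le_trans (le_of_eq ?_) h1
    apply Finset.sum_congr rfl
    intro G _
    by_cases hG : EV N' BM φ h x G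
    · rw [if_pos hG, if_pos ((hEV G).1 hG), mul_one]
    · rw [if_neg hG, if_neg (fun hh => hG ((hEV G).2 hh)), mul_zero]
  have hwt : ∀ G ∈ B.powerset, 0 ≤ t ^ G.card * (1 - t) ^ (B.card - G.card) := by
    intro G _
    have : 0 ≤ 1 - t := by linarith
    positivity
  have hsum : (r : ℝ) ≤ ((q : ℝ) - 1) * ((1 - t) * B.card) + BM.card * (2 * t ^ h) := by
    have h1 : (r : ℝ) = ∑ G ∈ B.powerset, (t ^ G.card * (1 - t) ^ (B.card - G.card)) * (r : ℝ) := by
      rw [← Finset.sum_mul, wt_sum, one_mul]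
    rw [h1]
    calc ∑ G ∈ B.powerset, (t ^ G.card * (1 - t) ^ (B.card - G.card)) * (r : ℝ)
        ≤ ∑ G ∈ B.powerset, (t ^ G.card * (1 - t) ^ (B.card - G.card)) *
          (((q : ℝ) - 1) * ((B.card : ℝ) - G.card) +
            ∑ x ∈ BM, (if EV N' BM φ h x G then (1 : ℝ) else 0)) := by
          apply Finset.sum_le_sum
          intro G hG
          exact mul_le_mul_of_nonneg_left (hmain G hG) (hwt G hG)
      _ = ((q : ℝ) - 1) * ∑ G ∈ B.powerset, t ^ G.card * (1 - t) ^ (B.card - G.card) *
            ((B.card : ℝ) - G.card) +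
          ∑ x ∈ BM, ∑ G ∈ B.powerset, (t ^ G.card * (1 - t) ^ (B.card - G.card)) *
            (if EV N' BM φ h x G then (1 : ℝ) else 0) := by
          rw [Finset.sum_comm, Finset.mul_sum, ← Finset.sum_add_distrib]
          apply Finset.sum_congr rfl
          intro G _
          rw [mul_add, Finset.mul_sum]
          ring
      _ ≤ ((q : ℝ) - 1) * ((1 - t) * B.card) + BM.card * (2 * t ^ h) := by
          rw [wt_mean]
          have h2 := Finset.sum_le_card_nsmul BM _ _ hprob
          rw [nsmul_eq_mul] at h2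
          linarith
  have hnum := num_est q h hq2 hh3
  rw [← ht] at hnum
  have hBcard : (B.card : ℝ) ≤ ((q : ℝ) - 1) * r := by
    have h1 : B.card + r ≤ q * r := by rw [hBc]; omega
    have h2 : ((B.card + r : ℕ) : ℝ) ≤ ((q * r : ℕ) : ℝ) := by exact_mod_cast h1
    rw [Nat.cast_add, Nat.cast_mul] at h2
    linarith
  have h1t : 1 - t = 1 / (2 * ((q : ℝ) - 1) ^ 2) := by rw [ht]; ring
  have hrpos : (0 : ℝ) < r := by exact_mod_cast hpos
  have hhalf : ((q : ℝ) - 1) * ((1 - t) * B.card) ≤ r / 2 := by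
    have h1 : ((q : ℝ) - 1) * ((1 - t) * B.card) ≤ ((q : ℝ) - 1) * ((1 - t) * (((q : ℝ) - 1) * r)) := by
      apply mul_le_mul_of_nonneg_left _ (by linarith)
      apply mul_le_mul_of_nonneg_left hBcard (by linarith)
    refine h1.trans (le_of_eq ?_)
    rw [h1t]
    have h3 : ((q : ℝ) - 1) ≠ 0 := by linarith
    field_simp
  rw [hBM] at hsum
  have h9 : (r : ℝ) * (2 * t ^ h) < r * (1 / 2) := mul_lt_mul_of_pos_left hnum hrpos
  linarith

/-- restriction of the presentation to a subset. -/
theorem restrict_key {F V ι κ C : Type*} [Field F] [AddCommGroup V] [Module F V] [Fintype κ]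
    [DecidableEq ι] [DecidableEq κ] [DecidableEq C] (v : ι → V) (N : ι ⊕ κ → Finset C)
    (hkey : ∀ S : Finset ι, LinearIndepOn F v (S : Set ι) ↔
      Mt N (S.image Sum.inl ∪ (univ : Finset κ).image Sum.inr)) (Y : Finset ι)
    (S : Finset {x // x ∈ Y}) :
    LinearIndepOn F (fun i : {x // x ∈ Y} => v i) (S : Set {x // x ∈ Y}) ↔
      Mt (fun u : {x // x ∈ Y} ⊕ κ => N (Sum.map Subtype.val id u))
        (S.image Sum.inl ∪ (univ : Finset κ).image Sum.inr) := by
  classical
  have h1 : LinearIndepOn F (fun i : {x // x ∈ Y} => v i) (S : Set {x // x ∈ Y}) ↔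
      LinearIndepOn F v ((S.map (Function.Embedding.subtype _) : Finset ι) : Set ι) := by
    rw [Finset.coe_map]
    exact ⟨fun h => LinearIndepOn.image_of_comp _ v h,
      fun h => LinearIndepOn.comp_of_image h (Subtype.val_injective.injOn)⟩
  rw [h1, hkey]
  set g : {x // x ∈ Y} ⊕ κ → ι ⊕ κ := Sum.map Subtype.val id with hg
  have hginj : Function.Injective g := Sum.map_injective.2 ⟨Subtype.val_injective, Function.injective_id⟩
  have himg : (S.map (Function.Embedding.subtype _)).image Sum.inl ∪ (univ : Finset κ).image Sum.inr =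
      (S.image Sum.inl ∪ (univ : Finset κ).image Sum.inr).image g := by
    rw [Finset.image_union, Finset.image_image, Finset.image_image]
    congr 1
    ext z
    simp only [Finset.mem_image, Finset.mem_map, Function.comp, Function.Embedding.coe_subtype]
    constructor
    · rintro ⟨_, ⟨y, hy, rfl⟩, rfl⟩; exact ⟨y, hy, rfl⟩
    · rintro ⟨y, hy, rfl⟩; exact ⟨_, ⟨y, hy, rfl⟩, rfl⟩
  rw [himg]
  unfold Mt
  constructor
  · intro H Z hZ
    have h2 := H (Z.image g) (Finset.image_subset_image hZ)
    rw [Finset.card_image_of_injective _ hginj, Finset.image_biUnion] at h2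
    exact h2
  · intro H Z hZ
    obtain ⟨Z', hZ', rfl⟩ := Finset.subset_image_iff.1 hZ
    have h2 := H Z' (by exact_mod_cast hZ')
    rw [Finset.card_image_of_injective _ hginj, Finset.image_biUnion]
    exact h2

/-- every gammoid over a finite field has critical exponent at most `3`. -/
theorem main3 (F : Type) [Field F] [Fintype F] (n r : ℕ) (v : Fin n → (Fin r → F))
    (hv : ∀ i, v i ≠ 0)
    (h : ∃ (K m : ℕ) (R : Fin n ⊕ Fin K → Fin m → Prop),
        ∀ S : Finset (Fin n),
          LinearIndependent F (fun i : S => v i.1) ↔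
            ∃ f : Fin n ⊕ Fin K → Fin m,
              Set.InjOn f ((Sum.inl '' (S : Set (Fin n))) ∪ Set.range Sum.inr) ∧
              ∀ x ∈ ((Sum.inl '' (S : Set (Fin n))) ∪ Set.range Sum.inr), R x (f x)) :
    ∃ L : (Fin r → F) →ₗ[F] (Fin 3 → F), ∀ i, L (v i) ≠ 0 := by
  classical
  rcases Nat.eq_zero_or_pos n with hn | hn
  · subst hn
    exact ⟨0, fun i => i.elim0⟩
  obtain ⟨K, m, N, hkey⟩ := key_of_frozen F n r hn v h
  obtain ⟨X0, hP, hrep⟩ := reps (F := F) v hv
  obtain ⟨L, hL⟩ := greedy v X0 3 (by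
    intro Y hY hne
    have : Nonempty {x // x ∈ Y} := ⟨⟨hne.choose, hne.choose_spec⟩⟩
    obtain ⟨S, hS1, hS2⟩ := small_cocircuit (F := F) (fun i : {x // x ∈ Y} => v i)
      (by
        intro a b
        have h1 := hP a (hY a.2) b (hY b.2)
        have h2 : LinearIndependent F (fun x : (({a.1, b.1} : Set (Fin n)) : Set (Fin n)) => v x) := h1
        have h3 : Function.Injective (fun x : (({a, b} : Set {x // x ∈ Y}) : Set {x // x ∈ Y}) =>
            (⟨x.1.1, by
              rcases x.2 with h | h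
              · left; rw [h]
              · right; rw [Set.mem_singleton_iff] at h; rw [h]; rfl⟩ : (({a.1, b.1} : Set (Fin n)) : Set (Fin n)))) := by
          intro x y hxy
          have := congrArg Subtype.val hxy
          exact Subtype.ext (Subtype.ext this)
        exact h2.comp _ h3)
      (fun u : {x // x ∈ Y} ⊕ Fin K => N (Sum.map Subtype.val id u))
      (restrict_key v N hkey Y)
    refine ⟨S.map (Function.Embedding.subtype _), ?_, ?_, ?_⟩
    · intro x hx
      obtain ⟨y, _, rfl⟩ := Finset.mem_map.1 hx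
      exact y.2
    · rw [Finset.card_map]; exact hS1
    · intro heq
      apply hS2
      have e1 : (fun i : {x // x ∈ Y} => v i) '' ((Sᶜ : Finset {x // x ∈ Y}) : Set {x // x ∈ Y}) =
          v '' ((Y \ S.map (Function.Embedding.subtype _) : Finset (Fin n)) : Set (Fin n)) := by
        ext z
        simp only [Set.mem_image, Finset.mem_coe, Finset.mem_compl, Finset.mem_sdiff, Finset.mem_map,
          Function.Embedding.coe_subtype]
        constructor
        · rintro ⟨x, hx, rfl⟩
          refine ⟨x, ⟨x.2, ?_⟩, rfl⟩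
          rintro ⟨y, hy, hyx⟩
          exact hx (Subtype.ext hyx ▸ hy)
        · rintro ⟨x, ⟨hx1, hx2⟩, rfl⟩
          exact ⟨⟨x, hx1⟩, fun hxS => hx2 ⟨⟨x, hx1⟩, hxS, rfl⟩, rfl⟩
      have e2 : Set.range (fun i : {x // x ∈ Y} => v i) = v '' (Y : Set (Fin n)) := by
        ext z
        simp only [Set.mem_range, Set.mem_image, Finset.mem_coe]
        constructor
        · rintro ⟨x, rfl⟩; exact ⟨x, x.2, rfl⟩
        · rintro ⟨x, hx, rfl⟩; exact ⟨⟨x, hx⟩, rfl⟩
      rw [e1, e2]
      exact heq)
  exact ⟨L, hrep _ L hL⟩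

end Pool.Agent.Helper861.Gammoid
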