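import Mathlib
import Pool.Agent.Helper861.Gammoid3

set_option autoImplicit false

namespace Pool.Agent.Helper861.Gammoid

open Finset

/-- numerical estimate. -/
theorem num_est4 (q h : ℕ) (hq : 2 ≤ q) (hh : 3 * (q - 1) ^ 2 ≤ h) :
    2 * (1 - 1 / (2 * ((q : ℝ) - 1) ^ 2)) ^ h < 1 / 2 := by
  have hq' : (2 : ℝ) ≤ q := by exact_mod_cast hq
  have hh' : 3 * ((q : ℝ) - 1) ^ 2 ≤ h := by
    have h1 : ((3 * (q - 1) ^ 2 : ℕ) : ℝ) ≤ (h : ℝ) := by exact_mod_cast hh
    rw [Nat.cast_mul, Nat.cast_pow, Nat.cast_sub (by omega)] at h1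
    push_cast at h1
    exact h1
  have hpos : (0 : ℝ) < 2 * ((q : ℝ) - 1) ^ 2 := by
    have : (0 : ℝ) < (q : ℝ) - 1 := by linarith
    positivity
  obtain ⟨θ, hθ⟩ : ∃ θ : ℝ, θ = 1 / (2 * ((q : ℝ) - 1) ^ 2) := ⟨_, rfl⟩
  have hθ1 : θ ≤ 1 := by
    rw [hθ, div_le_one hpos]
    nlinarith
  have hθh : 3 / 2 ≤ θ * h := by
    rw [hθ, one_div, inv_mul_eq_div, le_div_iff₀ hpos]
    linarith
  rw [← hθ]
  have h1 : (1 - θ) ^ h ≤ Real.exp (-(θ * h)) := by
    have e1 : 1 - θ ≤ Real.exp (-θ) := by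
      have := Real.add_one_le_exp (-θ)
      linarith
    calc (1 - θ) ^ h ≤ (Real.exp (-θ)) ^ h := pow_le_pow_left₀ (by linarith) e1 h
      _ = Real.exp (-(θ * h)) := by
        rw [← Real.exp_nat_mul]
        congr 1
        ring
  have h2 : Real.exp (-(θ * h)) ≤ Real.exp (-(3 / 2)) := Real.exp_le_exp.mpr (by linarith)
  have h3 : Real.exp (-(3 / 2)) < 1 / 4 := by
    have h5 : Real.exp (3 / 2) ^ 2 = Real.exp 1 ^ 3 := by
      rw [← Real.exp_nat_mul, ← Real.exp_nat_mul]
      norm_num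
    have h6 : (2.7 : ℝ) < Real.exp 1 := by
      have := Real.exp_one_gt_d9
      linarith
    have h7 : (16 : ℝ) < Real.exp (3 / 2) ^ 2 := by
      rw [h5]
      have : (2.7 : ℝ) ^ 3 ≤ Real.exp 1 ^ 3 := pow_le_pow_left₀ (by norm_num) h6.le 3
      norm_num at this ⊢
      linarith
    have h8 : (4 : ℝ) < Real.exp (3 / 2) := by
      have hp := Real.exp_pos (3 / 2)
      nlinarith
    rw [Real.exp_neg, inv_lt_comm₀ (Real.exp_pos _) (by norm_num)]
    norm_num
    linarith
  linarith


/-- **Small cocircuits**: a simple nonempty `GF(q)`-representable gammoid has a set of at most `6 (q - 1) ^ 2`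
elements whose removal lowers the rank. -/
theorem small_cocircuit4 {F V ι κ C : Type} [Field F] [Fintype F] [AddCommGroup V] [Module F V]
    [FiniteDimensional F V] [Fintype ι] [Fintype κ] [Fintype C] [DecidableEq ι] [DecidableEq κ]
    [DecidableEq C] [Nonempty ι] (v : ι → V) (hpair : ∀ a b, LinearIndepOn F v {a, b})
    (N : ι ⊕ κ → Finset C)
    (hkey : ∀ S : Finset ι, LinearIndepOn F v (S : Set ι) ↔
      Mt N (S.image Sum.inl ∪ (univ : Finset κ).image Sum.inr)) :
    ∃ S : Finset ι, S.card < 6 * (Fintype.card F - 1) ^ 2 + 1 ∧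
      Submodule.span F (v '' ((Sᶜ : Finset ι) : Set ι)) ≠ Submodule.span F (Set.range v) := by
  classical
  by_contra hcon
  push Not at hcon
  obtain ⟨d, N', hkey', hC⟩ := pad v N hkey
  set r := Module.finrank F (Submodule.span F (Set.range v)) with hr
  set q := Fintype.card F with hq
  have hq2 : 2 ≤ q := Fintype.one_lt_card
  have hfs : FiniteDimensional F (Submodule.span F (Set.range v)) := inferInstance
  have hpos : 0 < r := by
    obtain ⟨a⟩ := ‹Nonempty ι›
    have h1 : v a ≠ 0 := (hpair a a).ne_zero (i := a) (by simp)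
    rw [hr, Module.finrank_pos_iff_exists_ne_zero]
    refine ⟨⟨v a, Submodule.subset_span ⟨a, rfl⟩⟩, ?_⟩
    intro h
    exact h1 (congrArg Subtype.val h)
  obtain ⟨BM, φ, hφ, hBM0⟩ := exists_phi v N' hkey' hC hpos
  have hBM : BM.card = r := hBM0
  have hs : ∀ S : Finset ι, S.card < 6 * (q - 1) ^ 2 + 1 → CoInd N' S :=
    fun S hS => (coind_iff v N' hkey' hC S).2 (hcon S hS)
  obtain ⟨W, iW1, iW2, iW3, w, hw⟩ := dual_rep (F := F) v
  have hwc : ∀ S : Finset ι, LinearIndepOn F w (S : Set ι) ↔ CoInd N' S := by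
    intro S
    rw [hw, ← coind_iff v N' hkey' hC]
  have hkeyW : ∀ S : Finset ι, LinearIndepOn F w (S : Set ι) ↔
      Mt (dualN N') (S.image Sum.inl ∪ (univ : Finset C).image Sum.inr) := by
    intro S
    rw [hwc, coind_mt]
  -- density of the primal
  have hn : Fintype.card ι ≤ q * r := by
    have h1 := dens_contract v N' hkey' (univ : Finset ι) ∅ (by simp)
      (by
        intro a _ b _
        have := hpair a b
        simpa using this) r
      (by
        intro S _ hS
        rw [Finset.union_empty] at hS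
        have h2 : LinearIndependent F (fun x : (S : Set ι) => v x) := hS
        have h3 := finrank_span_eq_card h2
        have h4 : Set.range (fun x : (S : Set ι) => v x) = v '' (S : Set ι) :=
          (Set.image_eq_range _ _).symm
        rw [h4] at h3
        have h5 : Fintype.card (S : Set ι) = S.card := by simp
        rw [h5] at h3
        rw [← h3, hr]
        exact Submodule.finrank_mono (Submodule.span_mono (Set.image_subset_range _ _)))
    rwa [Finset.card_univ] at h1
  have hBc : (BMᶜ : Finset ι).card = Fintype.card ι - r := by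
    rw [Finset.card_compl, hBM]
  have hBle : r ≤ Fintype.card ι := by
    rw [← hBM]; exact Finset.card_le_univ _
  -- independent sets of the dual are small
  have hrankW : ∀ T : Finset ι, LinearIndepOn F w (T : Set ι) → T.card ≤ (BMᶜ : Finset ι).card := by
    intro T hT
    have h1 := (hw T).1 hT
    have h2 : r ≤ (Tᶜ : Finset ι).card := by
      rw [hr, ← h1]
      have h3 := finrank_span_finset_le_card (R := F) ((Tᶜ : Finset ι).image v)
      rw [Finset.coe_image] at h3
      exact h3.trans Finset.card_image_le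
    rw [Finset.card_compl] at h2
    rw [hBc]
    have : T.card ≤ Fintype.card ι := Finset.card_le_univ _
    omega
  obtain ⟨h, hh1, hh2, hh3⟩ : ∃ h : ℕ, 1 ≤ h ∧ 2 * h + 1 ≤ 6 * (q - 1) ^ 2 + 1 ∧ 3 * (q - 1) ^ 2 ≤ h := by
    have h8 : 1 ≤ (q - 1) ^ 2 := Nat.one_le_pow _ _ (by omega)
    exact ⟨3 * (q - 1) ^ 2, by omega, by omega, le_refl _⟩
  set B : Finset ι := BMᶜ with hB
  -- the main inequality for every F
  have hmain : ∀ G ∈ B.powerset, (r : ℝ) ≤ ((q : ℝ) - 1) * ((B.card : ℝ) - G.card) +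
      ∑ x ∈ BM, (if EV N' BM φ h x G then (1 : ℝ) else 0) := by
    intro G hG
    rw [Finset.mem_powerset] at hG
    set Q : Finset ι := (B \ G) ∪ BM.filter (fun x => ¬ EV N' BM φ h x G) with hQ
    have hdisj1 : Disjoint (B \ G) (BM.filter (fun x => ¬ EV N' BM φ h x G)) := by
      rw [Finset.disjoint_left]
      intro x hx hx'
      have h1 := (Finset.mem_sdiff.1 hx).1
      rw [hB, Finset.mem_compl] at h1
      exact h1 (Finset.mem_filter.1 hx').1
    have hdisj2 : Disjoint Q G := by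
      rw [Finset.disjoint_left]
      intro x hx hx'
      rcases Finset.mem_union.1 hx with h1 | h1
      · exact (Finset.mem_sdiff.1 h1).2 hx'
      · have h2 := hG hx'
        rw [hB, Finset.mem_compl] at h2
        exact h2 (Finset.mem_filter.1 h1).1
    have hmem : ∀ a ∈ Q, a ∈ BMᶜ \ G ∨ (a ∈ BM ∧ ¬ EV N' BM φ h a G) := by
      intro a ha
      rcases Finset.mem_union.1 ha with h1 | h1
      · exact Or.inl h1
      · exact Or.inr (Finset.mem_filter.1 h1)
    have h1 := dens_contract w (dualN N') hkeyW Q G hdisj2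
      (by
        intro a ha b hb
        rw [hwc]
        exact pair_coind N' BM φ hφ (6 * (q - 1) ^ 2 + 1) h hs hh1 hh2 G hG a b (hmem a ha) (hmem b hb))
      (B.card - G.card)
      (by
        intro S hS hSG
        have h2 := hrankW _ hSG
        rw [Finset.card_union_of_disjoint (hdisj2.mono_left hS)] at h2
        omega)
    have hGB : G.card ≤ B.card := Finset.card_le_card hG
    have h2 : Q.card = (B.card - G.card) + (BM.filter (fun x => ¬ EV N' BM φ h x G)).card := by
      rw [hQ, Finset.card_union_of_disjoint hdisj1, Finset.card_sdiff_of_subset hG]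
    have h3 : (BM.filter (fun x => EV N' BM φ h x G)).card +
        (BM.filter (fun x => ¬ EV N' BM φ h x G)).card = r := by
      rw [Finset.card_filter_add_card_filter_not, hBM]
    have h4 : ∑ x ∈ BM, (if EV N' BM φ h x G then (1 : ℝ) else 0) =
        ((BM.filter (fun x => EV N' BM φ h x G)).card : ℝ) := by
      rw [Finset.sum_ite, Finset.sum_const_zero, add_zero, Finset.sum_const, nsmul_eq_mul, mul_one]
    rw [h4]
    rw [h2] at h1
    have h5 : ((B.card - G.card : ℕ) : ℝ) = (B.card : ℝ) - G.card := by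
      rw [Nat.cast_sub hGB]
    have h6 : (((B.card - G.card) + (BM.filter (fun x => ¬ EV N' BM φ h x G)).card : ℕ) : ℝ) ≤
        ((q * (B.card - G.card) : ℕ) : ℝ) := by exact_mod_cast h1
    rw [Nat.cast_add, Nat.cast_mul, h5] at h6
    have h7 : ((BM.filter (fun x => EV N' BM φ h x G)).card : ℝ) +
        ((BM.filter (fun x => ¬ EV N' BM φ h x G)).card : ℝ) = r := by exact_mod_cast h3
    linarith
  -- the weights
  set t : ℝ := 1 - 1 / (2 * ((q : ℝ) - 1) ^ 2) with ht
  have hq1 : (1 : ℝ) ≤ (q : ℝ) - 1 := by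
    have : (2 : ℝ) ≤ q := by exact_mod_cast hq2
    linarith
  have hq1' : (1 : ℝ) ≤ ((q : ℝ) - 1) ^ 2 := by nlinarith
  have hden : 0 < 2 * ((q : ℝ) - 1) ^ 2 := by linarith
  have hfrac : 0 < 1 / (2 * ((q : ℝ) - 1) ^ 2) := by positivity
  have hfrac2 : 1 / (2 * ((q : ℝ) - 1) ^ 2) ≤ 1 / 2 := by
    apply one_div_le_one_div_of_le <;> linarith
  have ht0 : 0 < t := by rw [ht]; linarith
  have ht1 : t < 1 := by rw [ht]; linarith
  have hprob : ∀ x ∈ BM, ∑ G ∈ B.powerset, (t ^ G.card * (1 - t) ^ (B.card - G.card)) *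
      (if EV N' BM φ h x G then (1 : ℝ) else 0) ≤ 2 * t ^ h := by
    intro x hx
    set Q : Finset (Finset ι) := ((univ : Finset (ι ⊕ (κ ⊕ Fin d))).filter
      (fun c => c ≠ Sum.inl x ∧ h ≤ (Zs N' BM φ x c).card)).image (fun c => Zs N' BM φ x c) with hQ
    have hEV : ∀ G : Finset ι, EV N' BM φ h x G ↔ ∃ Z ∈ Q, Z ⊆ G := by
      intro G
      constructor
      · rintro ⟨c, hc1, hc2, hc3⟩
        exact ⟨_, Finset.mem_image.2 ⟨c, Finset.mem_filter.2 ⟨Finset.mem_univ _, hc1, hc3⟩, rfl⟩, hc2⟩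
      · rintro ⟨Z, hZ, hZG⟩
        obtain ⟨c, hc, rfl⟩ := Finset.mem_image.1 hZ
        obtain ⟨-, hc1, hc2⟩ := Finset.mem_filter.1 hc
        exact ⟨c, hc1, hZG, hc2⟩
    have hZB : ∀ c, Zs N' BM φ x c ⊆ Bx N' BM φ x := by
      intro c b hb
      obtain ⟨hb1, hb2⟩ := Finset.mem_filter.1 hb
      refine Finset.mem_filter.2 ⟨hb1, ?_⟩
      have hb3 : Relation.ReflTransGen (fun a b => arc N' BM φ a b ∧ b ≠ c) (Sum.inl x) (Sum.inl b) := hb2
      have hle : (fun a b => arc N' BM φ a b ∧ b ≠ c) ≤ arc N' BM φ := fun _ _ hab => hab.1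
      exact Relation.ReflTransGen.mono hle _ _ hb3
    have hBxc : 6 * (q - 1) ^ 2 + 1 ≤ (Bx N' BM φ x).card + 1 := by
      by_contra hlt
      push Not at hlt
      apply dep_Bx N' BM φ hφ x hx
      apply hs
      have := Finset.card_union_le {x} (Bx N' BM φ x)
      rw [Finset.card_singleton] at this
      omega
    have h1 := fam_prob B (Bx N' BM φ x) (Finset.filter_subset _ _) Q h hh1 (by omega)
      (by
        intro Z hZ
        obtain ⟨c, hc, rfl⟩ := Finset.mem_image.1 hZ
        exact ⟨hZB c, (Finset.mem_filter.1 hc).2.2⟩)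
      (by
        intro Z hZ Z' hZ'
        obtain ⟨c, hc, rfl⟩ := Finset.mem_image.1 hZ
        obtain ⟨c', hc', rfl⟩ := Finset.mem_image.1 hZ'
        exact lam N' BM φ x c c') t ht0 ht1
    refine le_trans (le_of_eq ?_) h1
    apply Finset.sum_congr rfl
    intro G _
    by_cases hG : EV N' BM φ h x G
    · rw [if_pos hG, if_pos ((hEV G).1 hG), mul_one]
    · rw [if_neg hG, if_neg (fun hh => hG ((hEV G).2 hh)), mul_zero]
  have hwt : ∀ G ∈ B.powerset, 0 ≤ t ^ G.card * (1 - t) ^ (B.card - G.card) := by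
    intro G _
    have : 0 ≤ 1 - t := by linarith
    positivity
  have hsum : (r : ℝ) ≤ ((q : ℝ) - 1) * ((1 - t) * B.card) + BM.card * (2 * t ^ h) := by
    have h1 : (r : ℝ) = ∑ G ∈ B.powerset, (t ^ G.card * (1 - t) ^ (B.card - G.card)) * (r : ℝ) := by
      rw [← Finset.sum_mul, wt_sum, one_mul]
    rw [h1]
    calc ∑ G ∈ B.powerset, (t ^ G.card * (1 - t) ^ (B.card - G.card)) * (r : ℝ)
        ≤ ∑ G ∈ B.powerset, (t ^ G.card * (1 - t) ^ (B.card - G.card)) *
          (((q : ℝ) - 1) * ((B.card : ℝ) - G.card) +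
            ∑ x ∈ BM, (if EV N' BM φ h x G then (1 : ℝ) else 0)) := by
          apply Finset.sum_le_sum
          intro G hG
          exact mul_le_mul_of_nonneg_left (hmain G hG) (hwt G hG)
      _ = ((q : ℝ) - 1) * ∑ G ∈ B.powerset, t ^ G.card * (1 - t) ^ (B.card - G.card) *
            ((B.card : ℝ) - G.card) +
          ∑ x ∈ BM, ∑ G ∈ B.powerset, (t ^ G.card * (1 - t) ^ (B.card - G.card)) *
            (if EV N' BM φ h x G then (1 : ℝ) else 0) := by
          rw [Finset.sum_comm, Finset.mul_sum, ← Finset.sum_add_distrib]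
          apply Finset.sum_congr rfl
          intro G _
          rw [mul_add, Finset.mul_sum]
          ring
      _ ≤ ((q : ℝ) - 1) * ((1 - t) * B.card) + BM.card * (2 * t ^ h) := by
          rw [wt_mean]
          have h2 := Finset.sum_le_card_nsmul BM _ _ hprob
          rw [nsmul_eq_mul] at h2
          linarith
  have hnum := num_est4 q h hq2 hh3
  rw [← ht] at hnum
  have hBcard : (B.card : ℝ) ≤ ((q : ℝ) - 1) * r := by
    have h1 : B.card + r ≤ q * r := by rw [hBc]; omega
    have h2 : ((B.card + r : ℕ) : ℝ) ≤ ((q * r : ℕ) : ℝ) := by exact_mod_cast h1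
    rw [Nat.cast_add, Nat.cast_mul] at h2
    linarith
  have h1t : 1 - t = 1 / (2 * ((q : ℝ) - 1) ^ 2) := by rw [ht]; ring
  have hrpos : (0 : ℝ) < r := by exact_mod_cast hpos
  have hhalf : ((q : ℝ) - 1) * ((1 - t) * B.card) ≤ r / 2 := by
    have h1 : ((q : ℝ) - 1) * ((1 - t) * B.card) ≤ ((q : ℝ) - 1) * ((1 - t) * (((q : ℝ) - 1) * r)) := by
      apply mul_le_mul_of_nonneg_left _ (by linarith)
      apply mul_le_mul_of_nonneg_left hBcard (by linarith)
    refine h1.trans (le_of_eq ?_)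
    rw [h1t]
    have h3 : ((q : ℝ) - 1) ≠ 0 := by linarith
    field_simp
  rw [hBM] at hsum
  have h9 : (r : ℝ) * (2 * t ^ h) < r * (1 / 2) := mul_lt_mul_of_pos_left hnum hrpos
  linarith


end Pool.Agent.Helper861.Gammoid
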