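import Mathlib

set_option autoImplicit false

namespace Pool.Agent.Helper861.Sharp

open Finset

/-- the vectors `e₀` and `e_j + a e₀`. -/
def vec {F ι : Type} [Field F] {ρ : ℕ} (e : ι → Option (Fin ρ × F)) (i : ι) : Fin (ρ + 1) → F :=
  match e i with
  | none => Pi.single 0 1
  | some p => Pi.single p.1.succ 1 + Pi.single 0 p.2

open Classical in
/-- the lines meeting `S` outside `e₀`. -/
noncomputable def Tset {F ι : Type} {ρ : ℕ} (e : ι → Option (Fin ρ × F)) (S : Finset ι) : Finset (Fin ρ) :=
  univ.filter (fun j => ∃ i ∈ S, ∃ a, e i = some (j, a))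

/-- the bipartite graph. -/
def Rel {F ι : Type} {ρ : ℕ} (e : ι → Option (Fin ρ × F)) (x : ι ⊕ Fin 0) (c : Fin (ρ + 1)) : Prop :=
  c = 0 ∨ ∃ i j a, x = Sum.inl i ∧ e i = some (j, a) ∧ c = j.succ

/-- independent sets are small. -/
theorem vec_mp {F ι : Type} [Field F] [Fintype ι] {ρ : ℕ} (e : ι → Option (Fin ρ × F)) (S : Finset ι)
    (h : LinearIndependent F (fun i : S => vec e i.1)) : S.card ≤ (Tset e S).card + 1 := by
  classical
  set G : Finset (Fin (ρ + 1) → F) :=
    insert (Pi.single 0 1) ((Tset e S).image (fun j => Pi.single j.succ (1 : F))) with hG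
  have hcard : G.card ≤ (Tset e S).card + 1 :=
    (Finset.card_insert_le _ _).trans (Nat.add_le_add_right Finset.card_image_le 1)
  have hfr : Module.finrank F (Submodule.span F (G : Set (Fin (ρ + 1) → F))) ≤ G.card :=
    finrank_span_finset_le_card G
  have h0 : (Pi.single 0 1 : Fin (ρ + 1) → F) ∈ Submodule.span F (G : Set (Fin (ρ + 1) → F)) :=
    Submodule.subset_span (by rw [hG]; simp)
  have hmem : ∀ i : S, vec e i.1 ∈ Submodule.span F (G : Set (Fin (ρ + 1) → F)) := by
    intro i
    unfold vec
    rcases hi : e i.1 with _ | p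
    · exact h0
    · have h1 : (Pi.single p.1.succ 1 : Fin (ρ + 1) → F) ∈
          Submodule.span F (G : Set (Fin (ρ + 1) → F)) := by
        apply Submodule.subset_span
        rw [hG, Finset.mem_coe, Finset.mem_insert]
        right
        rw [Finset.mem_image]
        refine ⟨p.1, ?_, rfl⟩
        unfold Tset
        rw [Finset.mem_filter]
        exact ⟨Finset.mem_univ _, i.1, i.2, p.2, hi⟩
      have h2 : (Pi.single 0 p.2 : Fin (ρ + 1) → F) = p.2 • (Pi.single 0 1 : Fin (ρ + 1) → F) := by
        rw [← Pi.single_smul]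
        simp
      show (Pi.single p.1.succ 1 : Fin (ρ + 1) → F) + Pi.single 0 p.2 ∈ _
      rw [h2]
      exact Submodule.add_mem _ h1 (Submodule.smul_mem _ _ h0)
  have hf : LinearIndependent F
      (fun i : S => (⟨vec e i.1, hmem i⟩ : Submodule.span F (G : Set (Fin (ρ + 1) → F)))) := by
    apply LinearIndependent.of_comp (Submodule.subtype _)
    exact h
  have h3 := hf.fintype_card_le_finrank
  rw [Fintype.card_coe] at h3
  omega

theorem vecm_none {F ι : Type} [Field F] {ρ : ℕ} (e : ι → Option (Fin ρ × F)) (i : ι)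
    (h : e i = none) (j : Fin ρ) : vec e i j.succ = 0 := by
  unfold vec
  rw [h]
  simp

theorem vecm_none0 {F ι : Type} [Field F] {ρ : ℕ} (e : ι → Option (Fin ρ × F)) (i : ι)
    (h : e i = none) : vec e i 0 = 1 := by
  unfold vec
  rw [h]
  simp

theorem vecm_some {F ι : Type} [Field F] {ρ : ℕ} (e : ι → Option (Fin ρ × F)) (i : ι)
    (k : Fin ρ) (a : F) (h : e i = some (k, a)) (j : Fin ρ) :
    vec e i j.succ = if j = k then 1 else 0 := by
  unfold vec
  rw [h]
  simp [Pi.single_apply]

theorem vecm_some0 {F ι : Type} [Field F] {ρ : ℕ} (e : ι → Option (Fin ρ × F)) (i : ι)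
    (k : Fin ρ) (a : F) (h : e i = some (k, a)) : vec e i 0 = a := by
  unfold vec
  rw [h]
  simp [Pi.single_apply]

/-- small sets are independent. -/
theorem vec_mpr {F ι : Type} [Field F] [Fintype ι] {ρ : ℕ} (e : ι → Option (Fin ρ × F))
    (he : Function.Injective e) (S : Finset ι) (h : S.card ≤ (Tset e S).card + 1) :
    LinearIndependent F (fun i : S => vec e i.1) := by
  classical
  have hT : ∀ j : {x // x ∈ Tset e S}, ∃ i ∈ S, ∃ a, e i = some (j.1, a) := by
    intro j
    have := j.2
    unfold Tset at this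
    rw [mem_filter] at this
    exact this.2
  choose r hrS ra hra using hT
  have hrinj : Function.Injective r := by
    intro j k hjk
    have h1 := hra j
    rw [hjk, hra k] at h1
    have h2 := Option.some.inj h1
    have h3 := congrArg Prod.fst h2
    exact Subtype.ext h3.symm
  obtain ⟨R, hR⟩ : ∃ R : Finset ι, R = univ.image r := ⟨_, rfl⟩
  have hRcard : R.card = (Tset e S).card := by
    rw [hR, card_image_of_injective _ hrinj, card_univ, Fintype.card_coe]
  have hRS : R ⊆ S := by
    rw [hR]
    intro x hx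
    rw [mem_image] at hx
    obtain ⟨j, -, rfl⟩ := hx
    exact hrS j
  have hcard : (S \ R).card ≤ 1 := by
    have := card_sdiff_add_card_eq_card hRS
    omega
  have huniq : ∀ x ∈ S \ R, ∀ y ∈ S \ R, x = y := by
    intro x hx y hy
    exact card_le_one.1 hcard x hx y hy
  have hRline : ∀ x ∈ R, ∀ l c, e x = some (l, c) → ∃ h : l ∈ Tset e S, x = r ⟨l, h⟩ := by
    intro x hx l c hxl
    rw [hR, mem_image] at hx
    obtain ⟨j, -, rfl⟩ := hx
    have h1 := hra j
    rw [hxl] at h1
    have h2 := congrArg Prod.fst (Option.some.inj h1)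
    simp only at h2
    subst h2
    exact ⟨j.2, rfl⟩
  have hnone : ∀ x, e x = none → x ∉ R := by
    intro x hx hxR
    rw [hR, mem_image] at hxR
    obtain ⟨j, -, rfl⟩ := hxR
    rw [hra j] at hx
    exact absurd hx (by simp)
  have pair : ∀ x ∈ S, ∀ y ∈ S, x ≠ y → ∀ l c d, e x = some (l, c) → e y = some (l, d) →
      (x ∈ S \ R ∨ y ∈ S \ R) := by
    intro x hx y hy hxy l c d hxl hyl
    by_contra hcon
    push Not at hcon
    have hx1 : x ∈ R := by
      by_contra hn
      exact hcon.1 (mem_sdiff.2 ⟨hx, hn⟩)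
    have hy1 : y ∈ R := by
      by_contra hn
      exact hcon.2 (mem_sdiff.2 ⟨hy, hn⟩)
    obtain ⟨h1, h2⟩ := hRline x hx1 l c hxl
    obtain ⟨h3, h4⟩ := hRline y hy1 l d hyl
    exact hxy (h2.trans h4.symm)
  have goal : LinearIndepOn F (vec e) (↑S : Set ι) := by
    rw [linearIndepOn_finset_iff]
    intro f hf
    have hcoord : ∀ c : Fin (ρ + 1), ∑ i ∈ S, f i * vec e i c = 0 := by
      intro c
      have := congrFun hf c
      simpa [Finset.sum_apply] using this
    have claimA : ∀ i ∈ S, ∀ j a, e i = some (j, a) → f i ≠ 0 →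
        ∃ i' ∈ S, i' ≠ i ∧ f i' ≠ 0 ∧ ∃ a', e i' = some (j, a') := by
      intro i hi j a hia hfi
      by_contra hcon
      push Not at hcon
      have h1 := hcoord j.succ
      rw [sum_eq_single i] at h1
      · rw [vecm_some e i j a hia, if_pos rfl, mul_one] at h1
        exact hfi h1
      · intro k hk hki
        rcases hek : e k with _ | ⟨l, c⟩
        · rw [vecm_none e k hek, mul_zero]
        · by_cases hl : j = l
          · subst hl
            by_cases hfk : f k = 0
            · rw [hfk, zero_mul]
            · exact absurd hek (hcon k hk hki hfk c)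
          · rw [vecm_some e k l c hek, if_neg hl, mul_zero]
      · intro hn
        exact absurd hi hn
    intro i hi
    by_contra hfi
    rcases hei : e i with _ | ⟨j, a⟩
    · have hiR : i ∈ S \ R := mem_sdiff.2 ⟨hi, hnone i hei⟩
      have hz : ∀ k ∈ S, k ≠ i → f k = 0 := by
        intro k hk hki
        by_contra hfk
        rcases hek : e k with _ | ⟨l, c⟩
        · exact hki (he (hek.trans hei.symm))
        · obtain ⟨k', hk', hkk, hfk', c', hek'⟩ := claimA k hk l c hek hfk
          rcases pair k hk k' hk' hkk.symm l c c' hek hek' with hh | hh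
          · exact hki (huniq k hh i hiR)
          · have := huniq k' hh i hiR
            rw [this, hei] at hek'
            exact absurd hek' (by simp)
      have h1 := hcoord 0
      rw [sum_eq_single i] at h1
      · rw [vecm_none0 e i hei, mul_one] at h1
        exact hfi h1
      · intro k hk hki
        rw [hz k hk hki, zero_mul]
      · intro hn
        exact absurd hi hn
    · obtain ⟨i', hi', hii, hfi', a', hei'⟩ := claimA i hi j a hei hfi
      obtain ⟨x, hxR, hx⟩ : ∃ x ∈ S \ R, x = i ∨ x = i' := by
        rcases pair i hi i' hi' hii.symm j a a' hei hei' with hh | hh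
        · exact ⟨i, hh, Or.inl rfl⟩
        · exact ⟨i', hh, Or.inr rfl⟩
      have hex : ∃ b, e x = some (j, b) := by
        rcases hx with rfl | rfl
        · exact ⟨a, hei⟩
        · exact ⟨a', hei'⟩
      obtain ⟨b, hex⟩ := hex
      -- no third element on the line j
      have h3 : ∀ k ∈ S, k ≠ i → k ≠ i' → ∀ c, e k ≠ some (j, c) := by
        intro k hk h1 h2 c hek
        rcases pair i hi i' hi' hii.symm j a a' hei hei' with hh | hh
        · rcases pair k hk i' hi' h2 j c a' hek hei' with h4 | h4
          · exact h1 (huniq k h4 i hh)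
          · exact hii (huniq i' h4 i hh)
        · rcases pair k hk i hi h1 j c a hek hei with h4 | h4
          · exact h2 (huniq k h4 i' hh)
          · exact hii (huniq i h4 i' hh).symm
      have hz : ∀ k ∈ S, k ≠ i → k ≠ i' → f k = 0 := by
        intro k hk h1 h2
        by_contra hfk
        rcases hek : e k with _ | ⟨l, c⟩
        · have hkR : k ∈ S \ R := mem_sdiff.2 ⟨hk, hnone k hek⟩
          have := huniq k hkR x hxR
          rw [this, hex] at hek
          exact absurd hek (by simp)
        · obtain ⟨k', hk', hkk, hfk', c', hek'⟩ := claimA k hk l c hek hfk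
          have hlj : l = j := by
            rcases pair k hk k' hk' hkk.symm l c c' hek hek' with hh | hh
            · have := huniq k hh x hxR
              rw [this, hex] at hek
              exact (congrArg Prod.fst (Option.some.inj hek)).symm
            · have := huniq k' hh x hxR
              rw [this, hex] at hek'
              exact (congrArg Prod.fst (Option.some.inj hek')).symm
          subst hlj
          exact h3 k hk h1 h2 c hek
      have hsum : ∀ c : Fin (ρ + 1), f i * vec e i c + f i' * vec e i' c = 0 := by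
        intro c
        rw [← hcoord c]
        symm
        apply sum_eq_add_of_mem i i' hi hi' hii.symm
        intro k hk hne
        rw [hz k hk hne.1 hne.2, zero_mul]
      have e1 := hsum j.succ
      have e2 := hsum 0
      rw [vecm_some e i j a hei, vecm_some e i' j a' hei', if_pos rfl, mul_one, mul_one] at e1
      rw [vecm_some0 e i j a hei, vecm_some0 e i' j a' hei'] at e2
      have e3 : f i * (a - a') = 0 := by linear_combination e2 - a' * e1
      rcases mul_eq_zero.1 e3 with h5 | h5
      · exact hfi h5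
      · have h6 : a = a' := sub_eq_zero.1 h5
        subst h6
        exact hii (he (hei'.trans hei.symm))
  exact goal

/-- matchings exist exactly for small sets. -/
theorem match_iff {F ι : Type} {ρ : ℕ} (e : ι → Option (Fin ρ × F)) (S : Finset ι) :
    (∃ f : ι ⊕ Fin 0 → Fin (ρ + 1),
      Set.InjOn f ((Sum.inl '' (S : Set ι)) ∪ Set.range Sum.inr) ∧
      ∀ x ∈ ((Sum.inl '' (S : Set ι)) ∪ Set.range Sum.inr), Rel e x (f x)) ↔
    S.card ≤ (Tset e S).card + 1 := by
  classical
  constructor
  · rintro ⟨f, hinj, hrel⟩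
    have h1 : (S.image fun i => f (Sum.inl i)) ⊆ insert 0 ((Tset e S).image Fin.succ) := by
      intro c hc
      obtain ⟨i, hi, rfl⟩ := Finset.mem_image.1 hc
      have := hrel (Sum.inl i) (Or.inl ⟨i, hi, rfl⟩)
      rcases this with h | ⟨i', j, a, hx, he, hj⟩
      · rw [h]
        exact Finset.mem_insert_self _ _
      · have hii : i = i' := Sum.inl_injective hx
        subst hii
        rw [hj]
        apply Finset.mem_insert_of_mem
        apply Finset.mem_image_of_mem
        simp only [Tset, Finset.mem_filter, Finset.mem_univ, true_and]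
        exact ⟨i, hi, a, he⟩
    have h2 : (S.image fun i => f (Sum.inl i)).card = S.card := by
      apply Finset.card_image_of_injOn
      intro i hi i' hi' h
      exact Sum.inl_injective (hinj (Or.inl ⟨i, hi, rfl⟩) (Or.inl ⟨i', hi', rfl⟩) h)
    calc S.card = (S.image fun i => f (Sum.inl i)).card := h2.symm
      _ ≤ (insert 0 ((Tset e S).image Fin.succ)).card := Finset.card_le_card h1
      _ ≤ ((Tset e S).image Fin.succ).card + 1 := Finset.card_insert_le _ _
      _ ≤ (Tset e S).card + 1 := Nat.add_le_add_right Finset.card_image_le 1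
  · intro hcard
    have hT : ∀ j : {j // j ∈ Tset e S}, ∃ i : ι, i ∈ S ∧ ∃ a, e i = some (j.1, a) := by
      rintro ⟨j, hj⟩
      simp only [Tset, Finset.mem_filter, Finset.mem_univ, true_and] at hj
      obtain ⟨i, hi, a, ha⟩ := hj
      exact ⟨i, hi, a, ha⟩
    choose rp hrp hrp2 using hT
    have hrpinj : Function.Injective rp := by
      intro j j' h
      obtain ⟨a, ha⟩ := hrp2 j
      obtain ⟨a', ha'⟩ := hrp2 j'
      rw [h, ha'] at ha
      have := Option.some.inj ha
      exact Subtype.ext (congrArg Prod.fst this).symm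
    set R : Finset ι := (Finset.univ : Finset {j // j ∈ Tset e S}).image rp with hR
    have hRcard : R.card = (Tset e S).card := by
      rw [hR, Finset.card_image_of_injective _ hrpinj, Finset.card_univ, Fintype.card_coe]
    have hRS : R ⊆ S := by
      intro i hi
      obtain ⟨j, _, rfl⟩ := Finset.mem_image.1 hi
      exact hrp j
    have hdiff : (S \ R).card ≤ 1 := by
      rw [Finset.card_sdiff_of_subset hRS, hRcard]
      omega
    let f : ι ⊕ Fin 0 → Fin (ρ + 1) := fun x =>
      if h : ∃ j : {j // j ∈ Tset e S}, x = Sum.inl (rp j) then (h.choose).1.succ else 0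
    have hf1 : ∀ j, f (Sum.inl (rp j)) = j.1.succ := by
      intro j
      have h : ∃ j' : {j // j ∈ Tset e S}, (Sum.inl (rp j) : ι ⊕ Fin 0) = Sum.inl (rp j') :=
        ⟨j, rfl⟩
      have h2 : h.choose = j := by
        have := h.choose_spec
        exact (hrpinj (Sum.inl_injective this)).symm
      simp only [f]
      rw [dif_pos h, h2]
    have hf0 : ∀ x, (¬ ∃ j : {j // j ∈ Tset e S}, x = Sum.inl (rp j)) → f x = 0 := by
      intro x hx
      simp only [f]
      rw [dif_neg hx]
    refine ⟨f, ?_, ?_⟩
    · rintro x (⟨i, hi, rfl⟩ | ⟨z, _⟩) y (⟨i', hi', rfl⟩ | ⟨z', _⟩) hxy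
      · by_cases h1 : ∃ j : {j // j ∈ Tset e S}, (Sum.inl i : ι ⊕ Fin 0) = Sum.inl (rp j)
        · obtain ⟨j, hj⟩ := h1
          by_cases h2 : ∃ j : {j // j ∈ Tset e S}, (Sum.inl i' : ι ⊕ Fin 0) = Sum.inl (rp j)
          · obtain ⟨j', hj'⟩ := h2
            rw [hj, hj', hf1, hf1] at hxy
            have : j = j' := Subtype.ext (Fin.succ_injective _ hxy)
            rw [hj, hj', this]
          · rw [hf0 _ h2, hj, hf1] at hxy
            exact absurd hxy (Fin.succ_ne_zero _)
        · by_cases h2 : ∃ j : {j // j ∈ Tset e S}, (Sum.inl i' : ι ⊕ Fin 0) = Sum.inl (rp j)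
          · obtain ⟨j', hj'⟩ := h2
            rw [hf0 _ h1, hj', hf1] at hxy
            exact absurd hxy.symm (Fin.succ_ne_zero _)
          · have m1 : i ∈ S \ R := by
              rw [Finset.mem_sdiff]
              refine ⟨hi, fun h => h1 ?_⟩
              obtain ⟨j, _, hj⟩ := Finset.mem_image.1 h
              exact ⟨j, by rw [hj]⟩
            have m2 : i' ∈ S \ R := by
              rw [Finset.mem_sdiff]
              refine ⟨hi', fun h => h2 ?_⟩
              obtain ⟨j, _, hj⟩ := Finset.mem_image.1 h
              exact ⟨j, by rw [hj]⟩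
            rw [Finset.card_le_one.1 hdiff i m1 i' m2]
      · exact z'.elim0
      · exact z.elim0
      · exact z.elim0
    · rintro x (⟨i, hi, rfl⟩ | ⟨z, _⟩)
      · by_cases h1 : ∃ j : {j // j ∈ Tset e S}, (Sum.inl i : ι ⊕ Fin 0) = Sum.inl (rp j)
        · obtain ⟨j, hj⟩ := h1
          obtain ⟨a, ha⟩ := hrp2 j
          right
          exact ⟨rp j, j.1, a, hj, ha, by rw [hj, hf1]⟩
        · left
          exact hf0 _ h1
      · exact z.elim0

/-- the vectors span. -/
theorem vec_span {F ι : Type} [Field F] {ρ : ℕ} (e : ι → Option (Fin ρ × F))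
    (he : Function.Surjective e) : Submodule.span F (Set.range (vec e)) = ⊤ := by
  have h0 : (Pi.single (0 : Fin (ρ + 1)) (1 : F) : Fin (ρ + 1) → F)
      ∈ Submodule.span F (Set.range (vec e)) := by
    obtain ⟨i, hi⟩ := he none
    refine Submodule.subset_span ⟨i, ?_⟩
    simp only [vec, hi]
  have hs : ∀ j : Fin ρ, (Pi.single j.succ (1 : F) : Fin (ρ + 1) → F)
      ∈ Submodule.span F (Set.range (vec e)) := by
    intro j
    obtain ⟨i, hi⟩ := he (some (j, 0))
    refine Submodule.subset_span ⟨i, ?_⟩
    simp only [vec, hi]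
    rw [Pi.single_zero, add_zero]
  have hall : ∀ k : Fin (ρ + 1), (Pi.single k (1 : F) : Fin (ρ + 1) → F)
      ∈ Submodule.span F (Set.range (vec e)) := by
    intro k
    refine Fin.cases h0 hs k
  rw [Submodule.eq_top_iff']
  intro x
  have hx : x = ∑ k, x k • (Pi.single k (1 : F) : Fin (ρ + 1) → F) := by
    ext m
    simp [Finset.sum_apply, Pi.single_apply]
  rw [hx]
  exact Submodule.sum_mem _ (fun k _ => Submodule.smul_mem _ _ (hall k))

theorem mem_Tset' {F ι : Type} {ρ : ℕ} (e : ι → Option (Fin ρ × F)) (S : Finset ι) (j : Fin ρ)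
    (h : ∃ i ∈ S, ∃ a, e i = some (j, a)) : j ∈ Tset e S := by
  classical
  unfold Tset
  rw [Finset.mem_filter]
  exact ⟨Finset.mem_univ _, h⟩

/-- the extremal example. -/
theorem sharp (F : Type) [Field F] [Fintype F] (ρ : ℕ) :
    ∃ v : Fin (Fintype.card F * ρ + 1) → (Fin (ρ + 1) → F),
      (∀ i, v i ≠ 0) ∧ (∀ i j, i ≠ j → LinearIndependent F ![v i, v j]) ∧
      (∃ (K m : ℕ) (R : Fin (Fintype.card F * ρ + 1) ⊕ Fin K → Fin m → Prop),
        ∀ S : Finset (Fin (Fintype.card F * ρ + 1)),
          LinearIndependent F (fun i : S => v i.1) ↔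
            ∃ f : Fin (Fintype.card F * ρ + 1) ⊕ Fin K → Fin m,
              Set.InjOn f ((Sum.inl '' (S : Set (Fin (Fintype.card F * ρ + 1)))) ∪ Set.range Sum.inr) ∧
              ∀ x ∈ ((Sum.inl '' (S : Set (Fin (Fintype.card F * ρ + 1)))) ∪ Set.range Sum.inr), R x (f x)) ∧
      Submodule.span F (Set.range v) = ⊤ := by
  classical
  have hcard : Fintype.card (Fin (Fintype.card F * ρ + 1)) = Fintype.card (Option (Fin ρ × F)) := by
    rw [Fintype.card_option, Fintype.card_prod, Fintype.card_fin, Fintype.card_fin, mul_comm]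
  let e : Fin (Fintype.card F * ρ + 1) ≃ Option (Fin ρ × F) := Fintype.equivOfCardEq hcard
  have hLI : ∀ S : Finset (Fin (Fintype.card F * ρ + 1)),
      LinearIndependent F (fun i : S => vec e i.1) ↔ S.card ≤ (Tset e S).card + 1 :=
    fun S => ⟨vec_mp e S, vec_mpr e e.injective S⟩
  refine ⟨vec e, ?_, ?_, ⟨0, ρ + 1, Rel e, ?_⟩, vec_span e e.surjective⟩
  · intro i
    have h1 := (hLI {i}).2 (by rw [Finset.card_singleton]; omega)
    exact h1.ne_zero (⟨i, Finset.mem_singleton_self i⟩ : ({i} : Finset _))
  · intro i j hij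
    have h1 := (hLI {i, j}).2 (by
      rw [Finset.card_pair hij]
      have hne : (Tset e {i, j}).Nonempty := by
        rcases hi : e i with _ | ⟨k, a⟩
        · rcases hj : e j with _ | ⟨k, a⟩
          · exact absurd (e.injective (hi.trans hj.symm)) hij
          · exact ⟨k, mem_Tset' _ _ _ ⟨j, by simp, a, hj⟩⟩
        · exact ⟨k, mem_Tset' _ _ _ ⟨i, by simp, a, hi⟩⟩
      have := hne.card_pos
      omega)
    have hinj : Function.Injective (![(⟨i, by simp⟩ : (({i, j} : Finset _) : Finset (Fin (Fintype.card F * ρ + 1)))),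
        ⟨j, by simp⟩]) := by
      intro a b hab
      fin_cases a <;> fin_cases b
      · rfl
      · simp only [Fin.zero_eta, Fin.isValue, Matrix.cons_val_zero, Fin.mk_one, Matrix.cons_val_one] at hab
        exact absurd (congrArg Subtype.val hab) hij
      · simp only [Fin.zero_eta, Fin.isValue, Matrix.cons_val_zero, Fin.mk_one, Matrix.cons_val_one] at hab
        exact absurd (congrArg Subtype.val hab).symm hij
      · rfl
    have h2 := h1.comp _ hinj
    have h3 : (fun i_1 : (({i, j} : Finset _) : Finset (Fin (Fintype.card F * ρ + 1))) => vec e i_1.1) ∘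
        ![(⟨i, by simp⟩ : (({i, j} : Finset _) : Finset (Fin (Fintype.card F * ρ + 1)))), ⟨j, by simp⟩] =
        ![vec e i, vec e j] := by
      funext a
      fin_cases a <;> rfl
    rw [h3] at h2
    exact h2
  · intro S
    rw [hLI S, match_iff e S]

end Pool.Agent.Helper861.Sharp
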