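import Mathlib

set_option autoImplicit false

namespace Pool.Agent.Helper861.Gcc

/-- The set `S(G)`: real symmetric matrices whose off-diagonal zero pattern is that of `G`;
the diagonal is unrestricted. -/
def SG {V : Type} [Fintype V] (G : SimpleGraph V) : Set (Matrix V V ℝ) :=
  {A | A.IsSymm ∧ ∀ i j : V, i ≠ j → (A i j ≠ 0 ↔ G.Adj i j)}

/-- The minimum rank `mr(G)`. -/
noncomputable def mr {V : Type} [Fintype V] (G : SimpleGraph V) : ℕ :=
  sInf {k : ℕ | ∃ A ∈ SG G, A.rank = k}

end Pool.Agent.Helper861.Gcc
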