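import Pool.Agent.Helper861.DeltaG
import Pool.Agent.Helper861.GccDefs

set_option autoImplicit false

open Matrix Finset

namespace Pool.Agent.Helper861.Gcc

open Pool.Agent.Helper861.Delta

section

variable {V : Type} [Fintype V]

theorem mr_le {G : SimpleGraph V} {A : Matrix V V ℝ} (hA : A ∈ SG G) : mr G ≤ A.rank :=
  Nat.sInf_le ⟨A, hA, rfl⟩

open Classical in
theorem SG_nonempty (G : SimpleGraph V) : (SG G).Nonempty := by
  refine ⟨Matrix.of fun i j => if G.Adj i j then 1 else 0, ?_, ?_⟩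
  · ext i j
    simp only [Matrix.transpose_apply, Matrix.of_apply, G.adj_comm]
  · intro i j _
    simp only [Matrix.of_apply]
    by_cases h : G.Adj i j
    · simp [h]
    · simp [h]

theorem mr_attained (G : SimpleGraph V) : ∃ A ∈ SG G, A.rank = mr G := by
  obtain ⟨A, hA⟩ := SG_nonempty G
  exact Nat.sInf_mem (s := {k : ℕ | ∃ A ∈ SG G, A.rank = k}) ⟨A.rank, A, hA, rfl⟩

open Classical in
/-- The core bound. -/
theorem mr_core (G : SimpleGraph V) (S : Finset V) (d : ℕ) (hS : S.Nonempty)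
    (hd : ∀ x ∈ S, d ≤ (S.filter fun y => G.Adj x y).card) : mr G + d ≤ Fintype.card V := by
  obtain ⟨A, h1, h2, h3⟩ := core ℝ V G S d hS (by convert hd)
  have := mr_le (G := G) (A := A) ⟨h1, h2⟩
  omega

open Classical in
/-- Either graph has small minimum rank or the other one has a large core. -/
theorem mr_pair (G : SimpleGraph V) :
    ∃ a : ℕ, mr G + a ≤ Fintype.card V ∧ mr Gᶜ ≤ 2 * a + 1 := by
  let P : ℕ → Prop := fun a => ∀ S : Finset V, S.Nonempty →
    ∃ x ∈ S, (S.filter fun y => G.Adj x y).card ≤ a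
  have hP : ∃ a, P a := by
    refine ⟨Fintype.card V, fun S hS => ?_⟩
    obtain ⟨x, hx⟩ := hS
    exact ⟨x, hx, Finset.card_le_univ _⟩
  refine ⟨Nat.find hP, ?_, ?_⟩
  · rcases Nat.eq_zero_or_pos (Nat.find hP) with h0 | h0
    · rw [h0, add_zero]
      obtain ⟨A, hA⟩ := SG_nonempty G
      exact (mr_le hA).trans (by simpa using Matrix.rank_le_card_width A)
    · have h1 : ¬ P (Nat.find hP - 1) := Nat.find_min hP (by omega)
      simp only [P] at h1
      push Not at h1
      obtain ⟨S, hS, h2⟩ := h1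
      refine mr_core G S _ hS fun x hx => ?_
      have := h2 x hx
      omega
  · obtain ⟨A, h1, h2, h3⟩ := degen_compl V G (Nat.find hP) (by
      have := Nat.find_spec hP
      simp only [P] at this
      convert this)
    exact (mr_le (G := Gᶜ) (A := A) ⟨h1, h2⟩).trans h3

theorem two_mr (G : SimpleGraph V) : 2 * mr G + mr Gᶜ ≤ 2 * Fintype.card V + 1 := by
  obtain ⟨a, h1, h2⟩ := mr_pair G
  omega

theorem four_thirds (G : SimpleGraph V) : 3 * (mr G + mr Gᶜ) ≤ 4 * Fintype.card V + 2 := by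
  have h1 := two_mr G
  have h2 := two_mr Gᶜ
  rw [compl_compl] at h2
  omega

theorem mr_subsingleton [Subsingleton V] (G : SimpleGraph V) : mr G = 0 := by
  have h : (0 : Matrix V V ℝ) ∈ SG G :=
    ⟨by simp [Matrix.IsSymm], fun i j hij => absurd (Subsingleton.elim i j) hij⟩
  have := mr_le h
  rw [Matrix.rank_zero] at this
  omega

end

/-- A `3 × 3` triangular submatrix with nonzero diagonal forces rank at least `3`. -/
theorem rank_ge_three (A : Matrix (Fin 4) (Fin 4) ℝ) (p q : Fin 3 → Fin 4)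
    (h01 : A (p 0) (q 1) = 0) (h02 : A (p 0) (q 2) = 0) (h12 : A (p 1) (q 2) = 0)
    (h00 : A (p 0) (q 0) ≠ 0) (h11 : A (p 1) (q 1) ≠ 0) (h22 : A (p 2) (q 2) ≠ 0) :
    3 ≤ A.rank := by
  set B : Matrix (Fin 3) (Fin 3) ℝ := A.submatrix p q with hB
  have hdet : B.det ≠ 0 := by
    rw [Matrix.det_fin_three]
    simp only [hB, Matrix.submatrix_apply, h01, h02, h12]
    simp only [mul_zero, zero_mul, sub_zero, add_zero]
    exact mul_ne_zero (mul_ne_zero h00 h11) h22
  have hrank : B.rank = 3 := by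
    rw [Matrix.rank_of_isUnit B ((Matrix.isUnit_iff_isUnit_det B).mpr (isUnit_iff_ne_zero.mpr hdet))]
    simp
  have hfac : B = (1 : Matrix (Fin 4) (Fin 4) ℝ).submatrix p id * A *
      (1 : Matrix (Fin 4) (Fin 4) ℝ).submatrix id q := by
    ext i j
    simp [hB, Matrix.mul_apply, Matrix.one_apply]
  calc 3 = B.rank := hrank.symm
    _ ≤ ((1 : Matrix (Fin 4) (Fin 4) ℝ).submatrix p id * A).rank := by
        rw [hfac]
        exact Matrix.rank_mul_le_left _ _
    _ ≤ A.rank := Matrix.rank_mul_le_right _ _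

/-- The path on four vertices. -/
def P4 : SimpleGraph (Fin 4) := SimpleGraph.fromRel fun i j => (j : ℕ) = i + 1

theorem P4_adj (i j : Fin 4) : P4.Adj i j ↔ ((j : ℕ) = i + 1 ∨ (i : ℕ) = j + 1) := by
  unfold P4
  rw [SimpleGraph.fromRel_adj]
  constructor
  · exact fun h => h.2
  · intro h
    refine ⟨?_, h⟩
    rintro rfl
    omega

theorem three_le_mr_P4 : 3 ≤ mr P4 := by
  obtain ⟨A, ⟨_, hA⟩, hr⟩ := mr_attained P4
  rw [← hr]
  have hz : ∀ i j : Fin 4, i ≠ j → ¬ ((j : ℕ) = i + 1 ∨ (i : ℕ) = j + 1) → A i j = 0 := by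
    intro i j hij h
    by_contra hne
    exact h ((P4_adj i j).mp ((hA i j hij).mp hne))
  have hn : ∀ i j : Fin 4, i ≠ j → ((j : ℕ) = i + 1 ∨ (i : ℕ) = j + 1) → A i j ≠ 0 := by
    intro i j hij h
    exact (hA i j hij).mpr ((P4_adj i j).mpr h)
  refine rank_ge_three A ![0, 1, 2] ![1, 2, 3] ?_ ?_ ?_ ?_ ?_ ?_
  · exact hz 0 2 (by decide) (by decide)
  · exact hz 0 3 (by decide) (by decide)
  · exact hz 1 3 (by decide) (by decide)
  · exact hn 0 1 (by decide) (by decide)
  · exact hn 1 2 (by decide) (by decide)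
  · exact hn 2 3 (by decide) (by decide)

theorem three_le_mr_P4_compl : 3 ≤ mr P4ᶜ := by
  obtain ⟨A, ⟨_, hA⟩, hr⟩ := mr_attained P4ᶜ
  rw [← hr]
  have hz : ∀ i j : Fin 4, i ≠ j → ((j : ℕ) = i + 1 ∨ (i : ℕ) = j + 1) → A i j = 0 := by
    intro i j hij h
    by_contra hne
    have := (hA i j hij).mp hne
    rw [SimpleGraph.compl_adj, P4_adj] at this
    exact this.2 h
  have hn : ∀ i j : Fin 4, i ≠ j → ¬ ((j : ℕ) = i + 1 ∨ (i : ℕ) = j + 1) → A i j ≠ 0 := by
    intro i j hij h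
    refine (hA i j hij).mpr ?_
    rw [SimpleGraph.compl_adj, P4_adj]
    exact ⟨hij, h⟩
  refine rank_ge_three A ![2, 0, 3] ![0, 3, 1] ?_ ?_ ?_ ?_ ?_ ?_
  · exact hz 2 3 (by decide) (by decide)
  · exact hz 2 1 (by decide) (by decide)
  · exact hz 0 1 (by decide) (by decide)
  · exact hn 2 0 (by decide) (by decide)
  · exact hn 0 3 (by decide) (by decide)
  · exact hn 3 1 (by decide) (by decide)

theorem isLeast_three_halves :
    IsLeast {d : ℝ | ∀ (n : ℕ) (G : SimpleGraph (Fin n)), (mr G : ℝ) + mr Gᶜ ≤ d * n}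
      (3 / 2) := by
  constructor
  · intro n G
    have h1 := four_thirds G
    rw [Fintype.card_fin] at h1
    have h2 : 2 * (mr G + mr Gᶜ) ≤ 3 * n := by
      rcases Nat.lt_or_ge n 2 with h | h
      · haveI : Subsingleton (Fin n) := Fin.subsingleton_iff_le_one.mpr (by omega)
        rw [mr_subsingleton G, mr_subsingleton Gᶜ]
        omega
      · omega
    have h3 : ((2 * (mr G + mr Gᶜ) : ℕ) : ℝ) ≤ ((3 * n : ℕ) : ℝ) := by exact_mod_cast h2
    push_cast at h3
    linarith
  · intro d hd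
    have h := hd 4 P4
    have h1 : (3 : ℝ) ≤ mr P4 := by exact_mod_cast three_le_mr_P4
    have h2 : (3 : ℝ) ≤ mr P4ᶜ := by exact_mod_cast three_le_mr_P4_compl
    norm_num at h
    linarith

open Classical in
theorem degree_bound {V : Type} [Fintype V] [Nonempty V] (G : SimpleGraph V) :
    mr G + mr Gᶜ + G.minDegree ≤ Fintype.card V + 1 + G.maxDegree := by
  have h1 : mr G + G.minDegree ≤ Fintype.card V := by
    obtain ⟨A, h1, h2, h3⟩ := delta ℝ V G
    have := mr_le (G := G) (A := A) ⟨h1, h2⟩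
    omega
  have h2 : mr Gᶜ + Gᶜ.minDegree ≤ Fintype.card V := by
    obtain ⟨A, h1, h2, h3⟩ := delta ℝ V Gᶜ
    have := mr_le (G := Gᶜ) (A := A) ⟨h1, h2⟩
    omega
  have h3 : Fintype.card V ≤ Gᶜ.minDegree + 1 + G.maxDegree := by
    obtain ⟨v, hv⟩ := Gᶜ.exists_minimal_degree_vertex
    have h4 := G.degree_le_maxDegree v
    rw [hv, SimpleGraph.degree_compl]
    omega
  omega

theorem degree_gap (n : ℕ) (hn : 0 < n) (G : SimpleGraph (Fin n)) [DecidableRel G.Adj] :
    mr G + mr Gᶜ + G.minDegree ≤ n + 1 + G.maxDegree := by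
  have hne : Nonempty (Fin n) := ⟨⟨0, hn⟩⟩
  have h := degree_bound G
  rw [Fintype.card_fin] at h
  have e1 : (inferInstance : DecidableRel G.Adj) = fun a b => Classical.propDecidable (G.Adj a b) :=
    Subsingleton.elim _ _
  have e2 : G.minDegree = @SimpleGraph.minDegree (Fin n) G (Fin.fintype n)
      (fun a b => Classical.propDecidable (G.Adj a b)) := by rw [← e1]
  have e3 : G.maxDegree = @SimpleGraph.maxDegree (Fin n) G (Fin.fintype n)
      (fun a b => Classical.propDecidable (G.Adj a b)) := by rw [← e1]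
  rw [e2, e3]
  exact h

end Pool.Agent.Helper861.Gcc
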