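import Mathlib

set_option autoImplicit false

namespace Pool.Agent.Helper861.Inv

open Complex Set Filter Topology Metric Bornology

/-- exterior domain -/
def DD (R : ℝ) : Set ℂ := {w | R < ‖w‖}

lemma isOpen_DD (R : ℝ) : IsOpen (DD R) := isOpen_lt continuous_const continuous_norm

lemma DD_mono {R S : ℝ} (h : R ≤ S) : DD S ⊆ DD R := fun _ hw => lt_of_le_of_lt h hw

lemma mem_DD {R : ℝ} {w : ℂ} : w ∈ DD R ↔ R < ‖w‖ := Iff.rfl

lemma DD_near {R s : ℝ} {w u : ℂ} (hw : w ∈ DD (R + s)) (h : ‖u - w‖ ≤ s) : u ∈ DD R := by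
  have h1 : R + s < ‖w‖ := hw
  have h2 : ‖w‖ ≤ ‖u‖ + ‖u - w‖ := by
    have := norm_sub_le u (u - w)
    rwa [sub_sub_cancel] at this
  show R < ‖u‖
  linarith

lemma DD_ball {R s : ℝ} {w : ℂ} (hw : w ∈ DD (R + s)) : closedBall w s ⊆ DD R := by
  intro u hu
  rw [mem_closedBall, dist_eq_norm] at hu
  exact DD_near hw hu

lemma DD_cobounded (R : ℝ) : DD R ∈ cobounded ℂ := by
  have : {w : ℂ | R + 1 ≤ ‖w‖} ∈ cobounded ℂ := by
    have := (tendsto_norm_cobounded_atTop (E := ℂ)).eventually_ge_atTop (R + 1)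
    exact this
  filter_upwards [this] with w hw
  exact lt_of_lt_of_le (by linarith) hw

/-- normalised circle integral -/
noncomputable def ci (R : ℝ) (g : ℂ → ℂ) : ℂ := (2 * Real.pi * I : ℂ)⁻¹ • ∮ ζ in C(0, R), g ζ

lemma ci_norm_le {R C : ℝ} (hR : 0 ≤ R) {g : ℂ → ℂ} (h : ∀ ζ ∈ sphere (0 : ℂ) R, ‖g ζ‖ ≤ C) :
    ‖ci R g‖ ≤ R * C :=
  circleIntegral.norm_two_pi_i_inv_smul_integral_le_of_norm_le_const hR h

lemma ci_congr {R : ℝ} (hR : 0 ≤ R) {f g : ℂ → ℂ} (h : ∀ ζ ∈ sphere (0 : ℂ) R, f ζ = g ζ) :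
    ci R f = ci R g := by
  unfold ci
  rw [circleIntegral.integral_congr hR h]

lemma ci_add {R : ℝ} (hR : 0 ≤ R) {f g : ℂ → ℂ} (hf : ContinuousOn f (sphere 0 R))
    (hg : ContinuousOn g (sphere 0 R)) : ci R (fun ζ => f ζ + g ζ) = ci R f + ci R g := by
  unfold ci
  rw [circleIntegral.integral_add (hf.circleIntegrable hR) (hg.circleIntegrable hR), smul_add]

lemma ci_sub {R : ℝ} (hR : 0 ≤ R) {f g : ℂ → ℂ} (hf : ContinuousOn f (sphere 0 R))
    (hg : ContinuousOn g (sphere 0 R)) : ci R (fun ζ => f ζ - g ζ) = ci R f - ci R g := by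
  unfold ci
  rw [circleIntegral.integral_sub (hf.circleIntegrable hR) (hg.circleIntegrable hR), smul_sub]

lemma ci_const_mul {R : ℝ} (a : ℂ) (f : ℂ → ℂ) : ci R (fun ζ => a * f ζ) = a * ci R f := by
  unfold ci
  rw [circleIntegral.integral_const_mul]
  simp only [smul_eq_mul]
  ring

lemma ci_sum {R : ℝ} (hR : 0 ≤ R) {m : ℕ} {f : Fin m → ℂ → ℂ}
    (hf : ∀ i, ContinuousOn (f i) (sphere 0 R)) :
    ci R (fun ζ => ∑ i, f i ζ) = ∑ i, ci R (f i) := by
  unfold ci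
  rw [circleIntegral.integral_fun_sum (fun i _ => (hf i).circleIntegrable hR), Finset.smul_sum]

lemma two_pi_I_ne : (2 * Real.pi * I : ℂ) ≠ 0 := by
  simp [Real.pi_ne_zero]

/-- residue at infinity vanishes -/
lemma ci_zero {r : ℂ → ℂ} {R₀ R : ℝ} (hR : 0 < R) (h : R₀ < R)
    (hd : DifferentiableOn ℂ r (DD R₀))
    (h0 : Tendsto (fun w => w * r w) (cobounded ℂ) (𝓝 0)) : ci R r = 0 := by
  have key : ∀ ε > 0, ‖∮ ζ in C(0, R), r ζ‖ ≤ ε := by
    intro ε hε
    have h1 : ∀ᶠ w in cobounded ℂ, ‖w * r w‖ ≤ ε / (2 * Real.pi) := by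
      have := (tendsto_zero_iff_norm_tendsto_zero.mp h0).eventually
        (gt_mem_nhds (show (0 : ℝ) < ε / (2 * Real.pi) by positivity))
      filter_upwards [this] with w hw using hw.le
    rw [← comap_norm_atTop, eventually_comap, eventually_atTop] at h1
    obtain ⟨T, hT⟩ := h1
    set S := max T R with hS
    have hRS : R ≤ S := le_max_right _ _
    have hS0 : 0 < S := lt_of_lt_of_le hR hRS
    have e : ∮ ζ in C(0, S), r ζ = ∮ ζ in C(0, R), r ζ := by
      refine Complex.circleIntegral_eq_of_differentiable_on_annulus_off_countable hR hRS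
        countable_empty ?_ ?_
      · refine hd.continuousOn.mono ?_
        rintro z ⟨-, hz⟩
        simp only [mem_ball, dist_zero_right, not_lt] at hz
        exact lt_of_lt_of_le h hz
      · rintro z ⟨⟨-, hz⟩, -⟩
        simp only [mem_closedBall, dist_zero_right, not_le] at hz
        exact (hd z (lt_trans h hz)).differentiableAt ((isOpen_DD _).mem_nhds (lt_trans h hz))
    rw [← e]
    have h2 := circleIntegral.norm_integral_le_of_norm_le_const (f := r) (c := 0) (R := S)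
      (C := ε / (2 * Real.pi) / S) hS0.le (by
        intro z hz
        rw [mem_sphere, dist_zero_right] at hz
        have := hT S (le_max_left _ _) z hz
        rw [norm_mul, hz] at this
        rw [le_div_iff₀ hS0, mul_comm]
        exact this)
    refine h2.trans (le_of_eq ?_)
    field_simp
  have : ∮ ζ in C(0, R), r ζ = 0 := by
    rw [← norm_le_zero_iff]
    exact le_of_forall_pos_le_add (fun ε hε => by simpa using key ε hε)
  unfold ci
  rw [this, smul_zero]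

/-- Cauchy formula at infinity -/
lemma cauchy_inf {r : ℂ → ℂ} {R₀ R : ℝ} (hR : 0 < R) (h : R₀ < R)
    (hd : DifferentiableOn ℂ r (DD R₀))
    (h0 : Tendsto r (cobounded ℂ) (𝓝 0)) {w : ℂ} (hw : w ∈ DD R) :
    ci R (fun ζ => r ζ / (w - ζ)) = r w := by
  have hw' : R < ‖w‖ := hw
  have hw0 : 0 < ‖w‖ := lt_trans hR hw'
  have hdw : DifferentiableAt ℂ r w :=
    (hd w (lt_trans h hw)).differentiableAt ((isOpen_DD _).mem_nhds (lt_trans h hw))
  have c1 : ∀ S, 0 < S → R₀ < S → S ≠ ‖w‖ →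
      ContinuousOn (fun ζ => r ζ / (ζ - w)) (sphere 0 S) := by
    intro S _ hS1 hS2
    refine ContinuousOn.div (hd.continuousOn.mono ?_) (by fun_prop) ?_
    · intro z hz
      rw [mem_sphere, dist_zero_right] at hz
      show R₀ < ‖z‖
      rw [hz]; exact hS1
    · intro z hz hzw
      rw [mem_sphere, dist_zero_right] at hz
      rw [sub_eq_zero] at hzw
      rw [hzw] at hz
      exact hS2 hz.symm
  have c2 : ∀ S, 0 < S → S ≠ ‖w‖ → ContinuousOn (fun ζ => (ζ - w)⁻¹) (sphere (0 : ℂ) S) := by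
    intro S _ hS2
    refine ContinuousOn.inv₀ (by fun_prop) ?_
    intro z hz hzw
    rw [mem_sphere, dist_zero_right] at hz
    rw [sub_eq_zero] at hzw
    rw [hzw] at hz
    exact hS2 hz.symm
  have hg : ∀ S, 0 < S → R₀ < S → S ≠ ‖w‖ → ∮ ζ in C(0, S), dslope r w ζ =
      (∮ ζ in C(0, S), r ζ / (ζ - w)) - r w * ∮ ζ in C(0, S), (ζ - w)⁻¹ := by
    intro S hS0 hS1 hS2
    rw [← circleIntegral.integral_const_mul, ← circleIntegral.integral_sub
      ((c1 S hS0 hS1 hS2).circleIntegrable hS0.le)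
      (((c2 S hS0 hS2).const_mul (r w)).circleIntegrable hS0.le)]
    refine circleIntegral.integral_congr hS0.le ?_
    intro z hz
    rw [mem_sphere, dist_zero_right] at hz
    have hne : z ≠ w := fun hzw => hS2 (by rw [← hz, hzw])
    show dslope r w z = r z / (z - w) - r w * (z - w)⁻¹
    rw [dslope_of_ne _ hne, slope_def_field]
    ring
  have i1 : ∮ ζ in C(0, R), (ζ - w)⁻¹ = 0 := by
    refine Complex.circleIntegral_eq_zero_of_differentiable_on_off_countable hR.le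
      countable_empty ?_ ?_
    · refine ContinuousOn.inv₀ (by fun_prop) ?_
      intro z hz hzw
      rw [mem_closedBall, dist_zero_right] at hz
      rw [sub_eq_zero] at hzw
      rw [hzw] at hz
      linarith
    · rintro z ⟨hz, -⟩
      rw [mem_ball, dist_zero_right] at hz
      refine DifferentiableAt.inv (by fun_prop) ?_
      intro hzw
      rw [sub_eq_zero] at hzw
      rw [hzw] at hz
      linarith
  have key : ∀ ε > 0, ‖(∮ ζ in C(0, R), r ζ / (ζ - w)) + 2 * Real.pi * I * r w‖ ≤ ε := by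
    intro ε hε
    have h1 : ∀ᶠ v in cobounded ℂ, ‖r v‖ ≤ ε / (4 * Real.pi) := by
      have := (tendsto_zero_iff_norm_tendsto_zero.mp h0).eventually
        (gt_mem_nhds (show (0 : ℝ) < ε / (4 * Real.pi) by positivity))
      filter_upwards [this] with v hv using hv.le
    rw [← comap_norm_atTop, eventually_comap, eventually_atTop] at h1
    obtain ⟨T, hT⟩ := h1
    set S := max T (2 * ‖w‖) with hS
    have hwS : 2 * ‖w‖ ≤ S := le_max_right _ _
    have hS0 : 0 < S := by linarith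
    have hRS : R ≤ S := by linarith
    have e : ∮ ζ in C(0, S), dslope r w ζ = ∮ ζ in C(0, R), dslope r w ζ := by
      refine Complex.circleIntegral_eq_of_differentiable_on_annulus_off_countable hR hRS
        (countable_singleton w) ?_ ?_
      · have hcd : ContinuousOn (dslope r w) (DD R₀) :=
          (continuousOn_dslope ((isOpen_DD _).mem_nhds (lt_trans h hw))).mpr
            ⟨hd.continuousOn, hdw⟩
        refine hcd.mono ?_
        rintro z ⟨-, hz⟩
        simp only [mem_ball, dist_zero_right, not_lt] at hz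
        exact lt_of_lt_of_le h hz
      · rintro z ⟨⟨-, hz⟩, hz2⟩
        simp only [mem_closedBall, dist_zero_right, not_le] at hz
        rw [differentiableAt_dslope_of_ne hz2]
        exact (hd z (lt_trans h hz)).differentiableAt ((isOpen_DD _).mem_nhds (lt_trans h hz))
    rw [hg S hS0 (by linarith) (by linarith), hg R hR h hw'.ne, i1, mul_zero, sub_zero,
      circleIntegral.integral_sub_inv_of_mem_ball (by
        rw [mem_ball, dist_zero_right]; linarith)] at e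
    rw [← e, show (∮ ζ in C(0, S), r ζ / (ζ - w)) - r w * (2 * Real.pi * I) +
      2 * Real.pi * I * r w = ∮ ζ in C(0, S), r ζ / (ζ - w) from by ring]
    have h2 := circleIntegral.norm_integral_le_of_norm_le_const (f := fun ζ => r ζ / (ζ - w))
      (c := 0) (R := S) (C := ε / (4 * Real.pi) / (S / 2)) hS0.le (by
        intro z hz
        rw [mem_sphere, dist_zero_right] at hz
        have hr := hT S (le_max_left _ _) z hz
        have hzw : S / 2 ≤ ‖z - w‖ := by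
          have := norm_sub_norm_le z w
          linarith
        rw [norm_div]
        exact div_le_div₀ (by positivity) hr (by positivity) hzw)
    refine h2.trans (le_of_eq ?_)
    field_simp
    ring
  have h3 : (∮ ζ in C(0, R), r ζ / (ζ - w)) + 2 * Real.pi * I * r w = 0 := by
    rw [← norm_le_zero_iff]
    exact le_of_forall_pos_le_add (fun ε hε => by simpa using key ε hε)
  have h4 : ci R (fun ζ => r ζ / (w - ζ)) = -ci R (fun ζ => r ζ / (ζ - w)) := by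
    rw [show -ci R (fun ζ => r ζ / (ζ - w)) = (-1 : ℂ) * ci R (fun ζ => r ζ / (ζ - w)) from by ring,
      ← ci_const_mul]
    refine ci_congr hR.le ?_
    intro z _
    rw [← neg_sub z w, div_neg]; ring
  rw [h4]
  unfold ci
  rw [eq_neg_of_add_eq_zero_left h3, smul_neg, neg_neg, smul_eq_mul, ← mul_assoc,
    inv_mul_cancel₀ two_pi_I_ne, one_mul]


/-! Cauchy estimates -/

lemma deriv_bd {g : ℂ → ℂ} {R s M : ℝ} (hs : 0 < s) (hd : DifferentiableOn ℂ g (DD R))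
    (hM : ∀ w ∈ DD R, ‖g w‖ ≤ M) {w : ℂ} (hw : w ∈ DD (R + s)) : ‖deriv g w‖ ≤ M / s := by
  have hb : closedBall w s ⊆ DD R := DD_ball hw
  refine Complex.norm_deriv_le_of_forall_mem_sphere_norm_le hs ?_ ?_
  · exact (hd.mono hb).diffContOnCl_ball (Subset.rfl)
  · intro z hz
    exact hM z (hb (sphere_subset_closedBall hz))

lemma differentiableAt_of_DD {g : ℂ → ℂ} {R : ℝ} (hd : DifferentiableOn ℂ g (DD R)) {w : ℂ}
    (hw : w ∈ DD R) : DifferentiableAt ℂ g w :=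
  (hd w hw).differentiableAt ((isOpen_DD R).mem_nhds hw)

lemma cauchy_lip {g : ℂ → ℂ} {R s M : ℝ} (hs : 0 < s) (hd : DifferentiableOn ℂ g (DD R))
    (hM : ∀ w ∈ DD R, ‖g w‖ ≤ M) {w z : ℂ} (hw : w ∈ DD (R + s)) (hz : z ∈ DD (R + s)) :
    ‖g w - g z‖ ≤ 4 * M / s * ‖w - z‖ := by
  have hM0 : 0 ≤ M := (norm_nonneg _).trans (hM w (DD_mono (by linarith) hw))
  by_cases h : ‖w - z‖ ≤ s / 2
  · have hsub : closedBall z (s / 2) ⊆ DD (R + s / 2) :=
      DD_ball (by rw [add_assoc, add_halves]; exact hz)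
    have := (convex_closedBall z (s / 2)).norm_image_sub_le_of_norm_deriv_le
      (f := g) (C := M / (s / 2)) (x := z) (y := w)
      (fun u hu => differentiableAt_of_DD hd (DD_mono (by linarith) (hsub hu)))
      (fun u hu => deriv_bd (by positivity) hd hM (hsub hu))
      (mem_closedBall_self (by positivity)) (by rwa [mem_closedBall, dist_eq_norm])
    refine this.trans (mul_le_mul_of_nonneg_right ?_ (norm_nonneg _))
    rw [div_le_div_iff₀ (by positivity) hs]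
    nlinarith
  · push Not at h
    have h1 : ‖g w - g z‖ ≤ 2 * M := by
      refine (norm_sub_le _ _).trans ?_
      have := hM w (DD_mono (by linarith) hw)
      have := hM z (DD_mono (by linarith) hz)
      linarith
    refine h1.trans ?_
    rw [div_mul_eq_mul_div, le_div_iff₀ hs]
    nlinarith

lemma cauchy_second {g : ℂ → ℂ} {R s M : ℝ} (hs : 0 < s) (hd : DifferentiableOn ℂ g (DD R))
    (hM : ∀ w ∈ DD R, ‖g w‖ ≤ M) {w z : ℂ} (hw : w ∈ DD (R + s)) (hz : z ∈ DD (R + s)) :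
    ‖deriv g z * (w - z) - (g w - g z)‖ ≤ 36 * M / s ^ 2 * ‖w - z‖ ^ 2 := by
  have hM0 : 0 ≤ M := (norm_nonneg _).trans (hM w (DD_mono (by linarith) hw))
  by_cases h : ‖w - z‖ ≤ s / 4
  · set t := ‖w - z‖ with ht
    have hsub : closedBall z (s / 4) ⊆ DD (R + 3 * s / 4) :=
      DD_ball (by
        rw [show R + 3 * s / 4 + s / 4 = R + s from by ring]; exact hz)
    have hd' : DifferentiableOn ℂ (deriv g) (DD R) := hd.deriv (isOpen_DD R)
    have hb1 : ∀ u ∈ DD (R + s / 2), ‖deriv g u‖ ≤ M / (s / 2) := fun u hu =>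
      deriv_bd (by positivity) hd hM hu
    have hb2 : ∀ u ∈ closedBall z (s / 4), ‖deriv (deriv g) u‖ ≤ (M / (s / 2)) / (s / 4) := by
      intro u hu
      refine deriv_bd (R := R + s / 2) (by positivity)
        (hd'.mono (DD_mono (by linarith))) hb1 ?_
      have := hsub hu
      rwa [show R + 3 * s / 4 = R + s / 2 + s / 4 from by ring] at this
    have hb3 : ∀ u ∈ closedBall z t, ‖deriv g u - deriv g z‖ ≤ (M / (s / 2)) / (s / 4) * t := by
      intro u hu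
      have hu' : u ∈ closedBall z (s / 4) := closedBall_subset_closedBall h hu
      have := (convex_closedBall z (s / 4)).norm_image_sub_le_of_norm_deriv_le
        (f := deriv g) (C := (M / (s / 2)) / (s / 4)) (x := z) (y := u)
        (fun v hv => differentiableAt_of_DD hd' (DD_mono (by linarith) (hsub hv)))
        hb2 (mem_closedBall_self (by positivity)) hu'
      refine this.trans (mul_le_mul_of_nonneg_left ?_ (by positivity))
      rwa [mem_closedBall, dist_eq_norm] at hu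
    have hb4 := (convex_closedBall z t).norm_image_sub_le_of_norm_deriv_le
        (f := fun u => deriv g z * u - g u) (C := (M / (s / 2)) / (s / 4) * t) (x := z) (y := w)
        (fun v hv => by
          have hv' : v ∈ DD R :=
            DD_mono (by linarith) (hsub (closedBall_subset_closedBall h hv))
          exact (differentiableAt_id.const_mul _).sub (differentiableAt_of_DD hd hv'))
        (fun v hv => by
          have hv' : v ∈ DD R :=
            DD_mono (by linarith) (hsub (closedBall_subset_closedBall h hv))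
          have e1 : HasDerivAt (fun u => deriv g z * u - g u) (deriv g z * 1 - deriv g v) v :=
            ((hasDerivAt_id v).const_mul (deriv g z)).sub
              (differentiableAt_of_DD hd hv').hasDerivAt
          rw [e1.deriv, mul_one, ← norm_neg, neg_sub]
          exact hb3 v hv)
        (mem_closedBall_self (norm_nonneg _)) (by rw [mem_closedBall, dist_eq_norm])
    have e : deriv g z * (w - z) - (g w - g z) =
        (deriv g z * w - g w) - (deriv g z * z - g z) := by ring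
    rw [e]
    refine hb4.trans ?_
    rw [← ht]
    have : M / (s / 2) / (s / 4) * t * t = 8 * M / s ^ 2 * t ^ 2 := by
      field_simp; ring
    rw [this]
    refine mul_le_mul_of_nonneg_right ?_ (by positivity)
    exact div_le_div_of_nonneg_right (by linarith) (by positivity)
  · push Not at h
    set t := ‖w - z‖ with ht
    have h1 : ‖g w - g z‖ ≤ 2 * M := by
      refine (norm_sub_le _ _).trans ?_
      have := hM w (DD_mono (by linarith) hw)
      have := hM z (DD_mono (by linarith) hz)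
      linarith
    have h2 : ‖deriv g z * (w - z)‖ ≤ M / s * t := by
      rw [norm_mul]
      exact mul_le_mul_of_nonneg_right (deriv_bd hs hd hM hz) (norm_nonneg _)
    have h3 : ‖deriv g z * (w - z) - (g w - g z)‖ ≤ M / s * t + 2 * M :=
      (norm_sub_le _ _).trans (add_le_add h2 h1)
    refine h3.trans ?_
    have h4 : 1 ≤ 4 * t / s := by rw [le_div_iff₀ hs]; linarith
    have h5 : M / s * t = M * (t / s) := by ring
    have h6 : 36 * M / s ^ 2 * t ^ 2 = M * (36 * (t / s) ^ 2) := by field_simp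
    rw [h5, h6]
    have h7 : 1 / 4 ≤ t / s := by rw [le_div_iff₀ hs]; linarith
    have h8 : t / s + 2 ≤ 36 * (t / s) ^ 2 := by nlinarith
    nlinarith

/-! Solving `Y u = p w` -/

lemma deriv_near_one {Y : ℂ → ℂ} {R A : ℝ} (hA : 0 ≤ A)
    (hYd : DifferentiableOn ℂ Y (DD R))
    (hLip : ∀ w ∈ DD R, ∀ z ∈ DD R, ‖(Y w - w) - (Y z - z)‖ ≤ A * ‖w - z‖) {w : ℂ}
    (hw : w ∈ DD R) : ‖deriv Y w - 1‖ ≤ A := by
  have h1 : HasDerivAt (fun u => Y u - u) (deriv Y w - 1) w :=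
    (differentiableAt_of_DD hYd hw).hasDerivAt.sub (hasDerivAt_id w)
  refine h1.le_of_lip' hA ?_
  filter_upwards [(isOpen_DD R).mem_nhds hw] with z hz
  exact hLip z hz w hw

lemma Y_lower {Y : ℂ → ℂ} {R A : ℝ}
    (hLip : ∀ w ∈ DD R, ∀ z ∈ DD R, ‖(Y w - w) - (Y z - z)‖ ≤ A * ‖w - z‖) {w z : ℂ}
    (hw : w ∈ DD R) (hz : z ∈ DD R) : (1 - A) * ‖w - z‖ ≤ ‖Y w - Y z‖ := by
  have h1 := hLip w hw z hz
  have h2 : ‖w - z‖ ≤ ‖Y w - Y z‖ + ‖(Y w - w) - (Y z - z)‖ := by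
    have := norm_sub_le (Y w - Y z) ((Y w - w) - (Y z - z))
    rwa [show Y w - Y z - (Y w - w - (Y z - z)) = w - z from by ring] at this
  linarith

lemma solve {Y p : ℂ → ℂ} {R s A : ℝ} (hYd : DifferentiableOn ℂ Y (DD R)) (hA : 0 ≤ A)
    (hA' : A ≤ 1 / 2)
    (hLip : ∀ w ∈ DD R, ∀ z ∈ DD R, ‖(Y w - w) - (Y z - z)‖ ≤ A * ‖w - z‖) (hs : 0 ≤ s)
    (hp : DifferentiableOn ℂ p (DD (R + s))) (hc : ∀ w ∈ DD (R + s), ‖p w - Y w‖ ≤ s / 2) :
    ∃ P : ℂ → ℂ, DifferentiableOn ℂ P (DD (R + s)) ∧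
      ∀ w ∈ DD (R + s), P w ∈ DD R ∧ Y (P w) = p w ∧ ‖P w - w‖ ≤ 2 * ‖p w - Y w‖ := by
  have happ : ApproximatesLinearOn Y ((ContinuousLinearEquiv.refl ℂ ℂ : ℂ ≃L[ℂ] ℂ) : ℂ →L[ℂ] ℂ)
      (DD R) (⟨A, hA⟩ : NNReal) := by
    intro w hw z hz
    have := hLip w hw z hz
    rwa [show (Y w - w) - (Y z - z) = Y w - Y z - (w - z) from by ring] at this
  have hnn : ‖((ContinuousLinearEquiv.refl ℂ ℂ : ℂ ≃L[ℂ] ℂ).symm : ℂ →L[ℂ] ℂ)‖₊ = 1 := by
    have : ‖((ContinuousLinearEquiv.refl ℂ ℂ : ℂ ≃L[ℂ] ℂ).symm : ℂ →L[ℂ] ℂ)‖ = 1 :=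
      ContinuousLinearMap.norm_id (𝕜 := ℂ) (E := ℂ)
    exact NNReal.eq this
  have hcN : (⟨A, hA⟩ : NNReal) <
      ‖((ContinuousLinearEquiv.refl ℂ ℂ : ℂ ≃L[ℂ] ℂ).symm : ℂ →L[ℂ] ℂ)‖₊⁻¹ := by
    rw [hnn, inv_one]
    exact_mod_cast (show A < 1 by linarith)
  let e := happ.toOpenPartialHomeomorph Y (DD R) (Or.inr hcN) (isOpen_DD R)
  have he : ∀ u, e u = Y u := fun u => rfl
  have hsrc : e.source = DD R := rfl
  have hmem : ∀ w ∈ DD (R + s), ∃ u ∈ DD R, Y u = p w := by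
    intro w hw
    have hsurj := happ.surjOn_closedBall_of_nonlinearRightInverse
      (ContinuousLinearEquiv.toNonlinearRightInverse (ContinuousLinearEquiv.refl ℂ ℂ)) hs
      (DD_ball hw)
    have hn : (ContinuousLinearEquiv.toNonlinearRightInverse
      (ContinuousLinearEquiv.refl ℂ ℂ)).nnnorm = 1 := hnn
    have hin : p w ∈ closedBall (Y w) ((((ContinuousLinearEquiv.toNonlinearRightInverse
      (ContinuousLinearEquiv.refl ℂ ℂ)).nnnorm : ℝ)⁻¹ - (⟨A, hA⟩ : NNReal)) * s) := by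
      rw [mem_closedBall, dist_eq_norm, hn]
      refine (hc w hw).trans ?_
      show s / 2 ≤ (((1 : NNReal) : ℝ)⁻¹ - A) * s
      simp only [NNReal.coe_one, inv_one]
      nlinarith
    obtain ⟨u, hu, huw⟩ := hsurj hin
    exact ⟨u, DD_ball hw hu, huw⟩
  have htgt : ∀ w ∈ DD (R + s), p w ∈ e.target := by
    intro w hw
    obtain ⟨u, hu, huw⟩ := hmem w hw
    rw [← huw]
    exact e.map_source hu
  refine ⟨fun w => e.symm (p w), ?_, ?_⟩
  · intro w hw
    have ht := htgt w hw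
    have hsm : e.symm (p w) ∈ DD R := e.map_target ht
    have hdY := (differentiableAt_of_DD hYd hsm).hasDerivAt
    have hne : deriv Y (e.symm (p w)) ≠ 0 := by
      intro h0
      have := deriv_near_one hA hYd hLip hsm
      rw [h0, zero_sub, norm_neg, norm_one] at this
      linarith
    have h1 : HasDerivAt e.symm (deriv Y (e.symm (p w)))⁻¹ (p w) :=
      e.hasDerivAt_symm ht hne hdY
    exact (h1.differentiableAt.comp w
      ((hp w hw).differentiableAt ((isOpen_DD _).mem_nhds hw))).differentiableWithinAt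
  · intro w hw
    have ht := htgt w hw
    have hsm : e.symm (p w) ∈ DD R := e.map_target ht
    have heq : Y (e.symm (p w)) = p w := e.right_inv ht
    refine ⟨hsm, heq, ?_⟩
    have := Y_lower hLip hsm (DD_mono (by linarith) hw : w ∈ DD R)
    rw [heq] at this
    have h0 := norm_nonneg (e.symm (p w) - w)
    nlinarith

/-! The net -/

lemma exists_net : ∃ (m : ℕ) (p : ℕ → ℂ) (χ : ℕ → ℂ → ℝ) (L : ℝ), 0 ≤ L ∧
    (∀ j < m, ‖p j‖ = 1) ∧ (∀ j u, 0 ≤ χ j u) ∧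
    (∀ u ∈ sphere (0 : ℂ) 1, ∑ j ∈ Finset.range m, χ j u = 1) ∧
    (∀ j < m, ∀ u ∈ sphere (0 : ℂ) 1, χ j u ≠ 0 → ‖u - p j‖ ≤ 1 / 16) ∧
    (∀ j < m, ∀ u ∈ sphere (0 : ℂ) 1, ∀ v ∈ sphere (0 : ℂ) 1, |χ j u - χ j v| ≤ L * ‖u - v‖) := by
  classical
  obtain ⟨t, hts, htf, hcov⟩ := (isCompact_sphere (0 : ℂ) 1).finite_cover_balls
    (show (0 : ℝ) < 1 / 32 by norm_num)
  obtain ⟨l, hl⟩ : ∃ l : List ℂ, ∀ x, x ∈ l ↔ x ∈ t :=
    ⟨htf.toFinset.toList, fun x => by simp⟩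
  let p : ℕ → ℂ := fun j => l.getD j 1
  let m := l.length
  have hp : ∀ j < m, p j ∈ t := by
    intro j hj
    rw [← hl]
    simp only [p]
    rw [List.getD_eq_getElem _ _ hj]
    exact List.getElem_mem hj
  have hcov' : ∀ u ∈ sphere (0 : ℂ) 1, ∃ j < m, ‖u - p j‖ < 1 / 32 := by
    intro u hu
    have := hcov hu
    simp only [mem_iUnion] at this
    obtain ⟨x, hx, hux⟩ := this
    rw [← hl] at hx
    obtain ⟨j, hj, hjx⟩ := List.getElem_of_mem hx
    refine ⟨j, hj, ?_⟩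
    simp only [p]
    rw [List.getD_eq_getElem _ _ hj, hjx, ← dist_eq_norm]
    exact hux
  let b : ℕ → ℂ → ℝ := fun j u => max 0 (1 / 16 - ‖u - p j‖)
  have hb0 : ∀ j u, 0 ≤ b j u := fun j u => le_max_left _ _
  have hb1 : ∀ j u, b j u ≤ 1 / 16 := by
    intro j u
    refine max_le (by norm_num) ?_
    have := norm_nonneg (u - p j)
    linarith
  have hbl : ∀ j u v, |b j u - b j v| ≤ ‖u - v‖ := by
    intro j u v
    simp only [b]
    refine (abs_max_sub_max_le_max _ _ _ _).trans ?_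
    rw [sub_self, abs_zero]
    refine max_le (norm_nonneg _) ?_
    rw [show (1 / 16 - ‖u - p j‖) - (1 / 16 - ‖v - p j‖) = ‖v - p j‖ - ‖u - p j‖ from by ring]
    refine (abs_norm_sub_norm_le _ _).trans ?_
    rw [show v - p j - (u - p j) = -(u - v) from by ring, norm_neg]
  let S : ℂ → ℝ := fun u => ∑ i ∈ Finset.range m, b i u
  have hS1 : ∀ u ∈ sphere (0 : ℂ) 1, 1 / 32 ≤ S u := by
    intro u hu
    obtain ⟨j, hj, hju⟩ := hcov' u hu
    have h1 : b j u ≤ S u :=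
      Finset.single_le_sum (f := fun i => b i u) (fun i _ => hb0 i u) (Finset.mem_range.mpr hj)
    have h2 : 1 / 32 ≤ b j u := le_max_of_le_right (by linarith)
    linarith
  have hSl : ∀ u v, |S u - S v| ≤ m * ‖u - v‖ := by
    intro u v
    simp only [S]
    rw [← Finset.sum_sub_distrib]
    refine (Finset.abs_sum_le_sum_abs _ _).trans ?_
    refine (Finset.sum_le_sum fun i _ => hbl i u v).trans ?_
    rw [Finset.sum_const, Finset.card_range, nsmul_eq_mul]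
  refine ⟨m, p, fun j u => b j u / S u, 32 * (1 + m), by positivity, ?_, ?_, ?_, ?_, ?_⟩
  · intro j hj
    have := hts (hp j hj)
    rwa [mem_sphere, dist_zero_right] at this
  · intro j u
    exact div_nonneg (hb0 j u) (Finset.sum_nonneg fun i _ => hb0 i u)
  · intro u hu
    rw [← Finset.sum_div]
    have := hS1 u hu
    exact div_self (by show S u ≠ 0; linarith)
  · intro j _ u _ hne
    by_contra hcon
    push Not at hcon
    apply hne
    have h0 : b j u = 0 := max_eq_left (by linarith)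
    show b j u / S u = 0
    rw [h0, zero_div]
  · intro j hj u hu v hv
    have hu1 := hS1 u hu
    have hv1 := hS1 v hv
    have hSu : 0 < S u := by linarith
    have hSv : 0 < S v := by linarith
    have hbv : b j v ≤ S v :=
      Finset.single_le_sum (f := fun i => b i v) (fun i _ => hb0 i v) (Finset.mem_range.mpr hj)
    have e : b j u / S u - b j v / S v =
        (b j u - b j v) / S u + b j v / S v * ((S v - S u) / S u) := by
      field_simp
      ring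
    rw [e]
    refine (abs_add_le _ _).trans ?_
    have h1 : |(b j u - b j v) / S u| ≤ 32 * ‖u - v‖ := by
      rw [abs_div, abs_of_pos hSu, div_le_iff₀ hSu]
      have := hbl j u v
      nlinarith [norm_nonneg (u - v)]
    have h2 : |b j v / S v * ((S v - S u) / S u)| ≤ 32 * (m * ‖u - v‖) := by
      rw [abs_mul, abs_of_nonneg (div_nonneg (hb0 j v) hSv.le), abs_div, abs_of_pos hSu]
      have h3 : b j v / S v ≤ 1 := by rw [div_le_one hSv]; exact hbv
      have h4 : |S v - S u| / S u ≤ 32 * (m * ‖u - v‖) := by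
        rw [div_le_iff₀ hSu, abs_sub_comm]
        have := hSl u v
        have h5 : 0 ≤ (m : ℝ) * ‖u - v‖ := by positivity
        nlinarith
      have h6 : 0 ≤ |S v - S u| / S u := by positivity
      calc b j v / S v * (|S v - S u| / S u) ≤ 1 * (|S v - S u| / S u) :=
            mul_le_mul_of_nonneg_right h3 h6
        _ ≤ _ := by rw [one_mul]; exact h4
    linarith


/-! The correction kernel -/

lemma circleMap_sphere {R : ℝ} (hR : 0 ≤ R) (θ : ℝ) : circleMap 0 R θ ∈ sphere (0 : ℂ) R :=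
  circleMap_mem_sphere 0 hR θ

lemma ci_param_diff {R : ℝ} (hR : 0 ≤ R) {g Yc : ℂ → ℂ} (hg : ContinuousOn g (sphere 0 R))
    (hY : ContinuousOn Yc (sphere 0 R)) {v₀ : ℂ} {c : ℝ} (hc : 0 < c)
    (h : ∀ ζ ∈ sphere (0 : ℂ) R, g ζ = 0 ∨ c ≤ ‖v₀ - Yc ζ‖) :
    DifferentiableAt ℂ (fun v => ci R (fun ζ => g ζ / (v - Yc ζ))) v₀ := by
  have hgc : Continuous (fun θ : ℝ => g (circleMap 0 R θ)) :=
    hg.comp_continuous (continuous_circleMap 0 R) (circleMap_sphere hR)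
  have hYcc : Continuous (fun θ : ℝ => Yc (circleMap 0 R θ)) :=
    hY.comp_continuous (continuous_circleMap 0 R) (circleMap_sphere hR)
  have hdc : Continuous (fun θ : ℝ => deriv (circleMap 0 R) θ) := by
    simp only [deriv_circleMap]
    exact (continuous_circleMap 0 R).mul continuous_const
  have hmeas : ∀ v : ℂ, MeasureTheory.AEStronglyMeasurable
      (fun θ : ℝ => deriv (circleMap 0 R) θ • (g (circleMap 0 R θ) / (v - Yc (circleMap 0 R θ))))
      (MeasureTheory.volume.restrict (Set.uIoc 0 (2 * Real.pi))) := by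
    intro v
    refine Measurable.aestronglyMeasurable ?_
    exact hdc.measurable.smul (hgc.measurable.div (measurable_const.sub hYcc.measurable))
  have hint : ∀ v ∈ ball v₀ (c / 2), ∀ θ : ℝ, g (circleMap 0 R θ) = 0 ∨
      c / 2 ≤ ‖v - Yc (circleMap 0 R θ)‖ := by
    intro v hv θ
    rcases h _ (circleMap_sphere hR θ) with h0 | h0
    · exact Or.inl h0
    · refine Or.inr ?_
      rw [mem_ball, dist_eq_norm] at hv
      have := norm_sub_le_norm_sub_add_norm_sub v₀ v (Yc (circleMap 0 R θ))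
      rw [norm_sub_rev v₀ v] at this
      linarith
  have key := (intervalIntegral.hasDerivAt_integral_of_dominated_loc_of_deriv_le
    (μ := MeasureTheory.volume) (a := 0) (b := 2 * Real.pi)
    (F := fun v θ => deriv (circleMap 0 R) θ •
      (g (circleMap 0 R θ) / (v - Yc (circleMap 0 R θ))))
    (F' := fun v θ => deriv (circleMap 0 R) θ •
      (-g (circleMap 0 R θ) / (v - Yc (circleMap 0 R θ)) ^ 2))
    (bound := fun θ => ‖deriv (circleMap 0 R) θ‖ * (‖g (circleMap 0 R θ)‖ / (c / 2) ^ 2))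
    (x₀ := v₀) (s := ball v₀ (c / 2)) (ball_mem_nhds v₀ (by positivity))
    (Filter.Eventually.of_forall hmeas) ?_ ?_ ?_ ?_ ?_).2
  · unfold ci circleIntegral
    exact (key.differentiableAt).const_smul ((2 * Real.pi * I : ℂ)⁻¹)
  · -- integrability at v₀
    have hb : IntervalIntegrable (fun θ : ℝ => ‖deriv (circleMap 0 R) θ‖ *
        (‖g (circleMap 0 R θ)‖ / c)) MeasureTheory.volume 0 (2 * Real.pi) :=
      (hdc.norm.mul (hgc.norm.div_const _)).intervalIntegrable _ _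
    refine hb.mono_fun (hmeas v₀) ?_
    refine Filter.Eventually.of_forall fun θ => ?_
    show ‖deriv (circleMap 0 R) θ • (g (circleMap 0 R θ) / (v₀ - Yc (circleMap 0 R θ)))‖ ≤
      ‖‖deriv (circleMap 0 R) θ‖ * (‖g (circleMap 0 R θ)‖ / c)‖
    rw [norm_smul, Real.norm_of_nonneg (by positivity)]
    refine mul_le_mul_of_nonneg_left ?_ (norm_nonneg _)
    rw [norm_div]
    rcases h _ (circleMap_sphere hR θ) with h0 | h0
    · rw [h0]; simp
    · exact div_le_div_of_nonneg_left (norm_nonneg _) hc h0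
  · refine Measurable.aestronglyMeasurable ?_
    exact hdc.measurable.smul (hgc.measurable.neg.div
      ((measurable_const.sub hYcc.measurable).pow_const 2))
  · refine Filter.Eventually.of_forall fun θ _ v hv => ?_
    rw [norm_smul]
    refine mul_le_mul_of_nonneg_left ?_ (norm_nonneg _)
    rw [norm_div, norm_neg, norm_pow]
    rcases hint v hv θ with h0 | h0
    · rw [h0]; simp
    · exact div_le_div_of_nonneg_left (norm_nonneg _) (by positivity)
        (pow_le_pow_left₀ (by positivity) h0 2)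
  · exact (hdc.norm.mul (hgc.norm.div_const _)).intervalIntegrable _ _
  · refine Filter.Eventually.of_forall fun θ _ v hv => ?_
    simp only [smul_eq_mul]
    refine HasDerivAt.const_mul _ ?_
    rcases hint v hv θ with h0 | h0
    · rw [h0]
      simp only [zero_div, neg_zero]
      exact hasDerivAt_const v 0
    · have hne : v - Yc (circleMap 0 R θ) ≠ 0 := by
        intro h1
        rw [h1, norm_zero] at h0
        linarith
      have h1 := (hasDerivAt_const v (g (circleMap 0 R θ))).fun_div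
        ((hasDerivAt_id v).sub_const (Yc (circleMap 0 R θ))) hne
      simp only [id] at h1
      convert h1 using 1
      ring

lemma circInt_quot {R : ℝ} (hR : 0 ≤ R) {g Yc : ℂ → ℂ} (hg : ContinuousOn g (sphere 0 R))
    (hY : ContinuousOn Yc (sphere 0 R)) {v₀ : ℂ} {c : ℝ} (hc : 0 < c)
    (h : ∀ ζ ∈ sphere (0 : ℂ) R, g ζ = 0 ∨ c ≤ ‖v₀ - Yc ζ‖) :
    CircleIntegrable (fun ζ => g ζ / (v₀ - Yc ζ)) 0 R := by
  have hgc : Continuous (fun θ : ℝ => g (circleMap 0 R θ)) :=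
    hg.comp_continuous (continuous_circleMap 0 R) (circleMap_sphere hR)
  have hYcc : Continuous (fun θ : ℝ => Yc (circleMap 0 R θ)) :=
    hY.comp_continuous (continuous_circleMap 0 R) (circleMap_sphere hR)
  have hb : IntervalIntegrable (fun θ : ℝ => ‖g (circleMap 0 R θ)‖ / c)
      MeasureTheory.volume 0 (2 * Real.pi) :=
    (hgc.norm.div_const _).intervalIntegrable _ _
  refine hb.mono_fun ?_ ?_
  · refine Measurable.aestronglyMeasurable ?_
    exact hgc.measurable.div (measurable_const.sub hYcc.measurable)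
  · refine Filter.Eventually.of_forall fun θ => ?_
    show ‖g (circleMap 0 R θ) / (v₀ - Yc (circleMap 0 R θ))‖ ≤ ‖‖g (circleMap 0 R θ)‖ / c‖
    rw [norm_div, Real.norm_of_nonneg (by positivity)]
    rcases h _ (circleMap_sphere hR θ) with h0 | h0
    · rw [h0]; simp
    · exact div_le_div_of_nonneg_left (norm_nonneg _) hc h0

lemma ci_sub' {R : ℝ} {f g : ℂ → ℂ} (hf : CircleIntegrable f 0 R)
    (hg : CircleIntegrable g 0 R) : ci R (fun ζ => f ζ - g ζ) = ci R f - ci R g := by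
  unfold ci
  rw [circleIntegral.integral_sub hf hg, smul_sub]

lemma ci_add' {R : ℝ} {f g : ℂ → ℂ} (hf : CircleIntegrable f 0 R)
    (hg : CircleIntegrable g 0 R) : ci R (fun ζ => f ζ + g ζ) = ci R f + ci R g := by
  unfold ci
  rw [circleIntegral.integral_add hf hg, smul_add]

noncomputable def kap (R' : ℝ) (χ : ℂ → ℝ) (r Y : ℂ → ℂ) (v : ℂ) : ℂ :=
  ci R' (fun ζ => (χ (ζ / R') : ℂ) * r ζ * deriv Y ζ / (v - Y ζ))

structure Slot (R R' ε A L : ℝ) (p : ℂ) (χ : ℂ → ℝ) (r Y : ℂ → ℂ) : Prop where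
  hR1 : 1 ≤ R
  hRR : R < R'
  hR' : R' ≤ 33 / 32
  hA : 0 ≤ A
  hA' : A ≤ 1 / 32
  hε : 0 ≤ ε
  hL : 0 ≤ L
  hp : ‖p‖ = 1
  hYd : DifferentiableOn ℂ Y (DD R)
  hY0 : ∀ w ∈ DD R, ‖Y w - w‖ ≤ A
  hY1 : ∀ w ∈ DD R, ∀ z ∈ DD R, ‖(Y w - w) - (Y z - z)‖ ≤ A * ‖w - z‖
  hY2 : ∀ w ∈ DD R, ∀ z ∈ DD R, ‖deriv Y z * (w - z) - (Y w - Y z)‖ ≤ A * ‖w - z‖ ^ 2
  hrd : DifferentiableOn ℂ r (DD R)
  hr : ∀ w ∈ DD R, ‖r w‖ ≤ ε
  hr0 : Tendsto r (cobounded ℂ) (𝓝 0)
  hχ0 : ∀ u, 0 ≤ χ u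
  hχ1 : ∀ u ∈ sphere (0 : ℂ) 1, χ u ≤ 1
  hχs : ∀ u ∈ sphere (0 : ℂ) 1, χ u ≠ 0 → ‖u - p‖ ≤ 1 / 16
  hχL : ∀ u ∈ sphere (0 : ℂ) 1, ∀ v ∈ sphere (0 : ℂ) 1, |χ u - χ v| ≤ L * ‖u - v‖

section slot

variable {R R' ε A L : ℝ} {p : ℂ} {χ : ℂ → ℝ} {r Y : ℂ → ℂ}

lemma Slot.R'pos (S : Slot R R' ε A L p χ r Y) : 0 < R' := by
  have := S.hR1; have := S.hRR; linarith

lemma sphere_DD {R R' : ℝ} (h : R < R') {ζ : ℂ} (hζ : ζ ∈ sphere (0 : ℂ) R') : ζ ∈ DD R := by
  rw [mem_sphere, dist_zero_right] at hζ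
  show R < ‖ζ‖
  rw [hζ]; exact h

lemma unit_mem {R' : ℝ} (hR : 0 < R') {ζ : ℂ} (hζ : ζ ∈ sphere (0 : ℂ) R') :
    ζ / R' ∈ sphere (0 : ℂ) 1 := by
  rw [mem_sphere, dist_zero_right] at hζ ⊢
  rw [norm_div, Complex.norm_real, Real.norm_of_nonneg hR.le, hζ, div_self hR.ne']

lemma Slot.chi_cont (S : Slot R R' ε A L p χ r Y) :
    ContinuousOn (fun ζ : ℂ => (χ (ζ / R') : ℂ)) (sphere 0 R') := by
  have h1 : ContinuousOn χ (sphere 0 1) := by
    refine LipschitzOnWith.continuousOn (K := ⟨L, S.hL⟩) ?_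
    refine LipschitzOnWith.of_dist_le_mul ?_
    intro u hu v hv
    rw [Real.dist_eq, dist_eq_norm]
    exact S.hχL u hu v hv
  have h2 : ContinuousOn (fun ζ : ℂ => χ (ζ / R')) (sphere 0 R') :=
    h1.comp (by fun_prop) (fun ζ hζ => unit_mem S.R'pos hζ)
  exact Complex.continuous_ofReal.comp_continuousOn h2

lemma Slot.r_cont (S : Slot R R' ε A L p χ r Y) : ContinuousOn r (sphere 0 R') :=
  S.hrd.continuousOn.mono (fun _ hζ => sphere_DD S.hRR hζ)

lemma Slot.Y_cont (S : Slot R R' ε A L p χ r Y) : ContinuousOn Y (sphere 0 R') :=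
  S.hYd.continuousOn.mono (fun _ hζ => sphere_DD S.hRR hζ)

lemma Slot.dY_cont (S : Slot R R' ε A L p χ r Y) : ContinuousOn (deriv Y) (sphere 0 R') :=
  (S.hYd.deriv (isOpen_DD R)).continuousOn.mono (fun _ hζ => sphere_DD S.hRR hζ)

lemma Slot.g_cont (S : Slot R R' ε A L p χ r Y) :
    ContinuousOn (fun ζ => (χ (ζ / R') : ℂ) * r ζ * deriv Y ζ) (sphere 0 R') :=
  (S.chi_cont.mul S.r_cont).mul S.dY_cont

lemma Slot.chi_r_bd (S : Slot R R' ε A L p χ r Y) {ζ : ℂ} (hζ : ζ ∈ sphere (0 : ℂ) R') :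
    ‖(χ (ζ / R') : ℂ) * r ζ‖ ≤ ε := by
  rw [norm_mul, Complex.norm_real, Real.norm_of_nonneg (S.hχ0 _)]
  have h1 := S.hχ1 _ (unit_mem S.R'pos hζ)
  have h2 := S.hr ζ (sphere_DD S.hRR hζ)
  calc χ (ζ / R') * ‖r ζ‖ ≤ 1 * ε := mul_le_mul h1 h2 (norm_nonneg _) (by norm_num)
    _ = ε := one_mul _

lemma Slot.dY_bd (S : Slot R R' ε A L p χ r Y) {ζ : ℂ} (hζ : ζ ∈ DD R) :
    ‖deriv Y ζ‖ ≤ 1 + A := by
  have := deriv_near_one S.hA S.hYd S.hY1 hζ
  have h2 := norm_le_norm_add_norm_sub (1 : ℂ) (deriv Y ζ)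
  rw [norm_one, norm_sub_rev] at h2
  linarith

lemma Slot.g_bd (S : Slot R R' ε A L p χ r Y) {ζ : ℂ} (hζ : ζ ∈ sphere (0 : ℂ) R') :
    ‖(χ (ζ / R') : ℂ) * r ζ * deriv Y ζ‖ ≤ ε * (1 + A) := by
  rw [norm_mul]
  exact mul_le_mul (S.chi_r_bd hζ) (S.dY_bd (sphere_DD S.hRR hζ)) (norm_nonneg _) S.hε

/-- the kernel difference -/
lemma Slot.ker (S : Slot R R' ε A L p χ r Y) {w ζ : ℂ} (hw : w ∈ DD R) (hζ : ζ ∈ DD R)
    (hne : w ≠ ζ) : ‖deriv Y ζ / (Y w - Y ζ) - 1 / (w - ζ)‖ ≤ 2 * A := by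
  have h1 := S.hY2 w hw ζ hζ
  have h2 := Y_lower S.hY1 hw hζ
  have hA' := S.hA'
  have hA := S.hA
  have hn : 0 < ‖w - ζ‖ := norm_pos_iff.mpr (sub_ne_zero.mpr hne)
  have h3 : 0 < ‖Y w - Y ζ‖ := lt_of_lt_of_le (by nlinarith) h2
  have e1 : w - ζ ≠ 0 := sub_ne_zero.mpr hne
  have e2 : Y w - Y ζ ≠ 0 := norm_pos_iff.mp h3
  have e : deriv Y ζ / (Y w - Y ζ) - 1 / (w - ζ) =
      (deriv Y ζ * (w - ζ) - (Y w - Y ζ)) / ((Y w - Y ζ) * (w - ζ)) := by
    field_simp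
  rw [e, norm_div, norm_mul, div_le_iff₀ (by positivity)]
  refine h1.trans ?_
  have h4 : ‖w - ζ‖ ≤ 2 * ‖Y w - Y ζ‖ := by nlinarith
  nlinarith [mul_le_mul_of_nonneg_left h4 (mul_nonneg hA hn.le)]

lemma Slot.c1 (S : Slot R R' ε A L p χ r Y) {w : ℂ} (hw : w ∈ DD R') :
    ContinuousOn (fun ζ => (χ (ζ / R') : ℂ) * r ζ / (w - ζ)) (sphere 0 R') := by
  refine (S.chi_cont.mul S.r_cont).div (by fun_prop) ?_
  intro ζ hζ h0
  rw [sub_eq_zero] at h0
  rw [mem_sphere, dist_zero_right] at hζ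
  rw [mem_DD, h0, hζ] at hw
  exact lt_irrefl _ hw

lemma Slot.ne (S : Slot R R' ε A L p χ r Y) {w ζ : ℂ} (hw : w ∈ DD R')
    (hζ : ζ ∈ sphere (0 : ℂ) R') : Y w - Y ζ ≠ 0 := by
  have hne : w ≠ ζ := by
    intro h0
    rw [mem_sphere, dist_zero_right] at hζ
    rw [mem_DD, h0, hζ] at hw
    exact lt_irrefl _ hw
  have h2 := Y_lower S.hY1 (DD_mono S.hRR.le hw) (sphere_DD S.hRR hζ)
  have hA' := S.hA'
  have hn : 0 < ‖w - ζ‖ := norm_pos_iff.mpr (sub_ne_zero.mpr hne)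
  exact norm_pos_iff.mp (lt_of_lt_of_le (by nlinarith) h2)

lemma Slot.c2 (S : Slot R R' ε A L p χ r Y) {w : ℂ} (hw : w ∈ DD R') :
    ContinuousOn (fun ζ => (χ (ζ / R') : ℂ) * r ζ * deriv Y ζ / (Y w - Y ζ)) (sphere 0 R') :=
  S.g_cont.div (continuousOn_const.sub S.Y_cont) (fun _ hζ => S.ne hw hζ)

lemma Slot.K1 (S : Slot R R' ε A L p χ r Y) {w : ℂ} (hw : w ∈ DD R') :
    ‖kap R' χ r Y (Y w) - ci R' (fun ζ => (χ (ζ / R') : ℂ) * r ζ / (w - ζ))‖ ≤ 3 * A * ε := by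
  have hR'0 := S.R'pos
  unfold kap
  rw [← ci_sub hR'0.le (S.c2 hw) (S.c1 hw)]
  have h := ci_norm_le (C := ε * (2 * A)) hR'0.le
    (g := fun ζ => (χ (ζ / R') : ℂ) * r ζ * deriv Y ζ / (Y w - Y ζ) -
      (χ (ζ / R') : ℂ) * r ζ / (w - ζ)) (by
      intro ζ hζ
      have hne : w ≠ ζ := by
        intro h0
        rw [mem_sphere, dist_zero_right] at hζ
        rw [mem_DD, h0, hζ] at hw
        exact lt_irrefl _ hw
      have e : (χ (ζ / R') : ℂ) * r ζ * deriv Y ζ / (Y w - Y ζ) -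
          (χ (ζ / R') : ℂ) * r ζ / (w - ζ) =
          ((χ (ζ / R') : ℂ) * r ζ) * (deriv Y ζ / (Y w - Y ζ) - 1 / (w - ζ)) := by ring
      rw [e, norm_mul]
      exact mul_le_mul (S.chi_r_bd hζ) (S.ker (DD_mono S.hRR.le hw) (sphere_DD S.hRR hζ) hne)
        (norm_nonneg _) S.hε)
  refine h.trans ?_
  have h1 := S.hR'
  have h2 := mul_nonneg S.hA S.hε
  nlinarith

lemma unit_dist {R' : ℝ} (hR : 0 < R') {w ζ : ℂ} (hw : w ∈ DD R') (hζ : ζ ∈ sphere (0 : ℂ) R') :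
    ‖ζ / R' - w / ‖w‖‖ ≤ 2 * ‖w - ζ‖ / R' := by
  rw [mem_sphere, dist_zero_right] at hζ
  have hw' : R' < ‖w‖ := hw
  have hw0 : 0 < ‖w‖ := by linarith
  have e1 : ‖w - (R' : ℂ) * w / ‖w‖‖ = ‖w‖ - R' := by
    have : w - (R' : ℂ) * w / ‖w‖ = ((‖w‖ - R' : ℝ) : ℂ) * (w / ‖w‖) := by
      have : (‖w‖ : ℂ) ≠ 0 := by exact_mod_cast hw0.ne'
      push_cast
      field_simp
    rw [this, norm_mul, Complex.norm_real, Real.norm_of_nonneg (by linarith), norm_div,
      Complex.norm_real, norm_norm, div_self hw0.ne', mul_one]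
  have e2 : ζ / R' - w / ‖w‖ = ((ζ - w) + (w - (R' : ℂ) * w / ‖w‖)) / R' := by
    have : (R' : ℂ) ≠ 0 := by exact_mod_cast hR.ne'
    have : (‖w‖ : ℂ) ≠ 0 := by exact_mod_cast hw0.ne'
    field_simp
    ring
  rw [e2, norm_div, Complex.norm_real, Real.norm_of_nonneg hR.le]
  refine div_le_div_of_nonneg_right ?_ hR.le
  refine (norm_add_le _ _).trans ?_
  rw [e1, norm_sub_rev ζ w]
  have := norm_sub_norm_le w ζ
  rw [hζ] at this
  linarith

lemma Slot.K2 (S : Slot R R' ε A L p χ r Y) {w : ℂ} (hw : w ∈ DD R') :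
    ‖ci R' (fun ζ => (χ (ζ / R') : ℂ) * r ζ / (w - ζ))‖ ≤ (1 + 2 * L) * ε := by
  have hR'0 := S.R'pos
  have hw' : R' < ‖w‖ := hw
  have hw0 : 0 < ‖w‖ := by linarith
  have huw : w / ‖w‖ ∈ sphere (0 : ℂ) 1 := by
    rw [mem_sphere, dist_zero_right, norm_div, Complex.norm_real, norm_norm, div_self hw0.ne']
  have hne : ∀ ζ ∈ sphere (0 : ℂ) R', w - ζ ≠ 0 := by
    intro ζ hζ h0
    rw [sub_eq_zero] at h0
    rw [mem_sphere, dist_zero_right] at hζ
    rw [h0, hζ] at hw'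
    exact lt_irrefl _ hw'
  have c3 : ContinuousOn (fun ζ => r ζ / (w - ζ)) (sphere 0 R') :=
    S.r_cont.div (by fun_prop) hne
  have e1 : ci R' (fun ζ => (χ (ζ / R') : ℂ) * r ζ / (w - ζ)) =
      ci R' (fun ζ => ((χ (ζ / R') : ℂ) - (χ (w / ‖w‖) : ℂ)) * (r ζ / (w - ζ))) +
      (χ (w / ‖w‖) : ℂ) * r w := by
    rw [← cauchy_inf hR'0 S.hRR S.hrd S.hr0 hw, ← ci_const_mul, ← ci_add hR'0.le
      (f := fun ζ => ((χ (ζ / R') : ℂ) - (χ (w / ‖w‖) : ℂ)) * (r ζ / (w - ζ)))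
      (g := fun ζ => (χ (w / ‖w‖) : ℂ) * (r ζ / (w - ζ)))
      ((S.chi_cont.sub continuousOn_const).mul c3) (continuousOn_const.mul c3)]
    refine ci_congr hR'0.le fun ζ _ => ?_
    ring
  rw [e1]
  refine (norm_add_le _ _).trans ?_
  have h1 : ‖ci R' (fun ζ => ((χ (ζ / R') : ℂ) - (χ (w / ‖w‖) : ℂ)) * (r ζ / (w - ζ)))‖ ≤
      R' * (2 * L * ε / R') := by
    refine ci_norm_le hR'0.le fun ζ hζ => ?_
    rw [norm_mul, norm_div, ← Complex.ofReal_sub, Complex.norm_real, Real.norm_eq_abs]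
    have h2 := S.hχL _ (unit_mem hR'0 hζ) _ huw
    have h3 := unit_dist hR'0 hw hζ
    have h4 : 0 < ‖w - ζ‖ := norm_pos_iff.mpr (hne ζ hζ)
    have h5 : |χ (ζ / R') - χ (w / ‖w‖)| ≤ L * (2 * ‖w - ζ‖ / R') :=
      h2.trans (mul_le_mul_of_nonneg_left h3 S.hL)
    calc |χ (ζ / R') - χ (w / ‖w‖)| * (‖r ζ‖ / ‖w - ζ‖)
        ≤ (L * (2 * ‖w - ζ‖ / R')) * (ε / ‖w - ζ‖) := by
          refine mul_le_mul h5 ?_ (by positivity) (by have := S.hL; positivity)
          exact div_le_div_of_nonneg_right (S.hr ζ (sphere_DD S.hRR hζ)) h4.le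
      _ = 2 * L * ε / R' := by field_simp
  have h2 : ‖(χ (w / ‖w‖) : ℂ) * r w‖ ≤ ε := by
    rw [norm_mul, Complex.norm_real, Real.norm_of_nonneg (S.hχ0 _)]
    calc χ (w / ‖w‖) * ‖r w‖ ≤ 1 * ε :=
          mul_le_mul (S.hχ1 _ huw) (S.hr w (DD_mono S.hRR.le hw)) (norm_nonneg _) (by norm_num)
      _ = ε := one_mul _
  have h3 : R' * (2 * L * ε / R') = 2 * L * ε := by field_simp
  rw [h3] at h1
  linarith

/-- bound for the correction on the graph -/
lemma Slot.K3 (S : Slot R R' ε A L p χ r Y) {w : ℂ} (hw : w ∈ DD R') :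
    ‖kap R' χ r Y (Y w)‖ ≤ (2 + 2 * L) * ε := by
  have h1 := S.K1 hw
  have h2 := S.K2 hw
  have h3 := norm_le_norm_add_norm_sub (ci R' (fun ζ => (χ (ζ / R') : ℂ) * r ζ / (w - ζ)))
    (kap R' χ r Y (Y w))
  rw [norm_sub_rev] at h3
  have h4 := mul_nonneg S.hA S.hε
  have h5 : 3 * A * ε ≤ ε := by
    have := S.hA'; have := S.hε
    nlinarith
  linarith

lemma Slot.K3d (S : Slot R R' ε A L p χ r Y) :
    DifferentiableOn ℂ (fun w => kap R' χ r Y (Y w)) (DD R') := by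
  intro w hw
  have hwR := DD_mono S.hRR.le hw
  have hY := differentiableAt_of_DD S.hYd hwR
  -- distance from the curve
  set c := (‖w‖ - R') / 2 with hc
  have hw' : R' < ‖w‖ := hw
  have hc0 : 0 < c := by rw [hc]; linarith
  have h : ∀ ζ ∈ sphere (0 : ℂ) R', c ≤ ‖Y w - Y ζ‖ := by
    intro ζ hζ
    have h2 := Y_lower S.hY1 hwR (sphere_DD S.hRR hζ)
    rw [mem_sphere, dist_zero_right] at hζ
    have h3 := norm_sub_norm_le w ζ
    rw [hζ] at h3
    have hA' := S.hA'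
    nlinarith [norm_nonneg (w - ζ)]
  have hk : DifferentiableAt ℂ (kap R' χ r Y) (Y w) :=
    ci_param_diff S.R'pos.le S.g_cont S.Y_cont hc0 (fun ζ hζ => Or.inr (h ζ hζ))
  exact (hk.comp w hY).differentiableWithinAt

lemma Slot.supp (S : Slot R R' ε A L p χ r Y) {ζ : ℂ} (hζ : ζ ∈ sphere (0 : ℂ) R')
    (h : χ (ζ / R') ≠ 0) : ‖p - Y ζ‖ ≤ 1 / 8 := by
  have hR'0 := S.R'pos
  have h1 := S.hχs _ (unit_mem hR'0 hζ) h
  have h2 := S.hY0 ζ (sphere_DD S.hRR hζ)
  have h3 : ‖ζ - ζ / R'‖ ≤ 1 / 32 := by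
    have e : ζ - ζ / R' = ((R' - 1 : ℝ) : ℂ) * (ζ / R') := by
      have : (R' : ℂ) ≠ 0 := by exact_mod_cast hR'0.ne'
      push_cast
      field_simp
    have hu := unit_mem hR'0 hζ
    rw [mem_sphere, dist_zero_right] at hu
    rw [e, norm_mul, hu, mul_one, Complex.norm_real, Real.norm_of_nonneg (by
      have := S.hR1; have := S.hRR; linarith)]
    have := S.hR'
    linarith
  have hA' := S.hA'
  calc ‖p - Y ζ‖ = ‖(p - ζ / R') + (ζ / R' - ζ) + (ζ - Y ζ)‖ := by ring_nf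
    _ ≤ ‖p - ζ / R'‖ + ‖ζ / R' - ζ‖ + ‖ζ - Y ζ‖ := norm_add₃_le
    _ ≤ 1 / 8 := by
      rw [norm_sub_rev p (ζ / R'), norm_sub_rev (ζ / R') ζ, norm_sub_rev ζ (Y ζ)]
      linarith

lemma Slot.refl_lower (S : Slot R R' ε A L p χ r Y) {ζ v : ℂ} (hζ : ζ ∈ sphere (0 : ℂ) R')
    (h : χ (ζ / R') ≠ 0) (hv : 3 / 4 ≤ ‖v‖) : 5 / 8 ≤ ‖p - v - Y ζ‖ := by
  have h1 := S.supp hζ h
  have h2 := norm_sub_norm_le v (p - Y ζ)
  rw [show v - (p - Y ζ) = -(p - v - Y ζ) from by ring, norm_neg] at h2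
  linarith

/-- the reflected correction is small -/
lemma Slot.K4 (S : Slot R R' ε A L p χ r Y) {v : ℂ} (hv : 3 / 4 ≤ ‖v‖) :
    ‖kap R' χ r Y (p - v)‖ ≤ 2 * ε := by
  unfold kap
  have h := ci_norm_le (C := ε * (1 + A) / (5 / 8)) S.R'pos.le
    (g := fun ζ => (χ (ζ / R') : ℂ) * r ζ * deriv Y ζ / (p - v - Y ζ)) (by
      intro ζ hζ
      by_cases h0 : χ (ζ / R') = 0
      · rw [h0]
        simp only [ofReal_zero, zero_mul, zero_div, norm_zero]
        have := S.hε; have := S.hA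
        positivity
      · rw [norm_div]
        have h1 := S.refl_lower hζ h0 hv
        exact div_le_div₀ (by have := S.hε; have := S.hA; positivity) (S.g_bd hζ) (by norm_num) h1)
  refine h.trans ?_
  have h1 := S.hR'; have h2 := S.hA'; have h3 := S.hε; have h4 := S.R'pos; have h5 := S.hA
  have e : R' * (ε * (1 + A) / (5 / 8)) = (8 / 5 * (R' * (1 + A))) * ε := by ring
  rw [e]
  refine mul_le_mul_of_nonneg_right ?_ h3
  have : R' * (1 + A) ≤ 33 / 32 * (33 / 32) := mul_le_mul h1 (by linarith) (by linarith) (by norm_num)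
  linarith

lemma Slot.int (S : Slot R R' ε A L p χ r Y) {v : ℂ} {c : ℝ} (hc : 0 < c)
    (h : ∀ ζ ∈ sphere (0 : ℂ) R', χ (ζ / R') ≠ 0 → c ≤ ‖v - Y ζ‖) :
    CircleIntegrable (fun ζ => (χ (ζ / R') : ℂ) * r ζ * deriv Y ζ / (v - Y ζ)) 0 R' := by
  refine circInt_quot S.R'pos.le S.g_cont S.Y_cont hc (fun ζ hζ => ?_)
  by_cases h0 : χ (ζ / R') = 0
  · left; rw [h0]; simp
  · right; exact h ζ hζ h0

/-- general Lipschitz bound for the correction away from its singular set -/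
lemma Slot.lip (S : Slot R R' ε A L p χ r Y) {v v' : ℂ} {c : ℝ} (hc : 0 < c)
    (h : ∀ ζ ∈ sphere (0 : ℂ) R', χ (ζ / R') ≠ 0 → c ≤ ‖v - Y ζ‖)
    (h' : ∀ ζ ∈ sphere (0 : ℂ) R', χ (ζ / R') ≠ 0 → c ≤ ‖v' - Y ζ‖) :
    ‖kap R' χ r Y v - kap R' χ r Y v'‖ ≤ R' * (1 + A) / c ^ 2 * ε * ‖v - v'‖ := by
  unfold kap
  rw [← ci_sub' (S.int hc h) (S.int hc h')]
  have hk := ci_norm_le (C := ε * (1 + A) * (‖v - v'‖ / c ^ 2)) S.R'pos.le
    (g := fun ζ => (χ (ζ / R') : ℂ) * r ζ * deriv Y ζ / (v - Y ζ) -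
      (χ (ζ / R') : ℂ) * r ζ * deriv Y ζ / (v' - Y ζ)) (by
      intro ζ hζ
      by_cases h0 : χ (ζ / R') = 0
      · rw [h0]
        simp only [ofReal_zero, zero_mul, zero_div, sub_zero, norm_zero]
        have := S.hε; have := S.hA
        positivity
      · have h1 := h ζ hζ h0
        have h1' := h' ζ hζ h0
        have e1 : v - Y ζ ≠ 0 := norm_pos_iff.mp (lt_of_lt_of_le hc h1)
        have e2 : v' - Y ζ ≠ 0 := norm_pos_iff.mp (lt_of_lt_of_le hc h1')
        have e : (χ (ζ / R') : ℂ) * r ζ * deriv Y ζ / (v - Y ζ) -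
            (χ (ζ / R') : ℂ) * r ζ * deriv Y ζ / (v' - Y ζ) =
            ((χ (ζ / R') : ℂ) * r ζ * deriv Y ζ) * ((v' - v) / ((v - Y ζ) * (v' - Y ζ))) := by
          field_simp
          ring
        have hG := S.g_bd hζ
        rw [e]
        set G := (χ (ζ / R') : ℂ) * r ζ * deriv Y ζ
        rw [norm_mul G, norm_div, norm_sub_rev v' v]
        refine mul_le_mul hG ?_ (by positivity) (by have := S.hε; have := S.hA; positivity)
        refine div_le_div_of_nonneg_left (norm_nonneg _) (by positivity) ?_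
        rw [sq, norm_mul]
        exact mul_le_mul h1 h1' hc.le (norm_nonneg _))
  refine hk.trans (le_of_eq ?_)
  ring

lemma Slot.K4L (S : Slot R R' ε A L p χ r Y) {v v' : ℂ} (hv : 3 / 4 ≤ ‖v‖) (hv' : 3 / 4 ≤ ‖v'‖) :
    ‖kap R' χ r Y (p - v) - kap R' χ r Y (p - v')‖ ≤ 3 * ε * ‖v - v'‖ := by
  have h := S.lip (v := p - v) (v' := p - v') (c := 5 / 8) (by norm_num)
    (fun ζ hζ h0 => S.refl_lower hζ h0 hv) (fun ζ hζ h0 => S.refl_lower hζ h0 hv')
  rw [show p - v - (p - v') = -(v - v') from by ring, norm_neg] at h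
  refine h.trans ?_
  have h1 := S.hR'; have h2 := S.hA'; have h3 := S.hε; have h4 := S.R'pos; have h5 := S.hA
  refine mul_le_mul_of_nonneg_right (mul_le_mul_of_nonneg_right ?_ h3) (norm_nonneg _)
  have : R' * (1 + A) ≤ 33 / 32 * (33 / 32) := mul_le_mul h1 (by linarith) (by linarith) (by norm_num)
  rw [div_le_iff₀ (by norm_num)]
  linarith

lemma Slot.far_lower (S : Slot R R' ε A L p χ r Y) {ζ v : ℂ} (hζ : ζ ∈ sphere (0 : ℂ) R') :
    ‖v‖ - 17 / 16 ≤ ‖v - Y ζ‖ := by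
  have h1 := S.hY0 ζ (sphere_DD S.hRR hζ)
  rw [mem_sphere, dist_zero_right] at hζ
  have h2 := S.hR'; have h3 := S.hA'
  have h4 := norm_sub_norm_le v (Y ζ)
  have h5 : ‖Y ζ‖ ≤ ‖ζ‖ + ‖Y ζ - ζ‖ := by
    have := norm_add_le ζ (Y ζ - ζ)
    rwa [add_sub_cancel] at this
  linarith

lemma Slot.K5 (S : Slot R R' ε A L p χ r Y) {v v' : ℂ} (hv : 2 ≤ ‖v‖) (hv' : 2 ≤ ‖v'‖) :
    ‖kap R' χ r Y v - kap R' χ r Y v'‖ ≤ 2 * ε * ‖v - v'‖ := by
  have h := S.lip (v := v) (v' := v') (c := 15 / 16) (by norm_num)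
    (fun ζ hζ _ => by have := S.far_lower (v := v) hζ; linarith)
    (fun ζ hζ _ => by have := S.far_lower (v := v') hζ; linarith)
  refine h.trans ?_
  have h1 := S.hR'; have h2 := S.hA'; have h3 := S.hε; have h4 := S.R'pos; have h5 := S.hA
  refine mul_le_mul_of_nonneg_right (mul_le_mul_of_nonneg_right ?_ h3) (norm_nonneg _)
  have : R' * (1 + A) ≤ 33 / 32 * (33 / 32) := mul_le_mul h1 (by linarith) (by linarith) (by norm_num)
  rw [div_le_iff₀ (by norm_num)]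
  linarith

/-- asymptotics at infinity -/
lemma Slot.K6 (S : Slot R R' ε A L p χ r Y) :
    Tendsto (fun v => v * kap R' χ r Y v) (cobounded ℂ)
      (𝓝 (ci R' (fun ζ => (χ (ζ / R') : ℂ) * r ζ * deriv Y ζ))) := by
  rw [tendsto_iff_norm_sub_tendsto_zero]
  have hb : ∀ᶠ v in cobounded ℂ, ‖v * kap R' χ r Y v -
      ci R' (fun ζ => (χ (ζ / R') : ℂ) * r ζ * deriv Y ζ)‖ ≤
      (R' * (ε * (1 + A) * (17 / 16))) * (‖v‖ - 17 / 16)⁻¹ := by
    filter_upwards [DD_cobounded 2] with v hv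
    have hv2 : 2 < ‖v‖ := hv
    have hc : 0 < ‖v‖ - 17 / 16 := by linarith
    unfold kap
    rw [← ci_const_mul, ← ci_sub' (f := fun ζ => v * ((χ (ζ / R') : ℂ) * r ζ * deriv Y ζ /
      (v - Y ζ))) (g := fun ζ => (χ (ζ / R') : ℂ) * r ζ * deriv Y ζ)
      ((S.int hc (fun ζ hζ _ => S.far_lower hζ)).const_smul (a := v))
      (S.g_cont.circleIntegrable S.R'pos.le)]
    rw [mul_assoc]
    refine ci_norm_le S.R'pos.le fun ζ hζ => ?_
    have hG := S.g_bd hζ
    have h1 := S.far_lower (v := v) hζ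
    have e1 : v - Y ζ ≠ 0 := norm_pos_iff.mp (lt_of_lt_of_le hc h1)
    have e : v * ((χ (ζ / R') : ℂ) * r ζ * deriv Y ζ / (v - Y ζ)) -
        (χ (ζ / R') : ℂ) * r ζ * deriv Y ζ =
        ((χ (ζ / R') : ℂ) * r ζ * deriv Y ζ) * (Y ζ / (v - Y ζ)) := by
      field_simp
      ring
    rw [e]
    set G := (χ (ζ / R') : ℂ) * r ζ * deriv Y ζ
    rw [norm_mul G, norm_div]
    have hYb : ‖Y ζ‖ ≤ 17 / 16 := by
      have h1 := S.hY0 ζ (sphere_DD S.hRR hζ)
      rw [mem_sphere, dist_zero_right] at hζ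
      have h2 := S.hR'; have h3 := S.hA'
      have h5 : ‖Y ζ‖ ≤ ‖ζ‖ + ‖Y ζ - ζ‖ := by
        have := norm_add_le ζ (Y ζ - ζ)
        rwa [add_sub_cancel] at this
      linarith
    have h7 : ‖G‖ * (‖Y ζ‖ / ‖v - Y ζ‖) ≤ ε * (1 + A) * (17 / 16 / (‖v‖ - 17 / 16)) :=
      mul_le_mul hG (div_le_div₀ (by norm_num) hYb hc h1) (by positivity)
        (by have := S.hε; have := S.hA; positivity)
    refine h7.trans (le_of_eq ?_)
    rw [div_eq_mul_inv]
    ring
  refine squeeze_zero' (Filter.Eventually.of_forall fun v => norm_nonneg _) hb ?_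
  rw [show (0 : ℝ) = (R' * (ε * (1 + A) * (17 / 16))) * 0 from by ring]
  refine Tendsto.const_mul _ ?_
  refine tendsto_inv_atTop_zero.comp ?_
  exact tendsto_atTop_add_const_right _ (-(17 / 16)) tendsto_norm_cobounded_atTop

end slot


/-! Asymptotics at infinity -/

lemma tend_cob {h : ℂ → ℂ} {C : ℝ} (hh : ∀ᶠ w in cobounded ℂ, ‖h w - w‖ ≤ C) :
    Tendsto h (cobounded ℂ) (cobounded ℂ) := by
  rw [← tendsto_norm_atTop_iff_cobounded]
  refine tendsto_atTop_mono' _ ?_ (tendsto_atTop_add_const_right _ (-C)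
    (tendsto_norm_cobounded_atTop (E := ℂ)))
  filter_upwards [hh] with w hw
  have := norm_sub_norm_le w (h w)
  rw [norm_sub_rev] at this
  linarith

lemma tend_inv : Tendsto (fun w : ℂ => w⁻¹) (cobounded ℂ) (𝓝 0) :=
  tendsto_inv₀_cobounded

lemma tend_ratio {h : ℂ → ℂ} {C : ℝ} (hh : ∀ᶠ w in cobounded ℂ, ‖h w - w‖ ≤ C) :
    Tendsto (fun w => w / h w) (cobounded ℂ) (𝓝 1) := by
  have hc := tend_cob hh
  have h1 : Tendsto (fun w => (h w)⁻¹) (cobounded ℂ) (𝓝 0) := tend_inv.comp hc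
  have h2 : Tendsto (fun w => (h w - w) * (h w)⁻¹) (cobounded ℂ) (𝓝 0) := by
    refine squeeze_zero_norm' (a := fun w => C * ‖(h w)⁻¹‖) ?_ ?_
    · filter_upwards [hh] with w hw
      rw [norm_mul]
      exact mul_le_mul_of_nonneg_right hw (norm_nonneg _)
    · have := h1.norm.const_mul C
      rwa [norm_zero, mul_zero] at this
  have h3 : Tendsto (fun w => 1 - (h w - w) * (h w)⁻¹) (cobounded ℂ) (𝓝 (1 - 0)) :=
    tendsto_const_nhds.sub h2
  rw [sub_zero] at h3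
  refine h3.congr' ?_
  have h4 : ∀ᶠ w in cobounded ℂ, h w ∈ DD 0 := hc (DD_cobounded 0)
  filter_upwards [h4] with w hw
  have : h w ≠ 0 := norm_pos_iff.mp hw
  field_simp
  ring

lemma tend_comp {F h : ℂ → ℂ} {b : ℂ} {C : ℝ}
    (hF : Tendsto (fun u => u * F u) (cobounded ℂ) (𝓝 b))
    (hh : ∀ᶠ w in cobounded ℂ, ‖h w - w‖ ≤ C) :
    Tendsto (fun w => w * F (h w)) (cobounded ℂ) (𝓝 b) := by
  have hc := tend_cob hh
  have h1 := (tend_ratio hh).mul (hF.comp hc)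
  rw [one_mul] at h1
  refine h1.congr' ?_
  have h4 : ∀ᶠ w in cobounded ℂ, h w ∈ DD 0 := hc (DD_cobounded 0)
  filter_upwards [h4] with w hw
  have : h w ≠ 0 := norm_pos_iff.mp hw
  simp only [Function.comp]
  field_simp

structure Net (m : ℕ) (p : ℕ → ℂ) (χ : ℕ → ℂ → ℝ) (L : ℝ) : Prop where
  hL : 0 ≤ L
  hp : ∀ j < m, ‖p j‖ = 1
  h0 : ∀ j u, 0 ≤ χ j u
  hsum : ∀ u ∈ sphere (0 : ℂ) 1, ∑ j ∈ Finset.range m, χ j u = 1
  hs : ∀ j < m, ∀ u ∈ sphere (0 : ℂ) 1, χ j u ≠ 0 → ‖u - p j‖ ≤ 1 / 16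
  hLip : ∀ j < m, ∀ u ∈ sphere (0 : ℂ) 1, ∀ v ∈ sphere (0 : ℂ) 1,
    |χ j u - χ j v| ≤ L * ‖u - v‖

lemma Net.le_one {m : ℕ} {p : ℕ → ℂ} {χ : ℕ → ℂ → ℝ} {L : ℝ} (N : Net m p χ L) {j : ℕ}
    (hj : j < m) {u : ℂ} (hu : u ∈ sphere (0 : ℂ) 1) : χ j u ≤ 1 := by
  rw [← N.hsum u hu]
  exact Finset.single_le_sum (f := fun i => χ i u) (fun i _ => N.h0 i u) (Finset.mem_range.mpr hj)

structure St (m : ℕ) (p : ℕ → ℂ) (f : ℂ → ℂ) (R ε A : ℝ) (Y : ℕ → ℂ → ℂ) : Prop where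
  hd : ∀ j ≤ m, DifferentiableOn ℂ (Y j) (DD R)
  h0 : ∀ w ∈ DD R, Y 0 w = w
  hA0 : ∀ j ≤ m, ∀ w ∈ DD R, ‖Y j w - w‖ ≤ A
  hA1 : ∀ j ≤ m, ∀ w ∈ DD R, ∀ z ∈ DD R, ‖(Y j w - w) - (Y j z - z)‖ ≤ A * ‖w - z‖
  hA2 : ∀ j ≤ m, ∀ w ∈ DD R, ∀ z ∈ DD R,
    ‖deriv (Y j) z * (w - z) - (Y j w - Y j z)‖ ≤ A * ‖w - z‖ ^ 2
  hZ : ∀ j ≤ m, Tendsto (fun w => w * (Y j w - w)) (cobounded ℂ) (𝓝 0)
  hS : ∀ j < m, ∀ x ∈ DD (R + 3), ∀ x' ∈ DD (R + 3), p j - Y (j + 1) x = Y j x' →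
    p j - Y (j + 1) x' = Y j x
  hr : ∀ w ∈ DD R, ‖f (Y m w) - w‖ ≤ ε

section step

variable {m : ℕ} {p : ℕ → ℂ} {χ : ℕ → ℂ → ℝ} {L : ℝ} {f : ℂ → ℂ} {R ε A : ℝ} {Y : ℕ → ℂ → ℂ}

lemma res_diff (hf : DifferentiableOn ℂ f (DD (1 / 2))) (hR : 1 ≤ R) (hA : A ≤ 1 / 32)
    (S : St m p f R ε A Y) : DifferentiableOn ℂ (fun w => f (Y m w) - w) (DD R) := by
  refine DifferentiableOn.sub ?_ differentiableOn_id
  refine hf.comp (S.hd m le_rfl) ?_
  intro w hw
  have h1 := S.hA0 m le_rfl w hw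
  have h2 : R < ‖w‖ := hw
  have h3 := norm_sub_norm_le w (Y m w)
  rw [norm_sub_rev] at h3
  show 1 / 2 < ‖Y m w‖
  linarith

lemma res_Z (hfZ : Tendsto (fun w => w * (f w - w)) (cobounded ℂ) (𝓝 0))
    (S : St m p f R ε A Y) :
    Tendsto (fun w => w * (f (Y m w) - w)) (cobounded ℂ) (𝓝 0) := by
  have h1 := tend_comp (F := fun u => f u - u) (h := Y m) (C := A) hfZ
    (by filter_upwards [DD_cobounded R] with w hw using S.hA0 m le_rfl w hw)
  have h2 := h1.add (S.hZ m le_rfl)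
  rw [add_zero] at h2
  refine h2.congr fun w => ?_
  ring

lemma res_0 (hfZ : Tendsto (fun w => w * (f w - w)) (cobounded ℂ) (𝓝 0))
    (S : St m p f R ε A Y) :
    Tendsto (fun w => f (Y m w) - w) (cobounded ℂ) (𝓝 0) := by
  have h := (tend_inv).mul (res_Z hfZ S)
  rw [zero_mul] at h
  refine h.congr' ?_
  filter_upwards [DD_cobounded 0] with w hw
  have : w ≠ 0 := norm_pos_iff.mp hw
  field_simp

lemma mkSlot (N : Net m p χ L) (hf : DifferentiableOn ℂ f (DD (1 / 2)))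
    (hfZ : Tendsto (fun w => w * (f w - w)) (cobounded ℂ) (𝓝 0))
    (S : St m p f R ε A Y) (hR : 1 ≤ R) {R' : ℝ} (hRR : R < R') (hR' : R' ≤ 33 / 32)
    (hA : 0 ≤ A) (hA' : A ≤ 1 / 32) (hε : 0 ≤ ε) {j : ℕ} (hj : j < m) :
    Slot R R' ε A L (p j) (χ j) (fun w => f (Y m w) - w) (Y j) where
  hR1 := hR
  hRR := hRR
  hR' := hR'
  hA := hA
  hA' := hA'
  hε := hε
  hL := N.hL
  hp := N.hp j hj
  hYd := S.hd j hj.le
  hY0 := S.hA0 j hj.le
  hY1 := S.hA1 j hj.le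
  hY2 := S.hA2 j hj.le
  hrd := res_diff hf hR hA' S
  hr := S.hr
  hr0 := res_0 hfZ S
  hχ0 := N.h0 j
  hχ1 := fun u hu => N.le_one hj hu
  hχs := N.hs j hj
  hχL := N.hLip j hj

/-- the reflected corrections nearly cancel -/
lemma K7 (N : Net m p χ L) (hf : DifferentiableOn ℂ f (DD (1 / 2)))
    (hfZ : Tendsto (fun w => w * (f w - w)) (cobounded ℂ) (𝓝 0))
    (S : St m p f R ε A Y) (hR : 1 ≤ R) {R' : ℝ} (hRR : R < R') (hR' : R' ≤ 33 / 32)
    (hA : 0 ≤ A) (hA' : A ≤ 1 / 32) (hε : 0 ≤ ε) {w : ℂ} (hw : w ∈ DD R') :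
    ‖∑ j ∈ Finset.range m, kap R' (χ j) (fun w => f (Y m w) - w) (Y j) (p j - w)‖ ≤ ε / 5 := by
  set r : ℂ → ℂ := fun w => f (Y m w) - w with hr
  have hR'0 : 0 < R' := by linarith
  have hw' : R' < ‖w‖ := hw
  have hw0 : w ≠ 0 := norm_pos_iff.mp (by linarith)
  have T : ∀ j < m, Slot R R' ε A L (p j) (χ j) r (Y j) := fun j hj =>
    mkSlot N hf hfZ S hR hRR hR' hA hA' hε hj
  have hint : ∀ j ∈ Finset.range m, CircleIntegrable
      (fun ζ => (χ j (ζ / R') : ℂ) * r ζ * deriv (Y j) ζ / (p j - w - Y j ζ)) 0 R' := by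
    intro j hj
    have hj' := Finset.mem_range.mp hj
    exact (T j hj').int (c := 5 / 8) (by norm_num)
      (fun ζ hζ h0 => (T j hj').refl_lower hζ h0 (by linarith))
  have hrc : CircleIntegrable r 0 R' :=
    ((res_diff hf hR hA' S).continuousOn.mono
      (fun _ hζ => sphere_DD hRR hζ)).circleIntegrable hR'0.le
  have hr0 : ci R' r = 0 := ci_zero hR'0 hRR (res_diff hf hR hA' S) (res_Z hfZ S)
  have e1 : ∑ j ∈ Finset.range m, kap R' (χ j) r (Y j) (p j - w) =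
      ci R' (fun ζ => (∑ j ∈ Finset.range m,
        (χ j (ζ / R') : ℂ) * r ζ * deriv (Y j) ζ / (p j - w - Y j ζ)) + w⁻¹ * r ζ) := by
    rw [ci_add' (f := fun ζ => ∑ j ∈ Finset.range m,
        (χ j (ζ / R') : ℂ) * r ζ * deriv (Y j) ζ / (p j - w - Y j ζ)) (g := fun ζ => w⁻¹ * r ζ)
      (CircleIntegrable.fun_sum _ hint) (hrc.const_smul (a := w⁻¹)), ci_const_mul, hr0,
      mul_zero, add_zero]
    unfold kap ci
    rw [circleIntegral.integral_fun_sum hint, Finset.smul_sum]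
  rw [e1]
  have h := ci_norm_le (C := ε * (5 / 28)) hR'0.le
    (g := fun ζ => (∑ j ∈ Finset.range m,
        (χ j (ζ / R') : ℂ) * r ζ * deriv (Y j) ζ / (p j - w - Y j ζ)) + w⁻¹ * r ζ) (by
      intro ζ hζ
      have hu := unit_mem hR'0 hζ
      have e2 : w⁻¹ * r ζ = ∑ j ∈ Finset.range m, (χ j (ζ / R') : ℂ) * (w⁻¹ * r ζ) := by
        rw [← Finset.sum_mul]
        have := N.hsum _ hu
        have h2 : ∑ j ∈ Finset.range m, (χ j (ζ / R') : ℂ) = 1 := by
          rw [← Complex.ofReal_sum, this]; rfl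
        rw [h2, one_mul]
      show ‖(∑ j ∈ Finset.range m,
        (χ j (ζ / R') : ℂ) * r ζ * deriv (Y j) ζ / (p j - w - Y j ζ)) + w⁻¹ * r ζ‖ ≤ _
      rw [e2, ← Finset.sum_add_distrib]
      refine (norm_sum_le _ _).trans ?_
      have hb : ∀ j ∈ Finset.range m, ‖(χ j (ζ / R') : ℂ) * r ζ * deriv (Y j) ζ /
          (p j - w - Y j ζ) + (χ j (ζ / R') : ℂ) * (w⁻¹ * r ζ)‖ ≤
          χ j (ζ / R') * (ε * (5 / 28)) := by
        intro j hj
        have hj' := Finset.mem_range.mp hj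
        have Tj := T j hj'
        by_cases h0 : χ j (ζ / R') = 0
        · rw [h0]; simp
        · have h1 := Tj.refl_lower hζ h0 (v := w) (by linarith)
          have hne : p j - w - Y j ζ ≠ 0 := norm_pos_iff.mp (by linarith)
          have e3 : (χ j (ζ / R') : ℂ) * r ζ * deriv (Y j) ζ / (p j - w - Y j ζ) +
              (χ j (ζ / R') : ℂ) * (w⁻¹ * r ζ) = (χ j (ζ / R') : ℂ) * (r ζ *
              (((deriv (Y j) ζ - 1) * w + (p j - Y j ζ)) / ((p j - w - Y j ζ) * w))) := by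
            field_simp
            ring
          rw [e3, norm_mul, Complex.norm_real, Real.norm_of_nonneg (N.h0 _ _), norm_mul]
          refine mul_le_mul_of_nonneg_left ?_ (N.h0 _ _)
          refine mul_le_mul (S.hr ζ (sphere_DD hRR hζ)) ?_ (norm_nonneg _) hε
          have h2 := Tj.supp hζ h0
          have h3 := deriv_near_one hA Tj.hYd Tj.hY1 (sphere_DD hRR hζ)
          have h4 : ‖(deriv (Y j) ζ - 1) * w + (p j - Y j ζ)‖ ≤ A * ‖w‖ + 1 / 8 := by
            refine (norm_add_le _ _).trans ?_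
            rw [norm_mul]
            exact add_le_add (mul_le_mul_of_nonneg_right h3 (norm_nonneg _)) h2
          have h5 : ‖w‖ - 1 / 8 ≤ ‖p j - w - Y j ζ‖ := by
            have h2' := norm_sub_norm_le w (p j - Y j ζ)
            rw [show w - (p j - Y j ζ) = -(p j - w - Y j ζ) from by ring, norm_neg] at h2'
            linarith
          rw [norm_div, norm_mul, div_le_iff₀ (mul_pos (norm_pos_iff.mpr hne)
            (norm_pos_iff.mpr hw0))]
          have h6 : 7 / 8 * ‖w‖ ≤ ‖p j - w - Y j ζ‖ * ‖w‖ :=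
            mul_le_mul_of_nonneg_right (by linarith) (norm_nonneg _)
          have h7 : 1 < ‖w‖ := by linarith
          nlinarith [norm_nonneg w]
      refine (Finset.sum_le_sum hb).trans ?_
      rw [← Finset.sum_mul, N.hsum _ hu, one_mul])
  refine h.trans ?_
  nlinarith

end step

end Pool.Agent.Helper861.Inv
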