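import Pool.Agent.Helper861.InvA

set_option autoImplicit false

namespace Pool.Agent.Helper861.Inv

open Complex Set Filter Topology Metric Bornology


/-! One step of the iteration -/

noncomputable def cK (L : ℝ) : ℝ := 2 + 2 * L

noncomputable def cT (m : ℕ) (L : ℝ) : ℝ := m * (2 * cK L + 4)

noncomputable def cF (m : ℕ) (L : ℝ) : ℝ :=
  m * (2 * cK L + 10) + cT m L * (4 * m * cK L + 3 * m + 4)

section slotmaps

variable {R R' ε A L : ℝ} {p : ℂ} {χ : ℂ → ℝ} {r Y : ℂ → ℂ}

lemma norm_lower {Yp : ℂ → ℂ} (S : Slot R R' ε A L p χ r Y)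
    (h0 : ∀ w ∈ DD R, ‖Yp w - w‖ ≤ A) {w : ℂ} (hw : w ∈ DD R') : 3 / 4 ≤ ‖Yp w‖ := by
  have h1 := h0 w (DD_mono S.hRR.le hw)
  have h2 : R' < ‖w‖ := hw
  have h3 := norm_sub_norm_le w (Yp w)
  rw [norm_sub_rev] at h3
  have := S.hR1; have := S.hRR; have := S.hA'
  linarith

lemma Slot.refl_diff {Yp : ℂ → ℂ} (S : Slot R R' ε A L p χ r Y)
    (hd : DifferentiableOn ℂ Yp (DD R)) (h0 : ∀ w ∈ DD R, ‖Yp w - w‖ ≤ A) :
    DifferentiableOn ℂ (fun u => kap R' χ r Y (p - Yp u)) (DD R') := by
  intro w hw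
  have hwR := DD_mono S.hRR.le hw
  have hY := differentiableAt_of_DD hd hwR
  have hl := norm_lower S h0 hw
  have hk : DifferentiableAt ℂ (kap R' χ r Y) (p - Yp w) := by
    refine ci_param_diff S.R'pos.le S.g_cont S.Y_cont (c := 5 / 8) (by norm_num)
      (fun ζ hζ => ?_)
    by_cases h0 : χ (ζ / R') = 0
    · left; rw [h0]; simp
    · right; exact S.refl_lower hζ h0 hl
  have h1 : DifferentiableAt ℂ (fun u => p - Yp u) w := (differentiableAt_const p).sub hY
  exact (hk.comp w h1).differentiableWithinAt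

lemma Slot.maps {Yp : ℂ → ℂ} (S : Slot R R' ε A L p χ r Y)
    (hd : DifferentiableOn ℂ Yp (DD R)) (h0 : ∀ w ∈ DD R, ‖Yp w - w‖ ≤ A)
    (h1 : ∀ w ∈ DD R, ∀ z ∈ DD R, ‖(Yp w - w) - (Yp z - z)‖ ≤ A * ‖w - z‖)
    (hε1 : ε ≤ 1 / 32) :
    ∃ P Q : ℂ → ℂ, (DifferentiableOn ℂ P (DD (R' + 2 * cK L * ε)) ∧
      ∀ w ∈ DD (R' + 2 * cK L * ε), P w ∈ DD R' ∧
        Y (P w) = Y w - kap R' χ r Y (Y w) ∧ ‖P w - w‖ ≤ 2 * cK L * ε) ∧
      (DifferentiableOn ℂ Q (DD (R' + 4 * ε)) ∧
      ∀ w ∈ DD (R' + 4 * ε), Q w ∈ DD R' ∧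
        Yp (Q w) + kap R' χ r Y (p - Yp (Q w)) = Yp w ∧ ‖Q w - w‖ ≤ 4 * ε) := by
  have hε := S.hε
  have hA := S.hA
  have hA' := S.hA'
  have hL := S.hL
  have hK : 0 ≤ cK L := by unfold cK; linarith
  have hsub : DD R' ⊆ DD R := DD_mono S.hRR.le
  obtain ⟨P, hPd, hP⟩ := solve (Y := Y) (p := fun w => Y w - kap R' χ r Y (Y w)) (R := R')
    (s := 2 * cK L * ε) (A := A) (S.hYd.mono hsub) hA (by linarith)
    (fun w hw z hz => S.hY1 w (hsub hw) z (hsub hz)) (by positivity)
    ((S.hYd.mono (fun w hw => hsub (DD_mono (by nlinarith) hw))).sub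
      (S.K3d.mono (DD_mono (by nlinarith))))
    (fun w hw => by
      have hw' : w ∈ DD R' := DD_mono (by nlinarith) hw
      have := S.K3 hw'
      rw [show Y w - kap R' χ r Y (Y w) - Y w = -kap R' χ r Y (Y w) from by ring, norm_neg]
      unfold cK
      linarith)
  have hLip : ∀ w ∈ DD R', ∀ z ∈ DD R',
      ‖(Yp w + kap R' χ r Y (p - Yp w) - w) - (Yp z + kap R' χ r Y (p - Yp z) - z)‖ ≤
      1 / 2 * ‖w - z‖ := by
    intro w hw z hz
    have e : (Yp w + kap R' χ r Y (p - Yp w) - w) - (Yp z + kap R' χ r Y (p - Yp z) - z) =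
        ((Yp w - w) - (Yp z - z)) + (kap R' χ r Y (p - Yp w) - kap R' χ r Y (p - Yp z)) := by ring
    rw [e]
    refine (norm_add_le _ _).trans ?_
    have a1 := h1 w (hsub hw) z (hsub hz)
    have a2 := S.K4L (norm_lower S h0 hw) (norm_lower S h0 hz)
    have a3 : ‖Yp w - Yp z‖ ≤ (1 + A) * ‖w - z‖ := by
      have := norm_add_le ((Yp w - w) - (Yp z - z)) (w - z)
      rw [show (Yp w - w) - (Yp z - z) + (w - z) = Yp w - Yp z from by ring] at this
      linarith
    have a4 : 3 * ε * ‖Yp w - Yp z‖ ≤ 3 * ε * ((1 + A) * ‖w - z‖) :=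
      mul_le_mul_of_nonneg_left a3 (by positivity)
    have a5 : A + 3 * ε * (1 + A) ≤ 1 / 2 := by nlinarith
    have a6 := mul_le_mul_of_nonneg_right a5 (norm_nonneg (w - z))
    linarith
  obtain ⟨Q, hQd, hQ⟩ := solve (Y := fun u => Yp u + kap R' χ r Y (p - Yp u)) (p := Yp) (R := R')
    (s := 4 * ε) (A := 1 / 2) ((hd.mono hsub).add (S.refl_diff hd h0)) (by norm_num) le_rfl
    hLip (by positivity) (hd.mono (fun w hw => hsub (DD_mono (by linarith) hw)))
    (fun w hw => by
      have hw' : w ∈ DD R' := DD_mono (by linarith) hw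
      have := S.K4 (norm_lower S h0 hw')
      rw [show Yp w - (Yp w + kap R' χ r Y (p - Yp w)) = -kap R' χ r Y (p - Yp w) from by ring,
        norm_neg]
      linarith)
  refine ⟨P, Q, ⟨hPd, fun w hw => ?_⟩, ⟨hQd, fun w hw => ?_⟩⟩
  · obtain ⟨a1, a2, a3⟩ := hP w hw
    refine ⟨a1, a2, a3.trans ?_⟩
    have hw' : w ∈ DD R' := DD_mono (by nlinarith) hw
    have := S.K3 hw'
    rw [show Y w - kap R' χ r Y (Y w) - Y w = -kap R' χ r Y (Y w) from by ring, norm_neg]
    unfold cK
    linarith
  · obtain ⟨a1, a2, a3⟩ := hQ w hw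
    refine ⟨a1, a2, a3.trans ?_⟩
    have hw' : w ∈ DD R' := DD_mono (by linarith) hw
    have := S.K4 (norm_lower S h0 hw')
    rw [show Yp w - (Yp w + kap R' χ r Y (p - Yp w)) = -kap R' χ r Y (p - Yp w) from by ring,
      norm_neg]
    linarith

end slotmaps


section step2

variable {m : ℕ} {p : ℕ → ℂ} {χ : ℕ → ℂ → ℝ} {L : ℝ} {f : ℂ → ℂ} {R ε A : ℝ} {Y : ℕ → ℂ → ℂ}

theorem step (N : Net m p χ L) (hf : DifferentiableOn ℂ f (DD (1 / 2)))
    (hfZ : Tendsto (fun w => w * (f w - w)) (cobounded ℂ) (𝓝 0))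
    (S : St m p f R ε A Y) (hR : 1 ≤ R) {s : ℝ} (hs : 0 < s) (hs1 : s ≤ 1)
    (hR3 : R + 3 * s ≤ 33 / 32) (hA : 0 ≤ A) (hA' : A ≤ 1 / 32) (hε : 0 ≤ ε)
    (hε1 : ε ≤ 1 / 32) (hT : cT m L * ε ≤ s) (h1 : cF m L * A ≤ 1 / 10)
    (h2 : cF m L * ε ≤ s / 10) :
    ∃ Y' : ℕ → ℂ → ℂ, St m p f (R + 3 * s) (ε / 2) (A + 72 * cT m L * ε / s ^ 2) Y' ∧
      ∀ j ≤ m, ∀ w ∈ DD (R + 3 * s), ‖Y' j w - Y j w‖ ≤ 2 * (cT m L * ε) := by
  have hL := N.hL
  have hK : 2 ≤ cK L := by unfold cK; linarith
  set r : ℂ → ℂ := fun w => f (Y m w) - w with hr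
  set R' := R + s with hR'def
  have hRR : R < R' := by linarith
  have hR' : R' ≤ 33 / 32 := by linarith
  have T : ∀ j < m, Slot R R' ε A L (p j) (χ j) r (Y j) := fun j hj =>
    mkSlot N hf hfZ S hR hRR hR' hA hA' hε hj
  have hmaps : ∀ j, ∃ P Q : ℂ → ℂ, j < m →
      (DifferentiableOn ℂ P (DD (R' + 2 * cK L * ε)) ∧
      ∀ w ∈ DD (R' + 2 * cK L * ε), P w ∈ DD R' ∧
        Y j (P w) = Y j w - kap R' (χ j) r (Y j) (Y j w) ∧ ‖P w - w‖ ≤ 2 * cK L * ε) ∧
      (DifferentiableOn ℂ Q (DD (R' + 4 * ε)) ∧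
      ∀ w ∈ DD (R' + 4 * ε), Q w ∈ DD R' ∧
        Y (j + 1) (Q w) + kap R' (χ j) r (Y j) (p j - Y (j + 1) (Q w)) = Y (j + 1) w ∧
        ‖Q w - w‖ ≤ 4 * ε) := by
    intro j
    by_cases hj : j < m
    · obtain ⟨P, Q, h⟩ := (T j hj).maps (Yp := Y (j + 1)) (S.hd _ hj) (S.hA0 _ hj) (S.hA1 _ hj) hε1
      exact ⟨P, Q, fun _ => h⟩
    · exact ⟨id, id, fun h => absurd h hj⟩
  choose P Q hPQ using hmaps
  let H : ℕ → ℂ → ℂ := fun j => Nat.rec (fun w => w) (fun j g w => Q j (P j (g w))) j
  have HH0 : ∀ w, H 0 w = w := fun _ => rfl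
  have HHS : ∀ j w, H (j + 1) w = Q j (P j (H j w)) := fun _ _ => rfl
  set t := (2 * cK L + 4) * ε with ht
  have ht0 : 0 ≤ t := by positivity
  have hmt : (m : ℝ) * t = cT m L * ε := by unfold cT; rw [ht]; ring
  have hjt : ∀ j : ℕ, j < m → ((j : ℝ) + 1) * t ≤ cT m L * ε := by
    intro j hj
    rw [← hmt]
    refine mul_le_mul_of_nonneg_right ?_ ht0
    exact_mod_cast hj
  -- facts in one slot
  have hslot : ∀ j < m, ∀ w ∈ DD (R' + s), ‖H j w - w‖ ≤ j * t →
      (H j w ∈ DD (R' + t) ∧ P j (H j w) ∈ DD (R' + 4 * ε) ∧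
        Y j (P j (H j w)) = Y j (H j w) - kap R' (χ j) r (Y j) (Y j (H j w)) ∧
        ‖P j (H j w) - H j w‖ ≤ 2 * cK L * ε) ∧
      (H (j + 1) w ∈ DD R' ∧
        Y (j + 1) (H (j + 1) w) + kap R' (χ j) r (Y j) (p j - Y (j + 1) (H (j + 1) w)) =
          Y (j + 1) (P j (H j w)) ∧
        ‖H (j + 1) w - P j (H j w)‖ ≤ 4 * ε) := by
    intro j hj w hw hHj
    obtain ⟨⟨_, hP⟩, ⟨_, hQ⟩⟩ := hPQ j hj
    have a1 : H j w ∈ DD (R' + t) := by
      refine DD_near (s := j * t) (DD_mono ?_ hw) hHj
      have := hjt j hj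
      nlinarith
    have a2 : H j w ∈ DD (R' + 2 * cK L * ε) := DD_mono (by rw [ht]; nlinarith) a1
    obtain ⟨b1, b2, b3⟩ := hP _ a2
    have a3 : P j (H j w) ∈ DD (R' + 4 * ε) := by
      refine DD_near (s := 2 * cK L * ε) (DD_mono (by rw [ht]; nlinarith) a1) b3
    obtain ⟨c1, c2, c3⟩ := hQ _ a3
    exact ⟨⟨a1, a3, b2, b3⟩, ⟨c1, c2, c3⟩⟩
  have hH : ∀ j ≤ m, DifferentiableOn ℂ (H j) (DD (R' + s)) ∧
      ∀ w ∈ DD (R' + s), ‖H j w - w‖ ≤ j * t := by
    intro j
    induction j with
    | zero =>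
      intro _
      refine ⟨differentiableOn_id, fun w _ => ?_⟩
      rw [HH0, sub_self, norm_zero]; simp
    | succ j ih =>
      intro hj
      obtain ⟨i1, i2⟩ := ih (by omega)
      obtain ⟨⟨hPd, hP⟩, ⟨hQd, hQ⟩⟩ := hPQ j hj
      refine ⟨?_, ?_⟩
      · have e1 : DifferentiableOn ℂ (fun w => P j (H j w)) (DD (R' + s)) := by
          refine hPd.comp i1 (fun w hw => ?_)
          exact DD_mono (by rw [ht]; nlinarith) (hslot j hj w hw (i2 w hw)).1.1
        exact hQd.comp e1 (fun w hw => (hslot j hj w hw (i2 w hw)).1.2.1)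
      · intro w hw
        have hh := hslot j hj w hw (i2 w hw)
        have e : H (j + 1) w - w = (H (j + 1) w - P j (H j w)) + (P j (H j w) - H j w) +
            (H j w - w) := by ring
        rw [e]
        refine norm_add₃_le.trans ?_
        have := hh.2.2.2
        have := hh.1.2.2.2
        have := i2 w hw
        push_cast
        rw [ht] at this ⊢
        linarith
  have hHT : ∀ j ≤ m, ∀ w ∈ DD (R' + s), ‖H j w - w‖ ≤ cT m L * ε := by
    intro j hj w hw
    refine ((hH j hj).2 w hw).trans ?_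
    rw [← hmt]
    exact mul_le_mul_of_nonneg_right (by exact_mod_cast hj) ht0
  have hHR' : ∀ j ≤ m, ∀ w ∈ DD (R' + s), H j w ∈ DD R' := fun j hj w hw =>
    DD_near hw ((hHT j hj w hw).trans hT)
  have hsub : DD R' ⊆ DD R := DD_mono hRR.le
  -- closeness
  have hclose : ∀ j ≤ m, ∀ w ∈ DD (R' + s), ‖Y j (H j w) - Y j w‖ ≤ 2 * (cT m L * ε) := by
    intro j hj w hw
    have a1 := S.hA1 j hj (H j w) (hsub (hHR' j hj w hw)) w (DD_mono (by linarith) hw)
    have a2 := hHT j hj w hw
    have a3 : ‖Y j (H j w) - Y j w‖ ≤ A * ‖H j w - w‖ + ‖H j w - w‖ := by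
      have := norm_add_le ((Y j (H j w) - H j w) - (Y j w - w)) (H j w - w)
      rw [show (Y j (H j w) - H j w) - (Y j w - w) + (H j w - w) = Y j (H j w) - Y j w
        from by ring] at this
      linarith
    have a4 : 0 ≤ ‖H j w - w‖ := norm_nonneg _
    nlinarith
  have hTnn : 0 ≤ cT m L * ε := by rw [← hmt]; positivity
  have hR3eq : R + 3 * s = R' + s + s := by rw [hR'def]; ring
  -- the derivative of the difference
  have hdiffd : ∀ j ≤ m, DifferentiableOn ℂ (fun w => Y j (H j w) - Y j w) (DD (R' + s)) := by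
    intro j hj
    refine DifferentiableOn.sub ?_ ((S.hd j hj).mono (DD_mono (by linarith)))
    exact (S.hd j hj).comp (hH j hj).1 (fun w hw => hsub (hHR' j hj w hw))
  have hnewd : ∀ j ≤ m, DifferentiableOn ℂ (fun w => Y j (H j w)) (DD (R' + s)) := by
    intro j hj
    exact (S.hd j hj).comp (hH j hj).1 (fun w hw => hsub (hHR' j hj w hw))
  have hs2 : s ^ 2 ≤ 1 := by nlinarith
  have hs20 : 0 < s ^ 2 := by positivity
  have hbig : 2 * (cT m L * ε) ≤ 72 * cT m L * ε / s ^ 2 := by
    rw [le_div_iff₀ hs20]; nlinarith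
  have hbig2 : 4 * (2 * (cT m L * ε)) / s ≤ 72 * cT m L * ε / s ^ 2 := by
    rw [div_le_div_iff₀ hs hs20]; nlinarith [mul_nonneg hTnn hs.le]
  have hbig3 : 36 * (2 * (cT m L * ε)) / s ^ 2 = 72 * cT m L * ε / s ^ 2 := by ring
  refine ⟨fun j w => Y j (H j w), ⟨?_, ?_, ?_, ?_, ?_, ?_, ?_, ?_⟩, ?_⟩
  · intro j hj
    exact (hnewd j hj).mono (DD_mono (by linarith))
  · intro w hw
    show Y 0 (H 0 w) = w
    rw [HH0]
    exact S.h0 w (DD_mono (by linarith) hw)
  · intro j hj w hw
    have hw' : w ∈ DD (R' + s) := DD_mono (by linarith) hw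
    have a1 := hclose j hj w hw'
    have a2 := S.hA0 j hj w (DD_mono (by linarith) hw)
    have a3 := norm_add_le (Y j (H j w) - Y j w) (Y j w - w)
    rw [sub_add_sub_cancel] at a3
    show ‖Y j (H j w) - w‖ ≤ _
    linarith
  · intro j hj w hw z hz
    rw [hR3eq] at hw hz
    have a1 := cauchy_lip hs (hdiffd j hj) (hclose j hj) hw hz
    have a2 := S.hA1 j hj w (DD_mono (by linarith) hw) z (DD_mono (by linarith) hz)
    have a3 := norm_add_le ((Y j (H j w) - Y j w) - (Y j (H j z) - Y j z))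
      ((Y j w - w) - (Y j z - z))
    rw [show (Y j (H j w) - Y j w) - (Y j (H j z) - Y j z) + ((Y j w - w) - (Y j z - z)) =
      (Y j (H j w) - w) - (Y j (H j z) - z) from by ring] at a3
    refine a3.trans ?_
    have a4 := mul_le_mul_of_nonneg_right hbig2 (norm_nonneg (w - z))
    nlinarith
  · intro j hj w hw z hz
    rw [hR3eq] at hw hz
    have a1 := cauchy_second hs (hdiffd j hj) (hclose j hj) hw hz
    have hzR : z ∈ DD R := DD_mono (by linarith) hz
    have hzs : z ∈ DD (R' + s) := DD_mono (by linarith) hz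
    have a2 := S.hA2 j hj w (DD_mono (by linarith) hw) z hzR
    have e1 : deriv (fun w => Y j (H j w) - Y j w) z =
        deriv (fun w => Y j (H j w)) z - deriv (Y j) z :=
      ((differentiableAt_of_DD (hnewd j hj) hzs).hasDerivAt.sub
        (differentiableAt_of_DD (S.hd j hj) hzR).hasDerivAt).deriv
    rw [e1, hbig3] at a1
    have a3 := norm_add_le ((deriv (fun w => Y j (H j w)) z - deriv (Y j) z) * (w - z) -
      (Y j (H j w) - Y j w - (Y j (H j z) - Y j z)))
      (deriv (Y j) z * (w - z) - (Y j w - Y j z))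
    rw [show (deriv (fun w => Y j (H j w)) z - deriv (Y j) z) * (w - z) -
      (Y j (H j w) - Y j w - (Y j (H j z) - Y j z)) +
      (deriv (Y j) z * (w - z) - (Y j w - Y j z)) =
      deriv (fun w => Y j (H j w)) z * (w - z) - (Y j (H j w) - Y j (H j z)) from by ring] at a3
    refine a3.trans ?_
    rw [add_mul]
    linarith
  · -- asymptotics
    have hPas : ∀ j < m, Tendsto (fun u => u * (P j u - u)) (cobounded ℂ)
        (𝓝 (-ci R' (fun ζ => (χ j (ζ / R') : ℂ) * r ζ * deriv (Y j) ζ))) := by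
      intro j hj
      obtain ⟨⟨_, hP⟩, _⟩ := hPQ j hj
      have f1 := tend_comp (h := Y j) (C := A) (T j hj).K6
        (by filter_upwards [DD_cobounded R] with w hw using S.hA0 j hj.le w hw)
      have f2 := tend_comp (h := P j) (C := 2 * cK L * ε) (S.hZ j hj.le)
        (by filter_upwards [DD_cobounded (R' + 2 * cK L * ε)] with w hw using (hP w hw).2.2)
      have f3 := ((f1.neg).sub f2).add (S.hZ j hj.le)
      rw [sub_zero, add_zero] at f3
      refine f3.congr' ?_
      filter_upwards [DD_cobounded (R' + 2 * cK L * ε)] with w hw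
      have := (hP w hw).2.1
      rw [this]
      ring
    have hQas : ∀ j < m, Tendsto (fun u => u * (Q j u - u)) (cobounded ℂ)
        (𝓝 (ci R' (fun ζ => (χ j (ζ / R') : ℂ) * r ζ * deriv (Y j) ζ))) := by
      intro j hj
      obtain ⟨_, ⟨_, hQ⟩⟩ := hPQ j hj
      have g1 : Tendsto (fun v => v * kap R' (χ j) r (Y j) (-v)) (cobounded ℂ)
          (𝓝 (-ci R' (fun ζ => (χ j (ζ / R') : ℂ) * r ζ * deriv (Y j) ζ))) := by
        have g0 := (T j hj).K6.comp (tendsto_neg_cobounded (E := ℂ))
        refine g0.neg.congr fun v => ?_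
        simp only [Function.comp]
        ring
      have f1 := tend_comp (h := fun u => Y (j + 1) (Q j u) - p j) (C := A + 4 * ε + 1) g1
        (by
          filter_upwards [DD_cobounded (R' + 4 * ε)] with w hw
          have q := hQ w hw
          have a1 := S.hA0 (j + 1) hj _ (hsub q.1)
          have a2 := q.2.2
          have a3 := N.hp j hj
          have e : Y (j + 1) (Q j w) - p j - w = (Y (j + 1) (Q j w) - Q j w) + (Q j w - w) +
              (-p j) := by ring
          rw [e]
          refine norm_add₃_le.trans ?_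
          rw [norm_neg]
          linarith)
      have f2 := tend_comp (h := Q j) (C := 4 * ε) (S.hZ (j + 1) hj)
        (by filter_upwards [DD_cobounded (R' + 4 * ε)] with w hw using (hQ w hw).2.2)
      have f3 := ((f1.neg).sub f2).add (S.hZ (j + 1) hj)
      rw [sub_zero, add_zero, neg_neg] at f3
      refine f3.congr' ?_
      filter_upwards [DD_cobounded (R' + 4 * ε)] with w hw
      have := (hQ w hw).2.1
      have e2 : kap R' (χ j) r (Y j) (-(Y (j + 1) (Q j w) - p j)) =
          Y (j + 1) w - Y (j + 1) (Q j w) := by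
        rw [neg_sub, ← this]; ring
      rw [e2]
      ring
    have hHas : ∀ j ≤ m, Tendsto (fun w => w * (H j w - w)) (cobounded ℂ) (𝓝 0) := by
      intro j
      induction j with
      | zero =>
        intro _
        simp only [HH0, sub_self, mul_zero]
        exact tendsto_const_nhds
      | succ j ih =>
        intro hj
        have i1 := ih (by omega)
        have hcob := DD_cobounded (R' + s)
        have f1 := tend_comp (F := fun u => P j u - u) (h := H j) (C := cT m L * ε) (hPas j hj)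
          (by filter_upwards [hcob] with w hw using hHT j (by omega) w hw)
        have f2 := tend_comp (F := fun u => Q j u - u) (h := fun w => P j (H j w))
          (C := cT m L * ε + 2 * cK L * ε) (hQas j hj)
          (by
            filter_upwards [hcob] with w hw
            have hh := hslot j hj w hw ((hH j (by omega)).2 w hw)
            have a1 := hh.1.2.2.2
            have a2 := hHT j (by omega) w hw
            have a3 := norm_add_le (P j (H j w) - H j w) (H j w - w)
            rw [sub_add_sub_cancel] at a3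
            linarith)
        have f3 := (f2.add f1).add i1
        rw [add_neg_cancel, add_zero] at f3
        refine f3.congr fun w => ?_
        rw [HHS]
        ring
    intro j hj
    have f1 := tend_comp (F := fun u => Y j u - u) (h := H j) (C := cT m L * ε) (S.hZ j hj)
      (by filter_upwards [DD_cobounded (R' + s)] with w hw using hHT j hj w hw)
    have f2 := f1.add (hHas j hj)
    rw [add_zero] at f2
    refine f2.congr fun w => ?_
    ring
  · -- symmetry
    intro j hj w hw w' hw' heq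
    have key : ∀ v ∈ DD (R + 3 * s + 3), v ∈ DD (R' + s) ∧ P j (H j v) ∈ DD (R + 3) ∧
        3 < ‖Y j (H j v)‖ ∧ 3 < ‖Y (j + 1) (H (j + 1) v)‖ := by
      intro v hv
      have hv1 : v ∈ DD (R' + s) := DD_mono (by linarith) hv
      have hh := hslot j hj v hv1 ((hH j hj.le).2 v hv1)
      have a1 : ‖P j (H j v) - v‖ ≤ cT m L * ε := by
        have b1 := hh.1.2.2.2
        have b2 := (hH j hj.le).2 v hv1
        have b3 := norm_add_le (P j (H j v) - H j v) (H j v - v)
        rw [sub_add_sub_cancel] at b3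
        have b4 := hjt j hj
        have b5 : 2 * cK L * ε ≤ t := by rw [ht]; nlinarith
        linarith
      have hv2 : R + 3 * s + 3 < ‖v‖ := hv
      have c1 := hHT j hj.le v hv1
      have c2 := hHT (j + 1) hj v hv1
      have c3 := S.hA0 j hj.le _ (hsub (hHR' j hj.le v hv1))
      have c4 := S.hA0 (j + 1) hj _ (hsub (hHR' (j + 1) hj v hv1))
      refine ⟨hv1, ?_, ?_, ?_⟩
      · exact DD_near (s := s) (DD_mono (by linarith) hv) (a1.trans hT)
      · have d1 := norm_sub_norm_le v (Y j (H j v))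
        have d2 := norm_add_le (Y j (H j v) - H j v) (H j v - v)
        rw [sub_add_sub_cancel, norm_sub_rev] at d2
        linarith
      · have d1 := norm_sub_norm_le v (Y (j + 1) (H (j + 1) v))
        have d2 := norm_add_le (Y (j + 1) (H (j + 1) v) - H (j + 1) v) (H (j + 1) v - v)
        rw [sub_add_sub_cancel, norm_sub_rev] at d2
        linarith
    obtain ⟨k1, k2, k3, k4⟩ := key w hw
    obtain ⟨k1', k2', k3', k4'⟩ := key w' hw'
    have s1 := hslot j hj w k1 ((hH j hj.le).2 w k1)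
    have s2 := hslot j hj w' k1' ((hH j hj.le).2 w' k1')
    have heq' : p j - Y (j + 1) (H (j + 1) w) = Y j (H j w') := heq
    show p j - Y (j + 1) (H (j + 1) w') = Y j (H j w)
    have e1 : p j - Y (j + 1) (P j (H j w)) = Y j (P j (H j w')) := by
      rw [← s1.2.2.1, s2.1.2.2.1, ← heq']
      ring
    have e2 := S.hS j hj _ k2 _ k2' e1
    rw [← s2.2.2.1, s1.1.2.2.1] at e2
    have hfar : 2 ≤ ‖p j - Y (j + 1) (H (j + 1) w')‖ := by
      have := norm_sub_norm_le (Y (j + 1) (H (j + 1) w')) (p j)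
      rw [N.hp j hj, norm_sub_rev] at this
      linarith
    have hk := (T j hj).K5 hfar (v' := Y j (H j w)) (by linarith)
    have e3 : kap R' (χ j) r (Y j) (p j - Y (j + 1) (H (j + 1) w')) -
        kap R' (χ j) r (Y j) (Y j (H j w)) =
        (p j - Y (j + 1) (H (j + 1) w')) - Y j (H j w) := by
      linear_combination -e2
    rw [e3] at hk
    have h0 : ‖p j - Y (j + 1) (H (j + 1) w') - Y j (H j w)‖ ≤ 0 := by
      have := norm_nonneg (p j - Y (j + 1) (H (j + 1) w') - Y j (H j w))
      nlinarith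
    exact sub_eq_zero.mp (norm_le_zero_iff.mp h0)
  · -- the residual
    intro w hw
    rw [hR3eq] at hw
    have hw1 : w ∈ DD (R' + s) := DD_mono (by linarith) hw
    have hwR' : w ∈ DD R' := DD_mono (by linarith) hw1
    set e0 := ε * (A * (2 * cK L + 7) + cT m L * ε * (4 * cK L / s + 3)) with he0
    have hsum : ∀ j ≤ m, ‖H j w - w + ∑ i ∈ Finset.range j,
        (kap R' (χ i) r (Y i) (Y i w) + kap R' (χ i) r (Y i) (p i - w))‖ ≤ j * e0 := by
      intro j
      induction j with
      | zero => intro _; rw [HH0]; simp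
      | succ j ih =>
        intro hj
        have i1 := ih (by omega)
        have hh := hslot j hj w hw1 ((hH j (by omega)).2 w hw1)
        set w' := H j w with hw'def
        set x := P j w' with hx
        set z := H (j + 1) w with hz
        have hw'w : ‖w' - w‖ ≤ cT m L * ε := hHT j (by omega) w hw1
        have hzw : ‖z - w‖ ≤ cT m L * ε := hHT (j + 1) hj w hw1
        have hw'R : w' ∈ DD R' := DD_mono (by linarith) hh.1.1
        have hxR : x ∈ DD R' := DD_mono (by linarith) hh.1.2.1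
        have hzR : z ∈ DD R' := hh.2.1
        -- (1)
        have b1 : ‖x - w' + kap R' (χ j) r (Y j) (Y j w')‖ ≤ A * (2 * cK L * ε) := by
          have e : x - w' + kap R' (χ j) r (Y j) (Y j w') = -((Y j x - x) - (Y j w' - w')) := by
            rw [hh.1.2.2.1]; ring
          rw [e, norm_neg]
          refine (S.hA1 j (by omega) x (hsub hxR) w' (hsub hw'R)).trans ?_
          exact mul_le_mul_of_nonneg_left hh.1.2.2.2 hA
        -- (2)
        have b2 : ‖kap R' (χ j) r (Y j) (Y j w) - kap R' (χ j) r (Y j) (Y j w')‖ ≤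
            4 * (cK L * ε) / s * (cT m L * ε) := by
          have hw's : w' ∈ DD (R' + s) := DD_near hw (hw'w.trans hT)
          have hl := cauchy_lip hs (T j hj).K3d (M := cK L * ε) (fun v hv => by
            have := (T j hj).K3 hv
            unfold cK
            linarith) hw1 hw's
          refine hl.trans (mul_le_mul_of_nonneg_left ?_ (by positivity))
          rw [norm_sub_rev]; exact hw'w
        -- (3)
        have b3 : ‖z - x + kap R' (χ j) r (Y j) (p j - Y (j + 1) z)‖ ≤ A * (4 * ε) := by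
          have e : z - x + kap R' (χ j) r (Y j) (p j - Y (j + 1) z) =
              -((Y (j + 1) z - z) - (Y (j + 1) x - x)) := by
            rw [← hh.2.2.1]; ring
          rw [e, norm_neg]
          refine (S.hA1 (j + 1) hj z (hsub hzR) x (hsub hxR)).trans ?_
          exact mul_le_mul_of_nonneg_left hh.2.2.2 hA
        -- (4)
        have b4 : ‖kap R' (χ j) r (Y j) (p j - w) - kap R' (χ j) r (Y j) (p j - Y (j + 1) z)‖ ≤
            3 * ε * (A + cT m L * ε) := by
          have hz34 : 3 / 4 ≤ ‖Y (j + 1) z‖ := norm_lower (T j hj) (S.hA0 (j + 1) hj) hzR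
          have hw34 : 3 / 4 ≤ ‖w‖ := by
            have : R' < ‖w‖ := hwR'
            linarith
          refine ((T j hj).K4L hw34 hz34).trans (mul_le_mul_of_nonneg_left ?_ (by positivity))
          have a1 := S.hA0 (j + 1) hj z (hsub hzR)
          have a2 := norm_add_le (Y (j + 1) z - z) (z - w)
          rw [sub_add_sub_cancel] at a2
          rw [norm_sub_rev]
          linarith
        rw [Finset.sum_range_succ]
        have e : z - w + (∑ i ∈ Finset.range j,
            (kap R' (χ i) r (Y i) (Y i w) + kap R' (χ i) r (Y i) (p i - w)) +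
            (kap R' (χ j) r (Y j) (Y j w) + kap R' (χ j) r (Y j) (p j - w))) =
            (w' - w + ∑ i ∈ Finset.range j,
              (kap R' (χ i) r (Y i) (Y i w) + kap R' (χ i) r (Y i) (p i - w))) +
            (x - w' + kap R' (χ j) r (Y j) (Y j w')) +
            (kap R' (χ j) r (Y j) (Y j w) - kap R' (χ j) r (Y j) (Y j w')) +
            (z - x + kap R' (χ j) r (Y j) (p j - Y (j + 1) z)) +
            (kap R' (χ j) r (Y j) (p j - w) - kap R' (χ j) r (Y j) (p j - Y (j + 1) z)) := by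
          ring
        rw [e]
        refine (norm_add_le _ _).trans ?_
        refine (add_le_add_left (norm_add_le _ _) _).trans ?_
        refine (add_le_add_left (add_le_add_left (norm_add₃_le) _) _).trans ?_
        push_cast
        have hfin : A * (2 * cK L * ε) + 4 * (cK L * ε) / s * (cT m L * ε) + A * (4 * ε) +
            3 * ε * (A + cT m L * ε) = e0 := by
          rw [he0]; field_simp; ring
        linarith
    have hS1 := hsum m le_rfl
    rw [Finset.sum_add_distrib] at hS1
    -- main sum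
    have hmain : ‖r w - ∑ i ∈ Finset.range m, kap R' (χ i) r (Y i) (Y i w)‖ ≤
        m * (3 * A * ε) := by
      have hR'0 : 0 < R' := by linarith
      have c1 : ∀ i ∈ Finset.range m, CircleIntegrable
          (fun ζ => (χ i (ζ / R') : ℂ) * r ζ / (w - ζ)) 0 R' := fun i hi =>
        ((T i (Finset.mem_range.mp hi)).c1 hwR').circleIntegrable hR'0.le
      have e1 : r w = ∑ i ∈ Finset.range m, ci R' (fun ζ => (χ i (ζ / R') : ℂ) * r ζ / (w - ζ)) := by
        have hcf : ci R' (fun ζ => r ζ / (w - ζ)) = r w :=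
          cauchy_inf hR'0 hRR (res_diff hf hR hA' S) (res_0 hfZ S) hwR'
        rw [← hcf]
        have e2 : ∑ i ∈ Finset.range m, ci R' (fun ζ => (χ i (ζ / R') : ℂ) * r ζ / (w - ζ)) =
            ci R' (fun ζ => ∑ i ∈ Finset.range m, (χ i (ζ / R') : ℂ) * r ζ / (w - ζ)) := by
          unfold ci
          rw [circleIntegral.integral_fun_sum c1, Finset.smul_sum]
        rw [e2]
        refine ci_congr hR'0.le fun ζ hζ => ?_
        rw [← Finset.sum_div, ← Finset.sum_mul]
        have := N.hsum _ (unit_mem hR'0 hζ)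
        have h2 : ∑ j ∈ Finset.range m, (χ j (ζ / R') : ℂ) = 1 := by
          rw [← Complex.ofReal_sum, this]; rfl
        rw [h2, one_mul]
      rw [e1, ← Finset.sum_sub_distrib]
      refine (norm_sum_le _ _).trans ?_
      have : ∀ i ∈ Finset.range m, ‖ci R' (fun ζ => (χ i (ζ / R') : ℂ) * r ζ / (w - ζ)) -
          kap R' (χ i) r (Y i) (Y i w)‖ ≤ 3 * A * ε := by
        intro i hi
        rw [norm_sub_rev]
        exact (T i (Finset.mem_range.mp hi)).K1 hwR'
      refine (Finset.sum_le_sum this).trans ?_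
      rw [Finset.sum_const, Finset.card_range, nsmul_eq_mul]
    have hrefl := K7 N hf hfZ S hR hRR hR' hA hA' hε hwR'
    have hlast : ‖r (H m w) - r w‖ ≤ 4 * ε / s * (cT m L * ε) := by
      have hHs : H m w ∈ DD (R' + s) := DD_near hw ((hHT m le_rfl w hw1).trans hT)
      have hl := cauchy_lip (R := R') hs ((res_diff hf hR hA' S).mono hsub) (M := ε)
        (fun v hv => S.hr v (hsub hv)) hHs hw1
      refine hl.trans (mul_le_mul_of_nonneg_left (hHT m le_rfl w hw1) (by positivity))
    have e3 : f (Y m (H m w)) - w = (r (H m w) - r w) +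
        (r w - ∑ i ∈ Finset.range m, kap R' (χ i) r (Y i) (Y i w)) +
        (H m w - w + (∑ i ∈ Finset.range m, kap R' (χ i) r (Y i) (Y i w) +
          ∑ i ∈ Finset.range m, kap R' (χ i) r (Y i) (p i - w))) -
        ∑ i ∈ Finset.range m, kap R' (χ i) r (Y i) (p i - w) := by
      simp only [hr]
      ring
    show ‖f (Y m (H m w)) - w‖ ≤ ε / 2
    rw [e3]
    refine (norm_sub_le _ _).trans ?_
    refine (add_le_add_left norm_add₃_le _).trans ?_
    -- numerics
    have hm0 : (0 : ℝ) ≤ m := Nat.cast_nonneg m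
    have hF : 4 * ε / s * (cT m L * ε) + m * (3 * A * ε) + m * e0 ≤
        ε * (cF m L * A) + ε * (cF m L * ε / s) := by
      have hcT : 0 ≤ cT m L := by unfold cT; positivity
      have k1 : 4 * ε / s * (cT m L * ε) + m * (3 * A * ε) + m * e0 =
          ε * (A * (m * (2 * cK L + 10))) +
          ε * (cT m L * ε * ((4 * m * cK L + 4) / s + 3 * m)) := by
        rw [he0]; field_simp; ring
      rw [k1]
      have k2 : A * (m * (2 * cK L + 10)) ≤ cF m L * A := by
        unfold cF
        have : 0 ≤ cT m L * (4 * m * cK L + 3 * m + 4) * A := by positivity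
        nlinarith
      have k3 : cT m L * ε * ((4 * m * cK L + 4) / s + 3 * m) ≤ cF m L * ε / s := by
        rw [le_div_iff₀ hs]
        have k4 : cT m L * ε * ((4 * m * cK L + 4) / s + 3 * m) * s =
            cT m L * ε * (4 * m * cK L + 4 + 3 * m * s) := by field_simp
        rw [k4]
        unfold cF
        have k5 : 0 ≤ (m : ℝ) * (2 * cK L + 10) * ε := by positivity
        have k6 : cT m L * ε * (3 * m * s) ≤ cT m L * ε * (3 * m) := by
          refine mul_le_mul_of_nonneg_left ?_ hTnn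
          nlinarith
        nlinarith
      have k7 := mul_le_mul_of_nonneg_left k2 hε
      have k8 := mul_le_mul_of_nonneg_left k3 hε
      linarith
    have hF1 : ε * (cF m L * A) ≤ ε * (1 / 10) := mul_le_mul_of_nonneg_left h1 hε
    have hF2 : ε * (cF m L * ε / s) ≤ ε * (1 / 10) := by
      refine mul_le_mul_of_nonneg_left ?_ hε
      rw [div_le_iff₀ hs]; linarith
    linarith
  · intro j hj w hw
    exact hclose j hj w (DD_mono (by linarith) hw)

end step2

end Pool.Agent.Helper861.Inv
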