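import Mathlib

/-!
# Products of involutive holomorphic germs: definitions

Elements of the group `𝒢` of biholomorphic germs `(ℂ, 0) → (ℂ, 0)` are represented by functions
`ℂ → ℂ`; two functions represent the same germ when they agree near `0`.
-/

set_option autoImplicit false

namespace Pool.Agent.Helper861.Inv

open Filter Topology

/-- `f` represents an element of `𝒢`: it is analytic at `0`, fixes `0` and its derivative at `0`
does not vanish. -/
def IsGerm (f : ℂ → ℂ) : Prop := AnalyticAt ℂ f 0 ∧ f 0 = 0 ∧ deriv f 0 ≠ 0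

/-- `τ` represents an involution of `𝒢`: an element of `𝒢` with `τ ∘ τ = id` near `0`
(the identity is allowed). -/
def IsInvol (τ : ℂ → ℂ) : Prop := IsGerm τ ∧ ∀ᶠ z in 𝓝 (0 : ℂ), τ (τ z) = z

/-- The composition `τ₁ ∘ ⋯ ∘ τₖ` of the maps of a list `[τ₁, …, τₖ]` (the identity map for the
empty list). -/
def cmp (l : List (ℂ → ℂ)) : ℂ → ℂ := l.foldr (fun τ g => τ ∘ g) id

/-- `I ^ n`: the functions that agree near `0` with a composition of `n` involutions of `𝒢`. -/
def IPow (n : ℕ) : Set (ℂ → ℂ) :=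
  {f | ∃ l : List (ℂ → ℂ), l.length = n ∧ (∀ τ ∈ l, IsInvol τ) ∧ f =ᶠ[𝓝 0] cmp l}

/-- `I ^ ∞`: the union of the `I ^ n` over `n ≥ 1`. -/
def IInf : Set (ℂ → ℂ) := ⋃ n ≥ 1, IPow n

end Pool.Agent.Helper861.Inv
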