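import Pool.Agent.Helper861.InvB
import Pool.Agent.Helper861.InvDefs

set_option autoImplicit false

namespace Pool.Agent.Helper861.Inv

open Complex Set Filter Topology Metric Bornology

/-! The iteration -/

noncomputable def kA (m : ℕ) (L : ℝ) : ℝ := 72 * 480 ^ 2 * cT m L * (32 / 7)

noncomputable def e0 (m : ℕ) (L : ℝ) : ℝ :=
  1 / (4800 * (1 + cF m L) * (1 + kA m L) * (1 + cT m L))

lemma cT_nn {m : ℕ} {L : ℝ} (hL : 0 ≤ L) : 0 ≤ cT m L := by
  unfold cT cK; positivity

lemma cF_nn {m : ℕ} {L : ℝ} (hL : 0 ≤ L) : 0 ≤ cF m L := by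
  have := cT_nn (m := m) hL
  unfold cF cK; positivity

lemma kA_nn {m : ℕ} {L : ℝ} (hL : 0 ≤ L) : 0 ≤ kA m L := by
  have := cT_nn (m := m) hL
  unfold kA; positivity

lemma e0_pos {m : ℕ} {L : ℝ} (hL : 0 ≤ L) : 0 < e0 m L := by
  have := cT_nn (m := m) hL
  have := cF_nn (m := m) hL
  have := kA_nn (m := m) hL
  unfold e0; positivity

lemma e0_bd {m : ℕ} {L : ℝ} (hL : 0 ≤ L) :
    e0 m L ≤ 1 / 4800 ∧ kA m L * e0 m L ≤ 1 / 4800 ∧ cT m L * e0 m L ≤ 1 / 4800 ∧
    cF m L * e0 m L ≤ 1 / 4800 ∧ cF m L * (kA m L * e0 m L) ≤ 1 / 4800 := by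
  have a := cT_nn (m := m) hL
  have b := cF_nn (m := m) hL
  have c := kA_nn (m := m) hL
  unfold e0
  set x := cT m L
  set y := cF m L
  set z := kA m L
  have hxy : 0 ≤ x * y := by positivity
  have hxz : 0 ≤ x * z := by positivity
  have hyz : 0 ≤ y * z := by positivity
  have hxyz : 0 ≤ x * y * z := by positivity
  have hD : (0 : ℝ) < 4800 * (1 + y) * (1 + z) * (1 + x) := by positivity
  refine ⟨?_, ?_, ?_, ?_, ?_⟩
  · rw [div_le_div_iff₀ hD (by norm_num)]; nlinarith
  · rw [mul_one_div, div_le_div_iff₀ hD (by norm_num)]; nlinarith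
  · rw [mul_one_div, div_le_div_iff₀ hD (by norm_num)]; nlinarith
  · rw [mul_one_div, div_le_div_iff₀ hD (by norm_num)]; nlinarith
  · rw [mul_one_div, mul_div_assoc', div_le_div_iff₀ hD (by norm_num)]; nlinarith

noncomputable def sR (n : ℕ) : ℝ := 33 / 32 - 1 / 32 * (4 / 5) ^ n

noncomputable def sA (m : ℕ) (L : ℝ) (n : ℕ) : ℝ := kA m L * e0 m L * (1 - (25 / 32) ^ n)

noncomputable def ss (n : ℕ) : ℝ := 1 / 480 * (4 / 5) ^ n

noncomputable def sE (m : ℕ) (L : ℝ) (n : ℕ) : ℝ := e0 m L * (1 / 2) ^ n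

section iter

variable {m : ℕ} {p : ℕ → ℂ} {χ : ℕ → ℂ → ℝ} {L : ℝ} {f : ℂ → ℂ}

theorem iter_step (N : Net m p χ L) (hf : DifferentiableOn ℂ f (DD (1 / 2)))
    (hfZ : Tendsto (fun w => w * (f w - w)) (cobounded ℂ) (𝓝 0)) (n : ℕ)
    (Y : ℕ → ℂ → ℂ) (S : St m p f (sR n) (sE m L n) (sA m L n) Y) :
    ∃ Y' : ℕ → ℂ → ℂ, St m p f (sR (n + 1)) (sE m L (n + 1)) (sA m L (n + 1)) Y' ∧
      ∀ j ≤ m, ∀ w ∈ DD (sR (n + 1)), ‖Y' j w - Y j w‖ ≤ 2 * cT m L * e0 m L * (1 / 2) ^ n := by
  have hL := N.hL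
  have hx := cT_nn (m := m) hL
  have hy := cF_nn (m := m) hL
  have hz := kA_nn (m := m) hL
  have he := e0_pos (m := m) hL
  obtain ⟨b1, b2, b3, b4, b5⟩ := e0_bd (m := m) hL
  have q0 : (0 : ℝ) < (4 / 5) ^ n := by positivity
  have q1 : (4 / 5 : ℝ) ^ n ≤ 1 := pow_le_one₀ (by norm_num) (by norm_num)
  have h0 : (0 : ℝ) < (1 / 2) ^ n := by positivity
  have h1 : (1 / 2 : ℝ) ^ n ≤ 1 := pow_le_one₀ (by norm_num) (by norm_num)
  have hq : (1 / 2 : ℝ) ^ n ≤ (4 / 5) ^ n := pow_le_pow_left₀ (by norm_num) (by norm_num) n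
  have t0 : (0 : ℝ) < (25 / 32) ^ n := by positivity
  have t1 : (25 / 32 : ℝ) ^ n ≤ 1 := pow_le_one₀ (by norm_num) (by norm_num)
  have ht : (25 / 32 : ℝ) ^ n * ((4 / 5) ^ n) ^ 2 = (1 / 2) ^ n := by
    rw [← pow_mul, mul_comm n 2, pow_mul, ← mul_pow]; norm_num
  have eR : sR n + 3 * ss n = sR (n + 1) := by
    unfold sR ss; rw [pow_succ]; ring
  have eE : sE m L n / 2 = sE m L (n + 1) := by
    unfold sE; rw [pow_succ]; ring
  have eA : sA m L n + 72 * cT m L * sE m L n / ss n ^ 2 = sA m L (n + 1) := by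
    unfold sA sE ss kA
    rw [pow_succ, mul_pow, ← ht]
    field_simp
    ring
  have hA0 : 0 ≤ sA m L n := by
    unfold sA
    exact mul_nonneg (mul_nonneg hz he.le) (by linarith)
  have hAb : sA m L n ≤ kA m L * e0 m L := by
    unfold sA
    have : 0 ≤ kA m L * e0 m L := mul_nonneg hz he.le
    nlinarith
  have hE0 : 0 ≤ sE m L n := by unfold sE; positivity
  have hEb : sE m L n ≤ e0 m L := by unfold sE; nlinarith
  obtain ⟨Y', hY', hc⟩ := step N hf hfZ S (R := sR n) (s := ss n) (ε := sE m L n)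
    (A := sA m L n) (by unfold sR; linarith) (by unfold ss; positivity)
    (by unfold ss; linarith) (by unfold sR ss; linarith) hA0 (by linarith) hE0 (by linarith)
    (by
      unfold sE ss
      have := mul_le_mul_of_nonneg_right b3 h0.le
      linarith)
    (by
      have := mul_le_mul_of_nonneg_left hAb hy
      linarith)
    (by
      unfold sE ss
      have := mul_le_mul_of_nonneg_right b4 h0.le
      linarith)
  rw [eR, eE, eA] at hY'
  rw [eR] at hc
  refine ⟨Y', hY', fun j hj w hw => (hc j hj w hw).trans (le_of_eq ?_)⟩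
  unfold sE
  ring

theorem iter_start (hf1 : ∀ w ∈ DD (1 / 2), ‖f w - w‖ ≤ e0 m L) :
    St m p f (sR 0) (sE m L 0) (sA m L 0) (fun _ w => w) := by
  have eR : sR 0 = 1 := by unfold sR; norm_num
  have eE : sE m L 0 = e0 m L := by unfold sE; norm_num
  have eA : sA m L 0 = 0 := by unfold sA; norm_num
  rw [eR, eE, eA]
  refine ⟨fun _ _ => differentiableOn_id, fun _ _ => rfl, ?_, ?_, ?_, ?_, ?_, ?_⟩
  · intro j _ w _; simp
  · intro j _ w _ z _; simp
  · intro j _ w _ z _; simp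
  · intro j _; simp only [sub_self, mul_zero]; exact tendsto_const_nhds
  · intro j _ x _ x' _ h
    rw [← h]; ring
  · intro w hw
    exact hf1 w (DD_mono (by norm_num) hw)

theorem iter_seq (N : Net m p χ L) (hf : DifferentiableOn ℂ f (DD (1 / 2)))
    (hf1 : ∀ w ∈ DD (1 / 2), ‖f w - w‖ ≤ e0 m L)
    (hfZ : Tendsto (fun w => w * (f w - w)) (cobounded ℂ) (𝓝 0)) :
    ∃ Ys : ℕ → ℕ → ℂ → ℂ, ∀ n, St m p f (sR n) (sE m L n) (sA m L n) (Ys n) ∧
      ∀ j ≤ m, ∀ w ∈ DD (sR (n + 1)), ‖Ys (n + 1) j w - Ys n j w‖ ≤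
        2 * cT m L * e0 m L * (1 / 2) ^ n := by
  have h := iter_step N hf hfZ
  choose! g hg1 hg2 using h
  let Ys : ℕ → ℕ → ℂ → ℂ := fun n => Nat.rec (fun _ w => w) (fun n Y => g n Y) n
  have hs : ∀ n, St m p f (sR n) (sE m L n) (sA m L n) (Ys n) := by
    intro n
    induction n with
    | zero => exact iter_start hf1
    | succ n ih => exact hg1 n _ ih
  exact ⟨Ys, fun n => ⟨hs n, hg2 n _ (hs n)⟩⟩

/-- the limit of the iteration -/
theorem limit (N : Net m p χ L) (hf : DifferentiableOn ℂ f (DD (1 / 2)))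
    (hf1 : ∀ w ∈ DD (1 / 2), ‖f w - w‖ ≤ e0 m L)
    (hfZ : Tendsto (fun w => w * (f w - w)) (cobounded ℂ) (𝓝 0)) :
    ∃ Z : ℕ → ℂ → ℂ, (∀ j ≤ m, DifferentiableOn ℂ (Z j) (DD (33 / 32))) ∧
      (∀ w ∈ DD (33 / 32), Z 0 w = w) ∧
      (∀ j ≤ m, ∀ w ∈ DD (33 / 32), ‖Z j w - w‖ ≤ 1 / 32) ∧
      (∀ j ≤ m, ∀ w ∈ DD (33 / 32), ∀ z ∈ DD (33 / 32),
        ‖(Z j w - w) - (Z j z - z)‖ ≤ 1 / 32 * ‖w - z‖) ∧
      (∀ w ∈ DD (33 / 32), f (Z m w) = w) ∧
      (∀ j < m, ∀ x ∈ DD 6, ∀ x' ∈ DD 6, p j - Z (j + 1) x = Z j x' →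
        p j - Z (j + 1) x' = Z j x) := by
  have hL := N.hL
  have hx := cT_nn (m := m) hL
  have hz := kA_nn (m := m) hL
  have he := e0_pos (m := m) hL
  obtain ⟨b1, b2, b3, b4, b5⟩ := e0_bd (m := m) hL
  obtain ⟨Ys, hYs⟩ := iter_seq N hf hf1 hfZ
  have hRn : ∀ n, sR n ≤ 33 / 32 := by
    intro n
    have q0 : (0 : ℝ) < (4 / 5) ^ n := by positivity
    unfold sR; linarith
  have hRn1 : ∀ n, 1 ≤ sR n := by
    intro n
    have q1 : (4 / 5 : ℝ) ^ n ≤ 1 := pow_le_one₀ (by norm_num) (by norm_num)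
    unfold sR; linarith
  have hsub : ∀ n, DD (33 / 32) ⊆ DD (sR n) := fun n => DD_mono (hRn n)
  have hA0 : ∀ n, 0 ≤ sA m L n := by
    intro n
    have t1 : (25 / 32 : ℝ) ^ n ≤ 1 := pow_le_one₀ (by norm_num) (by norm_num)
    unfold sA
    exact mul_nonneg (mul_nonneg hz he.le) (by linarith)
  have hAb : ∀ n, sA m L n ≤ 1 / 32 := by
    intro n
    have t0 : (0 : ℝ) < (25 / 32) ^ n := by positivity
    have : 0 ≤ kA m L * e0 m L := mul_nonneg hz he.le
    unfold sA
    nlinarith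
  have hclose : ∀ j ≤ m, ∀ w ∈ DD (33 / 32), ∀ n, dist (Ys n j w) (Ys (n + 1) j w) ≤
      2 * cT m L * e0 m L * (1 / 2) ^ n := by
    intro j hj w hw n
    rw [dist_comm, dist_eq_norm]
    exact (hYs n).2 j hj w (hsub _ hw)
  have hconv : ∀ j, ∃ Zj : ℂ → ℂ, j ≤ m → ∀ w ∈ DD (33 / 32),
      Tendsto (fun n => Ys n j w) atTop (𝓝 (Zj w)) := by
    intro j
    by_cases hj : j ≤ m
    · have : ∀ w, ∃ z, w ∈ DD (33 / 32) → Tendsto (fun n => Ys n j w) atTop (𝓝 z) := by
        intro w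
        by_cases hw : w ∈ DD (33 / 32)
        · obtain ⟨z, hz⟩ := cauchySeq_tendsto_of_complete
            (cauchySeq_of_le_geometric (1 / 2) (2 * cT m L * e0 m L) (by norm_num)
              (hclose j hj w hw))
          exact ⟨z, fun _ => hz⟩
        · exact ⟨0, fun h => absurd h hw⟩
      choose Zj hZj using this
      exact ⟨Zj, fun _ => hZj⟩
    · exact ⟨id, fun h => absurd h hj⟩
  choose Z hZ using hconv
  have hdist : ∀ j ≤ m, ∀ w ∈ DD (33 / 32), ∀ n, dist (Ys n j w) (Z j w) ≤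
      4 * cT m L * e0 m L * (1 / 2) ^ n := by
    intro j hj w hw n
    have := dist_le_of_le_geometric_of_tendsto (1 / 2) (2 * cT m L * e0 m L) (by norm_num)
      (hclose j hj w hw) (hZ j hj w hw) n
    refine this.trans (le_of_eq ?_)
    ring
  have hpow : Tendsto (fun n : ℕ => 4 * cT m L * e0 m L * (1 / 2 : ℝ) ^ n) atTop (𝓝 0) := by
    have := (tendsto_pow_atTop_nhds_zero_of_lt_one (r := (1 / 2 : ℝ)) (by norm_num)
      (by norm_num)).const_mul (4 * cT m L * e0 m L)
    rwa [mul_zero] at this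
  have hZd : ∀ j ≤ m, DifferentiableOn ℂ (Z j) (DD (33 / 32)) := by
    intro j hj
    have hu : TendstoUniformlyOn (fun n => Ys n j) (Z j) atTop (DD (33 / 32)) := by
      rw [Metric.tendstoUniformlyOn_iff]
      intro ε hε
      filter_upwards [hpow.eventually (gt_mem_nhds hε)] with n hn w hw
      rw [dist_comm]
      exact lt_of_le_of_lt (hdist j hj w hw n) hn
    exact hu.tendstoLocallyUniformlyOn.differentiableOn
      (Filter.Eventually.of_forall fun n => ((hYs n).1.hd j hj).mono (hsub n)) (isOpen_DD _)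
  have hZ0 : ∀ j ≤ m, ∀ w ∈ DD (33 / 32), ‖Z j w - w‖ ≤ 1 / 32 := by
    intro j hj w hw
    refine le_of_tendsto ((hZ j hj w hw).sub_const w).norm
      (Filter.Eventually.of_forall fun n => ?_)
    exact ((hYs n).1.hA0 j hj w (hsub n hw)).trans (hAb n)
  have hZ1 : ∀ j ≤ m, ∀ w ∈ DD (33 / 32), ∀ z ∈ DD (33 / 32),
        ‖(Z j w - w) - (Z j z - z)‖ ≤ 1 / 32 * ‖w - z‖ := by
    intro j hj w hw z hz
    refine le_of_tendsto (((hZ j hj w hw).sub_const w).sub ((hZ j hj z hz).sub_const z)).norm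
      (Filter.Eventually.of_forall fun n => ?_)
    exact ((hYs n).1.hA1 j hj w (hsub n hw) z (hsub n hz)).trans
      (mul_le_mul_of_nonneg_right (hAb n) (norm_nonneg _))
  refine ⟨Z, hZd, ?_, hZ0, hZ1, ?_, ?_⟩
  · intro w hw
    refine tendsto_nhds_unique (hZ 0 (Nat.zero_le m) w hw) ?_
    refine tendsto_const_nhds.congr fun n => ?_
    exact ((hYs n).1.h0 w (hsub n hw)).symm
  · intro w hw
    have h1 : Z m w ∈ DD (1 / 2) := by
      refine DD_near (s := 1 / 32) (w := w) (DD_mono (by norm_num) hw) (hZ0 m le_rfl w hw)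
    have h2 : Tendsto (fun n => f (Ys n m w)) atTop (𝓝 (f (Z m w))) :=
      (differentiableAt_of_DD hf h1).continuousAt.tendsto.comp (hZ m le_rfl w hw)
    have h3 : Tendsto (fun n => f (Ys n m w) - w) atTop (𝓝 0) := by
      refine squeeze_zero_norm (a := fun n => sE m L n) (fun n => (hYs n).1.hr w (hsub n hw)) ?_
      have := (tendsto_pow_atTop_nhds_zero_of_lt_one (r := (1 / 2 : ℝ)) (by norm_num)
        (by norm_num)).const_mul (e0 m L)
      rwa [mul_zero] at this
    have h4 := tendsto_nhds_unique (h2.sub_const w) h3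
    exact sub_eq_zero.mp h4
  · intro j hj x hx6 x' hx6' heq
    have hxD : x ∈ DD (33 / 32) := DD_mono (by norm_num) hx6
    have hxD' : x' ∈ DD (33 / 32) := DD_mono (by norm_num) hx6'
    set c : ℕ → ℂ := fun n => p j - Ys n (j + 1) x - Ys n j x' with hc
    have hc0 : Tendsto c atTop (𝓝 0) := by
      have := (((hZ (j + 1) hj x hxD).const_sub (p j)).sub (hZ j hj.le x' hxD'))
      rw [heq, sub_self] at this
      exact this
    have hcs : ∀ᶠ n in atTop, ‖c n‖ ≤ 1 / 2 := by
      have := (tendsto_zero_iff_norm_tendsto_zero.mp hc0).eventually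
        (gt_mem_nhds (show (0 : ℝ) < 1 / 2 by norm_num))
      filter_upwards [this] with n hn using hn.le
    have hsol : ∀ n, ∃ u : ℂ, ‖c n‖ ≤ 1 / 2 → ‖u - x'‖ ≤ 2 * ‖c n‖ ∧
        p j - Ys n (j + 1) u = Ys n j x := by
      intro n
      by_cases hcn : ‖c n‖ ≤ 1 / 2
      · obtain ⟨P, -, hP⟩ := solve (Y := Ys n j) (p := fun w => Ys n j w + c n) (R := sR n) (s := 1)
          (A := sA m L n) ((hYs n).1.hd j hj.le) (hA0 n) ((hAb n).trans (by norm_num))
          ((hYs n).1.hA1 j hj.le) (by norm_num)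
          ((((hYs n).1.hd j hj.le).mono (DD_mono (by linarith))).add_const (c n))
          (fun w _ => by rw [add_sub_cancel_left]; exact hcn)
        have hx1 : x' ∈ DD (sR n + 1) := DD_mono (by have := hRn n; linarith) hx6'
        obtain ⟨p1, p2, p3⟩ := hP x' hx1
        rw [add_sub_cancel_left] at p3
        refine ⟨P x', fun _ => ⟨p3, ?_⟩⟩
        refine (hYs n).1.hS j hj x (DD_mono (by have := hRn n; linarith) hx6) (P x') ?_ ?_
        · refine DD_near (s := 1) (w := x') (DD_mono (by have := hRn n; linarith) hx6') ?_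
          linarith
        · rw [p2, hc]; ring
      · exact ⟨0, fun h => absurd h hcn⟩
    choose u hu using hsol
    have hu0 : Tendsto (fun n => Ys n (j + 1) (u n)) atTop (𝓝 (Z (j + 1) x')) := by
      have h1 : Tendsto (fun n => Ys n (j + 1) (u n) - Ys n (j + 1) x') atTop (𝓝 0) := by
        refine squeeze_zero_norm' (a := fun n => 2 * (2 * ‖c n‖)) ?_ ?_
        · filter_upwards [hcs] with n hn
          obtain ⟨u1, -⟩ := hu n hn
          have hun : u n ∈ DD (sR n) := by
            refine DD_near (s := 1) (w := x') (DD_mono (by have := hRn n; linarith) hx6') ?_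
            linarith
          have h2 := (hYs n).1.hA1 (j + 1) hj (u n) hun x' (hsub n hxD')
          have h3 := norm_add_le ((Ys n (j + 1) (u n) - u n) - (Ys n (j + 1) x' - x'))
            (u n - x')
          rw [show (Ys n (j + 1) (u n) - u n) - (Ys n (j + 1) x' - x') + (u n - x') =
            Ys n (j + 1) (u n) - Ys n (j + 1) x' from by ring] at h3
          have h4 := hAb n
          have h5 := mul_le_mul_of_nonneg_right h4 (norm_nonneg (u n - x'))
          have h6 := norm_nonneg (c n)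
          have h7 := norm_nonneg (u n - x')
          linarith
        · have := (tendsto_zero_iff_norm_tendsto_zero.mp hc0).const_mul 2 |>.const_mul 2
          simpa using this
      have h2 := h1.add (hZ (j + 1) hj x' hxD')
      simpa using h2
    refine tendsto_nhds_unique (hu0.const_sub (p j)) ?_
    refine (hZ j hj.le x hxD).congr' ?_
    filter_upwards [hcs] with n hn
    exact (hu n hn).2.symm

end iter

/-! The main theorem near infinity -/

lemma cmp_nil : cmp [] = id := rfl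

lemma cmp_cons (τ : ℂ → ℂ) (l : List (ℂ → ℂ)) : cmp (τ :: l) = τ ∘ cmp l := rfl

lemma cmp_append (l l' : List (ℂ → ℂ)) : cmp (l ++ l') = cmp l ∘ cmp l' := by
  induction l with
  | nil => rfl
  | cons τ l ih => rw [List.cons_append, cmp_cons, cmp_cons, ih]; rfl

def InvInf (ι : ℂ → ℂ) : Prop :=
  (∀ᶠ w in cobounded ℂ, DifferentiableAt ℂ ι w) ∧ Tendsto ι (cobounded ℂ) (cobounded ℂ) ∧
    ∀ᶠ w in cobounded ℂ, ι (ι w) = w

lemma invInf_refl (a : ℂ) : InvInf (fun w => a - w) := by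
  refine ⟨Filter.Eventually.of_forall fun w => by fun_prop, ?_,
    Filter.Eventually.of_forall fun w => by ring⟩
  have h := tend_cob (h := fun w => w - a) (C := ‖a‖)
    (Filter.Eventually.of_forall fun w => by
      rw [show w - a - w = -a from by ring, norm_neg])
  have h2 := (tendsto_neg_cobounded (E := ℂ)).comp h
  refine h2.congr fun w => ?_
  simp [Function.comp]

section maininf

variable {m : ℕ} {p : ℕ → ℂ} {χ : ℕ → ℂ → ℝ} {L : ℝ} {f : ℂ → ℂ}

theorem main_inf (N : Net m p χ L) (hf : DifferentiableOn ℂ f (DD (1 / 2)))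
    (hf1 : ∀ w ∈ DD (1 / 2), ‖f w - w‖ ≤ e0 m L)
    (hfZ : Tendsto (fun w => w * (f w - w)) (cobounded ℂ) (𝓝 0)) :
    ∃ l : List (ℂ → ℂ), l.length = 2 * m ∧ (∀ ι ∈ l, InvInf ι) ∧
      ∀ᶠ w in cobounded ℂ, cmp l w = f w := by
  obtain ⟨Z, hZd, hZ00, hZ0, hZ1, hZf, hZS⟩ := limit N hf hf1 hfZ
  have hinv : ∀ j, ∃ P : ℂ → ℂ, j ≤ m → DifferentiableOn ℂ P (DD 2) ∧
      ∀ w ∈ DD 2, P w ∈ DD (33 / 32) ∧ Z j (P w) = w ∧ ‖P w - w‖ ≤ 1 / 16 := by
    intro j
    by_cases hj : j ≤ m
    · obtain ⟨P, hPd, hP⟩ := solve (Y := Z j) (p := fun w => w) (R := 33 / 32) (s := 1 / 16)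
        (A := 1 / 32) (hZd j hj) (by norm_num) (by norm_num) (hZ1 j hj) (by norm_num)
        differentiableOn_id (fun w hw => by
          have := hZ0 j hj w (DD_mono (by norm_num) hw)
          rw [norm_sub_rev]
          linarith)
      refine ⟨P, fun _ => ⟨hPd.mono (DD_mono (by norm_num)), fun w hw => ?_⟩⟩
      have hw' : w ∈ DD (33 / 32 + 1 / 16) := DD_mono (by norm_num) hw
      obtain ⟨a1, a2, a3⟩ := hP w hw'
      refine ⟨a1, a2, a3.trans ?_⟩
      have := hZ0 j hj w (DD_mono (by norm_num) hw')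
      rw [norm_sub_rev]
      linarith
    · exact ⟨id, fun h => absurd h hj⟩
  choose P hP using hinv
  have hleft : ∀ j ≤ m, ∀ x ∈ DD 3, P j (Z j x) = x := by
    intro j hj x hx
    have hx1 : x ∈ DD (33 / 32) := DD_mono (by norm_num) hx
    have h1 : Z j x ∈ DD 2 := by
      refine DD_near (s := 1) (w := x) (DD_mono (by norm_num) hx) ?_
      have := hZ0 j hj x hx1
      linarith
    obtain ⟨a1, a2, a3⟩ := (hP j hj).2 _ h1
    have h2 := Y_lower (hZ1 j hj) a1 hx1
    rw [a2, sub_self, norm_zero] at h2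
    have h3 : ‖P j (Z j x) - x‖ ≤ 0 := by
      have := norm_nonneg (P j (Z j x) - x)
      nlinarith
    exact sub_eq_zero.mp (norm_le_zero_iff.mp h3)
  -- the involutions
  set io : ℕ → ℂ → ℂ := fun k v => Z k (P (k + 1) (p k - v)) with hio
  have hclose : ∀ k < m, ∀ v, 8 < ‖v‖ → (p k - v ∈ DD 7 ∧ P (k + 1) (p k - v) ∈ DD 6 ∧
      ‖io k v - (p k - v)‖ ≤ 1 / 8) := by
    intro k hk v hv
    have hp := N.hp k hk
    have h1 : p k - v ∈ DD 7 := by
      have := norm_sub_norm_le v (p k)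
      rw [norm_sub_rev] at this
      show 7 < ‖p k - v‖
      linarith
    obtain ⟨a1, a2, a3⟩ := (hP (k + 1) hk).2 _ (DD_mono (by norm_num) h1)
    have a4 := hZ0 k hk.le _ a1
    refine ⟨h1, DD_near (s := 1) (w := p k - v) (DD_mono (by norm_num) h1) (by linarith), ?_⟩
    have a5 := norm_add_le (Z k (P (k + 1) (p k - v)) - P (k + 1) (p k - v))
      (P (k + 1) (p k - v) - (p k - v))
    rw [sub_add_sub_cancel] at a5
    show ‖Z k (P (k + 1) (p k - v)) - (p k - v)‖ ≤ _
    linarith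
  have hioInv : ∀ k < m, InvInf (io k) := by
    intro k hk
    refine ⟨?_, ?_, ?_⟩
    · filter_upwards [DD_cobounded 8] with v hv
      obtain ⟨a1, a2, a3⟩ := hclose k hk v hv
      have d1 : DifferentiableAt ℂ (fun v => p k - v) v := by fun_prop
      have d2 : DifferentiableAt ℂ (P (k + 1)) (p k - v) :=
        differentiableAt_of_DD (hP (k + 1) hk).1 (DD_mono (by norm_num) a1)
      have d3 : DifferentiableAt ℂ (Z k) (P (k + 1) (p k - v)) :=
        differentiableAt_of_DD (hZd k hk.le) (DD_mono (by norm_num) a2)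
      exact d3.comp v (d2.comp v d1)
    · have h := tend_cob (h := fun w => -io k w) (C := 2) (by
        filter_upwards [DD_cobounded 8] with v hv
        obtain ⟨a1, a2, a3⟩ := hclose k hk v hv
        have hp := N.hp k hk
        have := norm_add_le (-(io k v - (p k - v))) (-p k)
        rw [norm_neg, norm_neg] at this
        rw [show -io k v - v = -(io k v - (p k - v)) + -p k from by ring]
        linarith)
      have h2 := (tendsto_neg_cobounded (E := ℂ)).comp h
      refine h2.congr fun w => ?_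
      simp [Function.comp]
    · filter_upwards [DD_cobounded 10] with v hv
      have hv' : 10 < ‖v‖ := hv
      obtain ⟨a1, a2, a3⟩ := hclose k hk v (by linarith)
      have hp := N.hp k hk
      have hiv : 8 < ‖io k v‖ := by
        have h1 := norm_sub_norm_le v (-(io k v))
        rw [norm_neg, show v - -(io k v) = (io k v - (p k - v)) + p k from by ring] at h1
        have h2 := norm_add_le (io k v - (p k - v)) (p k)
        linarith
      obtain ⟨b1, b2, b3⟩ := hclose k hk (io k v) hiv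
      have e1 : Z (k + 1) (P (k + 1) (p k - io k v)) = p k - io k v :=
        ((hP (k + 1) hk).2 _ (DD_mono (by norm_num) b1)).2.1
      have e2 : Z (k + 1) (P (k + 1) (p k - v)) = p k - v :=
        ((hP (k + 1) hk).2 _ (DD_mono (by norm_num) a1)).2.1
      have e3 := hZS k hk _ b2 _ a2 (by rw [e1]; simp only [hio]; ring)
      rw [e2] at e3
      show Z k (P (k + 1) (p k - io k v)) = v
      rw [← e3]; ring
  have key : ∀ d, d ≤ m → ∃ l : List (ℂ → ℂ), l.length = 2 * d ∧ (∀ ι ∈ l, InvInf ι) ∧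
      ∀ᶠ w in cobounded ℂ, cmp l w = Z (m - d) (P m w) := by
    intro d
    induction d with
    | zero =>
      intro _
      refine ⟨[], rfl, by simp, ?_⟩
      filter_upwards [DD_cobounded 2] with w hw
      rw [cmp_nil, Nat.sub_zero, ((hP m le_rfl).2 w hw).2.1]
      rfl
    | succ d ih =>
      intro hd
      obtain ⟨l, hl1, hl2, hl3⟩ := ih (by omega)
      have hk : m - (d + 1) < m := by omega
      have hk1 : m - (d + 1) + 1 = m - d := by omega
      refine ⟨io (m - (d + 1)) :: (fun w => p (m - (d + 1)) - w) :: l, ?_, ?_, ?_⟩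
      · simp only [List.length_cons, hl1]; ring
      · intro ι hι
        simp only [List.mem_cons] at hι
        rcases hι with h | h | h
        · rw [h]; exact hioInv _ hk
        · rw [h]; exact invInf_refl _
        · exact hl2 ι h
      · filter_upwards [hl3, DD_cobounded 4] with w hw hw4
        have hPm : P m w ∈ DD 3 := by
          refine DD_near (s := 1) (w := w) (DD_mono (by norm_num) hw4) ?_
          have := ((hP m le_rfl).2 w (DD_mono (by norm_num) hw4)).2.2
          linarith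
        rw [cmp_cons, cmp_cons]
        simp only [Function.comp, hw, hio]
        rw [sub_sub_cancel, hk1, hleft (m - d) (by omega) _ hPm]
  obtain ⟨l, hl1, hl2, hl3⟩ := key m le_rfl
  refine ⟨l, hl1, hl2, ?_⟩
  filter_upwards [hl3, DD_cobounded 2] with w hw hw2
  obtain ⟨a1, a2, a3⟩ := (hP m le_rfl).2 w hw2
  rw [hw, Nat.sub_self, hZ00 _ a1]
  have := hZf _ a1
  rw [a2] at this
  exact this.symm

end maininf

end Pool.Agent.Helper861.Inv
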