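import Pool.Agent.Helper861.InvC

set_option autoImplicit false

namespace Pool.Agent.Helper861.Inv

open Complex Set Filter Topology Metric Bornology

/-! Transfer between `0` and `∞` -/

noncomputable def atInf (f : ℂ → ℂ) : ℂ → ℂ := fun w => (f w⁻¹)⁻¹

noncomputable def atZero (F : ℂ → ℂ) : ℂ → ℂ := fun z => if z = 0 then 0 else (F z⁻¹)⁻¹

def TT (s a : ℂ) (F : ℂ → ℂ) : Prop :=
  Tendsto (fun w => w * (F w - s * w - a)) (cobounded ℂ) (𝓝 0)

lemma lim_of {s a B : ℂ} {F : ℂ → ℂ}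
    (h : Tendsto (fun w => w * (F w - s * w - a)) (cobounded ℂ) (𝓝 B)) :
    Tendsto (fun w => F w - s * w) (cobounded ℂ) (𝓝 a) := by
  have h1 := tend_inv.mul h
  rw [zero_mul] at h1
  have h2 := h1.add_const a
  rw [zero_add] at h2
  refine h2.congr' ?_
  filter_upwards [DD_cobounded 0] with w hw
  have : w ≠ 0 := norm_pos_iff.mp hw
  field_simp
  ring

lemma ratio_of {s a : ℂ} {F : ℂ → ℂ} (h : Tendsto (fun w => F w - s * w) (cobounded ℂ) (𝓝 a)) :
    Tendsto (fun w => F w / w) (cobounded ℂ) (𝓝 s) := by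
  have h1 := tend_inv.mul h
  rw [zero_mul] at h1
  have h2 := h1.add_const s
  rw [zero_add] at h2
  refine h2.congr' ?_
  filter_upwards [DD_cobounded 0] with w hw
  have : w ≠ 0 := norm_pos_iff.mp hw
  field_simp
  ring

lemma cob_of {s a : ℂ} {F : ℂ → ℂ} (hs : s ≠ 0)
    (h : Tendsto (fun w => F w - s * w) (cobounded ℂ) (𝓝 a)) :
    Tendsto F (cobounded ℂ) (cobounded ℂ) := by
  have h1 : Tendsto (fun w => s⁻¹ * F w) (cobounded ℂ) (cobounded ℂ) := by
    refine tend_cob (C := ‖s⁻¹‖ * (‖a‖ + 1)) ?_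
    filter_upwards [h.norm.eventually (gt_mem_nhds (show ‖a‖ < ‖a‖ + 1 by linarith))] with w hw
    rw [show s⁻¹ * F w - w = s⁻¹ * (F w - s * w) from by field_simp, norm_mul]
    exact mul_le_mul_of_nonneg_left hw.le (norm_nonneg _)
  rw [← tendsto_norm_atTop_iff_cobounded] at h1 ⊢
  have h2 : Tendsto (fun w => ‖s‖ * ‖s⁻¹ * F w‖) (cobounded ℂ) atTop :=
    h1.const_mul_atTop (norm_pos_iff.mpr hs)
  refine h2.congr fun w => ?_
  rw [← norm_mul]
  congr 1
  field_simp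

lemma TT.comp {s a t b : ℂ} {F G : ℂ → ℂ} (hF : TT s a F) (hG : TT t b G) (ht : t ≠ 0) :
    TT (s * t) (s * b + a) (F ∘ G) := by
  have hc := cob_of ht (lim_of hG)
  have hr := (ratio_of (lim_of hG)).inv₀ ht
  have hF' : Tendsto (fun w => w * (F w - s * w - a)) (cobounded ℂ) (𝓝 0) := hF
  have hG' : Tendsto (fun w => w * (G w - t * w - b)) (cobounded ℂ) (𝓝 0) := hG
  have h1 := (hr.mul (hF'.comp hc)).add (hG'.const_mul s)
  rw [mul_zero, mul_zero, add_zero] at h1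
  refine h1.congr' ?_
  filter_upwards [DD_cobounded 0, hc (DD_cobounded 0)] with w hw hw2
  have : w ≠ 0 := norm_pos_iff.mp hw
  have : G w ≠ 0 := norm_pos_iff.mp hw2
  simp only [Function.comp]
  field_simp
  ring

/-- Taylor expansion -/
lemma taylor3 {f : ℂ → ℂ} (hf : AnalyticAt ℂ f 0) (hf0 : f 0 = 0) :
    ∃ E : ℂ → ℂ, Tendsto (fun z => E z / z ^ 3) (𝓝[≠] 0) (𝓝 0) ∧
      ∀ z, f z = deriv f 0 * z + iteratedDeriv 2 f 0 / 2 * z ^ 2 +
        iteratedDeriv 3 f 0 / 6 * z ^ 3 + E z := by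
  refine ⟨fun z => f z - (deriv f 0 * z + iteratedDeriv 2 f 0 / 2 * z ^ 2 +
        iteratedDeriv 3 f 0 / 6 * z ^ 3), ?_, fun z => by ring⟩
  have h := hf.hasFPowerSeriesAt.isBigO_sub_partialSum_pow 4
  have h2 : (fun z => f z - (deriv f 0 * z + iteratedDeriv 2 f 0 / 2 * z ^ 2 +
        iteratedDeriv 3 f 0 / 6 * z ^ 3)) =O[𝓝 0] fun z => ‖z‖ ^ 4 := by
    refine h.congr_left fun z => ?_
    simp only [zero_add, FormalMultilinearSeries.partialSum, Finset.sum_range_succ,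
      Finset.sum_range_zero, FormalMultilinearSeries.ofScalars_apply_eq, iteratedDeriv_zero, hf0,
      iteratedDeriv_one, smul_eq_mul, Nat.factorial]
    norm_num
  have h3 : (fun z : ℂ => ‖z‖ ^ 4) =o[𝓝 0] fun z => z ^ 3 := by
    have : (fun z : ℂ => z ^ 4) =o[𝓝 0] fun z => z ^ 3 :=
      Asymptotics.isLittleO_pow_pow (by norm_num)
    refine (this.norm_left).congr_left fun z => ?_
    rw [norm_pow]
  exact ((h2.trans_isLittleO h3).tendsto_div_nhds_zero).mono_left nhdsWithin_le_nhds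

lemma expand {f : ℂ → ℂ} (hf : IsGerm f) {s a : ℂ} (hs : deriv f 0 * s = 1)
    (ha : deriv f 0 * a + iteratedDeriv 2 f 0 / 2 * s = 0) :
    Tendsto (fun w => w * (atInf f w - s * w - a)) (cobounded ℂ)
      (𝓝 (-(s * (iteratedDeriv 3 f 0 / 6) + a * (iteratedDeriv 2 f 0 / 2)) / deriv f 0)) := by
  obtain ⟨hfa, hf0, hf1⟩ := hf
  obtain ⟨E, hE, hfE⟩ := taylor3 hfa hf0
  set c1 := deriv f 0 with hc1
  set c2 := iteratedDeriv 2 f 0 / 2 with hc2
  set c3 := iteratedDeriv 3 f 0 / 6 with hc3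
  have hid : Tendsto (fun z : ℂ => z) (𝓝[≠] 0) (𝓝 0) := nhdsWithin_le_nhds
  have hne : ∀ᶠ z : ℂ in 𝓝[≠] 0, z ≠ 0 := eventually_mem_nhdsWithin
  have hfz : Tendsto (fun z => f z / z) (𝓝[≠] 0) (𝓝 c1) := by
    have h1 : Tendsto (fun z => c1 + c2 * z + c3 * z ^ 2 + E z / z ^ 3 * z ^ 2) (𝓝[≠] 0)
        (𝓝 (c1 + c2 * 0 + c3 * 0 ^ 2 + 0 * 0 ^ 2)) :=
      ((tendsto_const_nhds.add (hid.const_mul c2)).add ((hid.pow 2).const_mul c3)).add
        (hE.mul (hid.pow 2))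
    rw [show c1 + c2 * 0 + c3 * 0 ^ 2 + 0 * 0 ^ 2 = c1 from by ring] at h1
    refine h1.congr' ?_
    filter_upwards [hne] with z hz
    rw [hfE z]
    field_simp
  have hfne : ∀ᶠ z : ℂ in 𝓝[≠] 0, f z ≠ 0 := by
    filter_upwards [hfz.eventually_ne hf1, hne] with z h1 h2 h3
    rw [h3, zero_div] at h1
    exact h1 rfl
  have hmain : Tendsto (fun z => z⁻¹ * ((f z)⁻¹ - s * z⁻¹ - a)) (𝓝[≠] 0)
      (𝓝 (-(s * c3 + a * c2) / c1)) := by
    have h1 : Tendsto (fun z => (-(s * c3 + a * c2) - s * (E z / z ^ 3) - a * c3 * z -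
        a * z * (E z / z ^ 3)) * (f z / z)⁻¹) (𝓝[≠] 0)
        (𝓝 ((-(s * c3 + a * c2) - s * 0 - a * c3 * 0 - a * 0 * 0) * c1⁻¹)) :=
      ((((tendsto_const_nhds).sub (hE.const_mul s)).sub (hid.const_mul (a * c3))).sub
        ((hid.const_mul a).mul hE)).mul (hfz.inv₀ hf1)
    rw [show (-(s * c3 + a * c2) - s * 0 - a * c3 * 0 - a * 0 * 0) * c1⁻¹ =
      -(s * c3 + a * c2) / c1 from by ring] at h1
    refine h1.congr' ?_
    filter_upwards [hne, hfne] with z hz hz2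
    have e := hfE z
    have e3 : z - s * f z - a * z * f z = (-(s * c3 + a * c2)) * z ^ 3 - s * E z -
        a * c3 * z ^ 4 - a * z * E z := by
      rw [e]
      linear_combination (-z) * hs + (-z ^ 2) * ha
    have e4 : z⁻¹ * ((f z)⁻¹ - s * z⁻¹ - a) = (z - s * f z - a * z * f z) / z ^ 3 *
        (f z / z)⁻¹ := by
      field_simp
    rw [e4, e3]
    congr 1
    field_simp
  have h5 := hmain.comp tendsto_inv₀_cobounded'
  refine h5.congr fun w => ?_
  simp only [Function.comp, inv_inv]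
  rfl

lemma TT_unique {s a B s' a' : ℂ} {F : ℂ → ℂ}
    (h : Tendsto (fun w => w * (F w - s * w - a)) (cobounded ℂ) (𝓝 B)) (h' : TT s' a' F) :
    s' = s ∧ a' = a ∧ B = 0 := by
  have : (cobounded ℂ).NeBot := inferInstance
  have e1 : s' = s := tendsto_nhds_unique (ratio_of (lim_of h')) (ratio_of (lim_of h))
  subst e1
  have e2 : a' = a := tendsto_nhds_unique (lim_of h') (lim_of h)
  subst e2
  exact ⟨rfl, rfl, tendsto_nhds_unique h h'⟩

lemma TT_iff {f : ℂ → ℂ} (hf : IsGerm f) {s : ℂ} :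
    (∃ a, TT s a (atInf f)) ↔ deriv f 0 * s = 1 ∧
      deriv f 0 * (iteratedDeriv 3 f 0 / 6) = (iteratedDeriv 2 f 0 / 2) ^ 2 := by
  have h1 := hf.2.2
  set c1 := deriv f 0 with hc1
  set c2 := iteratedDeriv 2 f 0 / 2 with hc2
  set c3 := iteratedDeriv 3 f 0 / 6 with hc3
  have hx := expand hf (s := c1⁻¹) (a := -c2 / c1 ^ 2) (by rw [← hc1]; field_simp)
    (by rw [← hc1, ← hc2]; field_simp; ring)
  rw [← hc1, ← hc2, ← hc3] at hx
  have hB : -(c1⁻¹ * c3 + -c2 / c1 ^ 2 * c2) / c1 = -(c1 * c3 - c2 ^ 2) / c1 ^ 3 := by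
    field_simp
    ring
  rw [hB] at hx
  constructor
  · rintro ⟨a, ha⟩
    obtain ⟨e1, e2, e3⟩ := TT_unique hx ha
    refine ⟨by rw [e1]; field_simp, ?_⟩
    rw [div_eq_zero_iff] at e3
    rcases e3 with e3 | e3
    · linear_combination -e3
    · exact absurd e3 (pow_ne_zero 3 h1)
  · rintro ⟨e1, e2⟩
    refine ⟨-c2 / c1 ^ 2, ?_⟩
    rw [e2, sub_self, neg_zero, zero_div] at hx
    have : s = c1⁻¹ := eq_inv_of_mul_eq_one_right e1
    rw [this]
    exact hx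

/-! Compositions of germs -/

lemma IsGerm.tendsto {f : ℂ → ℂ} (hf : IsGerm f) : Tendsto f (𝓝 0) (𝓝 0) := by
  have := hf.1.continuousAt.tendsto
  rwa [hf.2.1] at this

lemma IsGerm.deriv_comp {f g : ℂ → ℂ} (hf : IsGerm f) (hg : IsGerm g) :
    deriv (f ∘ g) 0 = deriv f 0 * deriv g 0 := by
  have h1 : DifferentiableAt ℂ f (g 0) := by rw [hg.2.1]; exact hf.1.differentiableAt
  rw [_root_.deriv_comp 0 h1 hg.1.differentiableAt, hg.2.1]

lemma IsGerm.comp {f g : ℂ → ℂ} (hf : IsGerm f) (hg : IsGerm g) : IsGerm (f ∘ g) := by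
  refine ⟨?_, ?_, ?_⟩
  · refine AnalyticAt.comp ?_ hg.1
    rw [hg.2.1]; exact hf.1
  · show f (g 0) = 0
    rw [hg.2.1, hf.2.1]
  · rw [hf.deriv_comp hg]
    exact mul_ne_zero hf.2.2 hg.2.2

lemma isGerm_id : IsGerm id := ⟨analyticAt_id, rfl, by rw [deriv_id]; exact one_ne_zero⟩

lemma isGerm_cmp {l : List (ℂ → ℂ)} (hl : ∀ τ ∈ l, IsInvol τ) : IsGerm (cmp l) := by
  induction l with
  | nil => exact isGerm_id
  | cons τ l ih =>
    rw [cmp_cons]
    exact (hl τ (List.mem_cons_self)).1.comp (ih fun τ' h => hl τ' (List.mem_cons_of_mem _ h))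

lemma IsInvol.deriv_sq {τ : ℂ → ℂ} (h : IsInvol τ) : deriv τ 0 * deriv τ 0 = 1 := by
  rw [← h.1.deriv_comp h.1]
  have : τ ∘ τ =ᶠ[𝓝 0] id := h.2
  rw [this.deriv_eq, deriv_id]

lemma IsGerm.inj {f : ℂ → ℂ} (hf : IsGerm f) : ∃ U ∈ 𝓝 (0 : ℂ), Set.InjOn f U := by
  have h := hf.1.hasStrictDerivAt
  exact ⟨_, (h.hasStrictFDerivAt_equiv hf.2.2).toOpenPartialHomeomorph f |>.open_source.mem_nhds
    (h.hasStrictFDerivAt_equiv hf.2.2).mem_toOpenPartialHomeomorph_source,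
    ((h.hasStrictFDerivAt_equiv hf.2.2).toOpenPartialHomeomorph f).injOn⟩

lemma IsInvol.eq_id {τ : ℂ → ℂ} (h : IsInvol τ) (h1 : deriv τ 0 = 1) :
    ∀ᶠ z in 𝓝 (0 : ℂ), τ z = z := by
  have hg : IsGerm (fun z => (z + τ z) / 2) := by
    refine ⟨?_, ?_, ?_⟩
    · exact (analyticAt_id.add h.1.1).div_const
    · show (0 + τ 0) / 2 = 0
      rw [h.1.2.1]; simp
    · have : HasDerivAt (fun z => (z + τ z) / 2) ((1 + deriv τ 0) / 2) 0 :=
        ((hasDerivAt_id (0 : ℂ)).add h.1.1.differentiableAt.hasDerivAt).div_const 2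
      rw [this.deriv, h1]; norm_num
  obtain ⟨U, hU, hinj⟩ := hg.inj
  filter_upwards [hU, h.1.tendsto hU, h.2] with z hz1 hz2 hz3
  refine hinj hz2 hz1 ?_
  show (τ z + τ (τ z)) / 2 = (z + τ z) / 2
  rw [hz3, add_comm]

lemma IsInvol.TT {τ : ℂ → ℂ} (h : IsInvol τ) :
    ∃ s a, (s = 1 ∨ s = -1) ∧ TT s a (atInf τ) := by
  have h0 : (deriv τ 0 - 1) * (deriv τ 0 + 1) = 0 := by
    have := h.deriv_sq
    linear_combination this
  rcases mul_eq_zero.mp h0 with h1 | h1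
  · have h1' : deriv τ 0 = 1 := by linear_combination h1
    refine ⟨1, 0, Or.inl rfl, ?_⟩
    have h2 := (h.eq_id h1')
    have h3 := tendsto_inv₀_cobounded (α := ℂ) h2
    have h4 : ∀ᶠ w in cobounded ℂ, τ w⁻¹ = w⁻¹ := h3
    refine tendsto_const_nhds.congr' ?_
    filter_upwards [h4] with w hw
    rw [atInf, hw, inv_inv]; ring
  · have h1' : deriv τ 0 = -1 := by linear_combination h1
    refine ⟨-1, iteratedDeriv 2 τ 0 / 2 * (-1), Or.inr rfl, ?_⟩
    have hx := expand h.1 (s := -1) (a := iteratedDeriv 2 τ 0 / 2 * (-1)) (by rw [h1']; ring)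
      (by rw [h1']; ring)
    set a := iteratedDeriv 2 τ 0 / 2 * (-1)
    set B := -(-1 * (iteratedDeriv 3 τ 0 / 6) + a * (iteratedDeriv 2 τ 0 / 2)) / deriv τ 0
    set F := atInf τ with hF
    have hcob := cob_of (s := -1) (by norm_num) (lim_of hx)
    have hrat := ratio_of (lim_of hx)
    have hFF : ∀ᶠ w in cobounded ℂ, F (F w) = w := by
      have h3 := tendsto_inv₀_cobounded (α := ℂ) h.2
      filter_upwards [show ∀ᶠ w in cobounded ℂ, τ (τ w⁻¹) = w⁻¹ from h3] with w hw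
      rw [hF]
      simp only [atInf, inv_inv, hw]
    have e1 : Tendsto (fun w => F w * (w + F w - a)) (cobounded ℂ) (𝓝 B) := by
      refine (hx.comp hcob).congr' ?_
      filter_upwards [hFF] with w hw
      simp only [Function.comp, hw]
      ring
    have e2 : Tendsto (fun w => F w * (w + F w - a)) (cobounded ℂ) (𝓝 (-1 * B)) := by
      refine (hrat.mul hx).congr' ?_
      filter_upwards [DD_cobounded 0] with w hw
      have : w ≠ 0 := norm_pos_iff.mp hw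
      field_simp
      ring
    have e3 := tendsto_nhds_unique e1 e2
    have e4 : B = 0 := by linear_combination e3 / 2
    rw [e4] at hx
    exact hx

lemma atInf_comp (f g : ℂ → ℂ) : atInf (f ∘ g) = atInf f ∘ atInf g := by
  funext w
  simp only [atInf, Function.comp, inv_inv]

lemma atInf_id : atInf id = id := by
  funext w
  simp [atInf]

lemma cmp_TT {l : List (ℂ → ℂ)} (hl : ∀ τ ∈ l, IsInvol τ) :
    ∃ s a, (s = 1 ∨ s = -1) ∧ TT s a (atInf (cmp l)) := by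
  induction l with
  | nil =>
    refine ⟨1, 0, Or.inl rfl, ?_⟩
    rw [cmp_nil, atInf_id]
    refine tendsto_const_nhds.congr fun w => ?_
    simp
  | cons τ l ih =>
    obtain ⟨s, a, hs, h1⟩ := (hl τ (List.mem_cons_self)).TT
    obtain ⟨t, b, ht, h2⟩ := ih fun τ' h => hl τ' (List.mem_cons_of_mem _ h)
    rw [cmp_cons, atInf_comp]
    refine ⟨s * t, s * b + a, ?_, h1.comp h2 ?_⟩
    · rcases hs with rfl | rfl <;> rcases ht with rfl | rfl <;> simp
    · rcases ht with rfl | rfl <;> simp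

lemma IsGerm.ne_zero {f : ℂ → ℂ} (hf : IsGerm f) : ∀ᶠ z in 𝓝[≠] (0 : ℂ), f z ≠ 0 :=
  hf.1.differentiableAt.hasDerivAt.eventually_ne hf.2.2

lemma atInf_diff {f : ℂ → ℂ} (hf : IsGerm f) :
    ∀ᶠ w in cobounded ℂ, DifferentiableAt ℂ (atInf f) w := by
  have h1 := tendsto_inv₀_cobounded' (α := ℂ) hf.ne_zero
  have h2 := tendsto_inv₀_cobounded (α := ℂ) hf.1.eventually_analyticAt
  filter_upwards [show ∀ᶠ w in cobounded ℂ, f w⁻¹ ≠ 0 from h1,
    show ∀ᶠ w in cobounded ℂ, AnalyticAt ℂ f w⁻¹ from h2, DD_cobounded 0] with w hw1 hw2 hw3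
  have hw0 : w ≠ 0 := norm_pos_iff.mp hw3
  have d1 : DifferentiableAt ℂ (fun w : ℂ => w⁻¹) w := differentiableAt_inv hw0
  have d2 : DifferentiableAt ℂ (fun w : ℂ => f w⁻¹) w := hw2.differentiableAt.comp w d1
  exact d2.inv hw1

/-! The reduction at infinity -/

lemma invInf_tendsto {F : ℂ → ℂ} {l : List (ℂ → ℂ)} (hl : ∀ ι ∈ l, InvInf ι) (hF : F = cmp l) :
    Tendsto F (cobounded ℂ) (cobounded ℂ) := by
  subst hF
  induction l with
  | nil => exact tendsto_id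
  | cons τ l ih =>
    rw [cmp_cons]
    exact (hl τ (List.mem_cons_self)).2.1.comp (ih fun τ' h => hl τ' (List.mem_cons_of_mem _ h))

lemma tendsto_mul_cob {c : ℂ} (hc : c ≠ 0) :
    Tendsto (fun w => c * w) (cobounded ℂ) (cobounded ℂ) := by
  have h : Tendsto (fun w : ℂ => ‖c‖ * ‖w‖) (cobounded ℂ) atTop :=
    tendsto_norm_cobounded_atTop.const_mul_atTop (norm_pos_iff.mpr hc)
  rw [← tendsto_norm_atTop_iff_cobounded]
  refine h.congr fun w => ?_
  rw [norm_mul]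

lemma InvInf.conj {ι : ℂ → ℂ} (h : InvInf ι) {c : ℂ} (hc : c ≠ 0) :
    InvInf (fun w => c * ι (c⁻¹ * w)) := by
  have h1 := tendsto_mul_cob (inv_ne_zero hc)
  refine ⟨?_, ?_, ?_⟩
  · filter_upwards [h1 h.1] with w hw
    have hw' : DifferentiableAt ℂ ι (c⁻¹ * w) := hw
    have d1 : DifferentiableAt ℂ (fun w : ℂ => c⁻¹ * w) w := by fun_prop
    exact (hw'.comp w d1).const_mul c
  · exact (tendsto_mul_cob hc).comp (h.2.1.comp h1)
  · filter_upwards [h1 h.2.2] with w hw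
    have hw' : ι (ι (c⁻¹ * w)) = c⁻¹ * w := hw
    show c * ι (c⁻¹ * (c * ι (c⁻¹ * w))) = w
    rw [inv_mul_cancel_left₀ hc, hw', mul_inv_cancel_left₀ hc]

lemma cmp_conj {c : ℂ} (hc : c ≠ 0) (l : List (ℂ → ℂ)) (w : ℂ) :
    cmp (l.map fun ι w => c * ι (c⁻¹ * w)) w = c * cmp l (c⁻¹ * w) := by
  induction l with
  | nil =>
    show w = c * (c⁻¹ * w)
    rw [mul_inv_cancel_left₀ hc]
  | cons τ l ih =>
    rw [List.map_cons, cmp_cons, cmp_cons]
    simp only [Function.comp]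
    rw [ih, inv_mul_cancel_left₀ hc]

theorem red_inf {m : ℕ} {p : ℕ → ℂ} {χ : ℕ → ℂ → ℝ} {L : ℝ} (N : Net m p χ L) {G : ℂ → ℂ}
    (hd : ∀ᶠ w in cobounded ℂ, DifferentiableAt ℂ G w) (hG : TT 1 0 G) :
    ∃ l : List (ℂ → ℂ), l.length = 2 * m ∧ (∀ ι ∈ l, InvInf ι) ∧
      ∀ᶠ w in cobounded ℂ, cmp l w = G w := by
  have hG' : Tendsto (fun w => w * (G w - w)) (cobounded ℂ) (𝓝 0) := by
    refine Tendsto.congr (fun w => ?_) (show Tendsto _ _ _ from hG)
    ring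
  have hb : ∀ᶠ w in cobounded ℂ, ‖w * (G w - w)‖ ≤ 1 := by
    have := (tendsto_zero_iff_norm_tendsto_zero.mp hG').eventually
      (gt_mem_nhds (show (0 : ℝ) < 1 by norm_num))
    filter_upwards [this] with w hw using hw.le
  have hdb := hd.and hb
  rw [← comap_norm_atTop, eventually_comap, eventually_atTop] at hdb
  obtain ⟨T, hT⟩ := hdb
  have he := e0_pos (m := m) N.hL
  set c : ℝ := max 1 (max (2 * T) (2 / e0 m L)) with hcdef
  have hc1 : 1 ≤ c := le_max_left _ _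
  have hcT : 2 * T ≤ c := (le_max_left _ _).trans (le_max_right _ _)
  have hce : 2 / e0 m L ≤ c := (le_max_right _ _).trans (le_max_right _ _)
  have hc0 : 0 < c := by linarith
  have hcC : (c : ℂ) ≠ 0 := by exact_mod_cast hc0.ne'
  have hnc : ‖(c : ℂ)‖ = c := by rw [Complex.norm_real, Real.norm_of_nonneg hc0.le]
  have hbig : ∀ w ∈ DD (1 / 2), T ≤ ‖(c : ℂ) * w‖ := by
    intro w hw
    have hw' : 1 / 2 < ‖w‖ := hw
    rw [norm_mul, hnc]
    nlinarith
  obtain ⟨l, hl1, hl2, hl3⟩ := main_inf (f := fun w => (c : ℂ)⁻¹ * G (c * w)) N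
    (by
      intro w hw
      have h1 : DifferentiableAt ℂ G ((c : ℂ) * w) := (hT _ (hbig w hw) _ rfl).1
      have d1 : DifferentiableAt ℂ (fun w : ℂ => (c : ℂ) * w) w := by fun_prop
      exact ((h1.comp w d1).const_mul _).differentiableWithinAt)
    (by
      intro w hw
      have hw' : 1 / 2 < ‖w‖ := hw
      have h1 := (hT _ (hbig w hw) _ rfl).2
      rw [norm_mul, norm_mul, hnc] at h1
      have e : (c : ℂ)⁻¹ * G (c * w) - w = (c : ℂ)⁻¹ * (G (c * w) - c * w) := by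
        field_simp
      rw [e, norm_mul, norm_inv, hnc, inv_mul_le_iff₀ hc0]
      have h2 : 2 ≤ c * e0 m L := by
        rw [div_le_iff₀ he] at hce
        exact hce
      have h3 := norm_nonneg (G (c * w) - c * w)
      have h4 : 1 / 2 * ‖G (c * w) - c * w‖ ≤ 1 := by
        refine le_trans ?_ h1
        refine mul_le_mul_of_nonneg_right ?_ h3
        nlinarith
      linarith)
    (by
      have h1 := (hG'.comp (tendsto_mul_cob hcC)).const_mul ((c : ℂ)⁻¹ ^ 2)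
      rw [mul_zero] at h1
      refine h1.congr fun w => ?_
      simp only [Function.comp]
      field_simp)
  refine ⟨l.map fun ι w => (c : ℂ) * ι ((c : ℂ)⁻¹ * w), by rw [List.length_map, hl1], ?_, ?_⟩
  · intro ι hι
    rw [List.mem_map] at hι
    obtain ⟨ι', h1, rfl⟩ := hι
    exact (hl2 ι' h1).conj hcC
  · filter_upwards [tendsto_mul_cob (inv_ne_zero hcC) hl3] with w hw
    have hw' : cmp l ((c : ℂ)⁻¹ * w) = (c : ℂ)⁻¹ * G (c * ((c : ℂ)⁻¹ * w)) := hw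
    rw [cmp_conj hcC, hw', mul_inv_cancel_left₀ hcC, mul_inv_cancel_left₀ hcC]

lemma TT_refl (a : ℂ) : TT (-1) a (fun w => a - w) := by
  refine tendsto_const_nhds.congr fun w => ?_
  ring

theorem red_inf2 {m : ℕ} {p : ℕ → ℂ} {χ : ℕ → ℂ → ℝ} {L : ℝ} (N : Net m p χ L) {F : ℂ → ℂ}
    {s a : ℂ} (hs : s = 1 ∨ s = -1)
    (hd : ∀ᶠ w in cobounded ℂ, DifferentiableAt ℂ F w) (hF : TT s a F) :
    ∃ l : List (ℂ → ℂ), l.length = 2 * m + 2 ∧ (∀ ι ∈ l, InvInf ι) ∧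
      ∀ᶠ w in cobounded ℂ, cmp l w = F w := by
  have hidI : InvInf id := ⟨Filter.Eventually.of_forall fun w => differentiableAt_id,
    tendsto_id, Filter.Eventually.of_forall fun w => rfl⟩
  -- two involutions `i1, i2` with `F ∘ i2 ∘ i1` tangent to the identity
  obtain ⟨i1, i2, h1, h2, e1, e2, ht, hdi⟩ : ∃ i1 i2 : ℂ → ℂ, InvInf i1 ∧ InvInf i2 ∧
      (∀ w, i1 (i1 w) = w) ∧ (∀ w, i2 (i2 w) = w) ∧ TT 1 0 (F ∘ (i2 ∘ i1)) ∧
      ∀ w, DifferentiableAt ℂ (i2 ∘ i1) w := by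
    rcases hs with rfl | rfl
    · refine ⟨fun w => a - w, fun w => 0 - w, invInf_refl a, invInf_refl 0,
        fun w => by ring, fun w => by ring, ?_, fun w => by
          show DifferentiableAt ℂ (fun w => 0 - (a - w)) w
          fun_prop⟩
      have h3 := (TT_refl 0).comp (TT_refl a) (by norm_num)
      have h4 := hF.comp h3 (by norm_num)
      convert h4 using 1 <;> ring
    · refine ⟨fun w => a - w, id, invInf_refl a, hidI, fun w => by ring, fun w => rfl, ?_,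
        fun w => by
          show DifferentiableAt ℂ (fun w => a - w) w
          fun_prop⟩
      have h4 : TT (-1 * -1) (-1 * a + a) (F ∘ (id ∘ fun w => a - w)) :=
        hF.comp (TT_refl a) (by norm_num)
      convert h4 using 1 <;> ring
  have ht' : Tendsto (i2 ∘ i1) (cobounded ℂ) (cobounded ℂ) := h2.2.1.comp h1.2.1
  obtain ⟨l, hl1, hl2, hl3⟩ := red_inf N (G := F ∘ (i2 ∘ i1))
    (by
      filter_upwards [ht' hd] with w hw
      exact DifferentiableAt.comp w hw (hdi w)) ht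
  refine ⟨l ++ [i1, i2], by rw [List.length_append, hl1]; rfl, ?_, ?_⟩
  · intro ι hι
    rw [List.mem_append] at hι
    rcases hι with h | h
    · exact hl2 ι h
    · simp only [List.mem_cons, List.not_mem_nil, or_false] at h
      rcases h with rfl | rfl
      · exact h1
      · exact h2
  · have h3 : Tendsto (i1 ∘ i2) (cobounded ℂ) (cobounded ℂ) := h1.2.1.comp h2.2.1
    filter_upwards [h3 hl3] with w hw
    have hw' : cmp l (i1 (i2 w)) = F (i2 (i1 (i1 (i2 w)))) := hw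
    rw [cmp_append]
    show cmp l (i1 (i2 w)) = F w
    rw [hw', e1, e2]

/-! Back to zero -/

lemma atZero_tendsto {F : ℂ → ℂ} (hF : Tendsto F (cobounded ℂ) (cobounded ℂ)) :
    Tendsto (fun z => (F z⁻¹)⁻¹) (𝓝[≠] 0) (𝓝[≠] 0) :=
  tendsto_inv₀_cobounded'.comp (hF.comp tendsto_inv₀_nhdsNE_zero)

lemma atZero_of_ne {F : ℂ → ℂ} {z : ℂ} (hz : z ≠ 0) : atZero F z = (F z⁻¹)⁻¹ := if_neg hz

lemma atZero_zero (F : ℂ → ℂ) : atZero F 0 = 0 := if_pos rfl

lemma InvInf.isInvol {ι : ℂ → ℂ} (h : InvInf ι) : IsInvol (atZero ι) := by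
  obtain ⟨hd, hc, hi⟩ := h
  have hne : ∀ᶠ z : ℂ in 𝓝[≠] 0, z ≠ 0 := eventually_mem_nhdsWithin
  have ht := atZero_tendsto hc
  have hu : ∀ᶠ z in 𝓝[≠] (0 : ℂ), ι z⁻¹ ≠ 0 := by
    filter_upwards [ht hne] with z hz h0
    apply hz
    show (ι z⁻¹)⁻¹ = 0
    rw [h0, inv_zero]
  have han : AnalyticAt ℂ (atZero ι) 0 := by
    refine Complex.analyticAt_of_differentiable_on_punctured_nhds_of_continuousAt ?_ ?_
    · filter_upwards [hne, hu, tendsto_inv₀_nhdsNE_zero (α := ℂ) hd] with z hz1 hz2 hz3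
      have hz3' : DifferentiableAt ℂ ι z⁻¹ := hz3
      have d1 : DifferentiableAt ℂ (fun z : ℂ => z⁻¹) z := differentiableAt_inv hz1
      have d2 : DifferentiableAt ℂ (fun z : ℂ => (ι z⁻¹)⁻¹) z := (hz3'.comp z d1).inv hz2
      refine d2.congr_of_eventuallyEq ?_
      filter_upwards [isOpen_ne.mem_nhds hz1] with y hy
      exact atZero_of_ne hy
    · rw [continuousAt_iff_punctured_nhds, atZero_zero]
      refine (ht.mono_right nhdsWithin_le_nhds).congr' ?_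
      filter_upwards [hne] with z hz
      exact (atZero_of_ne hz).symm
  have hii : ∀ᶠ z in 𝓝 (0 : ℂ), atZero ι (atZero ι z) = z := by
    have h1 : ∀ᶠ z in 𝓝[≠] (0 : ℂ), atZero ι (atZero ι z) = z := by
      filter_upwards [hne, hu, tendsto_inv₀_nhdsNE_zero (α := ℂ) hi] with z hz1 hz2 hz3
      have hz3' : ι (ι z⁻¹) = z⁻¹ := hz3
      rw [atZero_of_ne hz1, atZero_of_ne (inv_ne_zero hz2), inv_inv, hz3', inv_inv]
    rw [← nhdsNE_sup_pure, eventually_sup]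
    refine ⟨h1, ?_⟩
    show atZero ι (atZero ι 0) = 0
    rw [atZero_zero, atZero_zero]
  refine ⟨⟨han, atZero_zero ι, ?_⟩, hii⟩
  intro h0
  have h1 : DifferentiableAt ℂ (atZero ι) (atZero ι 0) := by
    rw [atZero_zero]; exact han.differentiableAt
  have h2 := _root_.deriv_comp 0 h1 han.differentiableAt
  rw [h0, mul_zero] at h2
  have h3 : atZero ι ∘ atZero ι =ᶠ[𝓝 0] id := hii
  rw [h3.deriv_eq, deriv_id] at h2
  exact one_ne_zero h2

lemma cmp_atZero {l : List (ℂ → ℂ)} (hl : ∀ ι ∈ l, InvInf ι) :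
    ∀ᶠ z in 𝓝 (0 : ℂ), cmp (l.map atZero) z = atZero (cmp l) z := by
  induction l with
  | nil =>
    refine Filter.Eventually.of_forall fun z => ?_
    show z = atZero id z
    by_cases hz : z = 0
    · rw [hz, atZero_zero]
    · rw [atZero_of_ne hz, id, inv_inv]
  | cons τ l ih =>
    have hl' : ∀ ι ∈ l, InvInf ι := fun τ' h => hl τ' (List.mem_cons_of_mem _ h)
    have ht := atZero_tendsto (invInf_tendsto hl' rfl)
    have hne : ∀ᶠ z : ℂ in 𝓝[≠] 0, z ≠ 0 := eventually_mem_nhdsWithin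
    have hu : ∀ᶠ z in 𝓝 (0 : ℂ), z ≠ 0 → (cmp l z⁻¹)⁻¹ ≠ 0 := by
      have := ht hne
      exact eventually_nhdsWithin_iff.mp this
    filter_upwards [ih hl', hu] with z hz hz2
    rw [List.map_cons, cmp_cons, cmp_cons]
    simp only [Function.comp]
    rw [hz]
    by_cases h0 : z = 0
    · rw [h0, atZero_zero, atZero_zero, atZero_zero]
    · rw [atZero_of_ne h0, atZero_of_ne h0, atZero_of_ne (hz2 h0), inv_inv]
      rfl

lemma atZero_atInf {f : ℂ → ℂ} (hf : f 0 = 0) : atZero (atInf f) = f := by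
  funext z
  by_cases hz : z = 0
  · rw [hz, atZero_zero, hf]
  · rw [atZero_of_ne hz, atInf, inv_inv, inv_inv]

/-- the key statement: a germ whose transfer to infinity is `± w + a + o(1 / w)` is a product of
`2 m + 2` involutions -/
theorem key {m : ℕ} {p : ℕ → ℂ} {χ : ℕ → ℂ → ℝ} {L : ℝ} (N : Net m p χ L) {f : ℂ → ℂ}
    (hf : IsGerm f) {s a : ℂ} (hs : s = 1 ∨ s = -1) (hF : TT s a (atInf f)) :
    ∃ l : List (ℂ → ℂ), l.length = 2 * m + 2 ∧ (∀ τ ∈ l, IsInvol τ) ∧ f =ᶠ[𝓝 0] cmp l := by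
  obtain ⟨l, hl1, hl2, hl3⟩ := red_inf2 N hs (atInf_diff hf) hF
  refine ⟨l.map atZero, by rw [List.length_map, hl1], ?_, ?_⟩
  · intro τ hτ
    rw [List.mem_map] at hτ
    obtain ⟨ι, h1, rfl⟩ := hτ
    exact (hl2 ι h1).isInvol
  · have h1 := cmp_atZero hl2
    have h2 : ∀ᶠ z in 𝓝[≠] (0 : ℂ), cmp l z⁻¹ = atInf f z⁻¹ :=
      tendsto_inv₀_nhdsNE_zero (α := ℂ) hl3
    have h3 : ∀ᶠ z in 𝓝 (0 : ℂ), z ≠ 0 → cmp l z⁻¹ = atInf f z⁻¹ :=
      eventually_nhdsWithin_iff.mp h2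
    filter_upwards [h1, h3] with z hz1 hz3
    rw [hz1]
    by_cases hz : z = 0
    · rw [hz, atZero_zero, hf.2.1]
    · rw [atZero_of_ne hz, hz3 hz, atInf, inv_inv, inv_inv]

/-! The sets `I ^ n` and `I ^ ∞` -/

lemma IsGerm.congr {f g : ℂ → ℂ} (hg : IsGerm g) (h : f =ᶠ[𝓝 0] g) : IsGerm f :=
  ⟨hg.1.congr h.symm, h.eq_of_nhds.trans hg.2.1, by rw [h.deriv_eq]; exact hg.2.2⟩

lemma isInvol_id : IsInvol id := ⟨isGerm_id, Filter.Eventually.of_forall fun _ => rfl⟩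

lemma TT_congr {s a : ℂ} {F G : ℂ → ℂ} (h : TT s a F) (e : ∀ᶠ w in cobounded ℂ, F w = G w) :
    TT s a G := by
  refine Tendsto.congr' ?_ (show Tendsto _ _ _ from h)
  filter_upwards [e] with w hw
  rw [hw]

lemma IPow_mono_one {n : ℕ} {f : ℂ → ℂ} (h : f ∈ IPow n) : f ∈ IPow (n + 1) := by
  obtain ⟨l, h1, h2, h3⟩ := h
  refine ⟨id :: l, by rw [List.length_cons, h1], ?_, ?_⟩
  · intro τ hτ
    simp only [List.mem_cons] at hτ
    rcases hτ with rfl | h
    · exact isInvol_id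
    · exact h2 τ h
  · exact h3

lemma IPow_mono {n k : ℕ} (hnk : n ≤ k) {f : ℂ → ℂ} (h : f ∈ IPow n) : f ∈ IPow k := by
  induction hnk with
  | refl => exact h
  | step _ ih => exact IPow_mono_one ih

/-- the germs whose multiplier is `1` or `-1` and whose Taylor coefficients satisfy
`a₁ a₃ = a₂ ^ 2` -/
def Good (f : ℂ → ℂ) : Prop := IsGerm f ∧ (deriv f 0 = 1 ∨ deriv f 0 = -1) ∧
  deriv f 0 * (iteratedDeriv 3 f 0 / 6) = (iteratedDeriv 2 f 0 / 2) ^ 2

theorem good_of_mem {k : ℕ} {f : ℂ → ℂ} (hf : f ∈ IPow k) : Good f := by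
  obtain ⟨l, -, h2, h3⟩ := hf
  have hg : IsGerm f := (isGerm_cmp h2).congr h3
  obtain ⟨s, a, hs, hT⟩ := cmp_TT h2
  have hT' : TT s a (atInf f) := by
    refine TT_congr hT ?_
    filter_upwards [tendsto_inv₀_cobounded (α := ℂ) h3] with w hw
    have hw' : f w⁻¹ = cmp l w⁻¹ := hw
    rw [atInf, atInf, hw']
  obtain ⟨e1, e2⟩ := (TT_iff hg (s := s)).mp ⟨a, hT'⟩
  refine ⟨hg, ?_, e2⟩
  rcases hs with rfl | rfl
  · left; linear_combination e1
  · right; linear_combination -e1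

theorem mem_of_good : ∃ m : ℕ, ∀ f : ℂ → ℂ, Good f → f ∈ IPow (2 * m + 2) := by
  obtain ⟨m, p, χ, L, hL, hp, h0, hsum, hs, hLip⟩ := exists_net
  have N : Net m p χ L := ⟨hL, hp, h0, hsum, hs, hLip⟩
  refine ⟨m, fun f hf => ?_⟩
  obtain ⟨hf, h1, h2⟩ := hf
  have hsq : deriv f 0 * deriv f 0 = 1 := by rcases h1 with h1 | h1 <;> rw [h1] <;> ring
  obtain ⟨a, ha⟩ := (TT_iff hf (s := deriv f 0)).mpr ⟨hsq, h2⟩
  exact key N hf h1 ha

end Pool.Agent.Helper861.Inv
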