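import Mathlib
import Pool.Agent.Helper861.Gammoid3

set_option autoImplicit false

namespace Pool.Agent.Helper861.RootFree

open Finset Pool.Agent.Helper861.Gammoid

/-- rank function axioms. -/
structure RankFn {ι : Type*} [DecidableEq ι] (r : Finset ι → ℕ) : Prop where
  mono : ∀ S T, S ⊆ T → r S ≤ r T
  unit : ∀ e S, r (insert e S) ≤ r S + 1
  loc : ∀ e S T, S ⊆ T → r (insert e S) = r S → r (insert e T) = r T

/-- value at `l` of the characteristic polynomial of the restriction to `X` of the contraction by `Y`. -/
noncomputable def cp {ι : Type*} [DecidableEq ι] (r : Finset ι → ℕ) (l : ℝ) (X Y : Finset ι) : ℝ :=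
  ∑ Z ∈ X.powerset, (-1 : ℝ) ^ Z.card * l ^ (r (X ∪ Y) - r (Z ∪ Y))

/-- deletion-contraction. -/
theorem cp_del {ι : Type*} [DecidableEq ι] {r : Finset ι → ℕ} (l : ℝ) (e : ι)
    (X Y : Finset ι) (he : e ∉ X) (h : r (insert e (X ∪ Y)) = r (X ∪ Y)) :
    cp r l (insert e X) Y = cp r l X Y - cp r l X (insert e Y) := by
  unfold cp
  rw [Finset.sum_powerset_insert he, sub_eq_add_neg, ← Finset.sum_neg_distrib]
  congr 1
  · refine Finset.sum_congr rfl fun Z hZ => ?_
    rw [Finset.insert_union, h]
  · refine Finset.sum_congr rfl fun Z hZ => ?_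
    have heZ : e ∉ Z := fun h' => he (Finset.mem_powerset.1 hZ h')
    rw [Finset.card_insert_of_notMem heZ, Finset.insert_union, Finset.insert_union,
      Finset.union_insert, Finset.union_insert, pow_succ]
    ring

/-- coloops. -/
theorem cp_coloop {ι : Type*} [DecidableEq ι] {r : Finset ι → ℕ} (hr : RankFn r) (l : ℝ) (e : ι)
    (X Y : Finset ι) (he : e ∉ X) (h : r (insert e (X ∪ Y)) = r (X ∪ Y) + 1) :
    cp r l (insert e X) Y = (l - 1) * cp r l X Y := by
  have hZ : ∀ Z ∈ X.powerset, r (Z ∪ Y) ≤ r (X ∪ Y) ∧
      r (insert e (Z ∪ Y)) = r (Z ∪ Y) + 1 := by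
    intro Z hZ
    have hZX : Z ⊆ X := Finset.mem_powerset.mp hZ
    have hsub : Z ∪ Y ⊆ X ∪ Y := Finset.union_subset_union hZX (Finset.Subset.refl Y)
    refine ⟨hr.mono _ _ hsub, ?_⟩
    have h1 := hr.unit e (Z ∪ Y)
    have h2 := hr.mono (Z ∪ Y) (insert e (Z ∪ Y)) (Finset.subset_insert _ _)
    by_contra hcon
    have h3 : r (insert e (Z ∪ Y)) = r (Z ∪ Y) := by omega
    have h4 := hr.loc e _ _ hsub h3
    omega
  unfold cp
  rw [Finset.sum_powerset_insert he, Finset.insert_union, h, sub_mul, one_mul, Finset.mul_sum,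
    sub_eq_add_neg, ← Finset.sum_neg_distrib]
  congr 1
  · refine Finset.sum_congr rfl fun Z hZm => ?_
    have h1 := (hZ Z hZm).1
    rw [show r (X ∪ Y) + 1 - r (Z ∪ Y) = (r (X ∪ Y) - r (Z ∪ Y)) + 1 by omega, pow_succ]
    ring
  · refine Finset.sum_congr rfl fun Z hZm => ?_
    have h2 := (hZ Z hZm).2
    have heZ : e ∉ Z := fun h' => he (Finset.mem_powerset.mp hZm h')
    rw [Finset.insert_union, h2, Finset.card_insert_of_notMem heZ, pow_succ,
      show r (X ∪ Y) + 1 - (r (Z ∪ Y) + 1) = r (X ∪ Y) - r (Z ∪ Y) by omega]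
    ring

/-- contracting an element outside the closure. -/
theorem cp_contract {ι : Type*} [DecidableEq ι] {r : Finset ι → ℕ} (hr : RankFn r) (l : ℝ) (e : ι)
    (X Y : Finset ι) (h : r (insert e (X ∪ Y)) = r (X ∪ Y) + 1) :
    cp r l X (insert e Y) = cp r l X Y := by
  unfold cp
  refine Finset.sum_congr rfl (fun Z hZ => ?_)
  rw [Finset.mem_powerset] at hZ
  have h1 : r (insert e (Z ∪ Y)) ≤ r (Z ∪ Y) + 1 := hr.unit e (Z ∪ Y)
  have h2 : r (Z ∪ Y) ≤ r (insert e (Z ∪ Y)) := hr.mono _ _ (Finset.subset_insert _ _)
  have h3 : r (insert e (Z ∪ Y)) ≠ r (Z ∪ Y) := by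
    intro h4
    have h5 := hr.loc e (Z ∪ Y) (X ∪ Y) (Finset.union_subset_union_left hZ) h4
    omega
  have h6 : r (insert e (Z ∪ Y)) = r (Z ∪ Y) + 1 := by omega
  rw [Finset.union_insert, Finset.union_insert, h6, h, Nat.add_sub_add_right]

/-- loops. -/
theorem cp_loop {ι : Type*} [DecidableEq ι] {r : Finset ι → ℕ} (hr : RankFn r) (l : ℝ) (e : ι)
    (X Y : Finset ι) (he : e ∈ X) (h : r (insert e Y) = r Y) : cp r l X Y = 0 := by
  unfold cp
  generalize r (X ∪ Y) = R
  obtain ⟨X', hX', rfl⟩ : ∃ X', e ∉ X' ∧ X = insert e X' :=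
    ⟨X.erase e, Finset.notMem_erase e X, (Finset.insert_erase he).symm⟩
  rw [Finset.sum_powerset_insert hX', ← Finset.sum_add_distrib]
  refine Finset.sum_eq_zero fun Z hZ => ?_
  have heZ : e ∉ Z := fun h' => hX' (Finset.mem_powerset.1 hZ h')
  have h1 : r (insert e Z ∪ Y) = r (Z ∪ Y) := by
    rw [Finset.insert_union]
    exact hr.loc e Y (Z ∪ Y) Finset.subset_union_right h
  rw [h1, Finset.card_insert_of_notMem heZ, pow_succ]
  ring

/-- adding elements without raising the rank lowers the value. -/
theorem cp_ext {ι : Type*} [DecidableEq ι] {r : Finset ι → ℕ} (hr : RankFn r) (l : ℝ) (n : ℕ)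
    (hnn : ∀ X Y : Finset ι, X.card < n → Disjoint X Y → r Y = Y.card → 0 ≤ cp r l X Y)
    (H Y : Finset ι) (hY : r Y = Y.card) (D : Finset ι) (hDH : Disjoint D H) (hDY : Disjoint D Y)
    (hHY : Disjoint H Y) (hc : (D ∪ H).card ≤ n) (hrk : r (D ∪ H ∪ Y) = r (H ∪ Y))
    (hl : ∀ f ∈ D, r (insert f Y) = r Y + 1) :
    cp r l (D ∪ H) Y ≤ cp r l H Y := by
  induction D using Finset.induction_on with
  | empty => rw [empty_union]
  | insert f D' hf ih =>
    rw [disjoint_insert_left] at hDH hDY
    have hfX : f ∉ D' ∪ H := by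
      rw [mem_union, not_or]; exact ⟨hf, hDH.1⟩
    have e1 : insert f D' ∪ H = insert f (D' ∪ H) := insert_union _ _ _
    have e2 : insert f D' ∪ H ∪ Y = insert f (D' ∪ H ∪ Y) := by
      rw [insert_union, insert_union]
    rw [e2] at hrk
    rw [e1] at hc ⊢
    rw [card_insert_of_notMem hfX] at hc
    have hle1 : r (H ∪ Y) ≤ r (D' ∪ H ∪ Y) :=
      hr.mono _ _ (union_subset_union_left subset_union_right)
    have hle2 : r (D' ∪ H ∪ Y) ≤ r (insert f (D' ∪ H ∪ Y)) :=
      hr.mono _ _ (subset_insert _ _)
    have hflat : r (insert f (D' ∪ H ∪ Y)) = r (D' ∪ H ∪ Y) := by omega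
    rw [cp_del l f (D' ∪ H) Y hfX hflat]
    have hnn' : 0 ≤ cp r l (D' ∪ H) (insert f Y) := by
      refine hnn _ _ (by omega) ?_ ?_
      · rw [disjoint_insert_right]
        exact ⟨hfX, disjoint_union_left.mpr ⟨hDY.2, hHY⟩⟩
      · rw [hl f (mem_insert_self _ _), card_insert_of_notMem hDY.1, hY]
    have ih' := ih hDH.2 hDY.2 (by omega) (by omega)
      (fun g hg => hl g (mem_insert_of_mem hg))
    linarith

/-- the main step. -/
theorem cp_step {ι : Type*} [DecidableEq ι] {r : Finset ι → ℕ} (hr : RankFn r) (l : ℝ) (n : ℕ)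
    (hnn : ∀ X Y : Finset ι, X.card < n → Disjoint X Y → r Y = Y.card → 0 ≤ cp r l X Y)
    (H Y : Finset ι) (hY : r Y = Y.card) (hHY : Disjoint H Y) (D : Finset ι) (hne : D.Nonempty)
    (hDH : Disjoint D H) (hDY : Disjoint D Y) (hc : (D ∪ H).card ≤ n)
    (hrk : r (D ∪ H ∪ Y) = r (H ∪ Y) + 1) (hD : ∀ e ∈ D, r (insert e (H ∪ Y)) = r (H ∪ Y) + 1)
    (hl : ∀ e ∈ D, r (insert e Y) = r Y + 1)
    (hp : ∀ e ∈ D, ∀ f ∈ D, e ≠ f → r (insert f (insert e Y)) = r Y + 2) :
    (l - D.card) * cp r l H Y ≤ cp r l (D ∪ H) Y := by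
  classical
  induction hne using Finset.Nonempty.cons_induction with
  | singleton e =>
    have heH : e ∉ H := by
      have := hDH
      rw [Finset.disjoint_singleton_left] at this
      exact this
    have h1 := cp_coloop hr l e H Y heH (hD e (Finset.mem_singleton_self e))
    have h2 : ({e} : Finset ι) ∪ H = insert e H := by
      ext x; simp
    rw [h2, h1]
    simp
  | cons e D' he hne' ih =>
    have hsub : D' ⊆ Finset.cons e D' he := Finset.subset_cons he
    have heD : e ∈ Finset.cons e D' he := Finset.mem_cons_self e D'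
    have hD'H : Disjoint D' H := Finset.disjoint_of_subset_left hsub hDH
    have hD'Y : Disjoint D' Y := Finset.disjoint_of_subset_left hsub hDY
    have heH : e ∉ H := fun h => (Finset.disjoint_left.mp hDH heD) h
    have heY : e ∉ Y := fun h => (Finset.disjoint_left.mp hDY heD) h
    have hun : Finset.cons e D' he ∪ H = insert e (D' ∪ H) := by
      rw [Finset.cons_eq_insert, Finset.insert_union]
    have hcard : (D' ∪ H).card ≤ n :=
      le_trans (Finset.card_le_card (Finset.union_subset_union hsub (Finset.Subset.refl H))) hc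
    obtain ⟨e', he'⟩ := hne'
    have hle1 : r (H ∪ Y) + 1 ≤ r (D' ∪ H ∪ Y) := by
      rw [← hD e' (hsub he')]
      apply hr.mono
      intro x hx
      simp only [Finset.mem_insert, Finset.mem_union] at hx ⊢
      rcases hx with rfl | hx | hx
      · exact Or.inl (Or.inl he')
      · exact Or.inl (Or.inr hx)
      · exact Or.inr hx
    have hle2 : r (D' ∪ H ∪ Y) ≤ r (H ∪ Y) + 1 := by
      rw [← hrk]
      apply hr.mono
      exact Finset.union_subset_union (Finset.union_subset_union hsub (Finset.Subset.refl H))
        (Finset.Subset.refl Y)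
    have hrk' : r (D' ∪ H ∪ Y) = r (H ∪ Y) + 1 := le_antisymm hle2 hle1
    have hIH := ih hD'H hD'Y hcard hrk' (fun f hf => hD f (hsub hf)) (fun f hf => hl f (hsub hf))
      (fun f hf g hg hfg => hp f (hsub hf) g (hsub hg) hfg)
    have hdel : cp r l (insert e (D' ∪ H)) Y = cp r l (D' ∪ H) Y - cp r l (D' ∪ H) (insert e Y) := by
      apply cp_del l e (D' ∪ H) Y
      · simp only [Finset.mem_union, not_or]
        exact ⟨he, heH⟩
      · rw [hrk', ← hrk, hun, Finset.insert_union]
    have hext : cp r l (D' ∪ H) (insert e Y) ≤ cp r l H (insert e Y) := by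
      apply cp_ext hr l n hnn H (insert e Y)
      · rw [hl e heD, hY, Finset.card_insert_of_notMem heY]
      · exact hD'H
      · rw [Finset.disjoint_insert_right]
        exact ⟨he, hD'Y⟩
      · rw [Finset.disjoint_insert_right]
        exact ⟨heH, hHY⟩
      · exact hcard
      · have h3 : H ∪ insert e Y = insert e (H ∪ Y) := by rw [Finset.union_insert]
        rw [h3, hD e heD]
        apply le_antisymm
        · rw [← hrk, hun]
          apply hr.mono
          intro x hx
          simp only [Finset.mem_insert, Finset.mem_union] at hx ⊢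
          tauto
        · rw [← hD e heD]
          apply hr.mono
          intro x hx
          simp only [Finset.mem_insert, Finset.mem_union] at hx ⊢
          tauto
      · intro f hf
        have hfe : e ≠ f := by rintro rfl; exact he hf
        rw [hp e heD f (hsub hf) hfe, hl e heD]
    have hcon : cp r l H (insert e Y) = cp r l H Y := cp_contract hr l e H Y (hD e heD)
    rw [hun, hdel]
    have hcc : ((Finset.cons e D' he).card : ℝ) = (D'.card : ℝ) + 1 := by
      rw [Finset.card_cons]; push_cast; ring
    rw [hcc]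
    have h5 : (l - ((D'.card : ℝ) + 1)) * cp r l H Y = (l - D'.card) * cp r l H Y - cp r l H Y := by ring
    rw [h5]
    linarith

/-- positivity of the characteristic polynomial from small cocircuits. -/
theorem cp_pos {ι : Type*} [DecidableEq ι] {r : Finset ι → ℕ} (hr : RankFn r) (l : ℝ) (d : ℕ)
    (hd : (d : ℝ) < l)
    (hcut : ∀ X Y : Finset ι, Disjoint X Y → r Y = Y.card → X.Nonempty →
      (∀ a ∈ X, r (insert a Y) = r Y + 1) →
      (∀ a ∈ X, ∀ b ∈ X, a ≠ b → r (insert b (insert a Y)) = r Y + 2) →
      ∃ S ⊆ X, S.card ≤ d ∧ r ((X \ S) ∪ Y) < r (X ∪ Y)) :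
    ∀ X Y : Finset ι, Disjoint X Y → r Y = Y.card → (∀ a ∈ X, r (insert a Y) = r Y + 1) →
      0 < cp r l X Y := by
  have hl0 : (0:ℝ) < l := lt_of_le_of_lt (Nat.cast_nonneg d) hd
  have main : ∀ n : ℕ, ∀ X Y : Finset ι, X.card = n → Disjoint X Y → r Y = Y.card →
      (∀ a ∈ X, r (insert a Y) = r Y + 1) → 0 < cp r l X Y := by
    intro n
    induction n using Nat.strong_induction_on with
    | _ n ih =>
      intro X Y hXn hXY hY hloop
      have hnn : ∀ X' Y' : Finset ι, X'.card < X.card → Disjoint X' Y' → r Y' = Y'.card →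
          0 ≤ cp r l X' Y' := by
        intro X' Y' hc hd' hY'
        by_cases hall : ∀ a ∈ X', r (insert a Y') = r Y' + 1
        · exact (ih X'.card (by omega) X' Y' rfl hd' hY' hall).le
        · push Not at hall
          obtain ⟨a, ha, hne⟩ := hall
          have h1 := hr.mono Y' (insert a Y') (Finset.subset_insert _ _)
          have h2 := hr.unit a Y'
          rw [cp_loop hr l a X' Y' ha (by omega)]
      rcases Finset.eq_empty_or_nonempty X with hX | hX
      · subst hX
        simp [cp]
      · by_cases hpair : ∀ a ∈ X, ∀ b ∈ X, a ≠ b → r (insert b (insert a Y)) = r Y + 2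
        · obtain ⟨S0, hS0X, hS0d, hS0r⟩ := hcut X Y hXY hY hX hloop hpair
          obtain ⟨S, hSF, hmin⟩ := (X.powerset.filter
            (fun S => S.card ≤ d ∧ r ((X \ S) ∪ Y) < r (X ∪ Y))).exists_min_image Finset.card
            ⟨S0, by simp only [Finset.mem_filter, Finset.mem_powerset]; exact ⟨hS0X, hS0d, hS0r⟩⟩
          simp only [Finset.mem_filter, Finset.mem_powerset] at hSF
          obtain ⟨hSX, hSd, hSr⟩ := hSF
          have hSne : S.Nonempty := by
            rw [Finset.nonempty_iff_ne_empty]
            rintro rfl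
            simp at hSr
          have hins : ∀ e ∈ S, r (insert e ((X \ S) ∪ Y)) = r (X ∪ Y) := by
            intro e he
            have heq : insert e ((X \ S) ∪ Y) = (X \ (S.erase e)) ∪ Y := by
              ext x
              simp only [Finset.mem_insert, Finset.mem_union, Finset.mem_sdiff, Finset.mem_erase]
              constructor
              · rintro (rfl | ⟨h1, h2⟩ | h1)
                · exact Or.inl ⟨hSX he, fun h => h.1 rfl⟩
                · exact Or.inl ⟨h1, fun h => h2 h.2⟩
                · exact Or.inr h1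
              · rintro (⟨h1, h2⟩ | h1)
                · by_cases hx : x = e
                  · exact Or.inl hx
                  · exact Or.inr (Or.inl ⟨h1, fun h => h2 ⟨hx, h⟩⟩)
                · exact Or.inr (Or.inr h1)
            rw [heq]
            apply le_antisymm
            · apply hr.mono
              exact Finset.union_subset_union_left Finset.sdiff_subset
            · by_contra hcon
              push Not at hcon
              have hmem : S.erase e ∈ X.powerset.filter
                  (fun S => S.card ≤ d ∧ r ((X \ S) ∪ Y) < r (X ∪ Y)) := by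
                simp only [Finset.mem_filter, Finset.mem_powerset]
                refine ⟨(Finset.erase_subset _ _).trans hSX, ?_, hcon⟩
                have := Finset.card_erase_le (s := S) (a := e)
                omega
              have h1 := hmin _ hmem
              have h2 := Finset.card_erase_lt_of_mem he
              omega
          obtain ⟨e0, he0⟩ := hSne
          have hDr : ∀ e ∈ S, r (insert e ((X \ S) ∪ Y)) = r ((X \ S) ∪ Y) + 1 := by
            intro e he
            have h1 := hins e he
            have h2 := hr.unit e ((X \ S) ∪ Y)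
            omega
          have hunion : S ∪ (X \ S) = X := Finset.union_sdiff_of_subset hSX
          have hHlt : (X \ S).card < X.card := by
            apply Finset.card_lt_card
            refine ⟨Finset.sdiff_subset, fun h => ?_⟩
            have := h (hSX he0)
            rw [Finset.mem_sdiff] at this
            exact this.2 he0
          have hHY : Disjoint (X \ S) Y := hXY.mono_left Finset.sdiff_subset
          have hstep := cp_step hr l X.card hnn (X \ S) Y hY hHY S ⟨e0, he0⟩
            Finset.disjoint_sdiff (hXY.mono_left hSX) (by rw [hunion])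
            (by
              rw [hunion]
              have h1 := hins e0 he0
              have h2 := hDr e0 he0
              omega) hDr
            (fun e he => hloop e (hSX he))
            (fun e he f hf hef => hpair e (hSX he) f (hSX hf) hef)
          rw [hunion] at hstep
          have hH := ih (X \ S).card (by omega) (X \ S) Y rfl hHY hY
            (fun a ha => hloop a (Finset.sdiff_subset ha))
          have hpos : 0 < l - (S.card : ℝ) := by
            have : (S.card : ℝ) ≤ d := by exact_mod_cast hSd
            linarith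
          exact lt_of_lt_of_le (mul_pos hpos hH) hstep
        · push Not at hpair
          obtain ⟨a, ha, b, hb, hab, hne⟩ := hpair
          have h1 := hr.unit b (insert a Y)
          have h2 := hr.mono (insert a Y) (insert b (insert a Y)) (Finset.subset_insert _ _)
          have h3 := hloop a ha
          have h4 := hloop b hb
          have h5 : r (insert b (insert a Y)) = r (insert a Y) := by omega
          have haX : a ∈ X.erase b := Finset.mem_erase.2 ⟨hab, ha⟩
          have hsub : insert a Y ⊆ X.erase b ∪ Y := by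
            apply Finset.insert_subset
            · exact Finset.mem_union_left _ haX
            · exact Finset.subset_union_right
          have h6 := hr.loc b _ _ hsub h5
          have h7 := cp_del (r := r) l b (X.erase b) Y (Finset.notMem_erase b X) h6
          rw [Finset.insert_erase hb] at h7
          have h8 : cp r l (X.erase b) (insert b Y) = 0 := by
            apply cp_loop hr l a _ _ haX
            rw [Finset.insert_comm a b Y, h5, h3, h4]
          rw [h7, h8, sub_zero]
          exact ih (X.erase b).card (by rw [← hXn]; exact Finset.card_erase_lt_of_mem hb)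
            (X.erase b) Y rfl (hXY.mono_left (Finset.erase_subset _ _)) hY
            (fun c hc => hloop c (Finset.mem_of_mem_erase hc))
  intro X Y hXY hY hloop
  exact main X.card X Y rfl hXY hY hloop

lemma rank_fn_img {V ι : Type*} [DecidableEq ι] (v : ι → V) (e : ι) (S : Finset ι) :
    v '' ((insert e S : Finset ι) : Set ι) = insert (v e) (v '' (S : Set ι)) := by
  rw [Finset.coe_insert, Set.image_insert_eq]

/-- the rank function of a family of vectors. -/
theorem rank_fn {F V ι : Type*} [Field F] [AddCommGroup V] [Module F V] [FiniteDimensional F V]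
    [DecidableEq ι] (v : ι → V) :
    RankFn (fun S : Finset ι => Module.finrank F (Submodule.span F (v '' (S : Set ι)))) where
  mono := by
    intro S T h
    exact Submodule.finrank_mono (Submodule.span_mono (Set.image_mono (Finset.coe_subset.2 h)))
  unit := by
    intro e S
    show Module.finrank F (Submodule.span F (v '' ((insert e S : Finset ι) : Set ι))) ≤
      Module.finrank F (Submodule.span F (v '' (S : Set ι))) + 1
    rw [rank_fn_img, Submodule.span_insert]
    have h1 := Submodule.finrank_add_le_finrank_add_finrank (Submodule.span F {v e})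
      (Submodule.span F (v '' (S : Set ι)))
    have h2 : Module.finrank F (Submodule.span F ({v e} : Set V)) ≤ 1 := by
      have := finrank_span_le_card (R := F) ({v e} : Set V)
      simpa using this
    linarith
  loc := by
    intro e S T hST h
    have h' : Module.finrank F (Submodule.span F (v '' ((insert e S : Finset ι) : Set ι))) =
      Module.finrank F (Submodule.span F (v '' (S : Set ι))) := h
    show Module.finrank F (Submodule.span F (v '' ((insert e T : Finset ι) : Set ι))) =
      Module.finrank F (Submodule.span F (v '' (T : Set ι)))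
    rw [rank_fn_img] at h' ⊢
    have hle : Submodule.span F (v '' (S : Set ι)) ≤
        Submodule.span F (insert (v e) (v '' (S : Set ι))) :=
      Submodule.span_mono (Set.subset_insert _ _)
    have heq := Submodule.eq_of_le_of_finrank_eq hle h'.symm
    have hmem : v e ∈ Submodule.span F (v '' (S : Set ι)) := by
      rw [heq]
      exact Submodule.subset_span (Set.mem_insert _ _)
    have hmemT : v e ∈ Submodule.span F (v '' (T : Set ι)) :=
      Submodule.span_mono (Set.image_mono (Finset.coe_subset.2 hST)) hmem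
    rw [Submodule.span_insert_eq_span hmemT]

/-- independence and rank. -/
theorem indep_iff_rank {F V ι : Type*} [Field F] [AddCommGroup V] [Module F V] [FiniteDimensional F V]
    [DecidableEq ι] (v : ι → V) (S : Finset ι) :
    LinearIndepOn F v (S : Set ι) ↔ Module.finrank F (Submodule.span F (v '' (S : Set ι))) = S.card := by
  have hset : v '' (S : Set ι) = Set.range (fun x : (S : Set ι) => v x) := by
    ext y; simp
  rw [hset]
  show LinearIndependent F (fun x : (S : Set ι) => v x) ↔ _
  rw [linearIndependent_iff_card_eq_finrank_span]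
  have hc : Fintype.card (S : Set ι) = S.card := by simp
  rw [Set.finrank]
  constructor
  · intro h; rw [← h]; simp
  · intro h; rw [h]; simp

/-- independence in a quotient. -/
theorem indep_quot {F V ι : Type*} [Field F] [AddCommGroup V] [Module F V] [DecidableEq ι] (v : ι → V)
    (Y : Finset ι) (hY : LinearIndepOn F v (Y : Set ι)) (S : Finset ι) (hS : Disjoint S Y) :
    LinearIndepOn F (fun i => (Submodule.span F (v '' (Y : Set ι))).mkQ (v i)) (S : Set ι) ↔
      LinearIndepOn F v ((S ∪ Y : Finset ι) : Set ι) := by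
  have hd : Disjoint (Y : Set ι) (S : Set ι) := by
    rw [Finset.disjoint_coe]
    exact hS.symm
  have h := LinearIndepOn.quotient_iff_union (R := F) hY hd
  rw [Finset.coe_union, Set.union_comm]
  exact h

/-- spans in a quotient. -/
theorem span_quot {F V ι : Type*} [Field F] [AddCommGroup V] [Module F V] [DecidableEq ι] (v : ι → V)
    (Y : Finset ι) (A B : Finset ι) (hAB : A ⊆ B)
    (h : Submodule.span F ((fun i => (Submodule.span F (v '' (Y : Set ι))).mkQ (v i)) '' (A : Set ι)) ≠
      Submodule.span F ((fun i => (Submodule.span F (v '' (Y : Set ι))).mkQ (v i)) '' (B : Set ι))) :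
    Submodule.span F (v '' ((A ∪ Y : Finset ι) : Set ι)) < Submodule.span F (v '' ((B ∪ Y : Finset ι) : Set ι)) := by
  have key : ∀ A : Finset ι, Submodule.map (Submodule.span F (v '' (Y : Set ι))).mkQ
      (Submodule.span F (v '' ((A ∪ Y : Finset ι) : Set ι)))
      = Submodule.span F ((fun i => (Submodule.span F (v '' (Y : Set ι))).mkQ (v i)) '' (A : Set ι)) := by
    intro A
    rw [Finset.coe_union, Set.image_union, Submodule.span_union, Submodule.map_sup,
      Submodule.mkQ_map_self, sup_bot_eq, Submodule.map_span, Set.image_image]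
  refine lt_of_le_of_ne ?_ ?_
  · apply Submodule.span_mono
    apply Set.image_mono
    exact_mod_cast Finset.union_subset_union_left hAB
  · intro heq
    apply h
    rw [← key A, ← key B, heq]

theorem mt_move_image {α β C : Type*} [DecidableEq α] [DecidableEq β] [DecidableEq C]
    (N : β → Finset C) (g : α → β) (hg : Function.Injective g) (T : Finset α) :
    Mt N (T.image g) ↔ Mt (fun u => N (g u)) T := by
  constructor
  · intro h Z hZ
    have h1 := h (Z.image g) (Finset.image_subset_image hZ)
    rw [Finset.card_image_of_injective _ hg, Finset.image_biUnion] at h1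
    exact h1
  · intro h W hW
    obtain ⟨Z, hZ, rfl⟩ := Finset.subset_image_iff.1 hW
    rw [Finset.card_image_of_injective _ hg, Finset.image_biUnion]
    exact h Z (by exact_mod_cast hZ)
/-- the map -/
def mtMoveMap {ι κ : Type*} (X Y : Finset ι) :
    {x // x ∈ X} ⊕ ({y // y ∈ Y} ⊕ κ) → ι ⊕ κ := fun u =>
  match u with
  | Sum.inl x => Sum.inl x.1
  | Sum.inr (Sum.inl y) => Sum.inl y.1
  | Sum.inr (Sum.inr k) => Sum.inr k



/-- moving the contracted set into the extra elements. -/
theorem mt_move {ι κ C : Type*} [Fintype κ] [DecidableEq ι] [DecidableEq κ] [DecidableEq C]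
    (N : ι ⊕ κ → Finset C) (X Y : Finset ι) (hXY : Disjoint X Y) (S : Finset {x // x ∈ X}) :
    Mt N ((S.map (Function.Embedding.subtype _) ∪ Y).image Sum.inl ∪ (univ : Finset κ).image Sum.inr) ↔
      Mt (fun u : {x // x ∈ X} ⊕ ({y // y ∈ Y} ⊕ κ) =>
        match u with
        | Sum.inl x => N (Sum.inl x.1)
        | Sum.inr (Sum.inl y) => N (Sum.inl y.1)
        | Sum.inr (Sum.inr k) => N (Sum.inr k))
        (S.image Sum.inl ∪ (univ : Finset ({y // y ∈ Y} ⊕ κ)).image Sum.inr) := by
  have hg : Function.Injective (mtMoveMap (κ := κ) X Y) := by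
    have hd := Finset.disjoint_left.1 hXY
    rintro (⟨x, hx⟩ | ⟨y, hy⟩ | k) (⟨x', hx'⟩ | ⟨y', hy'⟩ | k') h
    · simp only [mtMoveMap, Sum.inl.injEq] at h
      subst h
      rfl
    · simp only [mtMoveMap, Sum.inl.injEq] at h
      subst h
      exact absurd hy' (hd hx)
    · simp [mtMoveMap] at h
    · simp only [mtMoveMap, Sum.inl.injEq] at h
      subst h
      exact absurd hy (hd hx')
    · simp only [mtMoveMap, Sum.inl.injEq] at h
      subst h
      rfl
    · simp [mtMoveMap] at h
    · simp [mtMoveMap] at h
    · simp [mtMoveMap] at h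
    · simp only [mtMoveMap, Sum.inr.injEq] at h
      subst h
      rfl
  have hset : ((S.map (Function.Embedding.subtype _) ∪ Y).image Sum.inl ∪
      (univ : Finset κ).image Sum.inr : Finset (ι ⊕ κ)) =
      (S.image Sum.inl ∪ (univ : Finset ({y // y ∈ Y} ⊕ κ)).image Sum.inr).image
        (mtMoveMap (κ := κ) X Y) := by
    ext u
    simp only [Finset.mem_union, Finset.mem_image, Finset.mem_map, Finset.mem_univ, true_and,
      Function.Embedding.subtype_apply]
    constructor
    · rintro (⟨i, (⟨x, hx, rfl⟩ | hy), rfl⟩ | ⟨k, rfl⟩)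
      · exact ⟨Sum.inl x, Or.inl ⟨x, hx, rfl⟩, rfl⟩
      · exact ⟨Sum.inr (Sum.inl ⟨i, hy⟩), Or.inr ⟨_, rfl⟩, rfl⟩
      · exact ⟨Sum.inr (Sum.inr k), Or.inr ⟨_, rfl⟩, rfl⟩
    · rintro ⟨v, (⟨x, hx, rfl⟩ | ⟨(⟨y, hy⟩ | k), rfl⟩), rfl⟩
      · exact Or.inl ⟨x.1, Or.inl ⟨x, hx, rfl⟩, rfl⟩
      · exact Or.inl ⟨y, Or.inr hy, rfl⟩
      · exact Or.inr ⟨k, rfl⟩
  rw [hset, mt_move_image N _ hg]
  have hN : (fun u => N (mtMoveMap (κ := κ) X Y u)) =
      (fun u : {x // x ∈ X} ⊕ ({y // y ∈ Y} ⊕ κ) =>
        match u with
        | Sum.inl x => N (Sum.inl x.1)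
        | Sum.inr (Sum.inl y) => N (Sum.inl y.1)
        | Sum.inr (Sum.inr k) => N (Sum.inr k)) := by
    funext u
    rcases u with x | y | k <;> rfl
  rw [hN]

/-- small cocircuits in contractions. -/
theorem small_cut {F V ι κ C : Type} [Field F] [Fintype F] [AddCommGroup V] [Module F V]
    [FiniteDimensional F V] [Fintype ι] [Fintype κ] [Fintype C] [DecidableEq ι] [DecidableEq κ]
    [DecidableEq C] (v : ι → V) (N : ι ⊕ κ → Finset C)
    (hkey : ∀ S : Finset ι, LinearIndepOn F v (S : Set ι) ↔
      Mt N (S.image Sum.inl ∪ (univ : Finset κ).image Sum.inr)) (X Y : Finset ι) (hXY : Disjoint X Y)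
    (hY : LinearIndepOn F v (Y : Set ι)) (hne : X.Nonempty)
    (hp : ∀ a ∈ X, ∀ b ∈ X, LinearIndepOn F v ((({a, b} : Finset ι) ∪ Y : Finset ι) : Set ι)) :
    ∃ S ⊆ X, S.card < Fintype.card F ^ 3 ∧
      Module.finrank F (Submodule.span F (v '' (((X \ S) ∪ Y : Finset ι) : Set ι))) <
        Module.finrank F (Submodule.span F (v '' ((X ∪ Y : Finset ι) : Set ι))) := by
  classical
  set Q := Submodule.span F (v '' (Y : Set ι)) with hQ
  set u : ι → V ⧸ Q := fun i => Q.mkQ (v i) with hu
  have hmap : ∀ S : Finset {x // x ∈ X}, LinearIndepOn F (fun x : {x // x ∈ X} => u x) (S : Set {x // x ∈ X}) ↔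
      LinearIndepOn F u ((S.map (Function.Embedding.subtype _) : Finset ι) : Set ι) := by
    intro S
    rw [Finset.coe_map]
    exact ⟨fun h => LinearIndepOn.image_of_comp (Subtype.val : {x // x ∈ X} → ι) u h,
      fun h => LinearIndepOn.comp_of_image (v := u) (f := (Subtype.val : {x // x ∈ X} → ι)) h
        (Subtype.val_injective.injOn)⟩
  have hdis : ∀ S : Finset {x // x ∈ X}, Disjoint (S.map (Function.Embedding.subtype _)) Y := by
    intro S
    rw [Finset.disjoint_left]
    intro x hx hxY
    obtain ⟨y, _, rfl⟩ := Finset.mem_map.1 hx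
    exact (Finset.disjoint_left.1 hXY) y.2 hxY
  have hind : ∀ S : Finset {x // x ∈ X}, LinearIndepOn F (fun x : {x // x ∈ X} => u x) (S : Set {x // x ∈ X}) ↔
      LinearIndepOn F v ((S.map (Function.Embedding.subtype _) ∪ Y : Finset ι) : Set ι) := by
    intro S
    rw [hmap, hu, indep_quot v Y hY _ (hdis S)]
  have : Nonempty {x // x ∈ X} := ⟨⟨hne.choose, hne.choose_spec⟩⟩
  obtain ⟨S, hS1, hS2⟩ := small_cocircuit (F := F) (fun x : {x // x ∈ X} => u x)
    (by
      intro a b
      have h1 := (hind {a, b}).2 (by
        have h2 : (({a, b} : Finset {x // x ∈ X}).map (Function.Embedding.subtype _)) ∪ Y =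
            ({a.1, b.1} : Finset ι) ∪ Y := by
          congr 1
          ext z
          simp only [Finset.mem_map, Finset.mem_insert, Finset.mem_singleton, Function.Embedding.coe_subtype]
          constructor
          · rintro ⟨y, rfl | rfl, rfl⟩
            · exact Or.inl rfl
            · exact Or.inr rfl
          · rintro (rfl | rfl)
            · exact ⟨a, Or.inl rfl, rfl⟩
            · exact ⟨b, Or.inr rfl, rfl⟩
        rw [h2]
        exact hp _ a.2 _ b.2)
      rw [Finset.coe_pair] at h1
      exact h1)
    (fun u : {x // x ∈ X} ⊕ ({y // y ∈ Y} ⊕ κ) =>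
        match u with
        | Sum.inl x => N (Sum.inl x.1)
        | Sum.inr (Sum.inl y) => N (Sum.inl y.1)
        | Sum.inr (Sum.inr k) => N (Sum.inr k))
    (by
      intro S
      rw [hind, hkey]
      exact mt_move N X Y hXY S)
  refine ⟨S.map (Function.Embedding.subtype _), ?_, ?_, ?_⟩
  · intro x hx
    obtain ⟨y, _, rfl⟩ := Finset.mem_map.1 hx
    exact y.2
  · rw [Finset.card_map]; exact hS1
  · apply Submodule.finrank_lt_finrank_of_lt
    apply span_quot v Y (X \ S.map (Function.Embedding.subtype _)) X Finset.sdiff_subset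
    intro heq
    apply hS2
    have e1 : (fun x : {x // x ∈ X} => u x) '' ((Sᶜ : Finset {x // x ∈ X}) : Set {x // x ∈ X}) =
        u '' ((X \ S.map (Function.Embedding.subtype _) : Finset ι) : Set ι) := by
      ext z
      simp only [Set.mem_image, Finset.mem_coe, Finset.mem_compl, Finset.mem_sdiff, Finset.mem_map,
        Function.Embedding.coe_subtype]
      constructor
      · rintro ⟨x, hx, rfl⟩
        refine ⟨x, ⟨x.2, ?_⟩, rfl⟩
        rintro ⟨y, hy, hyx⟩
        exact hx (Subtype.ext hyx ▸ hy)
      · rintro ⟨x, ⟨hx1, hx2⟩, rfl⟩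
        exact ⟨⟨x, hx1⟩, fun hxS => hx2 ⟨⟨x, hx1⟩, hxS, rfl⟩, rfl⟩
    have e2 : Set.range (fun x : {x // x ∈ X} => u x) = u '' (X : Set ι) := by
      ext z
      simp only [Set.mem_range, Set.mem_image, Finset.mem_coe]
      constructor
      · rintro ⟨x, rfl⟩; exact ⟨x, x.2, rfl⟩
      · rintro ⟨x, hx, rfl⟩; exact ⟨⟨x, hx⟩, rfl⟩
    rw [e1, e2]
    exact heq

/-- the characteristic polynomial of a loopless `GF(q)`-gammoid is positive beyond `q ^ 3 - 1`. -/
theorem main_pos (F : Type) [Field F] [Fintype F] (n r : ℕ) (v : Fin n → (Fin r → F))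
    (hv : ∀ i, v i ≠ 0)
    (h : ∃ (K m : ℕ) (R : Fin n ⊕ Fin K → Fin m → Prop),
        ∀ S : Finset (Fin n),
          LinearIndependent F (fun i : S => v i.1) ↔
            ∃ f : Fin n ⊕ Fin K → Fin m,
              Set.InjOn f ((Sum.inl '' (S : Set (Fin n))) ∪ Set.range Sum.inr) ∧
              ∀ x ∈ ((Sum.inl '' (S : Set (Fin n))) ∪ Set.range Sum.inr), R x (f x))
    (l : ℝ) (hl : (Fintype.card F : ℝ) ^ 3 - 1 < l) :
    0 < ∑ Z : Finset (Fin n), (-1 : ℝ) ^ Z.card *
      l ^ (Module.finrank F (Submodule.span F (Set.range v)) -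
        Module.finrank F (Submodule.span F (v '' (Z : Set (Fin n))))) := by
  classical
  rcases Nat.eq_zero_or_pos n with hn | hn
  · subst hn
    have h0 : ∀ Z : Finset (Fin 0), Z = ∅ := fun Z => Finset.eq_empty_of_isEmpty Z
    have h1 : (univ : Finset (Finset (Fin 0))) = {∅} :=
      Finset.eq_singleton_iff_unique_mem.2 ⟨Finset.mem_univ _, fun Z _ => h0 Z⟩
    rw [h1, Finset.sum_singleton]
    have h2 : Set.range v = v '' ((∅ : Finset (Fin 0)) : Set (Fin 0)) := by
      ext x
      constructor
      · rintro ⟨i, _⟩; exact i.elim0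
      · rintro ⟨i, _⟩; exact i.elim0
    rw [h2, Nat.sub_self]
    simp
  obtain ⟨K, m, N, hkey⟩ := key_of_frozen F n r hn v h
  set rk : Finset (Fin n) → ℕ :=
    fun S : Finset (Fin n) => Module.finrank F (Submodule.span F (v '' (S : Set (Fin n)))) with hrk
  have hr : RankFn rk := rank_fn v
  have hq : 1 ≤ Fintype.card F ^ 3 := Nat.one_le_pow _ _ Fintype.card_pos
  have hind : ∀ S : Finset (Fin n), LinearIndepOn F v (S : Set (Fin n)) ↔ rk S = S.card :=
    fun S => indep_iff_rank v S
  have hpos := cp_pos hr l (Fintype.card F ^ 3 - 1) (by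
      rw [Nat.cast_sub hq, Nat.cast_pow, Nat.cast_one]
      exact hl)
    (by
      intro X Y hXY hY hne h1 h2
      obtain ⟨S, hS1, hS2, hS3⟩ := small_cut v N hkey X Y hXY ((hind Y).2 hY) hne (by
        intro a ha b hb
        rw [hind]
        have haY : a ∉ Y := (Finset.disjoint_left.1 hXY) ha
        have hbY : b ∉ Y := (Finset.disjoint_left.1 hXY) hb
        by_cases hab : a = b
        · subst hab
          have e : (({a, a} : Finset (Fin n)) ∪ Y) = insert a Y := by
            ext z; simp
          rw [e, h1 a ha, hY, Finset.card_insert_of_notMem haY]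
        · have e : (({a, b} : Finset (Fin n)) ∪ Y) = insert b (insert a Y) := by
            ext z
            simp only [Finset.mem_union, Finset.mem_insert, Finset.mem_singleton]
            tauto
          have hb' : b ∉ insert a Y := by
            rw [Finset.mem_insert, not_or]
            exact ⟨Ne.symm hab, hbY⟩
          rw [e, h2 a ha b hb hab, hY, Finset.card_insert_of_notMem hb', Finset.card_insert_of_notMem haY])
      exact ⟨S, hS1, by omega, hS3⟩)
    univ ∅ (Finset.disjoint_empty_right _) (by
      rw [← hind]; simp) (by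
      intro a _
      have h1 : rk {a} = 1 := by
        have := (hind {a}).1 (by rw [Finset.coe_singleton]; exact LinearIndepOn.singleton (hv a))
        rwa [Finset.card_singleton] at this
      have h2 : rk ∅ = 0 := by
        have := (hind ∅).1 (by simp)
        rwa [Finset.card_empty] at this
      have e : insert a (∅ : Finset (Fin n)) = {a} := rfl
      rw [e, h1, h2])
  unfold cp at hpos
  rw [Finset.powerset_univ] at hpos
  refine lt_of_lt_of_eq hpos ?_
  apply Finset.sum_congr rfl
  intro Z _
  rw [Finset.union_empty, Finset.union_empty]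
  have e : rk univ = Module.finrank F (Submodule.span F (Set.range v)) := by
    have e0 : v '' ((univ : Finset (Fin n)) : Set (Fin n)) = Set.range v := by
      rw [Finset.coe_univ, Set.image_univ]
    show Module.finrank F (Submodule.span F (v '' ((univ : Finset (Fin n)) : Set (Fin n)))) = _
    rw [e0]
  rw [e]

end Pool.Agent.Helper861.RootFree
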