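import Mathlib
import Pool.Agent.Helper861.Gammoid4

set_option autoImplicit false

namespace Pool.Agent.Helper861.TwoFields

open Finset Pool.Agent.Helper861.Gammoid

/-- a maximal independent subset spans. -/
theorem span_of_max {F V ι : Type*} [Field F] [AddCommGroup V] [Module F V] [DecidableEq ι] (v : ι → V)
    (T B : Finset ι) (hT : LinearIndepOn F v (T : Set ι))
    (hmax : ∀ b ∈ B, b ∉ T → ¬ LinearIndepOn F v ((insert b T : Finset ι) : Set ι)) :
    Submodule.span F (v '' (B : Set ι)) ≤ Submodule.span F (v '' (T : Set ι)) := by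
  rw [Submodule.span_le]
  rintro x ⟨b, hb, rfl⟩
  by_cases hbT : b ∈ T
  · exact Submodule.subset_span ⟨b, hbT, rfl⟩
  · by_contra hn
    apply hmax b hb hbT
    rw [Finset.coe_insert, linearIndepOn_insert (by exact_mod_cast hbT)]
    exact ⟨hT, hn⟩

/-- the rank drop does not depend on the representation. -/
theorem span_transfer {F K V W ι : Type*} [Field F] [Field K] [AddCommGroup V] [Module F V]
    [AddCommGroup W] [Module K W] [DecidableEq ι] (v : ι → V) (w : ι → W)
    (hm : ∀ S : Finset ι, LinearIndepOn F v (S : Set ι) ↔ LinearIndepOn K w (S : Set ι))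
    (A B : Finset ι) (hAB : A ⊆ B)
    (h : Submodule.span F (v '' (A : Set ι)) ≠ Submodule.span F (v '' (B : Set ι))) :
    Submodule.span K (w '' (A : Set ι)) ≠ Submodule.span K (w '' (B : Set ι)) := by
  classical
  intro heq
  apply h
  refine le_antisymm (Submodule.span_mono (Set.image_mono (Finset.coe_subset.2 hAB))) ?_
  obtain ⟨T, hT, hTmax⟩ := Finset.exists_max_image
    (A.powerset.filter (fun T : Finset ι => LinearIndepOn F v (T : Set ι))) Finset.card ⟨∅, by simp⟩
  rw [Finset.mem_filter, Finset.mem_powerset] at hT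
  have hmaxA : ∀ b ∈ A, b ∉ T → ¬ LinearIndepOn F v ((insert b T : Finset ι) : Set ι) := by
    intro b hb hbT hind
    have h1 := hTmax (insert b T) (by
      rw [Finset.mem_filter, Finset.mem_powerset]
      exact ⟨Finset.insert_subset hb hT.1, hind⟩)
    rw [Finset.card_insert_of_notMem hbT] at h1
    omega
  have hspK : Submodule.span K (w '' (A : Set ι)) ≤ Submodule.span K (w '' (T : Set ι)) :=
    span_of_max w T A ((hm T).1 hT.2) (fun b hb hbT hind => hmaxA b hb hbT ((hm _).2 hind))
  have hmaxB : ∀ b ∈ B, b ∉ T → ¬ LinearIndepOn F v ((insert b T : Finset ι) : Set ι) := by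
    intro b hb hbT hind
    have h1 := (hm _).1 hind
    rw [Finset.coe_insert, linearIndepOn_insert (by exact_mod_cast hbT)] at h1
    apply h1.2
    apply hspK
    rw [heq]
    exact Submodule.subset_span ⟨b, hb, rfl⟩
  exact (span_of_max v T B hT.2 hmaxB).trans
    (Submodule.span_mono (Set.image_mono (Finset.coe_subset.2 hT.1)))

/-- gammoids representable over two fields. -/
theorem main4 (F : Type) [Field F] [Fintype F] (n r : ℕ) (v : Fin n → (Fin r → F))
    (hv : ∀ i, v i ≠ 0)
    (h : ∃ (K m : ℕ) (R : Fin n ⊕ Fin K → Fin m → Prop),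
        ∀ S : Finset (Fin n),
          LinearIndependent F (fun i : S => v i.1) ↔
            ∃ f : Fin n ⊕ Fin K → Fin m,
              Set.InjOn f ((Sum.inl '' (S : Set (Fin n))) ∪ Set.range Sum.inr) ∧
              ∀ x ∈ ((Sum.inl '' (S : Set (Fin n))) ∪ Set.range Sum.inr), R x (f x))
    (F' : Type) [Field F'] [Fintype F'] (r' k : ℕ) (w : Fin n → (Fin r' → F'))
    (hw : ∀ S : Finset (Fin n), LinearIndependent F' (fun i : S => w i.1) ↔
      LinearIndependent F (fun i : S => v i.1))
    (hk : 6 * (Fintype.card F' - 1) ^ 2 < Fintype.card F ^ k) :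
    ∃ L : (Fin r → F) →ₗ[F] (Fin k → F), ∀ i, L (v i) ≠ 0 := by
  classical
  rcases Nat.eq_zero_or_pos n with hn | hn
  · subst hn
    exact ⟨0, fun i => i.elim0⟩
  obtain ⟨K, m, N, hkey⟩ := key_of_frozen F n r hn v h
  have hm : ∀ S : Finset (Fin n), LinearIndepOn F' w (S : Set (Fin n)) ↔
      LinearIndepOn F v (S : Set (Fin n)) := fun S => hw S
  have hkey' : ∀ S : Finset (Fin n), LinearIndepOn F' w (S : Set (Fin n)) ↔
      Mt N (S.image Sum.inl ∪ (Finset.univ : Finset (Fin K)).image Sum.inr) :=
    fun S => (hm S).trans (hkey S)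
  obtain ⟨X0, hP, hrep⟩ := reps (F := F) v hv
  obtain ⟨L, hL⟩ := greedy (F := F) v X0 k (by
    intro Y hY hne
    have : Nonempty {x // x ∈ Y} := ⟨⟨hne.choose, hne.choose_spec⟩⟩
    obtain ⟨S, hS1, hS2⟩ := small_cocircuit4 (F := F') (fun i : {x // x ∈ Y} => w i)
      (by
        intro a b
        have h0 := hP a (hY a.2) b (hY b.2)
        have h1 : LinearIndepOn F' w ({a.1, b.1} : Set (Fin n)) := by
          have := (hm {a.1, b.1}).2 (by rw [Finset.coe_pair]; exact h0)
          rwa [Finset.coe_pair] at this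
        have h2 : LinearIndependent F' (fun x : (({a.1, b.1} : Set (Fin n)) : Set (Fin n)) => w x) := h1
        have h3 : Function.Injective (fun x : (({a, b} : Set {x // x ∈ Y}) : Set {x // x ∈ Y}) =>
            (⟨x.1.1, by
              rcases x.2 with h | h
              · left; rw [h]
              · right; rw [Set.mem_singleton_iff] at h; rw [h]; rfl⟩ : (({a.1, b.1} : Set (Fin n)) : Set (Fin n)))) := by
          intro x y hxy
          have := congrArg Subtype.val hxy
          exact Subtype.ext (Subtype.ext this)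
        exact h2.comp _ h3)
      (fun u : {x // x ∈ Y} ⊕ Fin K => N (Sum.map Subtype.val id u))
      (restrict_key w N hkey' Y)
    refine ⟨S.map (Function.Embedding.subtype _), ?_, ?_, ?_⟩
    · intro x hx
      obtain ⟨y, _, rfl⟩ := Finset.mem_map.1 hx
      exact y.2
    · rw [Finset.card_map]; omega
    · apply span_transfer w v hm _ _ Finset.sdiff_subset
      intro heq
      apply hS2
      have e1 : (fun i : {x // x ∈ Y} => w i) '' ((Sᶜ : Finset {x // x ∈ Y}) : Set {x // x ∈ Y}) =
          w '' ((Y \ S.map (Function.Embedding.subtype _) : Finset (Fin n)) : Set (Fin n)) := by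
        ext z
        simp only [Set.mem_image, Finset.mem_coe, Finset.mem_compl, Finset.mem_sdiff, Finset.mem_map,
          Function.Embedding.coe_subtype]
        constructor
        · rintro ⟨x, hx, rfl⟩
          refine ⟨x, ⟨x.2, ?_⟩, rfl⟩
          rintro ⟨y, hy, hyx⟩
          exact hx (Subtype.ext hyx ▸ hy)
        · rintro ⟨x, ⟨hx1, hx2⟩, rfl⟩
          exact ⟨⟨x, hx1⟩, fun hxS => hx2 ⟨⟨x, hx1⟩, hxS, rfl⟩, rfl⟩
      have e2 : Set.range (fun i : {x // x ∈ Y} => w i) = w '' (Y : Set (Fin n)) := by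
        ext z
        simp only [Set.mem_range, Set.mem_image, Finset.mem_coe]
        constructor
        · rintro ⟨x, rfl⟩; exact ⟨x, x.2, rfl⟩
        · rintro ⟨x, hx, rfl⟩; exact ⟨⟨x, hx⟩, rfl⟩
      rw [e1, e2]
      exact heq)
  exact ⟨L, hrep _ L hL⟩

end Pool.Agent.Helper861.TwoFields
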